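import Mathlib
import Pool.Agent.Lib.MP_04add8_pr.One.Defs
import Pool.Agent.Lib.MP_04add8_pr.Drift

open MeasureTheory ProbabilityTheory Filter Topology
open scoped ENNReal

set_option linter.unusedSectionVars false

namespace Pool.Agent.Lib.MP_04add8_pr.Gen

/-- `h` is a concave hazard function with `C¹` derivative `h'`, regularly varying of index
`a - 1`, with `x h'(x) → ∞` and with `x ^ C h'(x)` nondecreasing for some `C`. It is extended by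
its value at `0` to the negative numbers. -/
structure Haz (h h' : ℝ → ℝ) (a : ℝ) : Prop where
  a0 : 0 ≤ a
  a1 : a < 1
  cont : Continuous h
  neg : ∀ x, x ≤ 0 → h x = h 0
  zero : 0 ≤ h 0
  measd : Measurable h'
  deriv : ∀ x, 0 < x → HasDerivAt h (h' x) x
  pos : ∀ x, 0 < x → 0 < h' x
  anti : ∀ x y, 0 < x → x ≤ y → h' y ≤ h' x
  curv : ∃ C : ℝ, 0 ≤ C ∧ ∀ x y : ℝ, 0 < x → x ≤ y → x ^ C * h' x ≤ y ^ C * h' y
  rv : ∀ l : ℝ, 0 < l → Tendsto (fun x => h' (l * x) / h' x) atTop (𝓝 (l ^ (a - 1)))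
  big : Tendsto (fun x : ℝ => x * h' x) atTop atTop

/-- the tail of `μ` is asymptotic to `exp (-h)` -/
structure Law (μ : Measure ℝ) (h : ℝ → ℝ) : Prop where
  nn : ∀ᵐ s ∂μ, 0 ≤ s
  up : ∃ C : ℝ, 0 ≤ C ∧ ∀ x : ℝ, μ (Set.Ioi x) ≤ ENNReal.ofReal (C * Real.exp (-(h x)))
  asy : ∀ ω : ℝ, 0 < ω → ∀ᶠ x : ℝ in atTop,
    ENNReal.ofReal ((1 - ω) * Real.exp (-(h x))) ≤ μ (Set.Ioi x) ∧
      μ (Set.Ioi x) ≤ ENNReal.ofReal ((1 + ω) * Real.exp (-(h x)))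

/-- the standing hypotheses -/
structure Std (μ ν : Measure ℝ) (h h' : ℝ → ℝ) (a : ℝ) : Prop where
  haz : Haz h h' a
  law : Law μ h
  hν : ν (Set.Iio 0) = 0
  hνi : Integrable (fun t : ℝ => t) ν
  hm : 0 < ∫ t, t ∂ν
  hgt : (∫ t, t ∂ν) < ∫ s, s ∂μ
  hlt : (∫ s, s ∂μ) < 2 * ∫ t, t ∂ν

/-- the constant `ρ / (ρ - 1)` -/
noncomputable def eta (μ ν : Measure ℝ) : ℝ := (∫ s, s ∂μ) / ((∫ s, s ∂μ) - ∫ t, t ∂ν)

/-- the constant of the two-big-jobs term -/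
noncomputable def K2 (μ ν : Measure ℝ) : ℝ :=
  2 * (∫ t, t ∂ν) / (2 * (∫ t, t ∂ν) - ∫ s, s ∂μ) ^ 3

/-- cost function: minimum of the one-big-job cost and the two-big-jobs cost -/
noncomputable def gcost (h : ℝ → ℝ) (b R : ℝ) (w : ℝ × ℝ) : ℝ :=
  min (h (bigA b R w)) (h w.1 + h w.2 + 1)

/-- contribution of one big job followed by `n` small ones, from the state `w` -/
noncomputable def mainH (μ ν : Measure ℝ) [IsProbabilityMeasure μ] [IsProbabilityMeasure ν]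
    (h : ℝ → ℝ) (x B : ℝ) (n : ℕ) (w : ℝ × ℝ) : ℝ≥0∞ :=
  ∫⁻ z, (allLe B n).indicator (fun z => if x < reflW w.2 z n then
    ENNReal.ofReal (Real.exp (-(h (2 * x + sumA z n - w.1 - reflW w.2 z n)))) else 0) z
    ∂(noise μ ν)

/-- the conjugate `sup_{y ≥ 0} (h y - θ y)` -/
noncomputable def hG (h : ℝ → ℝ) (θ : ℝ) : ℝ := sSup ((fun y : ℝ => h y - θ * y) '' Set.Ici 0)

/-- the rate function with Cramer correction -/
noncomputable def hRate (h : ℝ → ℝ) (β : ℝ → ℝ) (x : ℝ) : ℝ :=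
  sInf ((fun θ : ℝ => hG h θ + x * (θ + β θ)) '' Set.Ioi 0)

/-- the one-big-job term -/
noncomputable def fOneH (h h' : ℝ → ℝ) (μ ν : Measure ℝ) (K : ℕ) (x : ℝ) : ℝ :=
  Real.exp (-(hRate h (cramerRoot μ ν K) x)) /
    ((2 * (∫ t, t ∂ν) - ∫ s, s ∂μ) * h' (eta μ ν * x))

/-- `exp (-h x) / h' x`, asymptotic to the integrated tail -/
noncomputable def Qf (h h' : ℝ → ℝ) (x : ℝ) : ℝ := Real.exp (-(h x)) / h' x

/-- the tilt `θ` is harmless for jobs of size at most `B` -/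
def Tilt (h : ℝ → ℝ) (θ B : ℝ) : Prop := ∀ s : ℝ, 0 ≤ s → s ≤ B → θ * s ≤ h s / 4

end Pool.Agent.Lib.MP_04add8_pr.Gen
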