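import Mathlib
import Pool.Agent.Lib.MP_04add8_pr.Gen.Defs
import Pool.Agent.Lib.MP_04add8_pr.Crit.LowOne

open MeasureTheory ProbabilityTheory Filter Topology
open scoped ENNReal

set_option linter.unusedSectionVars false

namespace Pool.Agent.Lib.MP_04add8_pr.Gen

variable {h h' : ℝ → ℝ} {a : ℝ} {μ ν : Measure ℝ} [IsProbabilityMeasure μ]
  [IsProbabilityMeasure ν]

/-- lower bound for the sum over the time since the big job; `G` is a free number -/
noncomputable def glowU (μ ν : Measure ℝ) [IsProbabilityMeasure μ]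
    [IsProbabilityMeasure ν] (G x B θ τ : ℝ) (M : ℕ) : ℝ≥0∞ :=
  ∑ n ∈ Finset.range M,
    ν (Set.Iic τ) * ENNReal.ofReal (Real.exp (-(G + θ * (B + τ)))) * midOne μ ν x B θ n

/-- Original: `lower_core_sum` in `Crit/LowOne.lean` (the Weibull hypothesis is only used for
`0 ≤ s` a.e.; `wG a θ` is replaced by `G`). -/
lemma glower_core_sum (hμ0 : ∀ᵐ s ∂μ, 0 ≤ s) (hν : ν (Set.Iio 0) = 0)
    {G x θ β B τ t D hh η : ℝ} {N J : ℕ} (hx : 0 < x) (hθ : 0 < θ)
    (hhp : 0 < hh) (hD : 0 < D) (ht : 0 < t) (ht4 : t ≤ 1 / 4) (hB : 0 ≤ B) (hBθ : θ * B ≤ t)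
    (hBx : B ≤ x / 2) (hτ : 0 ≤ τ) (hντ : ENNReal.ofReal (1 - t) ≤ ν (Set.Iic τ))
    (hθτ : θ * τ ≤ t) (hθβ : θ ≤ β) (hβB : β * B ≤ η * t) (hηt : η * t ≤ 1)
    (hQ : ENNReal.ofReal ((1 - 2 * t) / (D * hh)) ≤ ∑ n ∈ Finset.range J, lvlA μ ν B θ n)
    (hQ2 : ∑ n ∈ Finset.range (N + J), lvlA μ ν B θ n ≤ ENNReal.ofReal (2 / (D * hh)))
    (hΦ1 : ENNReal.ofReal (1 - t) ≤ trPhi μ ν B β θ ^ N)
    (hΦ2 : (max 1 (trPhi μ ν B β θ)) ^ N ≤ ENNReal.ofReal (1 + t))
    (hΦ3 : (max 1 (trPhi μ ν B β θ)) ^ (N + J) ≤ ENNReal.ofReal 2)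
    (hΦl : trPhi μ ν B (β - θ) θ ^ N ≤ ENNReal.ofReal (Real.exp (-(2 * θ * x))))
    (hs1 : 2 * Real.exp (-(θ * x)) ≤ t) (hs2 : 4 * Real.exp (-((β - θ) * x / 2)) ≤ t) :
    ENNReal.ofReal (lowC η t * (Real.exp (-(G + x * (θ + β))) / (D * hh))) ≤
      glowU μ ν G x B θ τ (N + J) := by
  have hν0 : ∀ᵐ s ∂ν, 0 ≤ s := ae_nonneg_of_Iio hν
  have hβ0 : 0 ≤ β := hθ.le.trans hθβ
  have hDh : 0 < D * hh := mul_pos hD hhp
  set Q := ∑ n ∈ Finset.range J, lvlA μ ν B θ n with hQdef
  set S := ∑ n ∈ Finset.range (N + J), lvl μ ν B θ n x with hS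
  set Mid := ∑ n ∈ Finset.range (N + J), midOne μ ν x B θ n with hMid
  have hQle : Q ≤ ENNReal.ofReal (2 / (D * hh)) := by
    refine le_trans ?_ hQ2
    rw [hQdef]
    apply Finset.sum_le_sum_of_subset
    intro i hi
    rw [Finset.mem_range] at hi ⊢
    omega
  -- (1) the level recursion
  have s1 := lvl_lower (μ := μ) (ν := ν) hμ0 hν0 hB hθ.le hβ0 hθ.le N J hx.le (lam := θ)
  rw [← hQdef, ← hS] at s1
  set A : ℝ := (1 - η * t) * ((1 - 2 * t) / (D * hh)) * (1 - t) * Real.exp (-(β * x)) with hA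
  have eB : 1 - η * t ≤ Real.exp (-(β * B)) := by
    have := Real.add_one_le_exp (-(β * B))
    linarith
  have s2 : ENNReal.ofReal A ≤ ENNReal.ofReal (Real.exp (-(β * B))) * Q *
        trPhi μ ν B β θ ^ N * ENNReal.ofReal (Real.exp (-(β * x))) := by
    have h1t : 0 ≤ 1 - t := by linarith
    have h2t : 0 ≤ (1 - 2 * t) / (D * hh) := by
      apply div_nonneg _ hDh.le; linarith
    have h3t : 0 ≤ 1 - η * t := by linarith
    rw [hA, ENNReal.ofReal_mul (by positivity), ENNReal.ofReal_mul (by positivity),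
      ENNReal.ofReal_mul h3t]
    gcongr
  have s3 : ENNReal.ofReal (Real.exp (-(β * B))) * Q *
        trPhi μ ν B (β - θ) θ ^ N * ENNReal.ofReal (Real.exp (-((β - θ) * x))) ≤
      ENNReal.ofReal (t / (D * hh) * Real.exp (-(β * x))) := by
    have e1 : ENNReal.ofReal (Real.exp (-(β * B))) ≤ 1 := by
      rw [← ENNReal.ofReal_one]
      apply ENNReal.ofReal_le_ofReal
      rw [Real.exp_le_one_iff]
      have : 0 ≤ β * B := by positivity
      linarith
    calc ENNReal.ofReal (Real.exp (-(β * B))) * Q *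
        trPhi μ ν B (β - θ) θ ^ N * ENNReal.ofReal (Real.exp (-((β - θ) * x)))
        ≤ 1 * ENNReal.ofReal (2 / (D * hh)) * ENNReal.ofReal (Real.exp (-(2 * θ * x))) *
          ENNReal.ofReal (Real.exp (-((β - θ) * x))) := by gcongr
      _ = ENNReal.ofReal (2 / (D * hh) * Real.exp (-(2 * θ * x)) *
          Real.exp (-((β - θ) * x))) := by
          rw [one_mul, ← ENNReal.ofReal_mul (by positivity), ← ENNReal.ofReal_mul (by positivity)]
      _ ≤ _ := by
          apply ENNReal.ofReal_le_ofReal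
          have e2 : 2 / (D * hh) * Real.exp (-(2 * θ * x)) * Real.exp (-((β - θ) * x)) =
              (2 * Real.exp (-(θ * x))) / (D * hh) * Real.exp (-(β * x)) := by
            have e3 : Real.exp (-(2 * θ * x)) * Real.exp (-((β - θ) * x)) =
                Real.exp (-(θ * x)) * Real.exp (-(β * x)) := by
              rw [← Real.exp_add, ← Real.exp_add]
              congr 1
              ring
            calc 2 / (D * hh) * Real.exp (-(2 * θ * x)) * Real.exp (-((β - θ) * x))
                = 2 / (D * hh) * (Real.exp (-(2 * θ * x)) * Real.exp (-((β - θ) * x))) := by ring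
              _ = _ := by rw [e3]; ring
          rw [e2]
          gcongr
  have s4 : ENNReal.ofReal (A - t / (D * hh) * Real.exp (-(β * x))) ≤
      ENNReal.ofReal (1 + t) * S := by
    apply ofReal_sub_le (by positivity)
    refine s2.trans (s1.trans ?_)
    gcongr
  -- (2) middle part
  have s5 : ENNReal.ofReal (Real.exp (-(θ * x))) * S ≤ Mid +
      ENNReal.ofReal (t / (D * hh) * Real.exp (-((β + θ) * x))) := by
    have e1 : ENNReal.ofReal (Real.exp (-(θ * x))) * S ≤ Mid +
        ENNReal.ofReal (Real.exp (-(θ * x / 2))) *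
          ∑ n ∈ Finset.range (N + J), lvl μ ν B θ n (3 / 2 * x) := by
      rw [hS, hMid, Finset.mul_sum, Finset.mul_sum, ← Finset.sum_add_distrib]
      exact Finset.sum_le_sum fun n _ => mid_lower n
    refine e1.trans ?_
    gcongr
    have e2 := lvl_upper (μ := μ) (ν := ν) hθ.le hθβ (le_max_left 1 (trPhi μ ν B β θ))
      (le_max_right 1 (trPhi μ ν B β θ)) (N + J) (3 / 2 * x)
    calc ENNReal.ofReal (Real.exp (-(θ * x / 2))) *
          ∑ n ∈ Finset.range (N + J), lvl μ ν B θ n (3 / 2 * x)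
        ≤ ENNReal.ofReal (Real.exp (-(θ * x / 2))) * (ENNReal.ofReal (2 / (D * hh)) *
          ENNReal.ofReal 2 * ENNReal.ofReal (Real.exp (-(β * (3 / 2 * x))))) := by
          gcongr
          exact e2.trans (by gcongr)
      _ = ENNReal.ofReal (Real.exp (-(θ * x / 2)) * (2 / (D * hh) * 2 *
          Real.exp (-(β * (3 / 2 * x))))) := by
          rw [← ENNReal.ofReal_mul (by positivity), ← ENNReal.ofReal_mul (by positivity),
            ← ENNReal.ofReal_mul (by positivity)]
      _ ≤ _ := by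
          apply ENNReal.ofReal_le_ofReal
          have e3 : Real.exp (-(θ * x / 2)) * (2 / (D * hh) * 2 *
              Real.exp (-(β * (3 / 2 * x)))) =
              (4 * Real.exp (-((β - θ) * x / 2))) / (D * hh) * Real.exp (-((β + θ) * x)) := by
            have e4 : Real.exp (-(θ * x / 2)) * Real.exp (-(β * (3 / 2 * x))) =
                Real.exp (-((β - θ) * x / 2)) * Real.exp (-((β + θ) * x)) := by
              rw [← Real.exp_add, ← Real.exp_add]
              congr 1
              ring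
            calc Real.exp (-(θ * x / 2)) * (2 / (D * hh) * 2 * Real.exp (-(β * (3 / 2 * x))))
                = 4 / (D * hh) * (Real.exp (-(θ * x / 2)) *
                  Real.exp (-(β * (3 / 2 * x)))) := by ring
              _ = _ := by rw [e4]; ring
          rw [e3]
          gcongr
  set A2 : ℝ := Real.exp (-(θ * x)) * (A - t / (D * hh) * Real.exp (-(β * x))) with hA2
  set b2 : ℝ := (1 + t) * (t / (D * hh) * Real.exp (-((β + θ) * x))) with hb2
  have s6 : ENNReal.ofReal (A2 - b2) ≤ ENNReal.ofReal (1 + t) * Mid := by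
    apply ofReal_sub_le (by positivity)
    rw [hA2, ENNReal.ofReal_mul (by positivity)]
    calc ENNReal.ofReal (Real.exp (-(θ * x))) *
          ENNReal.ofReal (A - t / (D * hh) * Real.exp (-(β * x)))
        ≤ ENNReal.ofReal (Real.exp (-(θ * x))) * (ENNReal.ofReal (1 + t) * S) := by gcongr
      _ = ENNReal.ofReal (1 + t) * (ENNReal.ofReal (Real.exp (-(θ * x))) * S) := by ring
      _ ≤ ENNReal.ofReal (1 + t) * (Mid +
          ENNReal.ofReal (t / (D * hh) * Real.exp (-((β + θ) * x)))) := by gcongr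
      _ = _ := by
          rw [mul_add, ← ENNReal.ofReal_mul (by positivity)]
  -- (3) the probability
  have s7 : ENNReal.ofReal (1 - t) * ENNReal.ofReal ((1 - 2 * t) * Real.exp (-(G))) * Mid ≤
      glowU μ ν G x B θ τ (N + J) := by
    unfold glowU
    rw [hMid, Finset.mul_sum]
    apply Finset.sum_le_sum
    intro n _
    have e1 : (1 - 2 * t) * Real.exp (-(G)) ≤
        Real.exp (-(G + θ * (B + τ))) := by
      have e2 : Real.exp (-(G + θ * (B + τ))) =
          Real.exp (-(θ * (B + τ))) * Real.exp (-(G)) := by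
        rw [← Real.exp_add]; congr 1; ring
      rw [e2]
      have e3 := Real.add_one_le_exp (-(θ * (B + τ)))
      have e4 : 1 - 2 * t ≤ Real.exp (-(θ * (B + τ))) := by
        have : θ * (B + τ) = θ * B + θ * τ := by ring
        linarith
      gcongr
    gcongr
  -- (4) conclusion
  have ht1 : 0 < 1 + t := by linarith
  have s8 : ENNReal.ofReal ((1 - t) * ((1 - 2 * t) * Real.exp (-(G))) * (A2 - b2)) ≤
      ENNReal.ofReal (1 + t) * glowU μ ν G x B θ τ (N + J) := by
    have h1t : 0 ≤ 1 - t := by linarith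
    have h2t : 0 ≤ 1 - 2 * t := by linarith
    rw [ENNReal.ofReal_mul (by positivity), ENNReal.ofReal_mul h1t]
    calc ENNReal.ofReal (1 - t) * ENNReal.ofReal ((1 - 2 * t) * Real.exp (-(G))) *
          ENNReal.ofReal (A2 - b2)
        ≤ ENNReal.ofReal (1 - t) * ENNReal.ofReal ((1 - 2 * t) * Real.exp (-(G))) *
          (ENNReal.ofReal (1 + t) * Mid) := by gcongr
      _ = ENNReal.ofReal (1 + t) * (ENNReal.ofReal (1 - t) *
          ENNReal.ofReal ((1 - 2 * t) * Real.exp (-(G))) * Mid) := by ring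
      _ ≤ _ := by gcongr
  have e5 : lowC η t * (Real.exp (-(G + x * (θ + β))) / (D * hh)) =
      (1 + t)⁻¹ * ((1 - t) * ((1 - 2 * t) * Real.exp (-(G))) * (A2 - b2)) := by
    have e6 : Real.exp (-(G + x * (θ + β))) = Real.exp (-(G)) *
        (Real.exp (-(θ * x)) * Real.exp (-(β * x))) := by
      rw [← Real.exp_add, ← Real.exp_add]; congr 1; ring
    have e7 : Real.exp (-((β + θ) * x)) = Real.exp (-(θ * x)) * Real.exp (-(β * x)) := by
      rw [← Real.exp_add]; congr 1; ring
    rw [hA2, hb2, hA, e6, e7]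
    unfold lowC
    field_simp
  rw [e5, ENNReal.ofReal_mul (by positivity)]
  calc ENNReal.ofReal (1 + t)⁻¹ *
        ENNReal.ofReal ((1 - t) * ((1 - 2 * t) * Real.exp (-(G))) * (A2 - b2))
      ≤ ENNReal.ofReal (1 + t)⁻¹ * (ENNReal.ofReal (1 + t) * glowU μ ν G x B θ τ (N + J)) := by gcongr
    _ = glowU μ ν G x B θ τ (N + J) := by
        rw [← mul_assoc, ← ENNReal.ofReal_mul (by positivity), inv_mul_cancel₀ ht1.ne',
          ENNReal.ofReal_one, one_mul]

end Pool.Agent.Lib.MP_04add8_pr.Gen
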