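import Mathlib
import Pool.Agent.Lib.MP_04add8_pr.Gen.Defs
import Pool.Agent.Lib.MP_04add8_pr.Integ

open MeasureTheory ProbabilityTheory Filter Topology
open scoped ENNReal

set_option linter.unusedSectionVars false

namespace Pool.Agent.Lib.MP_04add8_pr.Gen

variable {h h' : ℝ → ℝ} {a : ℝ} {μ ν : Measure ℝ} [IsProbabilityMeasure μ]
  [IsProbabilityMeasure ν]

/-- conjugate of the logarithmic tail of the law itself -/
noncomputable def tG (μ : Measure ℝ) (θ : ℝ) : ℝ :=
  sSup ((fun y : ℝ => -Real.log (μ.real (Set.Ioi y)) - θ * y) '' Set.Ici 0)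

/-- the rate function, defined by the law itself -/
noncomputable def tRate (μ : Measure ℝ) (β : ℝ → ℝ) (x : ℝ) : ℝ :=
  sInf ((fun θ : ℝ => tG μ θ + x * (θ + β θ)) '' Set.Ioi 0)

end Pool.Agent.Lib.MP_04add8_pr.Gen
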