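import Mathlib
import Pool.Agent.Lib.MP_04add8_pr.Gen.Defs

open MeasureTheory ProbabilityTheory Filter Topology
open scoped ENNReal

set_option linter.unusedSectionVars false

namespace Pool.Agent.Lib.MP_04add8_pr.Gen

variable {h h' : ℝ → ℝ} {a : ℝ}

private lemma BaseA_mvt (H : Haz h h' a) {x y : ℝ} (hx : 0 ≤ x) (hxy : x < y) :
    ∃ c, x < c ∧ c < y ∧ h y - h x = h' c * (y - x) := by
  obtain ⟨c, hc, hc'⟩ := exists_hasDerivAt_eq_slope h h' hxy H.cont.continuousOn
    (fun z hz => H.deriv z (lt_of_le_of_lt hx hz.1))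
  refine ⟨c, hc.1, hc.2, ?_⟩
  rw [hc', div_mul_cancel₀ _ (sub_pos.2 hxy).ne']

/-- `h` is nondecreasing (derivative positive on `(0, ∞)`, constant on `(-∞, 0]`, continuous). -/
lemma Haz.mono (H : Haz h h' a) : Monotone h := by
  have key : ∀ x y : ℝ, 0 ≤ x → x ≤ y → h x ≤ h y := by
    intro x y hx hxy
    rcases hxy.eq_or_lt with rfl | hlt
    · exact le_rfl
    · obtain ⟨c, hc1, -, hc⟩ := BaseA_mvt H hx hlt
      have h1 : 0 ≤ h' c * (y - x) :=
        mul_nonneg (H.pos c (lt_of_le_of_lt hx hc1)).le (sub_nonneg.2 hxy)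
      linarith
  intro x y hxy
  rcases le_total x 0 with hx | hx
  · rw [H.neg x hx]
    rcases le_total y 0 with hy | hy
    · rw [H.neg y hy]
    · exact key 0 y le_rfl hy
  · exact key x y hx hxy

lemma Haz.nonneg (H : Haz h h' a) (x : ℝ) : 0 ≤ h x := by
  rcases le_total x 0 with hx | hx
  · rw [H.neg x hx]
    exact H.zero
  · exact H.zero.trans (H.mono hx)

/-- tangent line bound of a concave function. Mean value theorem on `[x, x+y]` or `[x+y, x]`
(interior is in `(0, ∞)`, there the derivative is `≤ h' x`, resp. `≥ h' x`). -/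
lemma Haz.tangent (H : Haz h h' a) {x y : ℝ} (hx : 0 < x) (hy : 0 ≤ x + y) :
    h (x + y) ≤ h x + h' x * y := by
  rcases lt_trichotomy y 0 with h0 | h0 | h0
  · obtain ⟨c, hc1, hc2, hc⟩ := BaseA_mvt H hy (show x + y < x by linarith)
    have h1 : h' x ≤ h' c := H.anti c x (lt_of_le_of_lt hy hc1) hc2.le
    have h2 : 0 ≤ (h' c - h' x) * (-y) := mul_nonneg (sub_nonneg.2 h1) (by linarith)
    nlinarith
  · subst h0
    simp
  · obtain ⟨c, hc1, hc2, hc⟩ := BaseA_mvt H hx.le (show x < x + y by linarith)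
    have h1 : h' c ≤ h' x := H.anti x c hx hc1.le
    have h2 : 0 ≤ (h' x - h' c) * y := mul_nonneg (sub_nonneg.2 h1) h0.le
    nlinarith

lemma Haz.concave (H : Haz h h' a) : ConcaveOn ℝ (Set.Ici 0) h := by
  have hd : ∀ x ∈ Set.Ioi (0 : ℝ), _root_.deriv h x = h' x := fun x hx => (H.deriv x hx).deriv
  refine AntitoneOn.concaveOn_of_deriv (convex_Ici 0) H.cont.continuousOn ?_ ?_
  · rw [interior_Ici]
    intro x hx
    exact (H.deriv x hx).differentiableAt.differentiableWithinAt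
  · rw [interior_Ici]
    intro x hx y hy hxy
    rw [hd x hx, hd y hy]
    exact H.anti x y hx hxy

lemma Haz.strictMono (H : Haz h h' a) {x y : ℝ} (hx : 0 ≤ x) (hxy : x < y) : h x < h y := by
  obtain ⟨c, hc1, -, hc⟩ := BaseA_mvt H hx hxy
  have h1 : 0 < h' c * (y - x) := mul_pos (H.pos c (lt_of_le_of_lt hx hc1)) (sub_pos.2 hxy)
  linarith

/-- increments decrease -/
lemma Haz.incr_anti (H : Haz h h' a) {q M d : ℝ} (hq : 0 ≤ q) (hqM : q ≤ M) (hd : 0 ≤ d) :
    h (M + d) + h q ≤ h M + h (q + d) := by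
  have h1 : AntitoneOn (fun t => h (t + d) - h t) (Set.Ici 0) := by
    have hder : ∀ x ∈ Set.Ioi (0 : ℝ), HasDerivAt (fun t => h (t + d) - h t)
        (h' (x + d) - h' x) x := by
      intro x hx
      have hx' : 0 < x + d := add_pos_of_pos_of_nonneg hx hd
      have h2 : HasDerivAt (fun t => h (t + d)) (h' (x + d)) x :=
        HasDerivAt.comp_add_const x d (H.deriv (x + d) hx')
      exact h2.sub (H.deriv x hx)
    refine antitoneOn_of_deriv_nonpos (convex_Ici 0) ?_ ?_ ?_
    · exact ((H.cont.comp (continuous_id.add continuous_const)).sub H.cont).continuousOn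
    · rw [interior_Ici]
      intro x hx
      exact (hder x hx).differentiableAt.differentiableWithinAt
    · rw [interior_Ici]
      intro x hx
      rw [(hder x hx).deriv]
      have := H.anti x (x + d) hx (by linarith)
      linarith
  have h2 := h1 (show q ∈ Set.Ici (0 : ℝ) from hq) (show M ∈ Set.Ici (0 : ℝ) from hq.trans hqM) hqM
  simp only at h2
  linarith

/-- subadditivity (`h` concave, `h 0 ≥ 0`) -/
lemma Haz.add_le (H : Haz h h' a) {x y : ℝ} (hx : 0 ≤ x) (hy : 0 ≤ y) :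
    h (x + y) ≤ h x + h y := by
  have h1 := H.incr_anti (le_refl (0 : ℝ)) hx hy
  rw [zero_add] at h1
  have h2 := H.zero
  linarith

/-- `h x / x` is nonincreasing on `(0, ∞)` -/
lemma Haz.mul_le (H : Haz h h' a) {x y : ℝ} (hx : 0 < x) (hxy : x ≤ y) :
    x * h y ≤ y * h x := by
  have hy : 0 < y := lt_of_lt_of_le hx hxy
  have h1 := H.concave.2 (show y ∈ Set.Ici (0 : ℝ) from hy.le) (show (0 : ℝ) ∈ Set.Ici (0 : ℝ) from
    le_refl (0 : ℝ)) (show 0 ≤ x / y from (div_pos hx hy).le)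
    (show 0 ≤ 1 - x / y from sub_nonneg.2 ((div_le_one hy).2 hxy)) (by ring)
  simp only [smul_eq_mul, mul_zero, add_zero] at h1
  rw [div_mul_cancel₀ _ hy.ne'] at h1
  have h2 : 0 ≤ (1 - x / y) * h 0 :=
    mul_nonneg (sub_nonneg.2 ((div_le_one hy).2 hxy)) H.zero
  have h3 : x / y * h y ≤ h x := by linarith
  have h4 := mul_le_mul_of_nonneg_left h3 hy.le
  calc x * h y = y * (x / y * h y) := by field_simp
    _ ≤ y * h x := h4

/-- `h (c x) ≤ c h x` for `c ≥ 1` -/
lemma Haz.mul_ge (H : Haz h h' a) {c x : ℝ} (hc : 1 ≤ c) (hx : 0 ≤ x) :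
    h (c * x) ≤ c * h x := by
  rcases hx.eq_or_lt with rfl | hx
  · rw [mul_zero]
    have := H.zero
    nlinarith
  · have h1 := H.mul_le hx (show x ≤ c * x by nlinarith)
    have h2 : x * h (c * x) ≤ x * (c * h x) := by linarith [h1]
    exact le_of_mul_le_mul_left h2 hx

lemma Haz.mul_deriv_le (H : Haz h h' a) {x : ℝ} (hx : 0 < x) : x * h' x ≤ h x := by
  have h1 := H.tangent hx (show 0 ≤ x + -x by simp)
  rw [add_neg_cancel] at h1
  have h2 := H.zero
  nlinarith

/-- increments are at least length times the derivative at the right end -/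
lemma Haz.lower_deriv (H : Haz h h' a) {x y : ℝ} (hx : 0 ≤ x) (hxy : x ≤ y) (hy : 0 < y) :
    (y - x) * h' y ≤ h y - h x := by
  have h1 := H.tangent hy (show 0 ≤ y + (x - y) by linarith)
  rw [add_sub_cancel] at h1
  nlinarith [h1, hxy]

lemma Haz.upper_deriv (H : Haz h h' a) {x y : ℝ} (hx : 0 < x) (hxy : x ≤ y) :
    h y - h x ≤ (y - x) * h' x := by
  have h1 := H.tangent hx (show 0 ≤ x + (y - x) by linarith)
  rw [add_sub_cancel] at h1
  linarith

end Pool.Agent.Lib.MP_04add8_pr.Gen
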