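import Mathlib
import Pool.Agent.Lib.MP_04add8_pr.Gen.Base
import Pool.Agent.Lib.MP_04add8_pr.Gen.DriftA

open MeasureTheory ProbabilityTheory Filter Topology
open scoped ENNReal

set_option linter.unusedSectionVars false

namespace Pool.Agent.Lib.MP_04add8_pr.Gen

variable {h h' : ℝ → ℝ} {a : ℝ}

/-! Original: `Drift.lean`. The geometric lemmas on `bigA`, `kwStep`, square roots are reused
(`bigA_pos`, `bigA_mono`, `sqrt_add_le`, `sqrt_taylor`, `kwStep_eq`); `incr` is the same. -/

/-- **First-order bound**. Original: `cost_kwStep_le_incr`; one-job regime with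
`ε = h' A`, `q = w.1 / r`; two-jobs regime with `ε = h' w.2`, `q = b h' w.1 / h' w.2`;
`q ≤ 1` because `w.1 h' w.1 ≤ a' h w.1 ≤ a' h' w.2 r / b ≤ h' w.2 w.1 / b`. -/
lemma gcost_kwStep_le_incr (H : Haz h h' a) {a' b R M C₁ L : ℝ} (ha0' : 0 < a') (ha1' : a' < 1)
    (hb : 0 < b) (hb1 : b < 1) (hR : 0 < R) (hM : 0 ≤ M) (hC1 : M < C₁)
    (hC1' : a' ^ 2 * (C₁ ^ 2 + R ^ 2) ≤ C₁ ^ 2)
    (hel : ∀ x, C₁ ≤ x → x * h' x ≤ a' * h x)
    (hLM : M < L) (hLR : R ≤ L) (hLcond : b ^ 2 * ((L - M) ^ 2 + R ^ 2) ≤ (L - M) ^ 2)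
    (hL1 : h' L * ((C₁ + R) / b) ≤ 1)
    {w : ℝ × ℝ} (h1 : 0 ≤ w.1) (h12 : w.1 ≤ w.2) (hwL : L ≤ w.2) :
    ∃ ε q : ℝ, 0 ≤ q ∧ q ≤ 1 ∧ h' ((1 + 2 / b) * w.2) ≤ ε ∧
      ε ≤ h' w.2 ∧ ∀ s t : ℝ, 0 ≤ s → 0 ≤ t →
        gcost h b R (kwStep w s t) ≤ gcost h b R w + ε * incr b R M q s t := by
  have hL0 : 0 < L := hM.trans_lt hLM
  have hw2 : 0 < w.2 := hL0.trans_le hwL
  have hb2 : b ^ 2 < 1 := by nlinarith
  have ha2 : a' ^ 2 < 1 := by nlinarith
  set A := bigA b R w with hA
  have hA0 : 0 < A := bigA_pos hb hR hw2.le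
  have hAw : w.2 ≤ A := by
    rw [hA, bigA]
    have : 0 ≤ √(w.1 ^ 2 + R ^ 2) / b := by positivity
    linarith
  set r := √(w.1 ^ 2 + R ^ 2) with hr
  have hr0 : 0 < r := Real.sqrt_pos.mpr (by positivity)
  have hr2 : r ^ 2 = w.1 ^ 2 + R ^ 2 := Real.sq_sqrt (by positivity)
  have hrle : r ≤ w.1 + R := by
    apply Real.sqrt_le_iff.mpr
    exact ⟨by positivity, by nlinarith⟩
  have hwr : w.1 ≤ r := by
    apply Real.le_sqrt_of_sq_le; nlinarith [sq_nonneg R]
  have hAr : A = w.2 + r / b := rfl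
  have hAup : A ≤ (1 + 2 / b) * w.2 := by
    rw [hAr]
    have : r / b ≤ (w.2 + w.2) / b := by
      gcongr
      linarith
    calc w.2 + r / b ≤ w.2 + (w.2 + w.2) / b := by linarith
      _ = (1 + 2 / b) * w.2 := by ring
  have hlow : h' ((1 + 2 / b) * w.2) ≤ h' A := H.anti A _ hA0 hAup
  have hAder : h' A ≤ h' w.2 := H.anti w.2 A hw2 hAw
  have hw2M : M ≤ w.2 := by linarith
  -- common facts on truncated quantities
  have hvcond : ∀ t : ℝ, 0 ≤ t → b ^ 2 * ((w.2 - min t M) ^ 2 + R ^ 2) ≤ (w.2 - min t M) ^ 2 := by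
    intro t ht
    have h3 : (L - M) ≤ w.2 - min t M := by
      have := min_le_right t M
      linarith
    have h4 : (L - M) ^ 2 ≤ (w.2 - min t M) ^ 2 := pow_le_pow_left₀ (by linarith) h3 2
    nlinarith
  have hdw2 : 0 < h' w.2 := H.pos _ hw2
  rcases le_or_gt (h A) (h w.1 + h w.2 + 1) with hc | hc
  · -- one-job regime
    have hcost : gcost h b R w = h A := min_eq_left hc
    refine ⟨h' A, w.1 / r, by positivity, ?_, hlow, hAder, ?_⟩
    · rw [div_le_one hr0]; exact hwr
    · intro s t hs ht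
      set T := min t M with hT
      have hT0 : 0 ≤ T := le_min ht hM
      have hTM : T ≤ M := min_le_right _ _
      have hstep := gcost_kwStep_le (R := R) H hb w s (min_le_left t M)
      rw [← hT] at hstep
      set u := max (w.1 + s - T) 0 with hu
      have hv : max (w.2 - T) 0 = w.2 - T := max_eq_left (by linarith)
      rw [hv] at hstep
      have hu0 : 0 ≤ u := le_max_right _ _
      have hone := gcost_sorted_le_one H hb hb1 hR hu0 (v := w.2 - T) (by linarith) (hvcond t ht)
      have hu2 : u ^ 2 ≤ (w.1 + (s - T)) ^ 2 := by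
        rcases le_total (w.1 + s - T) 0 with h | h
        · rw [hu, max_eq_right h]
          have := sq_nonneg (w.1 + (s - T))
          simpa using this
        · rw [hu, max_eq_left h]
          have : w.1 + s - T = w.1 + (s - T) := by ring
          rw [this]
      have hsq : √(u ^ 2 + R ^ 2) ≤ r + w.1 / r * (s - T) + (s - T) ^ 2 / (2 * R) := by
        refine le_trans ?_ (sqrt_taylor hR)
        gcongr
      have hst : (s - T) ^ 2 ≤ s ^ 2 + M ^ 2 := by nlinarith [mul_nonneg hs hT0]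
      have hle : (w.2 - T) + √(u ^ 2 + R ^ 2) / b ≤ A + incr b R M (w.1 / r) s t := by
        rw [hAr, incr, ← hT]
        have h5 : √(u ^ 2 + R ^ 2) / b ≤
            (r + w.1 / r * (s - T) + (s ^ 2 + M ^ 2) / (2 * R)) / b := by
          gcongr
          refine hsq.trans ?_
          gcongr
        have h6 : (r + w.1 / r * (s - T) + (s ^ 2 + M ^ 2) / (2 * R)) / b =
            r / b + w.1 / r / b * (s - T) + (s ^ 2 + M ^ 2) / (2 * b * R) := by
          field_simp
        linarith
      have hpos' : 0 ≤ (w.2 - T) + √(u ^ 2 + R ^ 2) / b := by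
        have : 0 ≤ √(u ^ 2 + R ^ 2) / b := by positivity
        linarith
      have h7 := H.mono hle
      have h8 := H.tangent hA0 (y := incr b R M (w.1 / r) s t) (by linarith)
      rw [hcost]
      linarith
  · -- two-jobs regime
    have hcost : gcost h b R w = h w.1 + h w.2 + 1 := min_eq_right hc.le
    have htanA : h A ≤ h w.2 + h' w.2 * (r / b) := by
      have := H.tangent hw2 (y := r / b)
        (by have : 0 ≤ r / b := by positivity
            linarith)
      rw [hAr]; exact this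
    have hw1 : C₁ < w.1 := by
      by_contra hcon
      push Not at hcon
      have hrC : r / b ≤ (C₁ + R) / b := by gcongr; linarith
      have hwp : h' w.2 ≤ h' L := H.anti L w.2 hL0 hwL
      have h0r : 0 ≤ r / b := by positivity
      have : h' w.2 * (r / b) ≤ h' L * ((C₁ + R) / b) :=
        mul_le_mul hwp hrC h0r (H.pos L hL0).le
      have h9 : 0 ≤ h w.1 := H.nonneg _
      linarith
    have hw1M : M < w.1 := hC1.trans hw1
    have hw10 : 0 < w.1 := hM.trans_lt hw1M
    have har : a' * r ≤ w.1 := by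
      apply abs_le_of_sq_le_sq' _ hw10.le |>.2
      rw [mul_pow, hr2]
      have : C₁ ^ 2 ≤ w.1 ^ 2 := by
        have : 0 ≤ C₁ := (hM.trans_lt hC1).le
        gcongr
      nlinarith
    have hdw1 : 0 < h' w.1 := H.pos _ hw10
    have hq1 : b * h' w.1 / h' w.2 ≤ 1 := by
      have h10 : w.1 * h' w.1 ≤ h' w.2 * (w.1 / b) := by
        calc w.1 * h' w.1 ≤ a' * h w.1 := hel w.1 hw1.le
          _ ≤ a' * (h' w.2 * (r / b)) := by
              have : h w.1 ≤ h' w.2 * (r / b) := by linarith
              gcongr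
          _ = h' w.2 * (a' * r / b) := by ring
          _ ≤ h' w.2 * (w.1 / b) := by gcongr
      have h12' : h' w.1 ≤ h' w.2 / b := by
        have : w.1 * h' w.1 ≤ w.1 * (h' w.2 / b) := by
          calc w.1 * h' w.1 ≤ h' w.2 * (w.1 / b) := h10
            _ = w.1 * (h' w.2 / b) := by ring
        exact le_of_mul_le_mul_left this hw10
      rw [div_le_one hdw2]
      calc b * h' w.1 ≤ b * (h' w.2 / b) := by gcongr
        _ = h' w.2 := by field_simp
    refine ⟨h' w.2, b * h' w.1 / h' w.2, by positivity, hq1, hlow.trans hAder, le_rfl, ?_⟩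
    intro s t hs ht
    set T := min t M with hT
    have hT0 : 0 ≤ T := le_min ht hM
    have hTM : T ≤ M := min_le_right _ _
    have hstep := gcost_kwStep_le (R := R) H hb w s (min_le_left t M)
    rw [← hT] at hstep
    have hv : max (w.2 - T) 0 = w.2 - T := max_eq_left (by linarith)
    have hu : max (w.1 + s - T) 0 = w.1 + (s - T) := by
      rw [max_eq_left (by linarith)]; ring
    rw [hv, hu] at hstep
    have htwo := gcost_sorted_le_two (h := h) (b := b) (R := R) (w.1 + (s - T)) (w.2 - T)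
    have ht1 := H.tangent hw10 (y := s - T) (by linarith)
    have ht2 := H.tangent hw2 (y := -T) (by linarith)
    have e1 : w.2 - T = w.2 + -T := by ring
    rw [← e1] at ht2
    have hinc : h' w.2 * incr b R M (b * h' w.1 / h' w.2) s t =
        h' w.1 * (s - T) + h' w.2 * (-T) +
          h' w.2 * ((s ^ 2 + M ^ 2) / (2 * b * R)) := by
      rw [incr, ← hT]
      field_simp
      ring
    have h15 : 0 ≤ h' w.2 * ((s ^ 2 + M ^ 2) / (2 * b * R)) := by positivity
    rw [hcost, hinc]
    linarith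

end Pool.Agent.Lib.MP_04add8_pr.Gen
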