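import Mathlib
import Pool.Agent.Lib.MP_04add8_pr.Gen.Base

open MeasureTheory ProbabilityTheory Filter Topology
open scoped ENNReal

set_option linter.unusedSectionVars false

namespace Pool.Agent.Lib.MP_04add8_pr.Gen

variable {h h' : ℝ → ℝ} {a : ℝ}

/-- uniform convergence theorem (here elementary: `h'` is monotone, so pointwise convergence of the
monotone functions `l ↦ h' (l x) / h' x` to a continuous limit is uniform on compacts) -/
theorem Haz.deriv_ratio (H : Haz h h' a) {lo hi τ : ℝ} (hlo : 0 < lo) (hτ : 0 < τ) :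
    ∀ᶠ x : ℝ in atTop, ∀ l : ℝ, lo ≤ l → l ≤ hi →
      |h' (l * x) / h' x - l ^ (a - 1)| ≤ τ := by
  have hK : IsCompact (Set.Icc lo hi) := isCompact_Icc
  have key : ∀ᶠ x : ℝ in atTop, ∀ l ∈ Set.Icc lo hi, |h' (l * x) / h' x - l ^ (a - 1)| ≤ τ := by
    refine hK.induction_on (p := fun S => ∀ᶠ x : ℝ in atTop, ∀ l ∈ S,
      |h' (l * x) / h' x - l ^ (a - 1)| ≤ τ) ?_ ?_ ?_ ?_
    · exact Eventually.of_forall fun x l hl => absurd hl (Set.notMem_empty l)
    · intro S T hST hT
      filter_upwards [hT] with x hx l hl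
      exact hx l (hST hl)
    · intro S T hS hT
      filter_upwards [hS, hT] with x hx hx' l hl
      rcases hl with hl | hl
      · exact hx l hl
      · exact hx' l hl
    · intro l0 hl0
      have hl0pos : 0 < l0 := lt_of_lt_of_le hlo hl0.1
      have hcont : ContinuousAt (fun l : ℝ => l ^ (a - 1)) l0 :=
        Real.continuousAt_rpow_const _ _ (Or.inl hl0pos.ne')
      obtain ⟨δ, hδ, hd⟩ := Metric.continuousAt_iff.1 hcont (τ / 4) (by positivity)
      set e : ℝ := min (δ / 2) (l0 / 2) with he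
      have he0 : 0 < e := lt_min (by positivity) (by positivity)
      have he1 : e < δ := lt_of_le_of_lt (min_le_left _ _) (by linarith)
      have he2 : e < l0 := lt_of_le_of_lt (min_le_right _ _) (by linarith)
      have hclose : ∀ l, |l - l0| ≤ e → |l ^ (a - 1) - l0 ^ (a - 1)| < τ / 4 := by
        intro l hl
        have h1 := hd (x := l) (by rw [Real.dist_eq]; exact lt_of_le_of_lt hl he1)
        rwa [Real.dist_eq] at h1
      have h1pos : 0 < l0 - e := by linarith
      have h2pos : 0 < l0 + e := by linarith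
      have c1 := (Metric.tendsto_nhds.1 (H.rv _ h1pos)) (τ / 4) (by positivity)
      have c2 := (Metric.tendsto_nhds.1 (H.rv _ h2pos)) (τ / 4) (by positivity)
      refine ⟨Set.Icc (l0 - e) (l0 + e), mem_nhdsWithin_of_mem_nhds
        (Icc_mem_nhds (by linarith) (by linarith)), ?_⟩
      filter_upwards [c1, c2, eventually_gt_atTop 0] with x hx1 hx2 hx0 l hl
      rw [Real.dist_eq, abs_lt] at hx1 hx2
      have hlpos : 0 < l := lt_of_lt_of_le h1pos hl.1
      have hp := H.pos x hx0
      have m1 : h' (l * x) ≤ h' ((l0 - e) * x) :=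
        H.anti _ _ (mul_pos h1pos hx0) (mul_le_mul_of_nonneg_right hl.1 hx0.le)
      have m2 : h' ((l0 + e) * x) ≤ h' (l * x) :=
        H.anti _ _ (mul_pos hlpos hx0) (mul_le_mul_of_nonneg_right hl.2 hx0.le)
      have m1' := div_le_div_of_nonneg_right m1 hp.le
      have m2' := div_le_div_of_nonneg_right m2 hp.le
      have k1 := abs_lt.1 (hclose (l0 - e) (by
        rw [show l0 - e - l0 = -e by ring, abs_neg, abs_of_pos he0]))
      have k2 := abs_lt.1 (hclose (l0 + e) (by
        rw [show l0 + e - l0 = e by ring, abs_of_pos he0]))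
      have k3 := abs_lt.1 (hclose l (by
        rw [abs_le]; constructor <;> linarith [hl.1, hl.2]))
      rw [abs_le]
      constructor <;> linarith [hx1.1, hx1.2, hx2.1, hx2.2, k1.1, k1.2, k2.1, k2.2, k3.1, k3.2]
  filter_upwards [key] with x hx l h1 h2
  exact hx l ⟨h1, h2⟩

/-- Potter bound, upper half (any `c > 0`): `h' (2x)/h' x → 2^(a-1)`, iterate and use
monotonicity. -/
theorem Haz.potter (H : Haz h h' a) {ε : ℝ} (hε : 0 < ε) :
    ∀ᶠ x : ℝ in atTop, h' x ≤ x ^ (a - 1 + ε) := by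
  set κ : ℝ := a - 1 + ε / 2 with hκ
  have h2κ : (2 : ℝ) ^ (a - 1) < 2 ^ κ :=
    Real.rpow_lt_rpow_of_exponent_lt (by norm_num) (by rw [hκ]; linarith)
  have hev : ∀ᶠ x : ℝ in atTop, h' (2 * x) / h' x < 2 ^ κ :=
    (H.rv 2 (by norm_num)).eventually_lt_const h2κ
  obtain ⟨x1, hx1⟩ := (hev.and (eventually_ge_atTop (1 : ℝ))).exists_forall_of_atTop
  set x0 : ℝ := max x1 1 with hx0
  have hx01 : 1 ≤ x0 := le_max_right _ _
  have hx0pos : 0 < x0 := by linarith
  have hstep : ∀ x, x0 ≤ x → h' (2 * x) ≤ 2 ^ κ * h' x := by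
    intro x hx
    have h1 := (hx1 x ((le_max_left _ _).trans hx)).1
    have hp := H.pos x (by linarith)
    rw [div_lt_iff₀ hp] at h1
    exact h1.le
  have hiter : ∀ n : ℕ, h' (2 ^ n * x0) ≤ (2 ^ κ) ^ n * h' x0 := by
    intro n
    induction n with
    | zero => simp
    | succ n ih =>
      have h1 := hstep (2 ^ n * x0) (le_mul_of_one_le_left hx0pos.le (one_le_pow₀ (by norm_num)))
      have h2 : (2 : ℝ) ^ (n + 1) * x0 = 2 * (2 ^ n * x0) := by ring
      rw [h2]
      have h3 : (0 : ℝ) < 2 ^ κ := Real.rpow_pos_of_pos (by norm_num) _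
      calc h' (2 * (2 ^ n * x0)) ≤ 2 ^ κ * h' (2 ^ n * x0) := h1
        _ ≤ 2 ^ κ * ((2 ^ κ) ^ n * h' x0) := mul_le_mul_of_nonneg_left ih h3.le
        _ = (2 ^ κ) ^ (n + 1) * h' x0 := by ring
  have hpx0 := H.pos x0 hx0pos
  set C : ℝ := ((1 / x0) ^ κ + (1 / (2 * x0)) ^ κ) * h' x0 with hC
  have hC0 : 0 < C := by
    have h1 : 0 < (1 / x0) ^ κ := Real.rpow_pos_of_pos (by positivity) _
    have h2 : 0 < (1 / (2 * x0)) ^ κ := Real.rpow_pos_of_pos (by positivity) _
    positivity
  have hmain : ∀ x, x0 ≤ x → h' x ≤ C * x ^ κ := by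
    intro x hx
    have hxpos : 0 < x := by linarith
    obtain ⟨n, hn1, hn2⟩ := exists_nat_pow_near (x := x / x0) (y := 2)
      (by rw [le_div_iff₀ hx0pos]; linarith) (by norm_num)
    rw [le_div_iff₀ hx0pos] at hn1
    rw [div_lt_iff₀ hx0pos] at hn2
    have h2n : (0 : ℝ) < 2 ^ n := by positivity
    have h1 : h' x ≤ (2 ^ κ) ^ n * h' x0 :=
      (H.anti _ _ (by positivity) hn1).trans (hiter n)
    have h2 : ((2 : ℝ) ^ κ) ^ n = ((2 : ℝ) ^ n) ^ κ := by
      rw [← Real.rpow_natCast, ← Real.rpow_mul (by norm_num), mul_comm, Real.rpow_mul (by norm_num),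
        Real.rpow_natCast]
    have hbetween : (x * (1 / (2 * x0))) ≤ (2 : ℝ) ^ n ∧ (2 : ℝ) ^ n ≤ x * (1 / x0) := by
      constructor
      · rw [mul_one_div, div_le_iff₀ (by positivity)]
        have : (2 : ℝ) ^ (n + 1) = 2 * 2 ^ n := by ring
        rw [this] at hn2
        linarith
      · rw [mul_one_div, le_div_iff₀ hx0pos]
        exact hn1
    have h3 : ((2 : ℝ) ^ n) ^ κ ≤ (x * (1 / x0)) ^ κ + (x * (1 / (2 * x0))) ^ κ := by
      have p1 : 0 ≤ (x * (1 / x0)) ^ κ := Real.rpow_nonneg (by positivity) _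
      have p2 : 0 ≤ (x * (1 / (2 * x0))) ^ κ := Real.rpow_nonneg (by positivity) _
      rcases le_total 0 κ with hk | hk
      · have := Real.rpow_le_rpow h2n.le hbetween.2 hk
        linarith
      · have := Real.rpow_le_rpow_of_nonpos (by positivity) hbetween.1 hk
        linarith
    rw [Real.mul_rpow hxpos.le (by positivity), Real.mul_rpow hxpos.le (by positivity)] at h3
    calc h' x ≤ (2 ^ κ) ^ n * h' x0 := h1
      _ ≤ (x ^ κ * (1 / x0) ^ κ + x ^ κ * (1 / (2 * x0)) ^ κ) * h' x0 := by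
          rw [h2]
          exact mul_le_mul_of_nonneg_right h3 hpx0.le
      _ = C * x ^ κ := by rw [hC]; ring
  have hlim : ∀ᶠ x : ℝ in atTop, C ≤ x ^ (ε / 2) :=
    (tendsto_rpow_atTop (by positivity)).eventually_ge_atTop C
  filter_upwards [hlim, eventually_ge_atTop x0] with x h1 h2
  have hxpos : 0 < x := by linarith
  have h3 : 0 < x ^ κ := Real.rpow_pos_of_pos hxpos _
  calc h' x ≤ C * x ^ κ := hmain x h2
    _ ≤ x ^ (ε / 2) * x ^ κ := mul_le_mul_of_nonneg_right h1 h3.le
    _ = x ^ (a - 1 + ε) := by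
        rw [← Real.rpow_add hxpos, hκ]
        congr 1
        ring

theorem Haz.tendsto_deriv (H : Haz h h' a) : Tendsto h' atTop (𝓝 0) := by
  have ha := H.a1
  have h1 := H.potter (ε := (1 - a) / 2) (by linarith)
  have h2 : Tendsto (fun x : ℝ => x ^ (a - 1 + (1 - a) / 2)) atTop (𝓝 0) := by
    rw [show a - 1 + (1 - a) / 2 = -((1 - a) / 2) by ring]
    exact tendsto_rpow_neg_atTop (by linarith)
  refine tendsto_of_tendsto_of_tendsto_of_le_of_le' tendsto_const_nhds h2 ?_ h1
  filter_upwards [eventually_gt_atTop 0] with x hx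
  exact (H.pos x hx).le

/-- `M ≤ x h' x` eventually, so `h x - h x0 ≥ M log (x/x0)` -/
theorem Haz.log_le (H : Haz h h' a) (M : ℝ) : ∀ᶠ x : ℝ in atTop, M * Real.log x ≤ h x := by
  obtain ⟨x1, hx1⟩ := (H.big.eventually_ge_atTop (|M| + 1)).exists_forall_of_atTop
  set x0 : ℝ := max x1 1 with hx0
  have hx01 : 1 ≤ x0 := le_max_right _ _
  have hx0pos : 0 < x0 := by linarith
  have hM : 0 ≤ |M| := abs_nonneg M
  have hmono : MonotoneOn (fun x => h x - (|M| + 1) * Real.log x) (Set.Ici x0) := by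
    apply monotoneOn_of_hasDerivWithinAt_nonneg (f' := fun x => h' x - (|M| + 1) * x⁻¹)
      (convex_Ici x0)
    · apply ContinuousOn.sub H.cont.continuousOn
      apply ContinuousOn.mul continuousOn_const
      apply Real.continuousOn_log.mono
      intro x hx
      have : x0 ≤ x := hx
      simp only [Set.mem_compl_iff, Set.mem_singleton_iff]
      linarith
    · intro x hx
      rw [interior_Ici] at hx
      have hxpos : 0 < x := lt_trans hx0pos hx
      exact ((H.deriv x hxpos).sub ((Real.hasDerivAt_log hxpos.ne').const_mul _)).hasDerivWithinAt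
    · intro x hx
      rw [interior_Ici] at hx
      have hxpos : 0 < x := lt_trans hx0pos hx
      have h1 := hx1 x ((le_max_left _ _).trans (le_of_lt hx))
      have h2 : (|M| + 1) * x⁻¹ ≤ h' x := by
        rw [mul_inv_le_iff₀ hxpos, mul_comm]
        exact h1
      linarith
  have hlog : ∀ᶠ x : ℝ in atTop, (|M| + 1) * Real.log x0 ≤ Real.log x :=
    Real.tendsto_log_atTop.eventually_ge_atTop _
  filter_upwards [hlog, eventually_ge_atTop x0] with x h1 h2
  have h3 := hmono (Set.mem_Ici.2 le_rfl) (Set.mem_Ici.2 h2) h2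
  simp only at h3
  have h4 := H.nonneg x0
  have h5 : 0 ≤ Real.log x := Real.log_nonneg (by linarith)
  have h6 : M * Real.log x ≤ |M| * Real.log x := mul_le_mul_of_nonneg_right (le_abs_self M) h5
  nlinarith

theorem Haz.tendsto_h (H : Haz h h' a) : Tendsto h atTop atTop := by
  refine tendsto_atTop_mono' _ (H.log_le 1) ?_
  simpa using Real.tendsto_log_atTop

theorem Haz.tendsto_div (H : Haz h h' a) : Tendsto (fun x : ℝ => h x / x) atTop (𝓝 0) := by
  rw [Metric.tendsto_nhds]
  intro η hη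
  have h1 : ∀ᶠ x : ℝ in atTop, h' x < η / 2 :=
    H.tendsto_deriv.eventually_lt_const (by positivity)
  obtain ⟨x0, hx0, hx0pos⟩ := (h1.and (eventually_gt_atTop (0 : ℝ))).exists
  have h2 : ∀ᶠ x : ℝ in atTop, h x0 / (η / 4) ≤ x := eventually_ge_atTop _
  filter_upwards [h2, eventually_ge_atTop x0] with x hx1 hx2
  have hxpos : 0 < x := by linarith
  have h3 := H.upper_deriv hx0pos hx2
  have h4 := H.nonneg x
  rw [Real.dist_eq, sub_zero, abs_of_nonneg (div_nonneg h4 hxpos.le), div_lt_iff₀ hxpos]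
  rw [div_le_iff₀ (by positivity)] at hx1
  have h5 : (x - x0) * h' x0 ≤ x * (η / 2) := by
    have h6 := (H.pos x0 hx0pos).le
    calc (x - x0) * h' x0 ≤ x * h' x0 := mul_le_mul_of_nonneg_right (by linarith) h6
      _ ≤ x * (η / 2) := mul_le_mul_of_nonneg_left hx0.le hxpos.le
  nlinarith

end Pool.Agent.Lib.MP_04add8_pr.Gen
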