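import Mathlib
import Pool.Agent.Lib.MP_04add8_pr.Gen.Base
import Pool.Agent.Lib.MP_04add8_pr.Gen.RVA

open MeasureTheory ProbabilityTheory Filter Topology
open scoped ENNReal

set_option linter.unusedSectionVars false

namespace Pool.Agent.Lib.MP_04add8_pr.Gen

variable {h h' : ℝ → ℝ} {a : ℝ}

private lemma rvb_incr (H : Haz h h' a) {P : ℝ → ℝ}
    (hP : ∀ l : ℝ, 0 < l → HasDerivAt P (l ^ (a - 1)) l) {T τ : ℝ} (hT : 1 ≤ T) (hτ : 0 < τ) :
    ∀ᶠ x : ℝ in atTop, |h x - h (x / T) - x * h' x * (P 1 - P (1 / T))| ≤ τ * (x * h' x) := by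
  have hT0 : 0 < T := by linarith
  have hT1 : 0 < 1 / T := by positivity
  have hTle : 1 / T ≤ 1 := by rw [div_le_one hT0]; exact hT
  filter_upwards [H.deriv_ratio (hi := 1) hT1 hτ, eventually_gt_atTop 0] with x hx hx0
  have hpx := H.pos x hx0
  have hmv := (convex_Icc (1 / T) 1).norm_image_sub_le_of_norm_hasDerivWithin_le
    (f := fun l => h (l * x) - x * h' x * P l)
    (f' := fun l => x * h' (l * x) - x * h' x * l ^ (a - 1)) (C := τ * (x * h' x))
    (x := 1 / T) (y := 1) ?_ ?_ ⟨le_rfl, hTle⟩ ⟨hTle, le_rfl⟩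
  · rw [Real.norm_eq_abs, Real.norm_eq_abs, one_mul, abs_of_nonneg (by linarith : 0 ≤ 1 - 1 / T)]
      at hmv
    have e1 : h x - x * h' x * P 1 - (h (1 / T * x) - x * h' x * P (1 / T)) =
        h x - h (x / T) - x * h' x * (P 1 - P (1 / T)) := by
      rw [show 1 / T * x = x / T by ring]
      ring
    rw [e1] at hmv
    refine hmv.trans ?_
    have h2 : 0 ≤ τ * (x * h' x) := by positivity
    nlinarith
  · intro l hl
    have hl0 : 0 < l := lt_of_lt_of_le hT1 hl.1
    have h1 : HasDerivAt (fun l : ℝ => h (l * x)) (h' (l * x) * x) l := by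
      have h2 := H.deriv (l * x) (mul_pos hl0 hx0)
      exact h2.comp l (hasDerivAt_mul_const x)
    have h3 := (h1.sub ((hP l hl0).const_mul (x * h' x))).hasDerivWithinAt (s := Set.Icc (1 / T) 1)
    rw [mul_comm (h' (l * x)) x] at h3
    exact h3
  · intro l hl
    have h1 := hx l hl.1 hl.2
    rw [Real.norm_eq_abs]
    have e1 : x * h' (l * x) - x * h' x * l ^ (a - 1) =
        (x * h' x) * (h' (l * x) / h' x - l ^ (a - 1)) := by
      field_simp
    rw [e1, abs_mul, abs_of_pos (mul_pos hx0 hpx), mul_comm]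
    exact mul_le_mul_of_nonneg_right h1 (mul_pos hx0 hpx).le

private lemma rvb_ratio (H : Haz h h' a) {T ε : ℝ} (hT : 1 ≤ T) (hε : 0 < ε) :
    ∀ᶠ x : ℝ in atTop, x / T * h' (x / T) ≤ (T ^ (-a) + ε) * (x * h' x) := by
  have hT0 : 0 < T := by linarith
  have h1 := (H.rv (1 / T) (by positivity)).eventually_lt_const
    (show (1 / T) ^ (a - 1) < (1 / T) ^ (a - 1) + ε * T by
      have : 0 < ε * T := by positivity
      linarith)
  filter_upwards [h1, eventually_gt_atTop 0] with x hx hx0
  have hpx := H.pos x hx0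
  rw [div_lt_iff₀ hpx] at hx
  have e1 : (1 / T) * (1 / T) ^ (a - 1) = T ^ (-a) := by
    have h2 : (1 / T) * (1 / T) ^ (a - 1) = (1 / T) ^ a := by
      rw [Real.rpow_sub (by positivity), Real.rpow_one]
      field_simp
    rw [h2, one_div, Real.inv_rpow hT0.le, Real.rpow_neg hT0.le]
  have e2 : x / T = 1 / T * x := by ring
  rw [e2]
  calc 1 / T * x * h' (1 / T * x) ≤ 1 / T * x * (((1 / T) ^ (a - 1) + ε * T) * h' x) :=
        mul_le_mul_of_nonneg_left hx.le (by positivity)
    _ = ((1 / T) * (1 / T) ^ (a - 1) + ε * ((1 / T) * T)) * (x * h' x) := by ring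
    _ = (T ^ (-a) + ε) * (x * h' x) := by rw [e1, one_div_mul_cancel hT0.ne', mul_one]

private lemma rvb_bound (H : Haz h h' a) (ha : 0 < a) :
    ∃ M K : ℝ, 0 ≤ M ∧ 0 < K ∧ ∀ x : ℝ, 0 < x → h x ≤ M + K * (x * h' x) := by
  have hP : ∀ l : ℝ, 0 < l → HasDerivAt (fun l : ℝ => l ^ a / a) (l ^ (a - 1)) l := by
    intro l hl
    have h1 := (Real.hasDerivAt_rpow_const (x := l) (p := a) (Or.inl hl.ne')).div_const a
    rwa [mul_div_cancel_left₀ _ ha.ne'] at h1
  have hq : (2 : ℝ) ^ (-a) < 1 := Real.rpow_lt_one_of_one_lt_of_neg (by norm_num) (by linarith)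
  have hq0 : 0 < (2 : ℝ) ^ (-a) := Real.rpow_pos_of_pos (by norm_num) _
  set q : ℝ := (2 : ℝ) ^ (-a) with hqdef
  have e1 := rvb_incr H hP (T := 2) (τ := 1) (by norm_num) one_pos
  have e2 := rvb_ratio H (T := 2) (ε := (1 - q) / 2) (by norm_num) (by linarith)
  obtain ⟨y1, hy1⟩ := (e1.and e2).exists_forall_of_atTop
  set y0 : ℝ := max y1 1 with hy0
  have hy01 : 1 ≤ y0 := le_max_right _ _
  set D : ℝ := |(1 : ℝ) ^ a / a - (1 / 2) ^ a / a| + 1 with hD
  have hD1 : 1 ≤ D := by rw [hD]; linarith [abs_nonneg ((1 : ℝ) ^ a / a - (1 / 2) ^ a / a)]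
  set K : ℝ := D / ((1 - q) / 2) with hK
  have hq2 : 0 < (1 - q) / 2 := by linarith
  have hK0 : 0 < K := by positivity
  have hKeq : K * ((1 - q) / 2) = D := by rw [hK, div_mul_cancel₀ _ hq2.ne']
  refine ⟨h y0, K, H.nonneg _, hK0, ?_⟩
  have key : ∀ n : ℕ, ∀ x : ℝ, 0 < x → x ≤ 2 ^ n * y0 → h x ≤ h y0 + K * (x * h' x) := by
    intro n
    induction n with
    | zero =>
      intro x hx hxy
      have h1 := H.mono (show x ≤ y0 by simpa using hxy)
      have h2 := mul_pos hx (H.pos x hx)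
      have h3 := mul_pos hK0 h2
      linarith
    | succ n ih =>
      intro x hx hxy
      by_cases hxy0 : x ≤ y0
      · have h1 := H.mono hxy0
        have h2 := mul_pos hx (H.pos x hx)
        have h3 := mul_pos hK0 h2
        linarith
      push Not at hxy0
      have hΦ := mul_pos hx (H.pos x hx)
      have h4 := hy1 x ((le_max_left _ _).trans hxy0.le)
      have h5 := ih (x / 2) (by positivity) (by rw [pow_succ] at hxy; linarith)
      have h6 := (abs_le.1 h4.1).2
      have h7 : x * h' x * ((1 : ℝ) ^ a / a - (1 / 2) ^ a / a) ≤ (D - 1) * (x * h' x) := by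
        rw [mul_comm]
        apply mul_le_mul_of_nonneg_right _ hΦ.le
        rw [hD, add_sub_cancel_right]
        exact le_abs_self _
      have h8 := h4.2
      have h9 := mul_le_mul_of_nonneg_left h8 hK0.le
      have h10 : K * ((q + (1 - q) / 2) * (x * h' x)) = (K - D) * (x * h' x) := by
        rw [← hKeq]
        ring
      nlinarith
  intro x hx
  obtain ⟨n, hn⟩ := pow_unbounded_of_one_lt x (by norm_num : (1 : ℝ) < 2)
  exact key n x hx (hn.le.trans (le_mul_of_one_le_right (by positivity) hy01))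

/-- Karamata: `x h' x / h x → a`. For every `T > 1`,
`h x ≥ h (x/T) + ∫_{x/T}^x h'`, and `∫_{x/T}^x h' ~ x h' x ∫_{1/T}^1 u^(a-1) du`; this gives
`limsup x h'/h ≤ 1 / ∫_{1/T}^1 u^(a-1) du → a` as `T → ∞`. For `a > 0` the lower bound:
Potter bound on `[δ x, x]` and the sum over dyadic blocks `∫_{2^{-k-1}x}^{2^{-k}x} h'`
(ratio of consecutive blocks `≤ 2^(-a+ε)` above a fixed point `x0`, and `x h' x → ∞` kills
`h x0`). -/
theorem Haz.elast (H : Haz h h' a) : Tendsto (fun x : ℝ => x * h' x / h x) atTop (𝓝 a) := by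
  have ha0 := H.a0
  rcases ha0.eq_or_lt with ha | ha
  · -- index `0`
    have hP : ∀ l : ℝ, 0 < l → HasDerivAt Real.log (l ^ (a - 1)) l := by
      intro l hl
      have h1 := Real.hasDerivAt_log hl.ne'
      rwa [← ha, zero_sub, Real.rpow_neg_one]
    rw [← ha, Metric.tendsto_nhds]
    intro η hη
    have hT : 1 ≤ Real.exp (1 / η + 2) := Real.one_le_exp (by positivity)
    have hev := rvb_incr H hP hT one_pos
    filter_upwards [hev, eventually_gt_atTop 0] with x hx hx0
    have hΦ := mul_pos hx0 (H.pos x hx0)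
    have h1 := (abs_le.1 hx).1
    rw [Real.log_one, one_div (Real.exp (1 / η + 2)), Real.log_inv, Real.log_exp, zero_sub,
      neg_neg] at h1
    have h2 := H.nonneg (x / Real.exp (1 / η + 2))
    have h3 : x * h' x * (1 / η + 1) ≤ h x := by nlinarith
    have h4 : 0 < h x := by
      have h5 : 0 < x * h' x * (1 / η + 1) := by positivity
      linarith
    rw [Real.dist_eq, sub_zero, abs_of_pos (div_pos hΦ h4), div_lt_iff₀ h4]
    have h6 : η * (x * h' x * (1 / η + 1)) ≤ η * h x := mul_le_mul_of_nonneg_left h3 hη.le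
    have h7 : η * (x * h' x * (1 / η + 1)) = x * h' x + η * (x * h' x) := by
      field_simp
    have h8 : 0 < η * (x * h' x) := by positivity
    linarith
  · -- positive index
    have hP : ∀ l : ℝ, 0 < l → HasDerivAt (fun l : ℝ => l ^ a / a) (l ^ (a - 1)) l := by
      intro l hl
      have h1 := (Real.hasDerivAt_rpow_const (x := l) (p := a) (Or.inl hl.ne')).div_const a
      rwa [mul_div_cancel_left₀ _ ha.ne'] at h1
    have hPT : ∀ T : ℝ, 0 < T → (1 : ℝ) ^ a / a - (1 / T) ^ a / a = 1 / a - T ^ (-a) / a := by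
      intro T hT
      rw [Real.one_rpow, one_div T, Real.inv_rpow hT.le, Real.rpow_neg hT.le]
    obtain ⟨M, K, hM, hK, hMK⟩ := rvb_bound H ha
    have hmain : Tendsto (fun x : ℝ => h x / (x * h' x)) atTop (𝓝 (1 / a)) := by
      rw [Metric.tendsto_nhds]
      intro σ hσ
      have hlimT : Tendsto (fun T : ℝ => T ^ (-a)) atTop (𝓝 0) := tendsto_rpow_neg_atTop ha
      obtain ⟨T, ⟨hT1, hT2⟩, hT3⟩ := (((hlimT.eventually_lt_const
        (show (0 : ℝ) < a * (σ / 8) by positivity)).and (hlimT.eventually_lt_const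
        (show (0 : ℝ) < σ / 8 / K by positivity))).and (eventually_ge_atTop (1 : ℝ))).exists
      have hT0 : 0 < T := by linarith
      have hTa : 0 < T ^ (-a) := Real.rpow_pos_of_pos hT0 _
      have c1 := rvb_incr H hP hT3 (show 0 < σ / 8 by positivity)
      have c2 := rvb_ratio H hT3 (show 0 < σ / 8 / K by positivity)
      have c3 := H.big.eventually_ge_atTop (M / (σ / 8))
      filter_upwards [c1, c2, c3, eventually_gt_atTop 0] with x h1 h2 h3 hx0
      have hΦ := mul_pos hx0 (H.pos x hx0)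
      rw [hPT T hT0] at h1
      have h4 := abs_le.1 h1
      have h5 : T ^ (-a) / a ≤ σ / 8 := by
        rw [div_le_iff₀ ha]
        linarith
      have h5' : 0 < T ^ (-a) / a := by positivity
      rw [div_le_iff₀ (by positivity)] at h3
      have h6 := H.nonneg (x / T)
      have h7 := hMK (x / T) (by positivity)
      have h8 := mul_le_mul_of_nonneg_left h2 hK.le
      have h9 : K * ((T ^ (-a) + σ / 8 / K) * (x * h' x)) ≤ (σ / 4) * (x * h' x) := by
        rw [← mul_assoc]
        apply mul_le_mul_of_nonneg_right _ hΦ.le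
        have h10 : K * T ^ (-a) < σ / 8 := by
          rw [lt_div_iff₀ hK] at hT2
          linarith
        have h11 : K * (σ / 8 / K) = σ / 8 := by field_simp
        rw [mul_add, h11]
        linarith
      rw [Real.dist_eq]
      have e1 : h x / (x * h' x) - 1 / a = (h x - x * h' x * (1 / a)) / (x * h' x) := by
        rw [sub_div, mul_div_cancel_left₀ _ hΦ.ne']
      rw [e1, abs_div, abs_of_pos hΦ, div_lt_iff₀ hΦ, abs_lt]
      have h12 : 0 < T ^ (-a) / a * (x * h' x) := by positivity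
      have h13 : T ^ (-a) / a * (x * h' x) ≤ σ / 8 * (x * h' x) :=
        mul_le_mul_of_nonneg_right h5 hΦ.le
      have h14 : 0 < σ * (x * h' x) := by positivity
      constructor
      · nlinarith [h4.1]
      · nlinarith [h4.2]
    have hinv := hmain.inv₀ (by positivity : (1 : ℝ) / a ≠ 0)
    rw [one_div, inv_inv] at hinv
    refine hinv.congr fun x => ?_
    rw [inv_div]

end Pool.Agent.Lib.MP_04add8_pr.Gen
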