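import Mathlib
import Pool.Agent.Lib.MP_04add8_pr.Gen.Base
import Pool.Agent.Lib.MP_04add8_pr.Gen.RVB

open MeasureTheory ProbabilityTheory Filter Topology
open scoped ENNReal

set_option linter.unusedSectionVars false

namespace Pool.Agent.Lib.MP_04add8_pr.Gen

variable {h h' : ℝ → ℝ} {a : ℝ}

lemma RVC_pos (H : Haz h h' a) {x : ℝ} (hx : 0 < x) : 0 < h x :=
  lt_of_le_of_lt H.zero (H.strictMono le_rfl hx)

/-- Cauchy mean value theorem for `log h` and `log`. -/
private lemma RVC_mvt (H : Haz h h' a) {x y : ℝ} (hx : 0 < x) (hxy : x ≤ y) :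
    ∃ c, x ≤ c ∧ Real.log (h y) - Real.log (h x) =
      (c * h' c / h c) * (Real.log y - Real.log x) := by
  rcases hxy.eq_or_lt with rfl | hlt
  · exact ⟨x, le_rfl, by simp⟩
  · have hpos : ∀ z ∈ Set.Icc x y, 0 < z := fun z hz => lt_of_lt_of_le hx hz.1
    obtain ⟨c, hc, hcc⟩ := exists_ratio_hasDerivAt_eq_ratio_slope
      (fun z => Real.log (h z)) (fun z => h' z / h z) hlt
      (H.cont.continuousOn.log fun z hz => (RVC_pos H (hpos z hz)).ne')
      (fun z hz => (H.deriv z (hx.trans hz.1)).log (RVC_pos H (hx.trans hz.1)).ne')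
      Real.log (fun z => z⁻¹)
      (Real.continuousOn_log.mono fun z hz => (hpos z hz).ne')
      (fun z hz => Real.hasDerivAt_log (hx.trans hz.1).ne')
    refine ⟨c, hc.1.le, ?_⟩
    have hc0 : 0 < c := hx.trans hc.1
    have hhc : 0 < h c := RVC_pos H hc0
    have h1 : Real.log (h y) - Real.log (h x) =
        ((Real.log (h y) - Real.log (h x)) * c⁻¹) * c := by
      field_simp
    rw [h1, ← hcc]
    field_simp

lemma RVC_log (H : Haz h h' a) {ε : ℝ} (hε : 0 < ε) :
    ∃ X : ℝ, 0 < X ∧ ∀ x y : ℝ, X ≤ x → X ≤ y →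
      |Real.log (h y) - Real.log (h x) - a * (Real.log y - Real.log x)| ≤
        ε * |Real.log y - Real.log x| := by
  obtain ⟨X0, hX0⟩ := ((Metric.tendsto_nhds.1 H.elast) ε hε).exists_forall_of_atTop
  have key : ∀ x y : ℝ, max X0 1 ≤ x → x ≤ y →
      |Real.log (h y) - Real.log (h x) - a * (Real.log y - Real.log x)| ≤
        ε * |Real.log y - Real.log x| := by
    intro x y hx hxy
    have hx0 : 0 < x := lt_of_lt_of_le one_pos ((le_max_right _ _).trans hx)
    obtain ⟨c, hc, hcc⟩ := RVC_mvt H hx0 hxy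
    have h1 := hX0 c (((le_max_left _ _).trans hx).trans hc)
    rw [Real.dist_eq] at h1
    rw [hcc, ← sub_mul, abs_mul]
    exact mul_le_mul_of_nonneg_right h1.le (abs_nonneg _)
  refine ⟨max X0 1, lt_of_lt_of_le one_pos (le_max_right _ _), fun x y hx hy => ?_⟩
  rcases le_total x y with hxy | hxy
  · exact key x y hx hxy
  · have h1 := key y x hy hxy
    rw [abs_sub_comm (Real.log y) (Real.log x)]
    refine le_trans (le_of_eq ?_) h1
    rw [← abs_neg]
    congr 1
    ring

/-- `h (l x) / h x → l ^ a`: `(h (l x) - h x) / h x = (x h' x / h x) ∫_1^l h'(u x)/h' x du`. -/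
theorem Haz.ratio (H : Haz h h' a) {l : ℝ} (hl : 0 < l) :
    Tendsto (fun x : ℝ => h (l * x) / h x) atTop (𝓝 (l ^ a)) := by
  have h1 : Tendsto (fun x : ℝ => Real.log (h (l * x)) - Real.log (h x)) atTop
      (𝓝 (a * Real.log l)) := by
    rw [Metric.tendsto_atTop]
    intro η hη
    obtain ⟨X, hX, hXX⟩ := RVC_log H (ε := η / (|Real.log l| + 1)) (by positivity)
    refine ⟨max X (X / l), fun x hx => ?_⟩
    have hx1 : X ≤ x := (le_max_left _ _).trans hx
    have hx0 : 0 < x := lt_of_lt_of_le hX hx1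
    have hx2 : X ≤ l * x := by
      have : X / l ≤ x := (le_max_right _ _).trans hx
      rw [div_le_iff₀ hl] at this
      linarith
    have h2 := hXX x (l * x) hx1 hx2
    rw [Real.log_mul hl.ne' hx0.ne', add_sub_cancel_right] at h2
    rw [Real.dist_eq]
    refine lt_of_le_of_lt h2 ?_
    rw [div_mul_eq_mul_div, div_lt_iff₀ (by positivity)]
    nlinarith [abs_nonneg (Real.log l)]
  have h2 := (Real.continuous_exp.tendsto _).comp h1
  have h3 : Real.exp (a * Real.log l) = l ^ a := by
    rw [Real.rpow_def_of_pos hl, mul_comm]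
  rw [h3] at h2
  refine h2.congr' ?_
  filter_upwards [eventually_gt_atTop 0] with x hx
  simp only [Function.comp]
  rw [Real.exp_sub, Real.exp_log (RVC_pos H (mul_pos hl hx)), Real.exp_log (RVC_pos H hx)]

/-- uniform version up to `0` (`a > 0`): monotone functions of `u` with continuous limit. -/
theorem Haz.ratio_unif (H : Haz h h' a) (ha : 0 < a) {D τ : ℝ} (hτ : 0 < τ) :
    ∀ᶠ x : ℝ in atTop, ∀ u : ℝ, 0 ≤ u → u ≤ D * x → |h u - (u / x) ^ a * h x| ≤ τ * h x := by
  -- small `v0`
  set v0 : ℝ := min 1 ((τ / 3) ^ (1 / a)) with hv0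
  have hv0pos : 0 < v0 := lt_min one_pos (Real.rpow_pos_of_pos (by positivity) _)
  have hv0a : v0 ^ a ≤ τ / 3 := by
    calc v0 ^ a ≤ ((τ / 3) ^ (1 / a)) ^ a :=
          Real.rpow_le_rpow hv0pos.le (min_le_right _ _) ha.le
      _ = τ / 3 := by
          rw [← Real.rpow_mul (by positivity), one_div, inv_mul_cancel₀ ha.ne', Real.rpow_one]
  set E : ℝ := max D 1 with hE
  have hE1 : 1 ≤ E := le_max_right _ _
  have hE0 : 0 < E := by linarith
  set L : ℝ := |Real.log v0| + |Real.log E| + 1 with hL
  have hL0 : 0 < L := by positivity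
  have hEa : 0 < E ^ a := Real.rpow_pos_of_pos hE0 _
  -- `E ^ a * (exp η - 1) ≤ τ`
  obtain ⟨η, hη, hη1⟩ : ∃ η : ℝ, 0 < η ∧ E ^ a * (Real.exp η - 1) ≤ τ := by
    refine ⟨Real.log (1 + τ / E ^ a), Real.log_pos (by
      have : 0 < τ / E ^ a := by positivity
      linarith), ?_⟩
    rw [Real.exp_log (by positivity)]
    apply le_of_eq
    field_simp
    ring
  obtain ⟨X, hX, hXX⟩ := RVC_log H (ε := η / L) (by positivity)
  have hr := (Metric.tendsto_nhds.1 (H.ratio hv0pos)) (τ / 3) (by positivity)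
  filter_upwards [hr, eventually_ge_atTop X, eventually_ge_atTop (X / v0),
    eventually_gt_atTop 0] with x hx1 hx2 hx3 hx0 u hu0 huD
  have hhx : 0 < h x := RVC_pos H hx0
  rcases le_total u (v0 * x) with huv | huv
  · have h1 : h u ≤ h (v0 * x) := H.mono huv
    rw [Real.dist_eq, abs_lt] at hx1
    have h2 : h (v0 * x) ≤ (v0 ^ a + τ / 3) * h x := by
      rw [← div_le_iff₀ hhx]
      linarith [hx1.2]
    have h3 : (u / x) ^ a ≤ v0 ^ a := by
      apply Real.rpow_le_rpow (div_nonneg hu0 hx0.le) _ ha.le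
      rw [div_le_iff₀ hx0]
      exact huv
    have h4 : 0 ≤ (u / x) ^ a := Real.rpow_nonneg (div_nonneg hu0 hx0.le) _
    have h5 := H.nonneg u
    rw [abs_le]
    constructor
    · nlinarith
    · nlinarith
  · have hu : 0 < u := lt_of_lt_of_le (mul_pos hv0pos hx0) huv
    have hXu : X ≤ u := by
      rw [div_le_iff₀ hv0pos] at hx3
      linarith
    have h1 := hXX x u hx2 hXu
    have hlog : Real.log u - Real.log x = Real.log (u / x) := (Real.log_div hu.ne' hx0.ne').symm
    have hux : 0 < u / x := div_pos hu hx0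
    have hle : |Real.log (u / x)| ≤ L := by
      have h2 : Real.log v0 ≤ Real.log (u / x) := by
        apply Real.log_le_log hv0pos
        rw [le_div_iff₀ hx0]
        exact huv
      have h3 : Real.log (u / x) ≤ Real.log E := by
        apply Real.log_le_log hux
        rw [div_le_iff₀ hx0]
        exact huD.trans (mul_le_mul_of_nonneg_right (le_max_left _ _) hx0.le)
      rw [abs_le]
      constructor
      · have := neg_abs_le (Real.log v0)
        have h4 := abs_nonneg (Real.log E)
        linarith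
      · have := le_abs_self (Real.log E)
        have h4 := abs_nonneg (Real.log v0)
        linarith
    rw [hlog] at h1
    set t : ℝ := Real.log (h u) - Real.log (h x) - a * Real.log (u / x) with ht
    have h2 : |t| ≤ η := by
      refine h1.trans ?_
      rw [div_mul_eq_mul_div, div_le_iff₀ hL0]
      exact mul_le_mul_of_nonneg_left hle hη.le
    have h3 : h u = (u / x) ^ a * h x * Real.exp t := by
      have h4 : Real.log (h u) = a * Real.log (u / x) + Real.log (h x) + t := by
        rw [ht]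
        ring
      rw [← Real.exp_log (RVC_pos H hu), h4, Real.exp_add, Real.exp_add,
        Real.exp_log hhx, Real.rpow_def_of_pos hux, mul_comm a]
    have h4 : |Real.exp t - 1| ≤ Real.exp η - 1 := by
      have h5 := abs_le.1 h2
      rw [abs_le]
      constructor
      · have h6 := Real.add_one_le_exp t
        have h7 := Real.add_one_le_exp η
        have h8 : Real.exp (-η) ≤ Real.exp t := Real.exp_le_exp.2 h5.1
        have h9 : Real.exp (-η) * Real.exp η = 1 := by
          rw [← Real.exp_add]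
          simp
        nlinarith [Real.exp_pos η, Real.exp_pos (-η), sq_nonneg (Real.exp η - 1)]
      · have := Real.exp_le_exp.2 h5.2
        linarith
    have h5 : (u / x) ^ a ≤ E ^ a := by
      apply Real.rpow_le_rpow hux.le _ ha.le
      rw [div_le_iff₀ hx0]
      exact huD.trans (mul_le_mul_of_nonneg_right (le_max_left _ _) hx0.le)
    have h6 : 0 ≤ (u / x) ^ a := Real.rpow_nonneg hux.le _
    have h7 : h u - (u / x) ^ a * h x = (u / x) ^ a * (Real.exp t - 1) * h x := by
      rw [h3]
      ring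
    rw [h7, abs_mul, abs_mul, abs_of_pos hhx, abs_of_nonneg h6]
    refine mul_le_mul_of_nonneg_right ?_ hhx.le
    calc (u / x) ^ a * |Real.exp t - 1| ≤ E ^ a * (Real.exp η - 1) :=
          mul_le_mul h5 h4 (abs_nonneg _) hEa.le
      _ ≤ τ := hη1

end Pool.Agent.Lib.MP_04add8_pr.Gen
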