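import Mathlib
import Pool.Agent.Lib.MP_04add8_pr.Gen.Base
import Pool.Agent.Lib.MP_04add8_pr.Gen.RVC

open MeasureTheory ProbabilityTheory Filter Topology
open scoped ENNReal

set_option linter.unusedSectionVars false

namespace Pool.Agent.Lib.MP_04add8_pr.Gen

variable {h h' : ℝ → ℝ} {a : ℝ}

/-- exponentials of `h` beat every power -/
theorem Haz.rpow_exp (H : Haz h h' a) (p : ℝ) {c : ℝ} (hc : 0 < c) :
    Tendsto (fun x : ℝ => x ^ p * Real.exp (-(c * h x))) atTop (𝓝 0) := by
  have h1 := H.log_le ((p + 1) / c)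
  refine tendsto_of_tendsto_of_tendsto_of_le_of_le' tendsto_const_nhds tendsto_inv_atTop_zero ?_ ?_
  · filter_upwards [eventually_gt_atTop 0] with x hx
    exact mul_nonneg (Real.rpow_nonneg hx.le _) (Real.exp_pos _).le
  · filter_upwards [h1, eventually_gt_atTop 0] with x hx hx0
    have h2 : (p + 1) * Real.log x ≤ c * h x := by
      rw [div_mul_eq_mul_div, div_le_iff₀ hc] at hx
      linarith
    calc x ^ p * Real.exp (-(c * h x)) ≤ x ^ p * Real.exp (-((p + 1) * Real.log x)) :=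
          mul_le_mul_of_nonneg_left (Real.exp_le_exp.2 (by linarith)) (Real.rpow_nonneg hx0.le _)
      _ = x⁻¹ := by
          rw [Real.rpow_def_of_pos hx0, ← Real.exp_add]
          have : Real.log x * p + -((p + 1) * Real.log x) = -Real.log x := by ring
          rw [this, Real.exp_neg, Real.exp_log hx0]

/-- consequence of `x h' x → ∞` -/
theorem Haz.deriv_ge (H : Haz h h' a) (M : ℝ) : ∀ᶠ x : ℝ in atTop, M / x ≤ h' x := by
  filter_upwards [H.big.eventually_ge_atTop M, eventually_gt_atTop 0] with x hx hx0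
  rw [div_le_iff₀ hx0]
  linarith

/-- `x (h' (c x)) ^ (K+1) → 0` when `(K+1)(1-a) > 1` -/
theorem Haz.mul_pow (H : Haz h h' a) {K : ℕ} (hK : 1 < (K + 1) * (1 - a)) {c : ℝ} (hc : 0 < c) :
    Tendsto (fun x : ℝ => x * (h' (c * x)) ^ (K + 1)) atTop (𝓝 0) := by
  have hK1 : (0 : ℝ) < K + 1 := by positivity
  set ε : ℝ := ((K + 1) * (1 - a) - 1) / (2 * (K + 1)) with hε
  have hε0 : 0 < ε := div_pos (by linarith) (by linarith)
  have hev := (tendsto_id.const_mul_atTop hc).eventually (H.potter hε0)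
  set e : ℝ := ((K + 1) * (1 - a) - 1) / 2 with he
  have he0 : 0 < e := by
    rw [he]
    linarith
  have hee : 1 + (a - 1 + ε) * (K + 1) = -e := by
    rw [hε, he]
    field_simp
    ring
  have hlim : Tendsto (fun x : ℝ => c ^ ((a - 1 + ε) * (K + 1)) * x ^ (-e)) atTop (𝓝 0) := by
    simpa using (tendsto_rpow_neg_atTop he0).const_mul (c ^ ((a - 1 + ε) * (K + 1)))
  refine tendsto_of_tendsto_of_tendsto_of_le_of_le' tendsto_const_nhds hlim ?_ ?_
  · filter_upwards [eventually_gt_atTop 0] with x hx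
    exact mul_nonneg hx.le (pow_nonneg (H.pos _ (mul_pos hc hx)).le _)
  · filter_upwards [hev, eventually_gt_atTop 0] with x hx hx0
    simp only [id] at hx
    have hcx : 0 < c * x := mul_pos hc hx0
    have h1 : (h' (c * x)) ^ (K + 1) ≤ ((c * x) ^ (a - 1 + ε)) ^ (K + 1) :=
      pow_le_pow_left₀ (H.pos _ hcx).le hx _
    have h2 : ((c * x) ^ (a - 1 + ε)) ^ (K + 1) =
        c ^ ((a - 1 + ε) * (K + 1)) * x ^ ((a - 1 + ε) * (K + 1)) := by
      rw [← Real.rpow_natCast, ← Real.rpow_mul hcx.le, Real.mul_rpow hc.le hx0.le]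
      push_cast
      rfl
    have h3 : x * x ^ ((a - 1 + ε) * (K + 1)) = x ^ (-e) := by
      rw [← hee, Real.rpow_add hx0, Real.rpow_one]
    calc x * (h' (c * x)) ^ (K + 1) ≤ x * ((c * x) ^ (a - 1 + ε)) ^ (K + 1) :=
          mul_le_mul_of_nonneg_left h1 hx0.le
      _ = c ^ ((a - 1 + ε) * (K + 1)) * (x * x ^ ((a - 1 + ε) * (K + 1))) := by
          rw [h2]
          ring
      _ = _ := by rw [h3]

/-- `x (h x / x) ^ (K+1) → 0` when `(K+1)(1-a) > 1`: `h x ≤ x^(a+ε)` eventually -/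
theorem Haz.mul_pow' (H : Haz h h' a) {K : ℕ} (hK : 1 < (K + 1) * (1 - a)) :
    Tendsto (fun x : ℝ => x * (h x / x) ^ (K + 1)) atTop (𝓝 0) := by
  have hK1 : (0 : ℝ) < K + 1 := by positivity
  set ε : ℝ := ((K + 1) * (1 - a) - 1) / (2 * (K + 1)) with hε
  have hε0 : 0 < ε := div_pos (by linarith) (by linarith)
  obtain ⟨X, hX, hXX⟩ := RVC_log H hε0
  set e : ℝ := ((K + 1) * (1 - a) - 1) / 2 with he
  have he0 : 0 < e := by
    rw [he]
    linarith
  have hee : 1 + (a + ε - 1) * (K + 1) = -e := by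
    rw [hε, he]
    field_simp
    ring
  set A : ℝ := h X * X ^ (-(a + ε)) with hA
  have hA0 : 0 < A := mul_pos (RVC_pos H hX) (Real.rpow_pos_of_pos hX _)
  have hlim : Tendsto (fun x : ℝ => A ^ (K + 1) * x ^ (-e)) atTop (𝓝 0) := by
    simpa using (tendsto_rpow_neg_atTop he0).const_mul (A ^ (K + 1))
  refine tendsto_of_tendsto_of_tendsto_of_le_of_le' tendsto_const_nhds hlim ?_ ?_
  · filter_upwards [eventually_gt_atTop 0] with x hx
    exact mul_nonneg hx.le (pow_nonneg (div_nonneg (H.nonneg x) hx.le) _)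
  · filter_upwards [eventually_ge_atTop X] with x hx
    have hx0 : 0 < x := lt_of_lt_of_le hX hx
    have h1 := hXX X x le_rfl hx
    have hl : 0 ≤ Real.log x - Real.log X := sub_nonneg.2 (Real.log_le_log hX hx)
    rw [abs_of_nonneg hl] at h1
    have h2 := (abs_le.1 h1).2
    have h3 : h x ≤ A * x ^ (a + ε) := by
      have h4 : Real.log (h x) ≤ Real.log (A * x ^ (a + ε)) := by
        rw [Real.log_mul hA0.ne' (Real.rpow_pos_of_pos hx0 _).ne', hA,
          Real.log_mul (RVC_pos H hX).ne' (Real.rpow_pos_of_pos hX _).ne', Real.log_rpow hX,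
          Real.log_rpow hx0]
        linarith
      exact (Real.log_le_log_iff (RVC_pos H hx0)
        (mul_pos hA0 (Real.rpow_pos_of_pos hx0 _))).1 h4
    have h5 : h x / x ≤ A * x ^ (a + ε - 1) := by
      rw [div_le_iff₀ hx0, mul_assoc]
      have : x ^ (a + ε - 1) * x = x ^ (a + ε) := by
        rw [Real.rpow_sub_one hx0.ne']
        field_simp
      rw [this]
      exact h3
    have h6 : (h x / x) ^ (K + 1) ≤ (A * x ^ (a + ε - 1)) ^ (K + 1) :=
      pow_le_pow_left₀ (div_nonneg (H.nonneg x) hx0.le) h5 _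
    have h7 : (x ^ (a + ε - 1)) ^ (K + 1) = x ^ ((a + ε - 1) * (K + 1)) := by
      rw [← Real.rpow_natCast, ← Real.rpow_mul hx0.le]
      push_cast
      rfl
    have h8 : x * x ^ ((a + ε - 1) * (K + 1)) = x ^ (-e) := by
      rw [← hee, Real.rpow_add hx0, Real.rpow_one]
    calc x * (h x / x) ^ (K + 1) ≤ x * (A * x ^ (a + ε - 1)) ^ (K + 1) :=
          mul_le_mul_of_nonneg_left h6 hx0.le
      _ = A ^ (K + 1) * (x * x ^ ((a + ε - 1) * (K + 1))) := by
          rw [_root_.mul_pow, h7]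
          ring
      _ = _ := by rw [h8]

/-- a tilt of order `h x / x` is harmless for jobs `≤ β1 x`: since `h v / v` is nonincreasing it is
enough to check `v = β1 x`, i.e. `K β1 h x ≤ h (β1 x) / 4`, and `h (β1 x) / h x → β1 ^ a`,
`K β1 < β1 ^ a / 4` for small `β1`. -/
theorem Haz.tilt_ev (H : Haz h h' a) (K : ℝ) : ∃ β1 : ℝ, 0 < β1 ∧ ∀ β : ℝ, 0 < β → β ≤ β1 →
    ∀ᶠ x : ℝ in atTop, Tilt h (K * (h x / x)) (β * x) := by
  have ha : 0 < 1 - a := by linarith [H.a1]
  set L : ℝ := 4 * |K| + 1 with hL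
  have hL0 : 0 < L := by positivity
  refine ⟨(1 / (2 * L)) ^ (1 / (1 - a)), Real.rpow_pos_of_pos (by positivity) _, ?_⟩
  intro β hβ hβ1
  have h1 : β ^ (1 - a) ≤ 1 / (2 * L) := by
    calc β ^ (1 - a) ≤ ((1 / (2 * L)) ^ (1 / (1 - a))) ^ (1 - a) :=
          Real.rpow_le_rpow hβ.le hβ1 ha.le
      _ = 1 / (2 * L) := by
          rw [← Real.rpow_mul (by positivity), one_div (1 - a), inv_mul_cancel₀ ha.ne',
            Real.rpow_one]
  have hβa : 0 < β ^ a := Real.rpow_pos_of_pos hβ _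
  have h2 : L * β < β ^ a := by
    have h3 : β = β ^ a * β ^ (1 - a) := by
      rw [← Real.rpow_add hβ]
      simp
    have h4 : L * β = β ^ a * (L * β ^ (1 - a)) := by
      calc L * β = L * (β ^ a * β ^ (1 - a)) := by rw [← h3]
        _ = _ := by ring
    rw [h4]
    have h5 : L * β ^ (1 - a) ≤ 1 / 2 := by
      calc L * β ^ (1 - a) ≤ L * (1 / (2 * L)) := mul_le_mul_of_nonneg_left h1 hL0.le
        _ = 1 / 2 := by field_simp
    nlinarith
  have hev : ∀ᶠ x : ℝ in atTop, L * β < h (β * x) / h x := (H.ratio hβ).eventually (lt_mem_nhds h2)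
  filter_upwards [hev, eventually_gt_atTop 0] with x hx hx0
  intro s hs0 hsB
  have hhx : 0 < h x := RVC_pos H hx0
  rw [lt_div_iff₀ hhx] at hx
  rcases hs0.eq_or_lt with rfl | hs
  · have := H.zero
    rw [mul_zero]
    linarith
  · have h3 := H.mul_le hs hsB
    have hβx : 0 < β * x := mul_pos hβ hx0
    -- `s * h (β x) ≤ β x h s`
    have h4 : 4 * |K| * β * h x ≤ h (β * x) := by
      have : 4 * |K| * β * h x ≤ L * β * h x := by
        have h5 : 0 ≤ β * h x := by positivity
        nlinarith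
      linarith
    have h5 : s * (4 * |K| * β * h x) ≤ β * x * h s :=
      (mul_le_mul_of_nonneg_left h4 hs.le).trans h3
    have h6 : s * (4 * |K| * h x) ≤ x * h s := by
      have h7 : β * (s * (4 * |K| * h x)) ≤ β * (x * h s) := by linarith
      exact le_of_mul_le_mul_left h7 hβ
    have h7 : K * (h x / x) * s ≤ |K| * (h x / x) * s :=
      mul_le_mul_of_nonneg_right (mul_le_mul_of_nonneg_right (le_abs_self K)
        (div_pos hhx hx0).le) hs.le
    refine h7.trans ?_
    have h8 : |K| * (h x / x) * s = s * (4 * |K| * h x) / (4 * x) := by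
      field_simp
    rw [h8, div_le_iff₀ (by positivity)]
    linarith

/-- windows of size `exp (σ h x)` are long: `h y ≥ (M + 1)/σ log y` for large `y`. -/
theorem Haz.window (H : Haz h h' a) {σ c M : ℝ} (hσ : 0 < σ) (hc : 0 < c) :
    ∀ᶠ x : ℝ in atTop, M * h x ≤ h (c * Real.exp (σ * h x)) := by
  have hy : Tendsto (fun x : ℝ => c * Real.exp (σ * h x)) atTop atTop :=
    (Real.tendsto_exp_atTop.comp (H.tendsto_h.const_mul_atTop hσ)).const_mul_atTop hc
  have h1 := hy.eventually (H.log_le ((|M| + 1) / σ))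
  have h2 := H.tendsto_h.eventually_ge_atTop (-((|M| + 1) / σ * Real.log c))
  filter_upwards [h1, h2] with x hx1 hx2
  rw [Real.log_mul hc.ne' (Real.exp_pos _).ne', Real.log_exp] at hx1
  have h3 : (|M| + 1) / σ * (Real.log c + σ * h x) =
      (|M| + 1) / σ * Real.log c + (|M| + 1) * h x := by
    field_simp
  rw [h3] at hx1
  have h4 : M * h x ≤ |M| * h x := mul_le_mul_of_nonneg_right (le_abs_self M) (H.nonneg x)
  linarith

/-- comparison of `h` at two proportional points, additive form with `x h' x`: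
lower (upper) bound of the increment by the derivative at the right (left) end and doubling -/
theorem Haz.diff_two (H : Haz h h' a) : ∃ c : ℝ, 0 < c ∧ ∀ x : ℝ, 0 < x →
    c * (x * h' x) ≤ h (2 * x) - h x := by
  obtain ⟨C, -, hC⟩ := H.doubling
  have h2C : (0 : ℝ) < 2 ^ C := Real.rpow_pos_of_pos two_pos _
  refine ⟨1 / 2 ^ C, by positivity, fun x hx => ?_⟩
  have h1 := H.lower_deriv hx.le (show x ≤ 2 * x by linarith) (by linarith)
  have h2 := hC x 2 hx (by norm_num)
  calc 1 / 2 ^ C * (x * h' x) ≤ 1 / 2 ^ C * (x * (2 ^ C * h' (2 * x))) := by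
        refine mul_le_mul_of_nonneg_left (mul_le_mul_of_nonneg_left h2 hx.le) (by positivity)
    _ = (2 * x - x) * h' (2 * x) := by
        field_simp
        ring
    _ ≤ _ := h1

end Pool.Agent.Lib.MP_04add8_pr.Gen
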