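import Mathlib
import Pool.Agent.Lib.MP_04add8_pr.Gen.Drift
import Pool.Agent.Lib.MP_04add8_pr.Gen.RV

open MeasureTheory ProbabilityTheory Filter Topology
open scoped ENNReal

set_option linter.unusedSectionVars false

namespace Pool.Agent.Lib.MP_04add8_pr.Gen

variable {h h' : ℝ → ℝ} {a : ℝ} {μ ν : Measure ℝ} [IsProbabilityMeasure μ]
  [IsProbabilityMeasure ν]

/-- `h ((1 + 1/b) q) ≤ (2 - g) h q + C` when `(1 + 1/b)^a < 2 - g`: `Haz.ratio` for large `q`,
monotonicity for the others. -/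
lemma ggain_const (H : Haz h h' a) {b g : ℝ} (hb : 0 < b) (hg : (1 + 1 / b) ^ a < 2 - g) :
    ∃ C : ℝ, 0 ≤ C ∧ ∀ q : ℝ, 0 ≤ q → h ((1 + 1 / b) * q) ≤ (2 - g) * h q + C := by
  have hl : 0 < 1 + 1 / b := by positivity
  have h2g : 0 < 2 - g := lt_trans (Real.rpow_pos_of_pos hl a) hg
  obtain ⟨X, hX⟩ := eventually_atTop.1
    (((H.ratio hl).eventually_lt_const hg).and (H.tendsto_h.eventually_gt_atTop 0))
  refine ⟨h ((1 + 1 / b) * X), H.nonneg _, fun q hq => ?_⟩
  rcases le_total X q with hXq | hXq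
  · obtain ⟨h1, h2⟩ := hX q hXq
    rw [div_lt_iff₀ h2] at h1
    have h3 := H.nonneg ((1 + 1 / b) * X)
    linarith
  · have h1 : h ((1 + 1 / b) * q) ≤ h ((1 + 1 / b) * X) :=
      H.mono (mul_le_mul_of_nonneg_left hXq hl.le)
    have h2 := mul_nonneg h2g.le (H.nonneg q)
    linarith

/-- one-job argument: `h (w.2 + w.1 / b) ≤ cost w + C` -/
lemma ggain_low (H : Haz h h' a) {b R g C : ℝ} (hb : 0 < b) (hR : 0 < R)
    (hg : 0 ≤ g) (hC : 0 ≤ C) (hq : ∀ q : ℝ, 0 ≤ q → h ((1 + 1 / b) * q) ≤ (2 - g) * h q + C)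
    {w : ℝ × ℝ} (h0 : 0 ≤ w.1) (h1 : w.1 ≤ w.2) :
    h (w.2 + w.1 / b) ≤ gcost h b R w + C := by
  rw [← sub_le_iff_le_add]
  unfold gcost
  apply le_min
  · have h2 : w.2 + w.1 / b ≤ bigA b R w := by
      unfold bigA
      have h3 : w.1 ≤ √(w.1 ^ 2 + R ^ 2) := by
        apply Real.le_sqrt_of_sq_le; nlinarith [sq_nonneg R]
      have h4 : w.1 / b ≤ √(w.1 ^ 2 + R ^ 2) / b := by gcongr
      linarith
    have h5 := H.mono h2
    linarith
  · have h2 := H.incr_anti h0 h1 (d := w.1 / b) (by positivity)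
    have h3 := hq w.1 h0
    have e : w.1 + w.1 / b = (1 + 1 / b) * w.1 := by ring
    rw [e] at h2
    have h4 := mul_nonneg hg (H.nonneg w.1)
    linarith

/-- **Strict subadditivity** of the cost. Original: `gain_one` in `One/BadBig.lean`. With
`U = w.2 + w.1/b`, `M = max U s`, `q = min U s`: `cost (kwStep) ≤ h (M + q/b) + h (R/b)`,
`h (M + q/b) ≤ h M + h ((1+1/b) q) - h q ≤ h U + h s - g h q + C` (`Haz.incr_anti`), and
`ggain_low`. -/
theorem ggain (H : Haz h h' a) {b R g C : ℝ} (hb : 0 < b) (hb1 : b < 1) (hR : 0 < R)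
    (hg : 0 ≤ g) (hC : 0 ≤ C) (hq : ∀ q : ℝ, 0 ≤ q → h ((1 + 1 / b) * q) ≤ (2 - g) * h q + C)
    {w : ℝ × ℝ} (h0 : 0 ≤ w.1) (h1 : w.1 ≤ w.2) {s t : ℝ} (hs : 0 ≤ s) (ht : 0 ≤ t) :
    gcost h b R (kwStep w s t) ≤ gcost h b R w + h s - g * h (min w.2 s) + 2 * C + h (R / b) := by
  have hw2 : 0 ≤ w.2 := h0.trans h1
  have hib : 1 ≤ 1 / b := by rw [le_div_iff₀ hb]; linarith
  -- step 1
  have hstep := gcost_kwStep_le H (b := b) (R := R) hb w s ht
  have e0 : max (w.1 + s - 0) 0 = w.1 + s := by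
    rw [sub_zero]; exact max_eq_left (by linarith)
  have e1 : max (w.2 - 0) 0 = w.2 := by
    rw [sub_zero]; exact max_eq_left hw2
  rw [e0, e1] at hstep
  set mn := min (w.1 + s) w.2 with hmn
  set mx := max (w.1 + s) w.2 with hmx
  have hmn0 : 0 ≤ mn := le_min (by linarith) hw2
  have hmx0 : 0 ≤ mx := hw2.trans (le_max_right _ _)
  set U := w.2 + w.1 / b with hU
  have hU0 : 0 ≤ U := by rw [hU]; positivity
  have hwU : w.2 ≤ U := by
    rw [hU]
    have : 0 ≤ w.1 / b := by positivity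
    linarith
  have hkey : mx + mn / b ≤ max U s + min U s / b := by
    have hdiv : ∀ z : ℝ, z / b = 1 / b * z := fun z => by ring
    rcases le_total (w.1 + s) w.2 with h | h
    · rw [hmx, hmn, max_eq_right h, min_eq_left h]
      have hsU : s ≤ U := by linarith
      rw [max_eq_left hsU, min_eq_right hsU, hU, add_div]
      linarith
    · rw [hmx, hmn, max_eq_left h, min_eq_right h]
      rcases le_total s U with hsU | hsU
      · rw [max_eq_left hsU, min_eq_right hsU, hU]
        rw [hdiv w.2, hdiv w.1, hdiv s]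
        nlinarith
      · rw [max_eq_right hsU, min_eq_left hsU, hU, add_div]
        have h2 : w.1 ≤ w.1 / b / b := by
          rw [hdiv (w.1 / b), hdiv w.1]
          have h3 : w.1 ≤ 1 / b * w.1 := by nlinarith
          nlinarith
        linarith
  have hq0 : 0 ≤ min U s := le_min hU0 hs
  have hqM : min U s ≤ max U s := min_le_max
  have hM0 : 0 ≤ max U s := hU0.trans (le_max_left _ _)
  -- step 2
  have hcost1 : gcost h b R (mn, mx) ≤ h (mx + mn / b) + h (R / b) := by
    unfold gcost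
    refine (min_le_left _ _).trans ?_
    have h2 : bigA b R (mn, mx) ≤ (mx + mn / b) + R / b := by
      unfold bigA
      have h3 : √(mn ^ 2 + R ^ 2) ≤ mn + R := by
        apply Real.sqrt_le_iff.mpr
        exact ⟨by positivity, by nlinarith⟩
      have h4 : √(mn ^ 2 + R ^ 2) / b ≤ (mn + R) / b := by gcongr
      rw [add_div] at h4
      simp only
      linarith
    exact (H.mono h2).trans (H.add_le (by positivity) (by positivity))
  have hcost2 : h (mx + mn / b) ≤ h (max U s + min U s / b) := H.mono hkey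
  have hcost3 := H.incr_anti hq0 hqM (d := min U s / b) (by positivity)
  have e : min U s + min U s / b = (1 + 1 / b) * min U s := by ring
  rw [e] at hcost3
  have hcost4 := hq (min U s) hq0
  have hsum : h (max U s) + h (min U s) = h U + h s := by
    rcases le_total U s with h | h
    · rw [max_eq_right h, min_eq_left h]; ring
    · rw [max_eq_left h, min_eq_right h]
  have hmin : h (min w.2 s) ≤ h (min U s) := H.mono (min_le_min hwU le_rfl)
  have hmin' : g * h (min w.2 s) ≤ g * h (min U s) := mul_le_mul_of_nonneg_left hmin hg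
  -- step 3
  have hlow := ggain_low H hb hR hg hC hq h0 h1
  rw [← hU] at hlow
  linarith

/-- lower bound of the cost of a state with both servers above `x` -/
lemma gcost_lower (H : Haz h h' a) {b R : ℝ} (hb : 0 < b) {w : ℝ × ℝ} {x : ℝ} (hx : 0 ≤ x)
    (h1 : w.1 ≤ w.2) (hxw : x < w.1) : min (h ((1 + 1 / b) * x)) (2 * h x) ≤ gcost h b R w := by
  unfold gcost
  apply le_min
  · refine (min_le_left _ _).trans (H.mono ?_)
    unfold bigA
    have h3 : w.1 ≤ √(w.1 ^ 2 + R ^ 2) := by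
      apply Real.le_sqrt_of_sq_le; nlinarith [sq_nonneg R]
    have h4 : x / b ≤ √(w.1 ^ 2 + R ^ 2) / b := by
      have : x ≤ √(w.1 ^ 2 + R ^ 2) := hxw.le.trans h3
      gcongr
    have e : (1 + 1 / b) * x = x + x / b := by ring
    rw [e]
    linarith
  · refine (min_le_right _ _).trans ?_
    have h2 := H.mono hxw.le
    have h3 := H.mono (hxw.le.trans h1)
    linarith

end Pool.Agent.Lib.MP_04add8_pr.Gen
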