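import Mathlib
import Pool.Agent.Lib.MP_04add8_pr.Gen.Drift
import Pool.Agent.Lib.MP_04add8_pr.Gen.LawM
import Pool.Agent.Lib.MP_04add8_pr.Upper

open MeasureTheory ProbabilityTheory Filter Topology
open scoped ENNReal

set_option linter.unusedSectionVars false

namespace Pool.Agent.Lib.MP_04add8_pr.Gen

variable {h h' : ℝ → ℝ} {a : ℝ} {μ ν : Measure ℝ} [IsProbabilityMeasure μ]
  [IsProbabilityMeasure ν]

/-! Original: `DriftInt.lean`. -/

lemma gpointwise_bound (H : Haz h h' a) {b R M lam c s₀ ε q : ℝ}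
    (hb : 0 < b) (hR : 0 < R) (hM : 0 ≤ M) (hl0 : 0 < lam) (hl1 : lam < 1)
    (hc : lam < c) (hs0 : 0 ≤ s₀) (hε : 0 ≤ ε) (hq : 0 ≤ q) (hq1 : q ≤ 1)
    (hsmall : ε * domG b R M s₀ ≤ 1) {J J' s t : ℝ} (hs : 0 ≤ s) (ht : 0 ≤ t)
    (hJ1 : J' ≤ J + h s + 1) (hJ2 : J' ≤ J + ε * incr b R M q s t) :
    Real.exp (lam * J') ≤ Real.exp (lam * J) *
      (1 + lam * ε * incr b R M q s t + (ε * domG b R M s) ^ 2 +
        Real.exp (1 - (c - lam) * h s₀) * Real.exp (c * h s)) := by
  set z := lam * ε * incr b R M q s t with hz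
  have habs := abs_incr_le hb hR hM hq hq1 hs ht
  have hG0 : 0 ≤ domG b R M s := (abs_nonneg _).trans habs
  have hz2 : z ^ 2 ≤ (ε * domG b R M s) ^ 2 := by
    apply sq_le_sq'
    · have h1 : -(domG b R M s) ≤ incr b R M q s t := (abs_le.mp habs).1
      have h2 : -(ε * domG b R M s) ≤ ε * incr b R M q s t := by nlinarith
      have h3 : 0 ≤ ε * domG b R M s := by positivity
      rw [hz]
      nlinarith
    · have h1 : incr b R M q s t ≤ domG b R M s := (abs_le.mp habs).2
      have h2 : ε * incr b R M q s t ≤ ε * domG b R M s := by gcongr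
      have h3 : 0 ≤ ε * domG b R M s := by positivity
      rw [hz]
      nlinarith
  rcases le_or_gt s s₀ with hss | hss
  · -- small job
    have h1 : incr b R M q s t ≤ domG b R M s₀ := by
      refine ((abs_le.mp habs).2).trans ?_
      unfold domG
      gcongr
    have hz1 : z ≤ 1 := by
      have h4 : ε * incr b R M q s t ≤ ε * domG b R M s₀ := by gcongr
      have h5 : ε * incr b R M q s t ≤ 1 := h4.trans hsmall
      rw [hz, mul_assoc]
      nlinarith
    have h2 : Real.exp (lam * J') ≤ Real.exp (lam * J) * Real.exp z := by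
      rw [← Real.exp_add]
      apply Real.exp_le_exp.mpr
      rw [hz]
      nlinarith
    refine h2.trans ?_
    gcongr
    have h3 := exp_le_quadratic hz1
    have h4 : 0 ≤ Real.exp (1 - (c - lam) * h s₀) * Real.exp (c * h s) := by positivity
    linarith
  · -- large job
    have h2 : Real.exp (lam * J') ≤ Real.exp (lam * J) *
        (Real.exp (1 - (c - lam) * h s₀) * Real.exp (c * h s)) := by
      rw [← Real.exp_add, ← Real.exp_add]
      apply Real.exp_le_exp.mpr
      have h5 : h s₀ ≤ h s := H.mono hss.le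
      have h6 : lam * J' ≤ lam * (J + h s + 1) := by gcongr
      nlinarith
    refine h2.trans ?_
    gcongr
    have h3 : 0 ≤ 1 + z + z ^ 2 := by nlinarith [sq_nonneg (z + 1 / 2)]
    linarith

lemma gintegrable_domG_sq (H : Haz h h' a) (L : Law μ h) (b R M : ℝ) :
    Integrable (fun s => domG b R M s ^ 2) μ := by
  have h1 := law_integrable_pow H L 1
  have h2 := law_integrable_pow H L 2
  have h3 := law_integrable_pow H L 3
  have h4 := law_integrable_pow H L 4
  set k0 := M + M / b + M ^ 2 / (2 * b * R) with hk0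
  have : (fun s => domG b R M s ^ 2) = fun s : ℝ =>
      k0 ^ 2 + (2 * k0 / b) * s ^ 1 + (1 / b ^ 2 + 2 * k0 / (2 * b * R)) * s ^ 2 +
        (2 / b * (1 / (2 * b * R))) * s ^ 3 + (1 / (2 * b * R)) ^ 2 * s ^ 4 := by
    funext s
    unfold domG
    rw [hk0]
    ring
  rw [this]
  exact ((((integrable_const _).add (h1.const_mul _)).add (h2.const_mul _)).add
    (h3.const_mul _)).add (h4.const_mul _)

end Pool.Agent.Lib.MP_04add8_pr.Gen
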