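import Mathlib
import Pool.Agent.Lib.MP_04add8_pr.Gen.DriftInt

open MeasureTheory ProbabilityTheory Filter Topology
open scoped ENNReal

set_option linter.unusedSectionVars false

namespace Pool.Agent.Lib.MP_04add8_pr.Gen

variable {h h' : ℝ → ℝ} {a : ℝ} {μ ν : Measure ℝ} [IsProbabilityMeasure μ]
  [IsProbabilityMeasure ν]

/-- Original: `small_eventually` in `Upper.lean` (with `s₀ = ε^(-1/4) = y^(1/4)`);
`Haz.log_le` gives the third part. -/
lemma gsmall_eventually (H : Haz h h' a) {lam c δ b R M C₂ C₃ : ℝ} (hl0 : 0 < lam)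
    (hc : lam < c) (hδ : 0 < δ) (hb : 0 < b) (hR : 0 < R) :
    ∀ᶠ y : ℝ in atTop, (1 / y) * domG b R M (y ^ (1 / 4 : ℝ)) ≤ 1 ∧
      (1 / y) ^ 2 * C₂ ≤ lam * (1 / y) * δ / 4 ∧
      Real.exp (1 - (c - lam) * h (y ^ (1 / 4 : ℝ))) * C₃ ≤
        lam * (1 / y) * δ / 4 := by
  have hinv : Tendsto (fun y : ℝ => 1 / y) atTop (𝓝 0) := by
    simpa using tendsto_inv_atTop_zero
  have h1 : Tendsto (fun y : ℝ => (1 / y) * domG b R M (y ^ (1 / 4 : ℝ))) atTop (𝓝 0) := by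
    have e : (fun y : ℝ => (M + M / b + M ^ 2 / (2 * b * R)) * (1 / y) +
        (1 / b) * y ^ (-(3 / 4) : ℝ) + (1 / (2 * b * R)) * y ^ (-(1 / 2) : ℝ)) =ᶠ[atTop]
        (fun y : ℝ => (1 / y) * domG b R M (y ^ (1 / 4 : ℝ))) := by
      filter_upwards [eventually_gt_atTop 0] with y hy
      have e1 : y ^ (-(3 / 4) : ℝ) = (1 / y) * y ^ (1 / 4 : ℝ) := by
        rw [one_div, ← Real.rpow_neg_one y, ← Real.rpow_add hy]; norm_num
      have e2 : y ^ (-(1 / 2) : ℝ) = (1 / y) * (y ^ (1 / 4 : ℝ)) ^ 2 := by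
        have e3 : (y ^ (1 / 4 : ℝ)) ^ 2 = y ^ (1 / 2 : ℝ) := by
          rw [← Real.rpow_natCast, ← Real.rpow_mul hy.le]; norm_num
        have e4 : (1 : ℝ) / y = y ^ (-1 : ℝ) := by rw [Real.rpow_neg_one, one_div]
        rw [e3, e4, ← Real.rpow_add hy]; norm_num
      rw [e1, e2]
      unfold domG
      ring
    refine Tendsto.congr' e ?_
    have t1 : Tendsto (fun y : ℝ => (M + M / b + M ^ 2 / (2 * b * R)) * (1 / y)) atTop (𝓝 0) := by
      simpa using hinv.const_mul (M + M / b + M ^ 2 / (2 * b * R))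
    have t2 : Tendsto (fun y : ℝ => (1 / b) * y ^ (-(3 / 4) : ℝ)) atTop (𝓝 0) := by
      simpa using (tendsto_rpow_neg_atTop (y := 3 / 4) (by norm_num)).const_mul (1 / b)
    have t3 : Tendsto (fun y : ℝ => (1 / (2 * b * R)) * y ^ (-(1 / 2) : ℝ)) atTop (𝓝 0) := by
      simpa using (tendsto_rpow_neg_atTop (y := 1 / 2) (by norm_num)).const_mul (1 / (2 * b * R))
    simpa using (t1.add t2).add t3
  have h2 : Tendsto (fun y : ℝ => (1 / y) * C₂) atTop (𝓝 0) := by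
    simpa using hinv.mul_const C₂
  have h3 : Tendsto (fun y : ℝ => (1 / y) * (Real.exp 1 * |C₃|)) atTop (𝓝 0) := by
    simpa using hinv.mul_const (Real.exp 1 * |C₃|)
  have hlδ : 0 < lam * δ / 4 := by positivity
  have hcl : 0 < c - lam := by linarith
  have hlog : ∀ᶠ y : ℝ in atTop, 8 / (c - lam) * Real.log (y ^ (1 / 4 : ℝ)) ≤
      h (y ^ (1 / 4 : ℝ)) :=
    (tendsto_rpow_atTop (show (0 : ℝ) < 1 / 4 by norm_num)).eventually
      (H.log_le (8 / (c - lam)))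
  filter_upwards [h1.eventually (ge_mem_nhds zero_lt_one), h2.eventually (gt_mem_nhds hlδ),
    h3.eventually (gt_mem_nhds hlδ), hlog, eventually_gt_atTop 0] with y hy1 hy2 hy3 hy4 hy0
  refine ⟨hy1, ?_, ?_⟩
  · have : (1 / y) ^ 2 * C₂ = (1 / y) * ((1 / y) * C₂) := by ring
    rw [this]
    calc (1 / y) * ((1 / y) * C₂) ≤ (1 / y) * (lam * δ / 4) := by gcongr
      _ = _ := by ring
  · have e1 : 2 * Real.log y ≤ (c - lam) * h (y ^ (1 / 4 : ℝ)) := by
      have e2 : Real.log (y ^ (1 / 4 : ℝ)) = 1 / 4 * Real.log y := Real.log_rpow hy0 _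
      rw [e2] at hy4
      have e3 := mul_le_mul_of_nonneg_left hy4 hcl.le
      have e4 : (c - lam) * (8 / (c - lam) * (1 / 4 * Real.log y)) = 2 * Real.log y := by
        field_simp
        ring
      rw [e4] at e3
      exact e3
    have e5 : Real.exp (1 - (c - lam) * h (y ^ (1 / 4 : ℝ))) ≤ Real.exp 1 * (1 / y) ^ 2 := by
      calc Real.exp (1 - (c - lam) * h (y ^ (1 / 4 : ℝ)))
          ≤ Real.exp (1 - 2 * Real.log y) := Real.exp_le_exp.2 (by linarith)
        _ = Real.exp 1 * (1 / y) ^ 2 := by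
          rw [Real.exp_sub, two_mul, Real.exp_add, Real.exp_log hy0]
          field_simp
    calc Real.exp (1 - (c - lam) * h (y ^ (1 / 4 : ℝ))) * C₃
        ≤ Real.exp (1 - (c - lam) * h (y ^ (1 / 4 : ℝ))) * |C₃| :=
          mul_le_mul_of_nonneg_left (le_abs_self _) (Real.exp_pos _).le
      _ ≤ Real.exp 1 * (1 / y) ^ 2 * |C₃| :=
          mul_le_mul_of_nonneg_right e5 (abs_nonneg _)
      _ = (1 / y) * ((1 / y) * (Real.exp 1 * |C₃|)) := by ring
      _ ≤ (1 / y) * (lam * δ / 4) := by gcongr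
      _ = _ := by ring

end Pool.Agent.Lib.MP_04add8_pr.Gen
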