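import Mathlib
import Pool.Agent.Lib.MP_04add8_pr.Gen.DriftInt
import Pool.Agent.Lib.MP_04add8_pr.Gen.DriftUA

open MeasureTheory ProbabilityTheory Filter Topology
open scoped ENNReal

set_option linter.unusedSectionVars false

namespace Pool.Agent.Lib.MP_04add8_pr.Gen

variable {h h' : ℝ → ℝ} {a : ℝ} {μ ν : Measure ℝ} [IsProbabilityMeasure μ]
  [IsProbabilityMeasure ν]

private lemma DriftUB_aux {A C R : ℝ} (hA0 : 0 ≤ A) (hA1 : A < 1) (hR : 0 ≤ R)
    (h1 : R ≤ (1 - A) * C) : A * (C ^ 2 + R ^ 2) ≤ C ^ 2 := by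
  have h2 : R ^ 2 ≤ ((1 - A) * C) ^ 2 := pow_le_pow_left₀ hR h1 2
  have h3 : A * R ^ 2 ≤ A * ((1 - A) * C) ^ 2 := mul_le_mul_of_nonneg_left h2 hA0
  have h4 : A * (1 - A) ^ 2 ≤ 1 - A := by
    have h5 : A * (1 - A) ≤ 1 := mul_le_one₀ hA1.le (by linarith) (by linarith)
    have h6 : A * (1 - A) * (1 - A) ≤ 1 * (1 - A) :=
      mul_le_mul_of_nonneg_right h5 (by linarith)
    linarith
  have h7 : A * (1 - A) ^ 2 * C ^ 2 ≤ (1 - A) * C ^ 2 :=
    mul_le_mul_of_nonneg_right h4 (sq_nonneg C)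
  have e1 : A * (C ^ 2 + R ^ 2) = A * C ^ 2 + A * R ^ 2 := by ring
  have e2 : A * ((1 - A) * C) ^ 2 = A * (1 - A) ^ 2 * C ^ 2 := by ring
  have e3 : A * C ^ 2 + (1 - A) * C ^ 2 = C ^ 2 := by ring
  linarith

/-- **Drift condition**, uniform version. Original: `Two/DriftU.lean`, `drift_uniform`, with
`w.2 ^ (a-1)` replaced by `h' w.2`; the constant `c₁` comes from `Haz.doubling`
(`h' w.2 ≤ l^C h' (l w.2)`, `l = 1 + 2/b`); `a'` from `Haz.elast` (eventually
`x h' x ≤ a' h x`, `a' = (1+a)/2`), `C₁` large. -/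
theorem gdrift_uniform (S : Std μ ν h h' a)
    {b : ℝ} (hb : 0 < b) (hb1 : b < 1) (hbm : (∫ s, s ∂μ) < (1 + b) * ∫ t, t ∂ν) :
    ∃ R k : ℝ, 0 < R ∧ 0 < k ∧ ∀ lam : ℝ, 1 / 2 ≤ lam → lam < 1 → ∃ L K : ℝ, 0 < L ∧ 0 ≤ K ∧
      ∀ w : ℝ × ℝ, 0 ≤ w.1 → w.1 ≤ w.2 →
        ∫⁻ p, ENNReal.ofReal (Real.exp (lam * gcost h b R (kwStep w p.1 p.2))) ∂(μ.prod ν) +
          (if L ≤ w.2 then
            ENNReal.ofReal (k * h' w.2 * Real.exp (lam * gcost h b R w)) else 0) ≤
          ENNReal.ofReal (Real.exp (lam * gcost h b R w)) +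
            (if L ≤ w.2 then 0 else ENNReal.ofReal K) := by
  have H := S.haz
  have Lw := S.law
  have hν := S.hν
  have hνi := S.hνi
  have hgt := S.hgt
  have ha0 := H.a0
  have ha1 := H.a1
  set E1 := ∫ s, s ∂μ with hE1
  set E2 := ∫ s, s ^ 2 ∂μ with hE2
  set m := ∫ t, t ∂ν with hm
  have hE2nn : 0 ≤ E2 := integral_nonneg fun s => by positivity
  -- choose M
  obtain ⟨M, hM1, hM0⟩ : ∃ M : ℝ, E1 < (1 + b) * ∫ t, min t M ∂ν ∧ 0 ≤ M := by
    have h1 : Tendsto (fun n : ℕ => (1 + b) * ∫ t, min t (n : ℝ) ∂ν) atTop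
        (𝓝 ((1 + b) * m)) := (tendsto_integral_min hν hνi).const_mul _
    obtain ⟨n, hn⟩ := (h1.eventually (lt_mem_nhds hbm)).exists
    exact ⟨n, hn, by positivity⟩
  set m' := ∫ t, min t M ∂ν with hm'
  have hm'm : m' ≤ m := by
    apply integral_mono_ae (min_integrable hν hM0) hνi
    filter_upwards with t
    exact min_le_left _ _
  have hEm' : 0 < E1 - m' := by linarith
  set δ := (m' - (E1 - m') / b) / 2 with hδ
  have hδ0 : 0 < δ := by
    rw [hδ]
    have : (E1 - m') / b < m' := by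
      rw [div_lt_iff₀ hb]; linarith
    linarith
  -- choose R
  set R := (E2 + M ^ 2 + 1) / (2 * b * δ) with hR
  have hR0 : 0 < R := by positivity
  have hRδ : (E2 + M ^ 2) / (2 * b * R) ≤ δ := by
    rw [div_le_iff₀ (by positivity), hR]
    have : δ * (2 * b * ((E2 + M ^ 2 + 1) / (2 * b * δ))) = E2 + M ^ 2 + 1 := by
      field_simp
    rw [this]; linarith
  set a' := (1 + a) / 2 with ha'
  have ha0' : 0 < a' := by rw [ha']; linarith
  have ha1' : a' < 1 := by rw [ha']; linarith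
  have haa' : a < a' := by rw [ha']; linarith
  have ha2 : 0 < 1 - a' ^ 2 := by
    have := pow_lt_one₀ ha0'.le ha1' two_ne_zero
    linarith
  have hb2 : 0 < 1 - b ^ 2 := by
    have := pow_lt_one₀ hb.le hb1 two_ne_zero
    linarith
  obtain ⟨X1, hX1⟩ := ((H.elast.eventually (gt_mem_nhds haa')).and
    (eventually_gt_atTop (0 : ℝ))).exists_forall_of_atTop
  have hel0 : ∀ x, X1 ≤ x → x * h' x ≤ a' * h x := by
    intro x hx
    obtain ⟨h1, h2⟩ := hX1 x hx
    have h3 : 0 < h x := lt_of_le_of_lt H.zero (H.strictMono le_rfl h2)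
    rw [div_lt_iff₀ h3] at h1
    exact h1.le
  set C₁ := max X1 0 + M + 1 + R / (1 - a' ^ 2) with hC₁
  have hX10 : 0 ≤ max X1 0 := le_max_right _ _
  have hRa : 0 < R / (1 - a' ^ 2) := by positivity
  have hC₁M : M < C₁ := by
    rw [hC₁]; linarith
  have hC₁0 : 0 < C₁ := hM0.trans_lt hC₁M
  have hel : ∀ x, C₁ ≤ x → x * h' x ≤ a' * h x := by
    intro x hx
    apply hel0
    have : X1 ≤ C₁ := by
      rw [hC₁]
      have := le_max_left X1 0
      linarith
    linarith
  have hC₁cond : a' ^ 2 * (C₁ ^ 2 + R ^ 2) ≤ C₁ ^ 2 := by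
    have h1 : R ≤ (1 - a' ^ 2) * C₁ := by
      rw [hC₁]
      have : (1 - a' ^ 2) * (max X1 0 + M + 1 + R / (1 - a' ^ 2)) =
          (1 - a' ^ 2) * (max X1 0 + M + 1) + R := by
        field_simp
      rw [this]
      have : 0 ≤ (1 - a' ^ 2) * (max X1 0 + M + 1) := by positivity
      linarith
    exact DriftUB_aux (sq_nonneg a') (by linarith) hR0.le h1
  obtain ⟨CD, hCD0, hCD⟩ := H.doubling
  set c₁ := ((1 + 2 / b) ^ CD)⁻¹ with hc₁
  have hlb : 0 < 1 + 2 / b := by positivity
  have hc₁0 : 0 < c₁ := by positivity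
  have hc₁w : ∀ x : ℝ, 0 < x → c₁ * h' x ≤ h' ((1 + 2 / b) * x) := by
    intro x hx
    have h1 := hCD x (1 + 2 / b) hx (by
      have : 0 < 2 / b := by positivity
      linarith)
    have h2 : 0 < (1 + 2 / b) ^ CD := by positivity
    rw [hc₁, inv_mul_le_iff₀ h2]
    exact h1
  refine ⟨R, 1 / 2 * δ / 2 * c₁, hR0, by positivity, ?_⟩
  intro lam hl12 hl1
  have hl0 : 0 < lam := by linarith
  have hkk : 1 / 2 * δ / 2 * c₁ ≤ lam * δ / 2 * c₁ := by gcongr
  -- constants
  set c := (1 + lam) / 2 with hcdef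
  have hc : lam < c := by rw [hcdef]; linarith
  have hc1 : c < 1 := by rw [hcdef]; linarith
  set C₂ := ∫ s, domG b R M s ^ 2 ∂μ with hC₂
  set C₃ := ∫ s, Real.exp (c * h s) ∂μ with hC₃
  have hC₂nn : 0 ≤ C₂ := integral_nonneg fun s => by positivity
  have hC₃nn : 0 ≤ C₃ := integral_nonneg fun s => (Real.exp_pos _).le
  obtain ⟨Y₀, hY₀⟩ := (gsmall_eventually (b := b) (R := R) (M := M) (C₂ := C₂) (C₃ := C₃)
    H hl0 hc hδ0 hb hR0).exists_forall_of_atTop
  set Y := max Y₀ 1 with hY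
  have hY1 : 1 ≤ Y := le_max_right _ _
  -- choose L
  obtain ⟨L, hL1, hL2, hL3⟩ : ∃ L : ℝ, (max (max (M + 1) R) (M + R / (1 - b ^ 2)) ≤ L) ∧
      h' L * ((C₁ + R) / b) ≤ 1 ∧ h' L ≤ 1 / Y := by
    have h1 : Tendsto (fun x : ℝ => h' x * ((C₁ + R) / b)) atTop (𝓝 0) := by
      simpa using H.tendsto_deriv.mul_const ((C₁ + R) / b)
    have h3 := h1.eventually (ge_mem_nhds zero_lt_one)
    have h4 := H.tendsto_deriv.eventually (ge_mem_nhds (show 0 < 1 / Y by positivity))
    obtain ⟨L, hL⟩ := ((eventually_ge_atTop (max (max (M + 1) R) (M + R / (1 - b ^ 2)))).and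
      (h3.and h4)).exists
    exact ⟨L, hL.1, hL.2.1, hL.2.2⟩
  have hLM : M < L := by
    have := (le_max_left _ _).trans ((le_max_left _ _).trans hL1)
    linarith
  have hLR : R ≤ L := (le_max_right _ _).trans ((le_max_left _ _).trans hL1)
  have hLb : M + R / (1 - b ^ 2) ≤ L := (le_max_right _ _).trans hL1
  have hL0 : 0 < L := hM0.trans_lt hLM
  have hLcond' : ∀ x, L ≤ x → b ^ 2 * ((x - M) ^ 2 + R ^ 2) ≤ (x - M) ^ 2 := by
    intro x hx
    have h1 : R ≤ (1 - b ^ 2) * (x - M) := by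
      have : R / (1 - b ^ 2) ≤ x - M := by linarith
      rw [div_le_iff₀ hb2] at this
      linarith
    exact DriftUB_aux (sq_nonneg b) (by linarith) hR0.le h1
  set C₄ := ∫ s, Real.exp (lam * h s) ∂μ with hC₄
  have hC₄nn : 0 ≤ C₄ := integral_nonneg fun s => (Real.exp_pos _).le
  refine ⟨L, Real.exp (lam * (2 * h L + 1)) * C₄, hL0, by positivity, ?_⟩
  intro w hw1 hw12
  by_cases hwL : L ≤ w.2
  · rw [if_pos hwL, if_pos hwL, add_zero]
    have hw2 : 0 < w.2 := hL0.trans_le hwL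
    have hpw : 0 < h' w.2 := H.pos _ hw2
    have hkg : ENNReal.ofReal (1 / 2 * δ / 2 * c₁ * h' w.2 *
        Real.exp (lam * gcost h b R w)) ≤
        ENNReal.ofReal (lam * δ / 2 * c₁ * h' w.2 * Real.exp (lam * gcost h b R w)) := by
      apply ENNReal.ofReal_le_ofReal
      gcongr
    refine (add_le_add le_rfl hkg).trans ?_
    obtain ⟨ε, q, hq0, hq1, hε1', hε2, hJ2⟩ := gcost_kwStep_le_incr (M := M) H ha0' ha1' hb hb1 hR0
      hM0 hC₁M hC₁cond hel hLM hLR (hLcond' L le_rfl) hL2 hw1 hw12 hwL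
    have hε1 : c₁ * h' w.2 ≤ ε := (hc₁w w.2 hw2).trans hε1'
    have hJ1 : ∀ s t : ℝ, 0 ≤ s → 0 ≤ t →
        gcost h b R (kwStep w s t) ≤ gcost h b R w + h s + 1 := fun s t hs ht =>
      gcost_kwStep_le_add H hb hb1 hR0 hM0 hw1 (by linarith) (hLcond' w.2 hwL) hs ht
    have hwp : h' w.2 ≤ h' L := H.anti _ _ hL0 hwL
    have hε0 : 0 < ε := lt_of_lt_of_le (by positivity) hε1
    have hεY : ε ≤ 1 / Y := hε2.trans (hwp.trans hL3)
    have hyY : Y₀ ≤ 1 / ε := by
      have h1 : Y ≤ 1 / ε := by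
        rw [le_div_iff₀ hε0]
        rw [le_div_iff₀ (by positivity)] at hεY
        linarith
      exact (le_max_left _ _).trans h1
    obtain ⟨hs1, hs2, hs3⟩ := hY₀ (1 / ε) hyY
    have e1 : (1 : ℝ) / (1 / ε) = ε := by field_simp
    rw [e1] at hs1 hs2 hs3
    have hs0' : 0 ≤ (1 / ε) ^ (1 / 4 : ℝ) := by positivity
    have hmain := glintegral_step_le (ν := ν) H Lw hν hb hR0 hM0 hl0 hl1 hc hc1 hs0' hε0.le
      hq0 hq1 hs1 hJ1 hJ2
    have hint := (gintegral_incr (ν := ν) H Lw hν hM0 b R q).2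
    have hincr : ∫ p : ℝ × ℝ, incr b R M q p.1 p.2 ∂(μ.prod ν) ≤ -δ := by
      rw [hint]
      have h5 : q / b * (E1 - m') ≤ 1 / b * (E1 - m') := by gcongr
      have h6 : -m' + 1 / b * (E1 - m') = -(2 * δ) := by rw [hδ]; ring
      linarith
    have hbr : 1 + lam * ε * (∫ p : ℝ × ℝ, incr b R M q p.1 p.2 ∂(μ.prod ν)) +
          ε ^ 2 * C₂ +
          Real.exp (1 - (c - lam) * h ((1 / ε) ^ (1 / 4 : ℝ))) * C₃ ≤
        1 - lam * ε * δ / 2 := by
      have h7 : lam * ε * (∫ p : ℝ × ℝ, incr b R M q p.1 p.2 ∂(μ.prod ν)) ≤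
          lam * ε * (-δ) := by gcongr
      linarith
    have hfin : Real.exp (lam * gcost h b R w) *
        (1 + lam * ε * (∫ p : ℝ × ℝ, incr b R M q p.1 p.2 ∂(μ.prod ν)) +
          ε ^ 2 * C₂ +
          Real.exp (1 - (c - lam) * h ((1 / ε) ^ (1 / 4 : ℝ))) * C₃) ≤
        Real.exp (lam * gcost h b R w) -
          lam * δ / 2 * c₁ * h' w.2 * Real.exp (lam * gcost h b R w) := by
      calc _ ≤ Real.exp (lam * gcost h b R w) * (1 - lam * ε * δ / 2) := by gcongr
        _ ≤ Real.exp (lam * gcost h b R w) * (1 - lam * δ / 2 * (c₁ * h' w.2)) := by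
            gcongr
            have : lam * δ / 2 * (c₁ * h' w.2) ≤ lam * δ / 2 * ε := by gcongr
            linarith
        _ = _ := by ring
    have hg0 : 0 ≤ lam * δ / 2 * c₁ * h' w.2 * Real.exp (lam * gcost h b R w) := by
      positivity
    -- the bracket is nonnegative because `ε` is small
    have hinc_nn : 0 ≤ Real.exp (lam * gcost h b R w) -
          lam * δ / 2 * c₁ * h' w.2 * Real.exp (lam * gcost h b R w) ∨
          Real.exp (lam * gcost h b R w) * (1 - lam * ε * δ / 2) < 0 := by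
      by_cases h9 : 0 ≤ 1 - lam * ε * δ / 2
      · left
        have : Real.exp (lam * gcost h b R w) * (1 - lam * ε * δ / 2) ≤
          Real.exp (lam * gcost h b R w) * (1 - lam * δ / 2 * (c₁ * h' w.2)) := by
          gcongr
          have : lam * δ / 2 * (c₁ * h' w.2) ≤ lam * δ / 2 * ε := by gcongr
          linarith
        have h10 : 0 ≤ Real.exp (lam * gcost h b R w) * (1 - lam * ε * δ / 2) := by
          positivity
        linarith
      · right
        push Not at h9
        exact mul_neg_of_pos_of_neg (Real.exp_pos _) h9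
    calc _ ≤ ENNReal.ofReal (Real.exp (lam * gcost h b R w) -
          lam * δ / 2 * c₁ * h' w.2 * Real.exp (lam * gcost h b R w)) +
          ENNReal.ofReal (lam * δ / 2 * c₁ * h' w.2 * Real.exp (lam * gcost h b R w)) := by
            gcongr
            exact hmain.trans (ENNReal.ofReal_le_ofReal hfin)
      _ ≤ ENNReal.ofReal (Real.exp (lam * gcost h b R w)) := by
            rcases hinc_nn with hneg | h8
            · rw [← ENNReal.ofReal_add hneg hg0]
              apply ENNReal.ofReal_le_ofReal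
              linarith
            · exfalso
              -- the expectation is positive, so the bound is positive
              have h11 := hmain.trans (ENNReal.ofReal_le_ofReal
                (mul_le_mul_of_nonneg_left hbr (Real.exp_pos (lam * gcost h b R w)).le))
              rw [ENNReal.ofReal_of_nonpos h8.le] at h11
              have hgm := gcost_measurable H b R
              have h12 : ∫⁻ p, ENNReal.ofReal (Real.exp (lam * gcost h b R (kwStep w p.1 p.2)))
                  ∂(μ.prod ν) ≠ 0 := by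
                have hk : Measurable fun p : ℝ × ℝ => kwStep w p.1 p.2 := by
                  unfold kwStep
                  fun_prop
                have hmeas : Measurable fun p : ℝ × ℝ =>
                    ENNReal.ofReal (Real.exp (lam * gcost h b R (kwStep w p.1 p.2))) := by
                  have := hgm.comp hk
                  have h13 : Measurable fun p : ℝ × ℝ => gcost h b R (kwStep w p.1 p.2) := this
                  fun_prop
                rw [Ne, lintegral_eq_zero_iff hmeas]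
                intro hz
                have hne : ∀ p : ℝ × ℝ,
                    ENNReal.ofReal (Real.exp (lam * gcost h b R (kwStep w p.1 p.2))) ≠ 0 :=
                  fun p => by simp [Real.exp_pos]
                obtain ⟨p, hp⟩ := hz.exists
                exact hne p hp
              exact h12 (le_antisymm h11 zero_le)
  · rw [if_neg hwL, if_neg hwL, add_zero]
    push Not at hwL
    have hspos : ∀ᵐ p ∂(μ.prod ν), 0 ≤ p.1 ∧ 0 ≤ p.2 := law_prod_nonneg Lw hν
    have hw2 : 0 ≤ w.2 := hw1.trans hw12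
    have hcont := H.cont
    have h3 : ∫⁻ p, ENNReal.ofReal (Real.exp (lam * gcost h b R (kwStep w p.1 p.2))) ∂(μ.prod ν) ≤
        ∫⁻ p, ENNReal.ofReal (Real.exp (lam * (2 * h L + 1))) *
          ENNReal.ofReal (Real.exp (lam * h p.1)) ∂(μ.prod ν) := by
      apply lintegral_mono_ae
      filter_upwards [hspos] with p hp
      rw [← ENNReal.ofReal_mul (Real.exp_pos _).le, ← Real.exp_add]
      apply ENNReal.ofReal_le_ofReal
      apply Real.exp_le_exp.mpr
      have h4 := gcost_sorted_le_two (h := h) (b := b) (R := R) (max (w.1 + p.1 - p.2) 0)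
        (max (w.2 - p.2) 0)
      rw [← kwStep_eq] at h4
      have h5 : h (max (w.1 + p.1 - p.2) 0) ≤ h (w.1 + p.1) :=
        H.mono (max_le (by linarith) (by linarith))
      have h6 : h (max (w.2 - p.2) 0) ≤ h L :=
        H.mono (max_le (by linarith) hL0.le)
      have h7 := H.add_le hw1 hp.1
      have h8 : h w.1 ≤ h L := H.mono (by linarith)
      have h9 : gcost h b R (kwStep w p.1 p.2) ≤ 2 * h L + 1 + h p.1 := by linarith
      calc lam * gcost h b R (kwStep w p.1 p.2) ≤ lam * (2 * h L + 1 + h p.1) :=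
            mul_le_mul_of_nonneg_left h9 hl0.le
        _ = lam * (2 * h L + 1) + lam * h p.1 := by ring
    refine h3.trans ?_
    have hmh : Measurable fun p : ℝ × ℝ => ENNReal.ofReal (Real.exp (lam * h p.1)) :=
      (by fun_prop : Continuous fun p : ℝ × ℝ => Real.exp (lam * h p.1)).measurable.ennreal_ofReal
    rw [lintegral_const_mul _ hmh]
    have h10 : ∫⁻ p : ℝ × ℝ, ENNReal.ofReal (Real.exp (lam * h p.1)) ∂(μ.prod ν) =
        ∫⁻ s, ENNReal.ofReal (Real.exp (lam * h s)) ∂μ := by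
      rw [lintegral_prod _ hmh.aemeasurable]
      simp
    rw [h10]
    have h11 : ∫⁻ s, ENNReal.ofReal (Real.exp (lam * h s)) ∂μ = ENNReal.ofReal C₄ := by
      rw [hC₄, ofReal_integral_eq_lintegral_ofReal (law_integrable_exp H Lw hl1)
        (Eventually.of_forall fun s => (Real.exp_pos _).le)]
    rw [h11, ← ENNReal.ofReal_mul (Real.exp_pos _).le]
    exact le_add_self

end Pool.Agent.Lib.MP_04add8_pr.Gen
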