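import Mathlib
import Pool.Agent.Lib.MP_04add8_pr.Exist
import Pool.Agent.Lib.MP_04add8_pr.Gen.DriftU
import Pool.Agent.Lib.MP_04add8_pr.Gen.RVD

open MeasureTheory ProbabilityTheory Filter Topology
open scoped ENNReal

set_option linter.unusedSectionVars false

namespace Pool.Agent.Lib.MP_04add8_pr.Gen

variable {h h' : ℝ → ℝ} {a : ℝ} {μ ν : Measure ℝ} [IsProbabilityMeasure μ]
  [IsProbabilityMeasure ν]

private lemma moa_meas (H : Haz h h' a) (b R : ℝ) : Measurable (gcost h b R) := by
  have hm := H.cont.measurable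
  unfold gcost bigA
  exact (hm.comp (by fun_prop)).min
    (((hm.comp measurable_fst).add (hm.comp measurable_snd)).add_const 1)

private lemma moa_snd_le (H : Haz h h' a) {b R : ℝ} (hb : 0 < b) (w : ℝ × ℝ) :
    h w.2 ≤ gcost h b R w := by
  unfold gcost
  apply le_min
  · apply H.mono
    unfold bigA
    have : 0 ≤ √(w.1 ^ 2 + R ^ 2) / b := by positivity
    linarith
  · have := H.nonneg w.1
    linarith

private lemma moa_ev (H : Haz h h' a) {k : ℝ} (hk : 0 < k) (N : ℝ) (hN : 0 ≤ N) :
    ∀ᶠ y : ℝ in atTop, N ≤ k * h' y * Real.exp (1 / 2 * h y) := by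
  have h1 := (H.rpow_exp 1 (c := 1 / 2) (by norm_num)).eventually
    (ge_mem_nhds (show (0 : ℝ) < k / (N + 1) by positivity))
  filter_upwards [h1, H.deriv_ge 1, eventually_gt_atTop 0] with y h1 h2 hy
  rw [Real.rpow_one, Real.exp_neg, le_div_iff₀ (by positivity)] at h1
  have he : 0 < Real.exp (1 / 2 * h y) := Real.exp_pos _
  have h3 : (N + 1) * y ≤ k * Real.exp (1 / 2 * h y) := by
    have h4 := mul_le_mul_of_nonneg_right h1 he.le
    have e : y * (Real.exp (1 / 2 * h y))⁻¹ * (N + 1) * Real.exp (1 / 2 * h y) = (N + 1) * y := by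
      field_simp
    rw [e] at h4
    exact h4
  calc N ≤ N + 1 := by linarith
    _ = (N + 1) * y * (1 / y) := by field_simp
    _ ≤ k * Real.exp (1 / 2 * h y) * (1 / y) := mul_le_mul_of_nonneg_right h3 (by positivity)
    _ ≤ k * Real.exp (1 / 2 * h y) * h' y := mul_le_mul_of_nonneg_left h2 (by positivity)
    _ = k * h' y * Real.exp (1 / 2 * h y) := by ring

/-- Original: `Exist2.lean`. -/
theorem gexists_stationary (S : Std μ ν h h' a) :
    ∃ π : Measure (ℝ × ℝ), IsStationaryKW μ ν π := by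
  have H := S.haz
  have hm := S.hm
  have hgt := S.hgt
  have hlt := S.hlt
  set E := ∫ s, s ∂μ with hE
  set m := ∫ t, t ∂ν with hmdef
  obtain ⟨b, hb1, hb2⟩ := exists_between (show (E - m) / m < 1 by rw [div_lt_one hm]; linarith)
  have hb0 : 0 < b := lt_trans (div_pos (by linarith) hm) hb1
  have hbm : E < (1 + b) * m := by
    rw [div_lt_iff₀ hm] at hb1
    linarith
  obtain ⟨R, k, hR, hk, hdr⟩ := gdrift_uniform S hb0 hb2 hbm
  obtain ⟨L, K, hL, hK, hd⟩ := hdr (1 / 2) (by norm_num) (by norm_num)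
  have hcm := moa_meas H b R
  have hm' := H.measd
  refine exists_stationary_of_drift
    (H := fun w => ENNReal.ofReal (Real.exp (1 / 2 * gcost h b R w)))
    (g := fun w => if L ≤ w.2 then
      ENNReal.ofReal (k * h' w.2 * Real.exp (1 / 2 * gcost h b R w)) else 0)
    (by fun_prop) ?_ (fun w => ENNReal.ofReal_ne_top) K hK ?_ ?_
  · apply Measurable.ite (measurableSet_le measurable_const measurable_snd)
    · fun_prop
    · exact measurable_const
  · intro w h0 h1
    refine (hd w h0 h1).trans ?_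
    gcongr
    split_ifs
    · exact zero_le
    · exact le_rfl
  · intro N
    obtain ⟨R', hR'⟩ := eventually_atTop.mp (moa_ev H hk (N : ℝ) (Nat.cast_nonneg N))
    refine ⟨max R' L, ?_⟩
    intro w hw1 hw12 hw2
    have h1 : R' ≤ w.2 := (le_max_left _ _).trans hw2.le
    have h2 : L ≤ w.2 := (le_max_right _ _).trans hw2.le
    have hw20 : 0 < w.2 := hL.trans_le h2
    rw [if_pos h2, ← ENNReal.ofReal_natCast]
    apply ENNReal.ofReal_le_ofReal
    have h3 := hR' w.2 h1
    have hcost := moa_snd_le (R := R) H hb0 w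
    have hp := H.pos w.2 hw20
    refine h3.trans ?_
    apply mul_le_mul_of_nonneg_left _ (by positivity)
    apply Real.exp_le_exp.mpr
    linarith

end Pool.Agent.Lib.MP_04add8_pr.Gen
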