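import Mathlib
import Pool.Agent.Lib.MP_04add8_pr.Exist
import Pool.Agent.Lib.MP_04add8_pr.Gen.DriftU
import Pool.Agent.Lib.MP_04add8_pr.Gen.MomA
import Pool.Agent.Lib.MP_04add8_pr.Gen.RVD

open MeasureTheory ProbabilityTheory Filter Topology
open scoped ENNReal

set_option linter.unusedSectionVars false

namespace Pool.Agent.Lib.MP_04add8_pr.Gen

variable {h h' : ℝ → ℝ} {a : ℝ} {μ ν : Measure ℝ} [IsProbabilityMeasure μ]
  [IsProbabilityMeasure ν]

private lemma mob_meas (H : Haz h h' a) (b R : ℝ) : Measurable (gcost h b R) := by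
  have hm := H.cont.measurable
  unfold gcost bigA
  exact (hm.comp (by fun_prop)).min
    (((hm.comp measurable_fst).add (hm.comp measurable_snd)).add_const 1)

private lemma mob_snd_le (H : Haz h h' a) {b R : ℝ} (hb : 0 < b) (w : ℝ × ℝ) :
    h w.2 ≤ gcost h b R w := by
  unfold gcost
  apply le_min
  · apply H.mono
    unfold bigA
    have : 0 ≤ √(w.1 ^ 2 + R ^ 2) / b := by positivity
    linarith
  · have := H.nonneg w.1
    linarith

private lemma mob_low (H : Haz h h' a) {δ : ℝ} (hδ : 0 < δ) :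
    ∃ c' : ℝ, 0 < c' ∧ ∀ y : ℝ, 0 < y → c' ≤ h' y * Real.exp (δ * h y) := by
  have h1 := (H.rpow_exp 1 hδ).eventually (ge_mem_nhds (show (0 : ℝ) < 1 by norm_num))
  obtain ⟨L', hL'⟩ := eventually_atTop.mp (h1.and ((H.deriv_ge 1).and (eventually_gt_atTop 0)))
  have hM0 : 0 < max L' 1 := lt_max_of_lt_right one_pos
  refine ⟨min 1 (h' (max L' 1)), lt_min one_pos (H.pos _ hM0), fun y hy => ?_⟩
  by_cases hyL : L' ≤ y
  · obtain ⟨h2, h3, h4⟩ := hL' y hyL
    refine (min_le_left _ _).trans ?_
    have he : 0 < Real.exp (δ * h y) := Real.exp_pos _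
    rw [Real.rpow_one, Real.exp_neg, ← div_eq_mul_inv, div_le_one he] at h2
    calc (1 : ℝ) = 1 / y * y := by field_simp
      _ ≤ h' y * Real.exp (δ * h y) := mul_le_mul h3 h2 hy.le (H.pos y hy).le
  · push Not at hyL
    refine (min_le_right _ _).trans ?_
    have h2 : h' (max L' 1) ≤ h' y := H.anti y _ hy (hyL.le.trans (le_max_left _ _))
    have h3 : 1 ≤ Real.exp (δ * h y) := Real.one_le_exp (mul_nonneg hδ.le (H.nonneg y))
    calc h' (max L' 1) ≤ h' y := h2
      _ = h' y * 1 := (mul_one _).symm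
      _ ≤ _ := mul_le_mul_of_nonneg_left h3 (H.pos y hy).le

/-- the drift inequality gives exponential moments of the cost, for every `R` for which the drift
holds. Original: `BadBig_mean` in `One/BadBig.lean` (measurability of `h'` is `Haz.measd`;
`exp (lam cost) ≤ C h' w.2 exp (lam' cost)` for `lam < lam'` because `h w.2 ≤ cost` and
`Haz.rpow_exp`, `Haz.deriv_ge`). -/
theorem gmean (H : Haz h h' a) {b R k : ℝ} (hb : 0 < b) (hR : 0 < R) (hk : 0 < k)
    (hdr : ∀ lam : ℝ, 1 / 2 ≤ lam → lam < 1 → ∃ L K : ℝ, 0 < L ∧ 0 ≤ K ∧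
      ∀ w : ℝ × ℝ, 0 ≤ w.1 → w.1 ≤ w.2 →
        ∫⁻ p, ENNReal.ofReal (Real.exp (lam * gcost h b R (kwStep w p.1 p.2))) ∂(μ.prod ν) +
          (if L ≤ w.2 then
            ENNReal.ofReal (k * h' w.2 * Real.exp (lam * gcost h b R w)) else 0) ≤
          ENNReal.ofReal (Real.exp (lam * gcost h b R w)) +
            (if L ≤ w.2 then 0 else ENNReal.ofReal K))
    {lam : ℝ} (hl2 : 1 / 2 ≤ lam) (hl1 : lam < 1) :
    ∃ C : ℝ, 0 ≤ C ∧ ∀ π : Measure (ℝ × ℝ), IsStationaryKW μ ν π →
      ∫⁻ w, ENNReal.ofReal (Real.exp (lam * gcost h b R w)) ∂π ≤ ENNReal.ofReal C := by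
  have hl0 : 0 < lam := by linarith
  set lam' := (1 + lam) / 2 with hlam
  have hl2' : 1 / 2 ≤ lam' := by rw [hlam]; linarith
  have hl1' : lam' < 1 := by rw [hlam]; linarith
  set δ := lam' - lam with hδ
  have hδ0 : 0 < δ := by rw [hδ, hlam]; linarith
  obtain ⟨L, K, hL, hK, hd⟩ := hdr lam' hl2' hl1'
  obtain ⟨c', hc'0, hpoly⟩ := mob_low H hδ0
  set C0 := Real.exp (lam * (2 * h L + 1)) with hC0
  have hC00 : 0 < C0 := Real.exp_pos _
  refine ⟨C0 + 1 / (k * c') * K, by positivity, ?_⟩
  intro π hπ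
  have hprob : IsProbabilityMeasure π := hπ.1
  set HH : ℝ × ℝ → ℝ≥0∞ := fun w => ENNReal.ofReal (Real.exp (lam' * gcost h b R w)) with hHH
  set g : ℝ × ℝ → ℝ≥0∞ := fun w => if L ≤ w.2 then
    ENNReal.ofReal (k * h' w.2 * Real.exp (lam' * gcost h b R w)) else 0 with hg
  have hcm := mob_meas H b R
  have hm' := H.measd
  have hHm : Measurable HH := by
    rw [hHH]; fun_prop
  have hgm : Measurable g := by
    rw [hg]
    apply Measurable.ite (measurableSet_le measurable_const measurable_snd)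
    · fun_prop
    · exact measurable_const
  have hmain : ∫⁻ w, g w ∂π ≤ ENNReal.ofReal K := by
    refine hπ.lyapunov hHm hgm (fun w => ENNReal.ofReal_ne_top) (ENNReal.ofReal K) ?_
    intro w h0 h1
    refine (hd w h0 h1).trans ?_
    gcongr
    split_ifs
    · exact zero_le
    · exact le_rfl
  have hpt : ∀ᵐ w ∂π, ENNReal.ofReal (Real.exp (lam * gcost h b R w)) ≤
      ENNReal.ofReal C0 + ENNReal.ofReal (1 / (k * c')) * g w := by
    filter_upwards [hπ.ae_ordered] with w hw
    have hw2 : 0 ≤ w.2 := hw.1.trans hw.2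
    by_cases hwL : L ≤ w.2
    · refine le_trans ?_ le_add_self
      have e : g w = ENNReal.ofReal (k * h' w.2 * Real.exp (lam' * gcost h b R w)) := by
        rw [hg]
        simp only
        rw [if_pos hwL]
      rw [e, ← ENNReal.ofReal_mul (by positivity)]
      apply ENNReal.ofReal_le_ofReal
      have hw2' : 0 < w.2 := hL.trans_le hwL
      have h1 := hpoly w.2 hw2'
      have h2 := mob_snd_le (R := R) H hb w
      have h3 : Real.exp (δ * h w.2) * Real.exp (lam * gcost h b R w) ≤
          Real.exp (lam' * gcost h b R w) := by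
        rw [← Real.exp_add]
        apply Real.exp_le_exp.mpr
        have h4 : δ * h w.2 ≤ δ * gcost h b R w := by gcongr
        have e2 : lam' = lam + δ := by rw [hδ]; ring
        rw [e2, add_mul]
        linarith
      have h5 : 0 < h' w.2 := H.pos _ hw2'
      calc Real.exp (lam * gcost h b R w) = 1 / (k * c') * (k * (c' *
            Real.exp (lam * gcost h b R w))) := by field_simp
        _ ≤ 1 / (k * c') * (k * ((h' w.2 * Real.exp (δ * h w.2)) *
            Real.exp (lam * gcost h b R w))) := by gcongr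
        _ = 1 / (k * c') * (k * (h' w.2 * (Real.exp (δ * h w.2) *
            Real.exp (lam * gcost h b R w)))) := by ring
        _ ≤ 1 / (k * c') * (k * (h' w.2 * Real.exp (lam' * gcost h b R w))) := by gcongr
        _ = _ := by ring
    · refine le_trans ?_ le_self_add
      apply ENNReal.ofReal_le_ofReal
      rw [hC0]
      apply Real.exp_le_exp.mpr
      push Not at hwL
      have h1 : h w.1 ≤ h L := H.mono (by linarith [hw.2])
      have h3 : h w.2 ≤ h L := H.mono hwL.le
      have h4 : gcost h b R w ≤ 2 * h L + 1 := by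
        unfold gcost
        refine (min_le_right _ _).trans ?_
        linarith
      gcongr
  refine (lintegral_mono_ae hpt).trans ?_
  rw [lintegral_add_left measurable_const, lintegral_const, measure_univ, mul_one,
    lintegral_const_mul _ hgm]
  calc ENNReal.ofReal C0 + ENNReal.ofReal (1 / (k * c')) * ∫⁻ w, g w ∂π
      ≤ ENNReal.ofReal C0 + ENNReal.ofReal (1 / (k * c')) * ENNReal.ofReal K := by gcongr
    _ = ENNReal.ofReal (C0 + 1 / (k * c') * K) := by
        rw [← ENNReal.ofReal_mul (by positivity), ← ENNReal.ofReal_add hC00.le (by positivity)]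

end Pool.Agent.Lib.MP_04add8_pr.Gen
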