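import Mathlib
import Pool.Agent.Lib.MP_04add8_pr.Exist
import Pool.Agent.Lib.MP_04add8_pr.Gen.DriftU
import Pool.Agent.Lib.MP_04add8_pr.Gen.MomB

open MeasureTheory ProbabilityTheory Filter Topology
open scoped ENNReal

set_option linter.unusedSectionVars false

namespace Pool.Agent.Lib.MP_04add8_pr.Gen

variable {h h' : ℝ → ℝ} {a : ℝ} {μ ν : Measure ℝ} [IsProbabilityMeasure μ]
  [IsProbabilityMeasure ν]

private lemma MomC_exists_b {E m : ℝ} (hm : 0 < m) (hgt : m < E) (hlt : E < 2 * m) :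
    ∃ b : ℝ, 0 < b ∧ b < 1 ∧ E < (1 + b) * m := by
  obtain ⟨b, hb1, hb2⟩ := exists_between (show (E - m) / m < 1 by rw [div_lt_one hm]; linarith)
  refine ⟨b, lt_trans (div_pos (by linarith) hm) hb1, hb2, ?_⟩
  rw [div_lt_iff₀ hm] at hb1
  linarith

private lemma MomC_main (S : Std μ ν h h' a) {lam : ℝ} (hl0 : 1 / 2 ≤ lam) (hl1 : lam < 1) :
    ∃ C : ℝ, 0 ≤ C ∧ ∀ π : Measure (ℝ × ℝ), IsStationaryKW μ ν π →
      ∫⁻ w, ENNReal.ofReal (Real.exp (lam * h w.2)) ∂π ≤ ENNReal.ofReal C := by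
  obtain ⟨b, hb0, hb1, hbm⟩ := MomC_exists_b S.hm S.hgt S.hlt
  obtain ⟨R, k, hR, hk, hdr⟩ := gdrift_uniform S hb0 hb1 hbm
  obtain ⟨C, hC0, hC⟩ := gmean S.haz hb0 hR hk hdr hl0 hl1
  refine ⟨C, hC0, fun π hπ => le_trans (lintegral_mono fun w => ?_) (hC π hπ)⟩
  apply ENNReal.ofReal_le_ofReal
  apply Real.exp_le_exp.2
  exact mul_le_mul_of_nonneg_left (snd_le_gcost S.haz hb0 w) (by linarith)

/-- Original: `tail_snd` in `Two/DriftU.lean`; here from `gdrift_uniform`, `gmean` and Markov. -/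
theorem gtail_snd (S : Std μ ν h h' a) {lam : ℝ} (hl0 : 0 < lam) (hl1 : lam < 1) :
    ∃ C1 : ℝ, 0 ≤ C1 ∧ ∀ π : Measure (ℝ × ℝ), IsStationaryKW μ ν π →
        ∀ y : ℝ, π {w | y < w.2} ≤ ENNReal.ofReal (C1 * Real.exp (-(lam * h y))) := by
  obtain ⟨C, hC0, hC⟩ := MomC_main S (lam := max lam (1 / 2)) (le_max_right _ _)
    (max_lt hl1 (by norm_num))
  have H := S.haz
  refine ⟨C, hC0, fun π hπ y => ?_⟩
  have hv0 : 0 < Real.exp (lam * h y) := Real.exp_pos _
  have h8 : ENNReal.ofReal (Real.exp (lam * h y)) * π {w : ℝ × ℝ | y < w.2} ≤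
      ENNReal.ofReal C := by
    calc ENNReal.ofReal (Real.exp (lam * h y)) * π {w : ℝ × ℝ | y < w.2}
        = ∫⁻ w in {w : ℝ × ℝ | y < w.2}, ENNReal.ofReal (Real.exp (lam * h y)) ∂π := by
          rw [setLIntegral_const]
      _ ≤ ∫⁻ w in {w : ℝ × ℝ | y < w.2},
            ENNReal.ofReal (Real.exp (max lam (1 / 2) * h w.2)) ∂π := by
          have hmeas : MeasurableSet {w : ℝ × ℝ | y < w.2} :=
            measurableSet_lt measurable_const measurable_snd
          apply setLIntegral_mono' hmeas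
          intro w hw
          apply ENNReal.ofReal_le_ofReal
          apply Real.exp_le_exp.2
          have h1 : h y ≤ h w.2 := H.mono (le_of_lt hw)
          calc lam * h y ≤ lam * h w.2 := mul_le_mul_of_nonneg_left h1 hl0.le
            _ ≤ _ := mul_le_mul_of_nonneg_right (le_max_left _ _) (H.nonneg _)
      _ ≤ ∫⁻ w, ENNReal.ofReal (Real.exp (max lam (1 / 2) * h w.2)) ∂π :=
          setLIntegral_le_lintegral _ _
      _ ≤ ENNReal.ofReal C := hC π hπ
  have h9 : π {w : ℝ × ℝ | y < w.2} ≤ ENNReal.ofReal C / ENNReal.ofReal (Real.exp (lam * h y)) := by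
    rw [ENNReal.le_div_iff_mul_le (Or.inl (by simpa using hv0)) (Or.inl ENNReal.ofReal_ne_top),
      mul_comm]
    exact h8
  refine h9.trans (le_of_eq ?_)
  rw [← ENNReal.ofReal_div_of_pos hv0]
  congr 1
  rw [Real.exp_neg]
  field_simp

theorem gexp_moment_snd (S : Std μ ν h h' a) :
    ∃ C2 : ℝ, 0 ≤ C2 ∧ ∀ π : Measure (ℝ × ℝ), IsStationaryKW μ ν π →
        ∫⁻ w, ENNReal.ofReal (w.2 * Real.exp (h w.2 / 2)) ∂π ≤ ENNReal.ofReal C2 := by
  have H := S.haz
  obtain ⟨C, hC0, hC⟩ := MomC_main S (lam := 3 / 4) (by norm_num) (by norm_num)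
  obtain ⟨X, hX⟩ := ((H.rpow_exp 1 (c := 1 / 4) (by norm_num)).eventually
    (ge_mem_nhds (show (0 : ℝ) < 1 by norm_num))).exists_forall_of_atTop
  have hD : ∀ y : ℝ, y ≤ (1 + |X|) * Real.exp (1 / 4 * h y) := by
    intro y
    have he : 1 ≤ Real.exp (1 / 4 * h y) :=
      Real.one_le_exp (mul_nonneg (by norm_num) (H.nonneg y))
    rcases le_total X y with h1 | h1
    · have h2 := hX y h1
      rw [Real.rpow_one, Real.exp_neg, ← div_eq_mul_inv, div_le_one (Real.exp_pos _)] at h2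
      refine h2.trans ?_
      exact le_mul_of_one_le_left (Real.exp_pos _).le (by linarith [abs_nonneg X])
    · calc y ≤ 1 + |X| := by linarith [le_abs_self X]
        _ ≤ _ := le_mul_of_one_le_right (by positivity) he
  refine ⟨(1 + |X|) * C, by positivity, fun π hπ => ?_⟩
  calc ∫⁻ w, ENNReal.ofReal (w.2 * Real.exp (h w.2 / 2)) ∂π
      ≤ ∫⁻ w, ENNReal.ofReal (1 + |X|) * ENNReal.ofReal (Real.exp (3 / 4 * h w.2)) ∂π := by
        apply lintegral_mono
        intro w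
        simp only
        rw [← ENNReal.ofReal_mul (by positivity)]
        apply ENNReal.ofReal_le_ofReal
        calc w.2 * Real.exp (h w.2 / 2)
            ≤ ((1 + |X|) * Real.exp (1 / 4 * h w.2)) * Real.exp (h w.2 / 2) :=
              mul_le_mul_of_nonneg_right (hD w.2) (Real.exp_pos _).le
          _ = (1 + |X|) * Real.exp (3 / 4 * h w.2) := by
              rw [mul_assoc, ← Real.exp_add]
              congr 2
              ring
    _ = ENNReal.ofReal (1 + |X|) * ∫⁻ w, ENNReal.ofReal (Real.exp (3 / 4 * h w.2)) ∂π :=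
        lintegral_const_mul' _ _ ENNReal.ofReal_ne_top
    _ ≤ ENNReal.ofReal (1 + |X|) * ENNReal.ofReal C := by
        gcongr
        exact hC π hπ
    _ = _ := by rw [ENNReal.ofReal_mul (by positivity)]

end Pool.Agent.Lib.MP_04add8_pr.Gen
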