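import Mathlib
import Pool.Agent.Lib.MP_04add8_pr.Exist
import Pool.Agent.Lib.MP_04add8_pr.Gen.DriftU
import Pool.Agent.Lib.MP_04add8_pr.Gen.MomC

open MeasureTheory ProbabilityTheory Filter Topology
open scoped ENNReal

set_option linter.unusedSectionVars false

namespace Pool.Agent.Lib.MP_04add8_pr.Gen

variable {h h' : ℝ → ℝ} {a : ℝ} {μ ν : Measure ℝ} [IsProbabilityMeasure μ]
  [IsProbabilityMeasure ν]

private lemma mod_exp {y : ℝ} (hy : 0 ≤ y) : Real.exp y ≤ 1 + y * Real.exp y := by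
  have h1 : 1 - y ≤ Real.exp (-y) := by
    have := Real.add_one_le_exp (-y)
    linarith
  have h2 : Real.exp y * Real.exp (-y) = 1 := by rw [← Real.exp_add]; simp
  have h3 := Real.exp_pos y
  nlinarith

/-- Original: `epi` in `Two/Epi.lean`. `exp y ≤ 1 + y exp y`; the tilt is harmless by
`Haz.tilt_ev` and `x h' x ≤ h x`, and `h' x → 0`. -/
theorem gepi (S : Std μ ν h h' a) (A : ℝ) (hA : 0 < A) :
    ∃ ε0 : ℝ, 0 < ε0 ∧ ∀ ε : ℝ, 0 < ε → ε ≤ ε0 → ∀ ω : ℝ, 0 < ω →
    ∀ᶠ x : ℝ in atTop, ∀ π : Measure (ℝ × ℝ), IsStationaryKW μ ν π →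
      ∫⁻ w, ({w : ℝ × ℝ | w.2 ≤ ε * x}).indicator
        (fun w => ENNReal.ofReal (Real.exp (A * h' x * w.2))) w ∂π ≤
        ENNReal.ofReal (1 + ω) := by
  have H := S.haz
  obtain ⟨β1, hβ1, htilt⟩ := H.tilt_ev A
  obtain ⟨C2, hC2, hmom⟩ := gexp_moment_snd S
  refine ⟨β1, hβ1, fun ε hε hεβ ω hω => ?_⟩
  have hlim : Tendsto (fun x : ℝ => A * h' x * C2) atTop (𝓝 0) := by
    have := (H.tendsto_deriv.const_mul A).mul_const C2
    simpa using this
  have hhm : Measurable h := H.cont.measurable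
  filter_upwards [hlim.eventually_le_const hω, eventually_gt_atTop 0, htilt ε hε hεβ]
    with x hx hx0 ht
  intro π hπ
  have hp : IsProbabilityMeasure π := hπ.1
  have hh0 : 0 < h' x := H.pos x hx0
  have hc0 : 0 ≤ A * h' x := by positivity
  have htl : ∀ v : ℝ, 0 ≤ v → v ≤ ε * x → A * h' x * v ≤ h v / 2 := by
    intro v hv0 hv
    have h1 := ht v hv0 hv
    have h2 : h' x ≤ h x / x := by
      rw [le_div_iff₀ hx0, mul_comm]
      exact H.mul_deriv_le hx0
    have h3 := H.nonneg v
    calc A * h' x * v ≤ A * (h x / x) * v := by gcongr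
      _ ≤ h v / 4 := h1
      _ ≤ h v / 2 := by linarith
  calc ∫⁻ w, ({w : ℝ × ℝ | w.2 ≤ ε * x}).indicator
        (fun w => ENNReal.ofReal (Real.exp (A * h' x * w.2))) w ∂π
      ≤ ∫⁻ w, (1 + ENNReal.ofReal (A * h' x) *
          ENNReal.ofReal (w.2 * Real.exp (h w.2 / 2))) ∂π := by
        apply lintegral_mono_ae
        filter_upwards [hπ.ae_ordered] with w hw
        by_cases hwx : w.2 ≤ ε * x
        · rw [Set.indicator_of_mem (by exact hwx)]
          have hw2 : 0 ≤ w.2 := hw.1.trans hw.2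
          have h1 := htl w.2 hw2 hwx
          have h2 := mod_exp (y := A * h' x * w.2) (by positivity)
          rw [← ENNReal.ofReal_mul hc0, ← ENNReal.ofReal_one,
            ← ENNReal.ofReal_add zero_le_one (by positivity)]
          apply ENNReal.ofReal_le_ofReal
          refine h2.trans ?_
          have h3 : Real.exp (A * h' x * w.2) ≤ Real.exp (h w.2 / 2) :=
            Real.exp_le_exp.mpr h1
          have h4 : A * h' x * w.2 * Real.exp (A * h' x * w.2) ≤
              A * h' x * w.2 * Real.exp (h w.2 / 2) := by gcongr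
          linarith
        · rw [Set.indicator_of_notMem (by exact hwx)]
          exact zero_le
    _ = 1 + ENNReal.ofReal (A * h' x) *
          ∫⁻ w, ENNReal.ofReal (w.2 * Real.exp (h w.2 / 2)) ∂π := by
        rw [lintegral_add_left measurable_const, lintegral_const_mul _ (by fun_prop)]
        simp
    _ ≤ 1 + ENNReal.ofReal (A * h' x) * ENNReal.ofReal C2 := by
        gcongr
        exact hmom π hπ
    _ ≤ ENNReal.ofReal (1 + ω) := by
        rw [← ENNReal.ofReal_mul hc0, ← ENNReal.ofReal_one,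
            ← ENNReal.ofReal_add zero_le_one (by positivity)]
        apply ENNReal.ofReal_le_ofReal
        linarith

end Pool.Agent.Lib.MP_04add8_pr.Gen
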