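import Mathlib
import Pool.Agent.Lib.MP_04add8_pr.Gen.Mom
import Pool.Agent.Lib.MP_04add8_pr.Gen.Gain
import Pool.Agent.Lib.MP_04add8_pr.One.BadBig

open MeasureTheory ProbabilityTheory Filter Topology
open scoped ENNReal

set_option linter.unusedSectionVars false

namespace Pool.Agent.Lib.MP_04add8_pr.Gen

variable {h h' : ℝ → ℝ} {a : ℝ} {μ ν : Measure ℝ} [IsProbabilityMeasure μ]
  [IsProbabilityMeasure ν]

/-- the parameter `b` in the regime of one big job -/
private lemma gBadBig_exists_b (ha0 : 0 ≤ a) {E m ρ : ℝ} (hm : 0 < m) (hgt : m < E)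
    (hlt : E < 2 * m) (hρ : 0 < ρ) :
    ∃ b : ℝ, 0 < b ∧ b < 1 ∧ E < (1 + b) * m ∧ (E / (E - m)) ^ a - ρ < (1 + 1 / b) ^ a ∧
      (1 + 1 / b) ^ a ≤ (E / (E - m)) ^ a := by
  rcases ha0.eq_or_lt with h0 | h0
  · obtain ⟨b, hb0, hb1, hb2, -, -⟩ := BadBig_exists_b (a := 1) one_pos hm hgt hlt hρ
    refine ⟨b, hb0, hb1, hb2, ?_, ?_⟩
    · rw [← h0, Real.rpow_zero, Real.rpow_zero]
      linarith
    · rw [← h0, Real.rpow_zero, Real.rpow_zero]
  · exact BadBig_exists_b h0 hm hgt hlt hρ

/-- eventual lower bound of `h (l x)` -/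
private lemma gBadBig_ratio_ge (H : Haz h h' a) {l τ : ℝ} (hl : 0 < l) (hτ : τ < l ^ a) :
    ∀ᶠ x : ℝ in atTop, τ * h x ≤ h (l * x) := by
  filter_upwards [(H.ratio hl).eventually_const_lt hτ, H.tendsto_h.eventually_gt_atTop 0]
    with x hx hpos
  rw [lt_div_iff₀ hpos] at hx
  exact hx.le

/-- eventual upper bound of `h (l x)` -/
private lemma gBadBig_ratio_le (H : Haz h h' a) {l τ : ℝ} (hl : 0 < l) (hτ : l ^ a < τ) :
    ∀ᶠ x : ℝ in atTop, h (l * x) ≤ τ * h x := by
  filter_upwards [(H.ratio hl).eventually_lt_const hτ, H.tendsto_h.eventually_gt_atTop 0]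
    with x hx hpos
  rw [div_lt_iff₀ hpos] at hx
  exact hx.le

/-- **Case A**, two big jobs are too expensive. Original: `bad_big` in `One/BadBig.lean`
(`BadBig_iter`, `measurable_pIter_right` are reused). Exponents at scale `h x`: with
`θ = (1+1/b')^a < 2` close to `η^a` from below, `(2-θ-ρ)`-gain on `h (min w.2 s) ≥ h (c x)`,
`c = min e β`, `h (c x) ~ c^a h x`; final cost `≥ (θ - ρ) h x`; exponential moment at `lam` close
to `1` (`gmean`), `h (η x) ~ η^a h x`. For `a = 0` all powers are `1` and nothing changes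
(`0 < c^a` is all that is used). Number of steps: `n ≤ exp (δ h x)` instead of `n ≤ C x`. -/
theorem gbad_big (S : Std μ ν h h' a) (h2 : (eta μ ν) ^ a < 2) {e β : ℝ} (he : 0 < e)
    (hβ : 0 < β) :
    ∃ δ : ℝ, 0 < δ ∧ ∀ᶠ x : ℝ in atTop, ∀ π : Measure (ℝ × ℝ),
      IsStationaryKW μ ν π → ∀ n : ℕ, (n : ℝ) ≤ Real.exp (δ * h x) →
        (π.prod (noise μ ν)) {q | e * x < q.1.2 ∧ β * x < (q.2 0).1 ∧
          x < (pIter q.1 q.2 (n + 1)).1} ≤
          ENNReal.ofReal (Real.exp (-((1 + 3 * δ) * h (eta μ ν * x)))) := by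
  have H := S.haz
  have ha0 := H.a0
  set E := ∫ s, s ∂μ with hE
  set m := ∫ t, t ∂ν with hmd
  have hm : 0 < m := S.hm
  have hgt : m < E := S.hgt
  have hlt : E < 2 * m := S.hlt
  set η := eta μ ν with hη
  have hηdef : η = E / (E - m) := rfl
  have hd : 0 < E - m := by linarith
  have hE0 : 0 < E := hm.trans hgt
  have hη0 : 0 < η := by rw [hηdef]; positivity
  have hηa : 0 < η ^ a := by positivity
  set g := 2 - η ^ a with hg
  have hg0 : 0 < g := by rw [hg]; linarith
  have hmin0 : 0 < min e β := lt_min he hβ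
  set c0 := (min e β) ^ a with hc0
  have hc00 : 0 < c0 := by positivity
  have hba : 0 < β ^ a := by positivity
  set ρ := min (g * c0 / 4) (β ^ a / 2) / 8 with hρ
  have hρ0 : 0 < ρ := by
    have : 0 < min (g * c0 / 4) (β ^ a / 2) := lt_min (by positivity) (by positivity)
    positivity
  have hρ1 : 8 * ρ ≤ g * c0 / 4 := by
    have := min_le_left (g * c0 / 4) (β ^ a / 2)
    rw [hρ]; linarith
  have hρ2 : 8 * ρ ≤ β ^ a / 2 := by
    have := min_le_right (g * c0 / 4) (β ^ a / 2)
    rw [hρ]; linarith
  obtain ⟨b', hb0', hb1', hbm', hθ1, hθ2⟩ := gBadBig_exists_b (a := a) ha0 hm hgt hlt hρ0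
  rw [← hηdef] at hθ1 hθ2
  set θ := (1 + 1 / b') ^ a with hθ
  obtain ⟨R, k, hR, hk, hdr⟩ := gdrift_uniform S hb0' hb1' hbm'
  set lam := (η ^ a + 5 * ρ) / (η ^ a + 6 * ρ) with hlam
  have hden : 0 < η ^ a + 6 * ρ := by positivity
  have hl1 : lam < 1 := by rw [hlam, div_lt_one hden]; linarith
  have hl2 : 1 / 2 ≤ lam := by
    rw [hlam, div_le_div_iff₀ (by norm_num) hden]; linarith
  have hl0 : 0 < lam := by linarith
  have hlmul : lam * (η ^ a + 6 * ρ) = η ^ a + 5 * ρ := by
    rw [hlam]; field_simp
  obtain ⟨CL, hCL, hmean⟩ := gmean (μ := μ) (ν := ν) H hb0' hR hk hdr hl2 hl1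
  obtain ⟨L, K, hL, hK, hdd⟩ := hdr lam hl2 hl1
  set W : ℝ × ℝ → ℝ≥0∞ := fun w => ENNReal.ofReal (Real.exp (lam * gcost h b' R w)) with hW
  have hcm := gcost_measurable H b' R
  have hhm : Measurable h := H.cont.measurable
  have hWm : Measurable W := by rw [hW]; fun_prop
  have hdrift : ∀ w : ℝ × ℝ, 0 ≤ w.1 → w.1 ≤ w.2 →
      ∫⁻ p, W (kwStep w p.1 p.2) ∂(μ.prod ν) ≤ W w + ENNReal.ofReal K := by
    intro w h0 h1
    refine le_self_add.trans ((hdd w h0 h1).trans ?_)
    gcongr
    split_ifs
    · exact zero_le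
    · exact le_rfl
  have hiter := BadBig_iter (μ := μ) (ν := ν) hWm hdrift
  -- gain constant
  obtain ⟨C, hC, hq⟩ := ggain_const H (b := b') (g := g / 2) hb0' (by rw [← hθ]; linarith)
  set CR := Real.exp (lam * (2 * C + h (R / b'))) with hCR
  have hCR0 : 0 < CR := Real.exp_pos _
  -- exponential moment of the big job
  set CI : ℝ := ∫ s, Real.exp (lam * h s) ∂μ with hCI
  have hCI0 : 0 ≤ CI := integral_nonneg fun s => (Real.exp_pos _).le
  have hmom : ∫⁻ s, ENNReal.ofReal (Real.exp (lam * h s)) ∂μ = ENNReal.ofReal CI := by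
    rw [hCI, ofReal_integral_eq_lintegral_ofReal (law_integrable_exp H S.law hl1)
      (Filter.Eventually.of_forall fun s => (Real.exp_pos _).le)]
  obtain ⟨Cμ, hCμ, hup⟩ := S.law.up
  set C1 := CR * CI * CL with hC1
  have hC10 : 0 ≤ C1 := by positivity
  set δ := min ρ (2 * ρ / (3 * (η ^ a + ρ))) with hδ
  have hδ0 : 0 < δ := lt_min hρ0 (by positivity)
  have hδ1 : δ ≤ ρ := min_le_left _ _
  have hδ2 : 3 * δ * (η ^ a + ρ) ≤ 2 * ρ := by
    have h3 : δ ≤ 2 * ρ / (3 * (η ^ a + ρ)) := min_le_right _ _
    rw [le_div_iff₀ (by positivity)] at h3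
    linarith
  refine ⟨δ, hδ0, ?_⟩
  -- the two exponents
  have hF1 : η ^ a + 5 * ρ ≤ lam * ((θ - ρ) + g / 2 * (c0 / 2)) := by
    have h3 : η ^ a + 6 * ρ ≤ (θ - ρ) + g / 2 * (c0 / 2) := by
      have : g / 2 * (c0 / 2) = g * c0 / 4 := by ring
      linarith
    calc η ^ a + 5 * ρ = lam * (η ^ a + 6 * ρ) := hlmul.symm
      _ ≤ _ := by gcongr
  have hF2 : η ^ a + 5 * ρ ≤ lam * (θ - ρ) + β ^ a / 2 := by
    have h3 : lam * (η ^ a + 6 * ρ) ≤ lam * ((θ - ρ) + 8 * ρ) :=
      mul_le_mul_of_nonneg_left (by linarith) hl0.le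
    have h4 : lam * (8 * ρ) ≤ 1 * (8 * ρ) := by gcongr
    rw [hlmul, mul_add] at h3
    linarith
  -- eventual statements
  have hib : 0 < 1 + 1 / b' := by positivity
  have ev1 := gBadBig_ratio_ge H (l := 1 + 1 / b') (τ := θ - ρ) hib (by rw [← hθ]; linarith)
  have ev2 := gBadBig_ratio_ge H (l := min e β) (τ := c0 / 2) hmin0 (by rw [← hc0]; linarith)
  have ev3 := gBadBig_ratio_ge H (l := β) (τ := β ^ a / 2) hβ (by linarith)
  have ev4 := gBadBig_ratio_le H (l := η) (τ := η ^ a + ρ) hη0 (by linarith)
  have ev5 : ∀ᶠ x : ℝ in atTop, (C1 + K * Cμ) * Real.exp (-(ρ * h x)) ≤ 1 := by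
    have h3 : Tendsto (fun x : ℝ => Real.exp (-(ρ * h x))) atTop (𝓝 0) :=
      Real.tendsto_exp_neg_atTop_nhds_zero.comp (H.tendsto_h.const_mul_atTop hρ0)
    have h4 := h3.const_mul (C1 + K * Cμ)
    rw [mul_zero] at h4
    exact h4.eventually (ge_mem_nhds zero_lt_one)
  filter_upwards [ev1, ev2, ev3, ev4, ev5, eventually_gt_atTop 0] with x x1 x2 x3 x4 x5 hx0
  intro π hπ n hn
  have hprob : IsProbabilityMeasure π := hπ.1
  have hhx : 0 ≤ h x := H.nonneg x
  -- measurability of the event
  set B : Set ((ℝ × ℝ) × (ℕ → ℝ × ℝ)) := {q | e * x < q.1.2 ∧ β * x < (q.2 0).1 ∧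
          x < (pIter q.1 q.2 (n + 1)).1} with hB
  have hm2 : Measurable fun q : (ℝ × ℝ) × (ℕ → ℝ × ℝ) => (q.2 0).1 := by fun_prop
  have hBm : MeasurableSet B := by
    refine MeasurableSet.inter ?_ (MeasurableSet.inter ?_ ?_)
    · exact measurableSet_lt measurable_const (measurable_snd.comp measurable_fst)
    · exact measurableSet_lt measurable_const hm2
    · exact measurableSet_lt measurable_const (measurable_pIter (n + 1)).fst
  rw [Measure.prod_apply hBm]
  set v := Real.exp (-(lam * ((θ - ρ) * h x))) with hv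
  have hv0 : 0 < v := Real.exp_pos _
  -- tail of the chain
  have htail : ∀ u : ℝ × ℝ, 0 ≤ u.1 → u.1 ≤ u.2 →
      (noise μ ν) {z | x < (pIter u z n).1} ≤
        ENNReal.ofReal v * (W u + n * ENNReal.ofReal K) := by
    intro u h0 h1
    have hset : MeasurableSet {z : ℕ → ℝ × ℝ | x < (pIter u z n).1} :=
      measurableSet_lt measurable_const (measurable_pIter_right u n).fst
    have h3 : (noise μ ν) {z | x < (pIter u z n).1} ≤
        ∫⁻ z, ENNReal.ofReal v * W (pIter u z n) ∂(noise μ ν) := by
      rw [← lintegral_indicator_one hset]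
      apply lintegral_mono
      intro z
      by_cases hz : z ∈ {z : ℕ → ℝ × ℝ | x < (pIter u z n).1}
      · rw [Set.indicator_of_mem hz]
        have hz' : x < (pIter u z n).1 := hz
        have h4 := gcost_lower H (R := R) hb0' hx0.le (pIter_ordered h0 h1 z n).2 hz'
        have h5 : (θ - ρ) * h x ≤ gcost h b' R (pIter u z n) := by
          refine le_trans (le_min x1 ?_) h4
          have : θ - ρ ≤ 2 := by linarith
          exact mul_le_mul_of_nonneg_right this hhx
        simp only [Pi.one_apply]
        rw [hW, ← ENNReal.ofReal_mul hv0.le, hv, ← Real.exp_add, ENNReal.one_le_ofReal,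
          Real.one_le_exp_iff]
        have h6 : lam * ((θ - ρ) * h x) ≤ lam * gcost h b' R (pIter u z n) := by gcongr
        linarith
      · rw [Set.indicator_of_notMem hz]
        exact zero_le
    refine h3.trans ?_
    have hcomp : Measurable fun z : ℕ → ℝ × ℝ => W (pIter u z n) :=
      hWm.comp (measurable_pIter_right u n)
    rw [lintegral_const_mul _ hcomp]
    gcongr
    exact hiter n u h0 h1
  -- weight of the big job
  set F : ℝ × ℝ → (ℝ × ℝ) → ℝ≥0∞ := fun w p =>
    ENNReal.ofReal (CR * Real.exp (-(lam * (g / 2 * (c0 / 2)) * h x))) *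
      W w * ENNReal.ofReal (Real.exp (lam * h p.1)) with hF
  have hpoint : ∀ᵐ w ∂π, (noise μ ν) (Prod.mk w ⁻¹' B) ≤
      ENNReal.ofReal v * (ENNReal.ofReal (CR * Real.exp (-(lam * (g / 2 * (c0 / 2)) * h x)) *
        CI) * W w +
        n * ENNReal.ofReal K * ENNReal.ofReal (Cμ * Real.exp (-(h (β * x))))) := by
    filter_upwards [hπ.ae_ordered] with w hw
    by_cases hwe : e * x < w.2
    · have hpre : MeasurableSet (Prod.mk w ⁻¹' B) := measurable_prodMk_left hBm
      have hind : (noise μ ν) (Prod.mk w ⁻¹' B) =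
          ∫⁻ z, (Prod.mk w ⁻¹' B).indicator 1 z ∂(noise μ ν) := by
        rw [lintegral_indicator_one hpre]
      rw [hind, lintegral_noise_cons (measurable_one.indicator hpre)]
      have h3 : ∀ p : ℝ × ℝ, ∫⁻ z, (Prod.mk w ⁻¹' B).indicator (1 : (ℕ → ℝ × ℝ) → ℝ≥0∞)
          (gcons p z) ∂(noise μ ν) ≤
          (if β * x < p.1 then ENNReal.ofReal v *
            (W (kwStep w p.1 p.2) + n * ENNReal.ofReal K) else 0) := by
        intro p
        by_cases hp : β * x < p.1
        · rw [if_pos hp]
          refine le_trans ?_ (htail (kwStep w p.1 p.2) (kwStep_fst_nonneg _ _ _)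
            (kwStep_fst_le_snd _ _ _))
          have hset : MeasurableSet {z : ℕ → ℝ × ℝ | x < (pIter (kwStep w p.1 p.2) z n).1} :=
            measurableSet_lt measurable_const (measurable_pIter_right _ n).fst
          rw [← lintegral_indicator_one hset]
          apply lintegral_mono
          intro z
          by_cases hz : gcons p z ∈ Prod.mk w ⁻¹' B
          · have hz' : x < (pIter w (gcons p z) (n + 1)).1 := hz.2.2
            rw [pIter_gcons] at hz'
            simp only
            rw [Set.indicator_of_mem hz, Set.indicator_of_mem (show z ∈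
              {z : ℕ → ℝ × ℝ | x < (pIter (kwStep w p.1 p.2) z n).1} from hz')]
            simp
          · simp only
            rw [Set.indicator_of_notMem hz]
            exact zero_le
        · rw [if_neg hp, ← lintegral_zero (μ := noise μ ν)]
          apply lintegral_mono
          intro z
          have hz : gcons p z ∉ Prod.mk w ⁻¹' B := fun h => hp h.2.1
          simp only
          rw [Set.indicator_of_notMem hz]
      refine (lintegral_mono h3).trans ?_
      have h4 : ∀ᵐ p ∂(μ.prod ν), (if β * x < p.1 then ENNReal.ofReal v *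
            (W (kwStep w p.1 p.2) + n * ENNReal.ofReal K) else 0) ≤
          ENNReal.ofReal v * (F w p + n * ENNReal.ofReal K *
            (Set.Ioi (β * x)).indicator 1 p.1) := by
        filter_upwards [law_prod_nonneg S.law S.hν] with p hp
        by_cases hpb : β * x < p.1
        · rw [if_pos hpb, Set.indicator_of_mem (show p.1 ∈ Set.Ioi (β * x) from hpb)]
          simp only [Pi.one_apply, mul_one]
          gcongr
          rw [hF, hW]
          simp only
          rw [← ENNReal.ofReal_mul (by positivity), ← ENNReal.ofReal_mul (by positivity)]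
          apply ENNReal.ofReal_le_ofReal
          have h5 := ggain H (b := b') (R := R) (g := g / 2) hb0' hb1' hR (by linarith) hC hq
            hw.1 hw.2 hp.1 hp.2
          have h6 : c0 / 2 * h x ≤ h (min w.2 p.1) := by
            refine x2.trans (H.mono ?_)
            apply le_min
            · have : min e β * x ≤ e * x := by
                gcongr; exact min_le_left _ _
              linarith
            · have : min e β * x ≤ β * x := by
                gcongr; exact min_le_right _ _
              linarith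
          have h8 : g / 2 * (c0 / 2 * h x) ≤ g / 2 * h (min w.2 p.1) := by
            have : 0 ≤ g / 2 := by linarith
            gcongr
          calc Real.exp (lam * gcost h b' R (kwStep w p.1 p.2))
              ≤ Real.exp (lam * (2 * C + h (R / b')) + -(lam * (g / 2 * (c0 / 2)) * h x) +
                lam * gcost h b' R w + lam * h p.1) := by
                apply Real.exp_le_exp.mpr
                have h9 : lam * gcost h b' R (kwStep w p.1 p.2) ≤
                  lam * (gcost h b' R w + h p.1 - g / 2 * (c0 / 2 * h x) +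
                    2 * C + h (R / b')) := by
                  gcongr
                  linarith
                refine h9.trans (le_of_eq ?_)
                ring
            _ = _ := by
                rw [Real.exp_add, Real.exp_add, Real.exp_add]
        · rw [if_neg hpb]
          exact zero_le
      refine (lintegral_mono_ae h4).trans ?_
      have hFm : Measurable fun p : ℝ × ℝ => F w p := by
        rw [hF]
        fun_prop
      have him : Measurable fun p : ℝ × ℝ =>
          (Set.Ioi (β * x)).indicator (1 : ℝ → ℝ≥0∞) p.1 :=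
        (measurable_one.indicator measurableSet_Ioi).comp measurable_fst
      have hsm : Measurable fun p : ℝ × ℝ => F w p + n * ENNReal.ofReal K *
            (Set.Ioi (β * x)).indicator (1 : ℝ → ℝ≥0∞) p.1 := hFm.add (him.const_mul _)
      rw [lintegral_const_mul _ hsm, lintegral_add_left hFm,
        lintegral_const_mul _ him]
      gcongr
      · -- first part
        have e1 : ∫⁻ p, F w p ∂(μ.prod ν) =
            ENNReal.ofReal (CR * Real.exp (-(lam * (g / 2 * (c0 / 2)) * h x))) * W w *
              ∫⁻ s, ENNReal.ofReal (Real.exp (lam * h s)) ∂μ := by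
          rw [hF]
          simp only
          rw [lintegral_const_mul _ (by fun_prop), lintegral_prod _ (by fun_prop)]
          simp
        rw [e1, hmom]
        refine le_of_eq ?_
        rw [mul_right_comm, ← ENNReal.ofReal_mul (by positivity)]
      · -- second part
        have e2 : ∫⁻ p, (Set.Ioi (β * x)).indicator (1 : ℝ → ℝ≥0∞) p.1 ∂(μ.prod ν) =
            μ (Set.Ioi (β * x)) := by
          rw [lintegral_prod _ him.aemeasurable]
          simp only [lintegral_const, measure_univ, mul_one]
          rw [lintegral_indicator_one measurableSet_Ioi]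
        rw [e2]
        exact hup (β * x)
    · have hpre : Prod.mk w ⁻¹' B = ∅ := by
        ext z
        simp only [Set.mem_preimage, Set.mem_empty_iff_false, iff_false]
        intro hz
        exact hwe hz.1
      rw [hpre, measure_empty]
      exact zero_le
  refine (lintegral_mono_ae hpoint).trans ?_
  rw [lintegral_const_mul _ (by fun_prop), lintegral_add_right _ measurable_const,
    lintegral_const_mul _ hWm, lintegral_const, measure_univ, mul_one]
  have hmeanπ := hmean π hπ
  have hnn : (n : ℝ≥0∞) = ENNReal.ofReal n := (ENNReal.ofReal_natCast n).symm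
  rw [hnn]
  calc ENNReal.ofReal v * (ENNReal.ofReal (CR * Real.exp (-(lam * (g / 2 * (c0 / 2)) * h x)) *
        CI) * ∫⁻ w, W w ∂π +
        ENNReal.ofReal n * ENNReal.ofReal K * ENNReal.ofReal (Cμ * Real.exp (-(h (β * x)))))
      ≤ ENNReal.ofReal v * (ENNReal.ofReal (CR * Real.exp (-(lam * (g / 2 * (c0 / 2)) * h x)) *
        CI) * ENNReal.ofReal CL +
        ENNReal.ofReal n * ENNReal.ofReal K * ENNReal.ofReal (Cμ * Real.exp (-(h (β * x))))) := by
        gcongr
    _ = ENNReal.ofReal (v * (CR * Real.exp (-(lam * (g / 2 * (c0 / 2)) * h x)) *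
        CI * CL + n * K * (Cμ * Real.exp (-(h (β * x)))))) := by
        rw [← ENNReal.ofReal_mul (by positivity), ← ENNReal.ofReal_mul (by positivity),
          ← ENNReal.ofReal_mul (by positivity), ← ENNReal.ofReal_add (by positivity)
          (by positivity), ← ENNReal.ofReal_mul hv0.le]
    _ ≤ _ := by
        apply ENNReal.ofReal_le_ofReal
        have e5 : v * Real.exp (-(lam * (g / 2 * (c0 / 2)) * h x)) =
            Real.exp (-(lam * ((θ - ρ) + g / 2 * (c0 / 2)) * h x)) := by
          rw [hv, ← Real.exp_add]; congr 1; ring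
        have h12 : v * Real.exp (-(lam * (g / 2 * (c0 / 2)) * h x)) ≤
            Real.exp (-((η ^ a + 5 * ρ) * h x)) := by
          rw [e5]
          apply Real.exp_le_exp.mpr
          have : (η ^ a + 5 * ρ) * h x ≤ lam * ((θ - ρ) + g / 2 * (c0 / 2)) * h x := by gcongr
          linarith
        have h13 : v * Real.exp (-(h (β * x))) ≤ Real.exp (-((η ^ a + 5 * ρ) * h x)) := by
          rw [hv, ← Real.exp_add]
          apply Real.exp_le_exp.mpr
          have h14 : (η ^ a + 5 * ρ) * h x ≤ (lam * (θ - ρ) + β ^ a / 2) * h x := by gcongr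
          linarith
        have h15 : (n : ℝ) * Real.exp (-((η ^ a + 5 * ρ) * h x)) ≤
            Real.exp (-((η ^ a + 4 * ρ) * h x)) := by
          calc (n : ℝ) * Real.exp (-((η ^ a + 5 * ρ) * h x))
              ≤ Real.exp (δ * h x) * Real.exp (-((η ^ a + 5 * ρ) * h x)) := by gcongr
            _ = Real.exp (δ * h x + -((η ^ a + 5 * ρ) * h x)) := (Real.exp_add _ _).symm
            _ ≤ Real.exp (-((η ^ a + 4 * ρ) * h x)) := by
                apply Real.exp_le_exp.mpr
                have : δ * h x ≤ ρ * h x := by gcongr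
                linarith
        have h16 : Real.exp (-((η ^ a + 5 * ρ) * h x)) ≤
            Real.exp (-((η ^ a + 4 * ρ) * h x)) := by
          apply Real.exp_le_exp.mpr
          have : 0 ≤ ρ * h x := by positivity
          linarith
        have h17 : Real.exp (-((η ^ a + 4 * ρ) * h x)) ≤ Real.exp (-(ρ * h x)) *
            Real.exp (-((1 + 3 * δ) * h (η * x))) := by
          rw [← Real.exp_add]
          apply Real.exp_le_exp.mpr
          have h18 : (1 + 3 * δ) * h (η * x) ≤ (1 + 3 * δ) * ((η ^ a + ρ) * h x) := by gcongr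
          have h19 : 3 * δ * (η ^ a + ρ) * h x ≤ 2 * ρ * h x := by gcongr
          nlinarith
        calc v * (CR * Real.exp (-(lam * (g / 2 * (c0 / 2)) * h x)) *
              CI * CL + n * K * (Cμ * Real.exp (-(h (β * x)))))
            = C1 * (v * Real.exp (-(lam * (g / 2 * (c0 / 2)) * h x))) +
              K * Cμ * (n * (v * Real.exp (-(h (β * x))))) := by rw [hC1]; ring
          _ ≤ C1 * Real.exp (-((η ^ a + 5 * ρ) * h x)) +
              K * Cμ * (n * Real.exp (-((η ^ a + 5 * ρ) * h x))) := by
              gcongr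
          _ ≤ C1 * Real.exp (-((η ^ a + 4 * ρ) * h x)) +
              K * Cμ * Real.exp (-((η ^ a + 4 * ρ) * h x)) := by
              gcongr
          _ = (C1 + K * Cμ) * Real.exp (-((η ^ a + 4 * ρ) * h x)) := by ring
          _ ≤ (C1 + K * Cμ) * (Real.exp (-(ρ * h x)) *
              Real.exp (-((1 + 3 * δ) * h (η * x)))) := by gcongr
          _ = ((C1 + K * Cμ) * Real.exp (-(ρ * h x))) *
              Real.exp (-((1 + 3 * δ) * h (η * x))) := by ring
          _ ≤ 1 * Real.exp (-((1 + 3 * δ) * h (η * x))) := by gcongr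
          _ = _ := one_mul _

end Pool.Agent.Lib.MP_04add8_pr.Gen
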