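import Mathlib
import Pool.Agent.Lib.MP_04add8_pr.Gen.Defs
import Pool.Agent.Lib.MP_04add8_pr.Gen.RV

open MeasureTheory ProbabilityTheory Filter Topology
open scoped ENNReal

set_option linter.unusedSectionVars false

namespace Pool.Agent.Lib.MP_04add8_pr.Gen

variable {h h' : ℝ → ℝ} {a : ℝ} {μ ν : Measure ℝ} [IsProbabilityMeasure μ]
  [IsProbabilityMeasure ν]

/-- `2 ^ (1/a) > 2` -/
lemma gcrit_facts {b0 : ℝ} (ha : 0 ≤ a) (ha1 : a < 1) (hb0 : 0 < b0)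
    (hcrit : (1 + 1 / b0) ^ a = 2) : 0 < a ∧ b0 < 1 := by
  have ha0 : 0 < a := by
    rcases ha.eq_or_lt with h0 | h0
    · rw [← h0, Real.rpow_zero] at hcrit
      norm_num at hcrit
    · exact h0
  refine ⟨ha0, ?_⟩
  by_contra hb
  have hb1 : 1 ≤ b0 := not_lt.1 hb
  have h1 : 1 / b0 ≤ 1 := (div_le_one hb0).2 hb1
  have h2 : (1 + 1 / b0) ^ a ≤ (2 : ℝ) ^ a :=
    Real.rpow_le_rpow (by positivity) (by linarith) ha0.le
  have h3 : (2 : ℝ) ^ a < (2 : ℝ) ^ (1 : ℝ) :=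
    Real.rpow_lt_rpow_of_exponent_lt (by norm_num) ha1
  rw [Real.rpow_one] at h3
  linarith

/-- `b0 = 1 / (2 ^ (1/a) - 1)` (`a > 0` because `η ^ 0 = 1 < 2`); `1 + m / (E - m) = η`. -/
lemma gcrit_exists (S : Std μ ν h h' a) (h2 : 2 ≤ (eta μ ν) ^ a) :
    ∃ b0 : ℝ, 0 < b0 ∧ b0 < 1 ∧
      ((∫ s, s ∂μ) - ∫ t, t ∂ν) / (∫ t, t ∂ν) ≤ b0 ∧ (1 + 1 / b0) ^ a = 2 := by
  have ha0 : 0 < a := by
    rcases S.haz.a0.eq_or_lt with h0 | h0
    · rw [← h0, Real.rpow_zero] at h2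
      norm_num at h2
    · exact h0
  have ha1 := S.haz.a1
  have hm := S.hm
  have hgt := S.hgt
  have hinv : 1 < 1 / a := (one_lt_div ha0).2 ha1
  have h3 : (2 : ℝ) < (2 : ℝ) ^ (1 / a) := by
    have := Real.rpow_lt_rpow_of_exponent_lt (show (1 : ℝ) < 2 by norm_num) hinv
    rwa [Real.rpow_one] at this
  have hEm : 0 < (∫ s, s ∂μ) - ∫ t, t ∂ν := sub_pos.2 hgt
  have heta0 : 0 < eta μ ν := by
    unfold eta
    exact div_pos (hm.trans hgt) hEm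
  have h4 : (2 : ℝ) ^ (1 / a) ≤ eta μ ν := by
    have h5 := Real.rpow_le_rpow (by norm_num : (0 : ℝ) ≤ 2) h2 (by positivity : (0 : ℝ) ≤ 1 / a)
    rwa [← Real.rpow_mul heta0.le, mul_one_div_cancel ha0.ne', Real.rpow_one] at h5
  have hd : 0 < (2 : ℝ) ^ (1 / a) - 1 := by linarith
  refine ⟨1 / ((2 : ℝ) ^ (1 / a) - 1), by positivity, ?_, ?_, ?_⟩
  · rw [div_lt_one hd]
    linarith
  · rw [div_le_div_iff₀ hm hd]
    have h6 : eta μ ν - 1 = (∫ t, t ∂ν) / ((∫ s, s ∂μ) - ∫ t, t ∂ν) := by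
      unfold eta
      field_simp
      ring
    have h7 : (2 : ℝ) ^ (1 / a) - 1 ≤ (∫ t, t ∂ν) / ((∫ s, s ∂μ) - ∫ t, t ∂ν) := by
      rw [← h6]
      linarith
    rw [le_div_iff₀ hEm] at h7
    linarith
  · rw [one_div_one_div, add_sub_cancel, ← Real.rpow_mul (by norm_num : (0 : ℝ) ≤ 2),
      one_div_mul_cancel ha0.ne', Real.rpow_one]

/-- slightly larger `b`: strict inequalities -/
lemma gcrit_larger (S : Std μ ν h h' a) {b0 b1 ρ : ℝ} (hb0 : 0 < b0)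
    (hb0m : ((∫ s, s ∂μ) - ∫ t, t ∂ν) / (∫ t, t ∂ν) ≤ b0) (hcrit : (1 + 1 / b0) ^ a = 2)
    (hb1 : b0 < b1) (hρ : 0 < ρ) :
    ∃ b : ℝ, b0 < b ∧ b ≤ b1 ∧ b < 1 ∧ (∫ s, s ∂μ) < (1 + b) * ∫ t, t ∂ν ∧
      2 - ρ < (1 + 1 / b) ^ a ∧ (1 + 1 / b) ^ a < 2 := by
  obtain ⟨ha0, hb01⟩ := gcrit_facts S.haz.a0 S.haz.a1 hb0 hcrit
  have hm := S.hm
  have hcont : ContinuousAt (fun b : ℝ => (1 + 1 / b) ^ a) b0 := by
    refine ContinuousAt.rpow_const ?_ (Or.inr ha0.le)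
    exact continuousAt_const.add (continuousAt_const.div continuousAt_id hb0.ne')
  have hlim : ∀ᶠ b in 𝓝 b0, 2 - ρ < (1 + 1 / b) ^ a := by
    refine hcont.eventually (lt_mem_nhds ?_)
    show 2 - ρ < (1 + 1 / b0) ^ a
    rw [hcrit]
    linarith
  obtain ⟨δ, hδ, hball⟩ := Metric.eventually_nhds_iff.1 hlim
  set b : ℝ := b0 + min (δ / 2) (min ((b1 - b0) / 2) ((1 - b0) / 2)) with hb
  have hmin : 0 < min (δ / 2) (min ((b1 - b0) / 2) ((1 - b0) / 2)) :=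
    lt_min (by linarith) (lt_min (by linarith) (by linarith))
  have hm1 := min_le_left (δ / 2) (min ((b1 - b0) / 2) ((1 - b0) / 2))
  have hm2 := (min_le_right (δ / 2) (min ((b1 - b0) / 2) ((1 - b0) / 2))).trans
    (min_le_left _ _)
  have hm3 := (min_le_right (δ / 2) (min ((b1 - b0) / 2) ((1 - b0) / 2))).trans
    (min_le_right _ _)
  have hbb : b0 < b := by linarith
  have hbpos : 0 < b := hb0.trans hbb
  refine ⟨b, hbb, by linarith, by linarith, ?_, ?_, ?_⟩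
  · rw [div_le_iff₀ hm] at hb0m
    nlinarith [mul_pos (sub_pos.2 hbb) hm]
  · apply hball
    rw [Real.dist_eq, hb, add_sub_cancel_left, abs_of_pos hmin]
    linarith
  · rw [← hcrit]
    refine Real.rpow_lt_rpow (by positivity) ?_ ha0
    have := one_div_lt_one_div_of_lt hb0 hbb
    linarith

end Pool.Agent.Lib.MP_04add8_pr.Gen
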