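import Mathlib
import Pool.Agent.Lib.MP_04add8_pr.Gen.Base
import Pool.Agent.Lib.MP_04add8_pr.Crit.CritBack

open MeasureTheory ProbabilityTheory Filter Topology
open scoped ENNReal

set_option linter.unusedSectionVars false

namespace Pool.Agent.Lib.MP_04add8_pr.Gen

variable {h h' : ℝ → ℝ} {a : ℝ} {μ ν : Measure ℝ} [IsProbabilityMeasure μ]
  [IsProbabilityMeasure ν]

/-- the deterministic case analysis. Original: `CB.cases_back` in `Crit/CritBack.lean`
(`CB.bigA_le`, `CB.exists_last`, `back_det` are reused); subadditivity is `Haz.add_le`. -/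
lemma gcases_back (H : Haz h h' a) {b R δ εm κ β ε g x : ℝ} (hb : 0 < b) (hb1 : b < 1)
    (hR : 0 < R) (hεm : 0 < εm) (hκ0 : 0 < κ) (hκ1 : κ ≤ 1 / 4)
    (hβ0 : 0 < β) (hβ1 : β ≤ 1 / 4) (hε0 : 0 < ε) (hε1 : ε ≤ 1 / 4) (hεκ : ε ≤ κ)
    (hεm' : ε ≤ εm) (hx : 0 < x) (n : ℕ)
    (hn : (1 + κ / 2) * x + R / b ≤ (1 - ε - κ) * x + δ * n)
    (hg1 : (1 + g) * h x ≤ h ((1 - ε) * x) + h (β * x)) (hg2 : (1 + g) * h x ≤ h ((1 + εm) * x))
    (hg3 : (1 + g) * h x ≤ h ((1 + κ / 2) * x))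
    {w : ℝ × ℝ} {z : ℕ → ℝ × ℝ} (h0 : 0 ≤ w.1) (h1 : w.1 ≤ w.2)
    (hz : ∀ k, 0 ≤ (z k).1 ∧ 0 ≤ (z k).2)
    (hq1 : (pIter w z n).1 ≤ ε * x) (hq2 : (1 - ε) * x ≤ (pIter w z n).2)
    (hq3 : ¬ ∃ k < n, (pIter w z k).2 ≤ 2 * εm * x ∧ β * x < (z k).1 ∧
            ∀ j, k < j → j < n → (z j).1 ≤ β * x) :
    (z ∈ allLe (β * x) n ∧ (1 - ε) * x ≤ bigA b R (pIter w z n) ∧
      max (bigA b R w - δ * n) 0 ≤ (1 - ε - κ) * x) ∨
    ∃ k < n + 1, (1 + g) * h x ≤
      h ((pIter w z k).2 + (pIter w z k).1 / b) + h (z k).1 := by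
  by_cases hall : z ∈ allLe (β * x) n
  · by_cases hA : max (bigA b R w - δ * n) 0 ≤ (1 - ε - κ) * x
    · exact Or.inl ⟨hall, hq2.trans (CB.bigA_ge hb _), hA⟩
    · right
      refine ⟨0, Nat.succ_pos _, ?_⟩
      push Not at hA
      have h2 : 0 ≤ (1 - ε - κ) * x := by
        have : 0 ≤ 1 - ε - κ := by linarith
        positivity
      have h3 : (1 - ε - κ) * x < bigA b R w - δ * n := by
        rcases lt_max_iff.1 hA with h | h
        · exact h
        · linarith
      have h4 := CB.bigA_le hb hR h0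
      have h5 : (1 + κ / 2) * x ≤ w.2 + w.1 / b := by linarith
      have h6 : h ((1 + κ / 2) * x) ≤ h (w.2 + w.1 / b) := H.mono h5
      have h7 : 0 ≤ h (z 0).1 := H.nonneg _
      rw [pIter_zero]
      linarith
  · right
    have hex : ∃ k < n, β * x < (z k).1 := by
      by_contra hcon
      push Not at hcon
      exact hall hcon
    obtain ⟨k, hkn, hkP, hkl⟩ := CB.exists_last hex
    push Not at hkl
    have hlow : 2 * εm * x < (pIter w z k).2 := by
      by_contra hcon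
      push Not at hcon
      exact hq3 ⟨k, hkn, hcon, hkP, hkl⟩
    refine ⟨k, Nat.lt_succ_of_lt hkn, ?_⟩
    obtain ⟨n', rfl⟩ : ∃ n', n = k + (n' + 1) := ⟨n - k - 1, by omega⟩
    have ho := pIter_ordered h0 h1 z k
    set W := pIter w z k with hW
    have hadd : pIter w z (k + (n' + 1)) = pIter W (fun i => z (k + i)) (n' + 1) :=
      pIter_add w z k (n' + 1)
    rw [hadd] at hq1 hq2
    have hgap : (pIter W (fun i => z (k + i)) (n' + 1)).1 + β * x <
        (pIter W (fun i => z (k + i)) (n' + 1)).2 := by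
      have : (ε + β) * x < (1 - ε) * x := by
        apply mul_lt_mul_of_pos_right _ hx
        linarith
      nlinarith
    have hbd := back_det (by positivity : 0 ≤ β * x) ho.1 ho.2 (z := fun i => z (k + i))
      (fun i => hz (k + i)) (n := n')
      (fun i hi1 hi2 => hkl (k + i) (by omega) (by omega)) hgap
    have hmx : (1 - ε) * x ≤ max (W.1 + (z k).1) W.2 := hq2.trans hbd
    have hU1 : W.1 ≤ W.1 / b := by
      rw [le_div_iff₀ hb]
      nlinarith [ho.1]
    have hU0 : 0 ≤ W.1 / b := by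
      have := ho.1
      positivity
    have hzk : 0 ≤ (z k).1 := (hz k).1
    have hW2 : 0 ≤ W.2 := ho.1.trans ho.2
    rcases le_max_iff.1 hmx with h | h
    · -- the sum is large
      have e1 : (1 + εm) * x ≤ (W.2 + W.1 / b) + (z k).1 := by
        have : (1 - ε) * x + 2 * εm * x ≤ (W.2 + W.1 / b) + (z k).1 := by linarith
        have e2 : (1 + εm) * x ≤ (1 - ε) * x + 2 * εm * x := by nlinarith
        linarith
      have e3 := H.mono e1
      have e4 := H.add_le (x := W.2 + W.1 / b) (y := (z k).1) (by linarith) hzk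
      linarith
    · -- the maximum was large already
      have e1 : (1 - ε) * x ≤ W.2 + W.1 / b := by linarith
      have e2 := H.mono e1
      have e4 := H.mono hkP.le
      linarith

/-- a pair bound at some time below `n`. Original: `CB.pair_union`. -/
lemma gpair_union (H : Haz h h' a) {π : Measure (ℝ × ℝ)} (hπ : IsStationaryKW μ ν π) {b Y : ℝ}
    {T : ℝ≥0∞}
    (hT : (π.prod (noise μ ν)) {q | Y ≤ h (q.1.2 + q.1.1 / b) + h (q.2 0).1} ≤ T) (n : ℕ) :
    (π.prod (noise μ ν)) {q | ∃ k < n, Y ≤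
      h ((pIter q.1 q.2 k).2 + (pIter q.1 q.2 k).1 / b) + h (q.2 k).1} ≤ n * T := by
  have hp : IsProbabilityMeasure π := hπ.1
  have hset : {q : (ℝ × ℝ) × (ℕ → ℝ × ℝ) | ∃ k < n, Y ≤
      h ((pIter q.1 q.2 k).2 + (pIter q.1 q.2 k).1 / b) + h (q.2 k).1} =
      ⋃ k ∈ Finset.range n, pathShift k ⁻¹' {q | Y ≤ h (q.1.2 + q.1.1 / b) +
        h (q.2 0).1} := by
    ext q
    simp [pathShift]
  have hhm : Measurable h := H.cont.measurable
  have hm : MeasurableSet {q : (ℝ × ℝ) × (ℕ → ℝ × ℝ) | Y ≤ h (q.1.2 + q.1.1 / b) +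
        h (q.2 0).1} := by
    refine measurableSet_le measurable_const ?_
    refine Measurable.add ?_ ?_
    · refine hhm.comp ?_
      fun_prop
    · refine hhm.comp ?_
      fun_prop
  rw [hset]
  refine (measure_biUnion_finset_le _ _).trans ?_
  have : ∀ k ∈ Finset.range n, (π.prod (noise μ ν)) (pathShift k ⁻¹' {q | Y ≤
      h (q.1.2 + q.1.1 / b) + h (q.2 0).1}) ≤ T := by
    intro k _
    rw [(hπ.measurePreserving_path k).measure_preimage hm.nullMeasurableSet]
    exact hT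
  refine (Finset.sum_le_sum this).trans ?_
  rw [Finset.sum_const, Finset.card_range, nsmul_eq_mul]

end Pool.Agent.Lib.MP_04add8_pr.Gen
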