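import Mathlib
import Pool.Agent.Lib.MP_04add8_pr.Gen.LawM
import Pool.Agent.Lib.MP_04add8_pr.Gen.Mom
import Pool.Agent.Lib.MP_04add8_pr.One.LinPot
import Pool.Agent.Lib.MP_04add8_pr.One.Ret
import Pool.Agent.Lib.MP_04add8_pr.Upper

open MeasureTheory ProbabilityTheory Filter Topology
open scoped ENNReal

set_option linter.unusedSectionVars false

namespace Pool.Agent.Lib.MP_04add8_pr.Gen

variable {h h' : ℝ → ℝ} {a : ℝ} {μ ν : Measure ℝ} [IsProbabilityMeasure μ]
  [IsProbabilityMeasure ν]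

/-! Originals: `One/LinPot.lean` (`lp_drift`), `Crit/LinGen.lean` (`lin_gen`). Reused: `lp_step`,
`lp_crude`, `lp_iter`, `lp_sorted`. -/

private lemma gla_int (S : Std μ ν h h' a) (b M : ℝ) :
    Integrable (fun s : ℝ => (M + (s + M) / b) ^ 2 * Real.exp (h s / 2)) μ := by
  have hm := S.haz.cont.measurable
  have h1 : Integrable (fun s : ℝ => s ^ 2 * Real.exp (h s / 2)) μ := by
    refine (law_integrable S.haz S.law (c := 1 / 2) (by norm_num) 2).congr ?_
    filter_upwards with s
    congr 2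
    ring
  have h2 : Integrable (fun s : ℝ => Real.exp (h s / 2)) μ := by
    refine (law_integrable_exp S.haz S.law (c := 1 / 2) (by norm_num)).congr ?_
    filter_upwards with s
    congr 1
    ring
  apply Integrable.mono' (g := fun s => (2 * (M + M / b) ^ 2) * Real.exp (h s / 2) +
    (2 / b ^ 2) * (s ^ 2 * Real.exp (h s / 2)))
  · exact (h2.const_mul _).add (h1.const_mul _)
  · fun_prop
  · filter_upwards with s
    rw [Real.norm_of_nonneg (by positivity)]
    have e : (M + (s + M) / b) = (M + M / b) + s / b := by ring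
    have h3 : ((M + M / b) + s / b) ^ 2 ≤ 2 * (M + M / b) ^ 2 + 2 * (s / b) ^ 2 := by
      nlinarith [sq_nonneg ((M + M / b) - s / b)]
    rw [e]
    calc ((M + M / b) + s / b) ^ 2 * Real.exp (h s / 2) ≤
        (2 * (M + M / b) ^ 2 + 2 * (s / b) ^ 2) * Real.exp (h s / 2) := by gcongr
      _ = _ := by rw [div_pow]; ring

private lemma gla_drift (S : Std μ ν h h' a) {b0 R M L δ : ℝ} (hb : 0 < b0) (hb1 : b0 < 1)
    (hR : 0 < R) (hM : 0 ≤ M)
    (hincr : ∀ q : ℝ, 0 ≤ q → q ≤ 1 → ∫ p : ℝ × ℝ, incr b0 R M q p.1 p.2 ∂(μ.prod ν) ≤ -δ)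
    (hLM : M ≤ L) (hcond : ∀ v, L - M ≤ v → b0 ^ 2 * (v ^ 2 + R ^ 2) ≤ v ^ 2)
    {B θ : ℝ} (hθ : 0 ≤ θ) (hθ1 : θ ≤ 1)
    (hθB : ∀ s, 0 ≤ s → s ≤ B → θ * (s / b0) ≤ h s / 2)
    (hs1 : θ * (M * (1 + 1 / b0)) ≤ 1)
    (hs2 : θ * (∫ s, (M + (s + M) / b0) ^ 2 * Real.exp (h s / 2) ∂μ) ≤ δ / 2)
    (hs3 : θ * (δ / 2) ≤ 1)
    {w : ℝ × ℝ} (h0 : 0 ≤ w.1) (h1 : w.1 ≤ w.2) :
    ∫⁻ p, (Set.Iic B).indicator (fun _ => (1 : ℝ≥0∞)) p.1 *
        ENNReal.ofReal (Real.exp (θ * bigA b0 R (kwStep w p.1 p.2))) ∂(μ.prod ν) ≤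
      ENNReal.ofReal (1 - θ * (δ / 2)) * ENNReal.ofReal (Real.exp (θ * bigA b0 R w)) +
        ENNReal.ofReal ((∫ s, Real.exp (1 / 2 * h s) ∂μ) * Real.exp (L + (L + R) / b0)) := by
  have hν := S.hν
  have hhm := S.haz.cont.measurable
  set G : ℝ → ℝ := fun s => (M + (s + M) / b0) ^ 2 * Real.exp (h s / 2) with hG
  have hGi : Integrable G μ := gla_int S b0 M
  rcases le_or_gt L w.2 with hL | hL
  · -- large workload
    refine le_trans ?_ le_self_add
    set q := w.1 / √(w.1 ^ 2 + R ^ 2) with hq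
    have hr0 : 0 < √(w.1 ^ 2 + R ^ 2) := Real.sqrt_pos.mpr (by positivity)
    have hwr : w.1 ≤ √(w.1 ^ 2 + R ^ 2) := by
      apply Real.le_sqrt_of_sq_le; nlinarith [sq_nonneg R]
    have hq0 : 0 ≤ q := by positivity
    have hq1 : q ≤ 1 := by rw [hq, div_le_one hr0]; exact hwr
    set F : ℝ × ℝ → ℝ := fun p => Real.exp (θ * bigA b0 R w) *
      (1 + θ * incr b0 R M q p.1 p.2 + θ ^ 2 * G p.1) with hF
    have hi1 := (gintegral_incr (ν := ν) S.haz S.law hν hM b0 R q).1
    have hi2 : Integrable (fun p : ℝ × ℝ => G p.1) (μ.prod ν) := hGi.comp_fst ν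
    have hFi : Integrable F (μ.prod ν) := by
      apply Integrable.const_mul
      exact ((integrable_const _).add (hi1.const_mul _)).add (hi2.const_mul _)
    have hF0 : ∀ p : ℝ × ℝ, 0 ≤ p.1 → 0 ≤ p.2 → 0 ≤ F p := by
      intro p hp1 hp2
      have e1 : -(M * (1 + 1 / b0)) ≤ incr b0 R M q p.1 p.2 := by
        unfold incr
        have t0 : 0 ≤ min p.2 M := le_min hp2 hM
        have t1 : min p.2 M ≤ M := min_le_right _ _
        have t2 : q / b0 * min p.2 M ≤ 1 / b0 * M := by gcongr
        have t3 : 0 ≤ q / b0 * p.1 := by positivity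
        have t4 : 0 ≤ (p.1 ^ 2 + M ^ 2) / (2 * b0 * R) := by positivity
        have e2 : q / b0 * (p.1 - min p.2 M) = q / b0 * p.1 - q / b0 * min p.2 M := by ring
        have e3 : M * (1 + 1 / b0) = M + 1 / b0 * M := by ring
        rw [e2, e3]
        linarith
      have e2 : θ * -(M * (1 + 1 / b0)) ≤ θ * incr b0 R M q p.1 p.2 := by gcongr
      have e3 : 0 ≤ θ ^ 2 * G p.1 := by positivity
      have e4 : 0 ≤ 1 + θ * incr b0 R M q p.1 p.2 + θ ^ 2 * G p.1 := by linarith
      exact mul_nonneg (Real.exp_pos _).le e4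
    have hle : ∀ᵐ p ∂(μ.prod ν), (Set.Iic B).indicator (fun _ => (1 : ℝ≥0∞)) p.1 *
        ENNReal.ofReal (Real.exp (θ * bigA b0 R (kwStep w p.1 p.2))) ≤ ENNReal.ofReal (F p) := by
      filter_upwards [law_prod_nonneg (ν := ν) S.law hν] with p hp
      by_cases hpB : p.1 ≤ B
      · rw [Set.indicator_of_mem (by exact hpB), one_mul]
        apply ENNReal.ofReal_le_ofReal
        have := lp_step hb hb1 hR hM h0 (hLM.trans hL)
          (fun v hv => hcond v (by linarith)) hp.1 hp.2 hθ (hθB p.1 hp.1 hpB)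
        refine this.trans (le_of_eq ?_)
        rw [hF, hG]
        ring
      · rw [Set.indicator_of_notMem (by exact hpB), zero_mul]
        exact zero_le
    have hF0' : 0 ≤ᵐ[μ.prod ν] F := by
      filter_upwards [law_prod_nonneg (ν := ν) S.law hν] with p hp
      exact hF0 p hp.1 hp.2
    calc _ ≤ ∫⁻ p, ENNReal.ofReal (F p) ∂(μ.prod ν) := lintegral_mono_ae hle
      _ = ENNReal.ofReal (∫ p, F p ∂(μ.prod ν)) := by
        rw [ofReal_integral_eq_lintegral_ofReal hFi hF0']
      _ ≤ ENNReal.ofReal ((1 - θ * (δ / 2)) * Real.exp (θ * bigA b0 R w)) := by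
        apply ENNReal.ofReal_le_ofReal
        rw [hF, integral_const_mul, mul_comm]
        gcongr
        have hsplit : ∫ p : ℝ × ℝ, (1 + θ * incr b0 R M q p.1 p.2 + θ ^ 2 * G p.1) ∂(μ.prod ν) =
            1 + θ * (∫ p : ℝ × ℝ, incr b0 R M q p.1 p.2 ∂(μ.prod ν)) + θ ^ 2 * ∫ s, G s ∂μ := by
          rw [integral_add, integral_add, integral_const_mul, integral_const_mul, integral_const]
          · have e2 : ∫ p : ℝ × ℝ, G p.1 ∂(μ.prod ν) = ∫ s, G s ∂μ := by
              rw [integral_prod _ hi2]; simp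
            rw [e2]
            simp only [probReal_univ, smul_eq_mul, one_mul]
          · exact integrable_const _
          · exact hi1.const_mul _
          · exact (integrable_const _).add (hi1.const_mul _)
          · exact hi2.const_mul _
        rw [hsplit]
        have e3 : θ * ∫ p : ℝ × ℝ, incr b0 R M q p.1 p.2 ∂(μ.prod ν) ≤ θ * -δ := by
          gcongr
          exact hincr q hq0 hq1
        have e4 : θ ^ 2 * ∫ s, G s ∂μ ≤ θ * (δ / 2) := by
          rw [pow_two, mul_assoc]
          gcongr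
        linarith
      _ = _ := by
        rw [ENNReal.ofReal_mul (by linarith)]
  · -- small workload
    refine le_trans ?_ le_add_self
    have hle : ∀ᵐ p ∂(μ.prod ν), (Set.Iic B).indicator (fun _ => (1 : ℝ≥0∞)) p.1 *
        ENNReal.ofReal (Real.exp (θ * bigA b0 R (kwStep w p.1 p.2))) ≤
        ENNReal.ofReal (Real.exp (L + (L + R) / b0)) *
          ENNReal.ofReal (Real.exp (1 / 2 * h p.1)) := by
      filter_upwards [law_prod_nonneg (ν := ν) S.law hν] with p hp
      by_cases hpB : p.1 ≤ B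
      · rw [Set.indicator_of_mem (by exact hpB), one_mul,
          ← ENNReal.ofReal_mul (Real.exp_pos _).le, ← Real.exp_add]
        apply ENNReal.ofReal_le_ofReal
        apply Real.exp_le_exp.mpr
        have e1 := lp_crude hb hR h0 h1 hp.1 hp.2 hL.le
        have e2 : θ * p.1 ≤ θ * (p.1 / b0) := by
          gcongr
          rw [le_div_iff₀ hb]
          nlinarith [hp.1]
        have e3 := hθB p.1 hp.1 hpB
        have e4 : 0 ≤ L + (L + R) / b0 := by
          have : 0 ≤ L := by linarith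
          positivity
        have e5 : θ * bigA b0 R (kwStep w p.1 p.2) ≤ θ * ((L + (L + R) / b0) + p.1) := by gcongr
        have e6 : θ * (L + (L + R) / b0) ≤ 1 * (L + (L + R) / b0) := by gcongr
        linarith
      · rw [Set.indicator_of_notMem (by exact hpB), zero_mul]
        exact zero_le
    have hexp : Measurable fun s : ℝ => ENNReal.ofReal (Real.exp (1 / 2 * h s)) := by fun_prop
    have hexp2 : Measurable fun p : ℝ × ℝ => ENNReal.ofReal (Real.exp (1 / 2 * h p.1)) :=
      hexp.comp measurable_fst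
    calc _ ≤ _ := lintegral_mono_ae hle
      _ = ENNReal.ofReal (Real.exp (L + (L + R) / b0)) *
          ∫⁻ s, ENNReal.ofReal (Real.exp (1 / 2 * h s)) ∂μ := by
        rw [lintegral_const_mul _ hexp2, lintegral_prod _ hexp2.aemeasurable]
        simp
      _ = ENNReal.ofReal (Real.exp (L + (L + R) / b0)) *
          ENNReal.ofReal (∫ s, Real.exp (1 / 2 * h s) ∂μ) := by
        rw [ofReal_integral_eq_lintegral_ofReal
          (law_integrable_exp S.haz S.law (c := 1 / 2) (by norm_num))
          (Eventually.of_forall fun s => (Real.exp_pos _).le)]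
      _ = _ := by
        rw [← ENNReal.ofReal_mul (Real.exp_pos _).le]
        congr 1
        ring

/-- **Linear exponential potential**, parametric form. Original `lin_gen`, with the tilt
`K x^(a-1)` replaced by a free `θ` and the smallness of the jobs by the hypothesis on `θ, B`;
`s ^ 2 exp (h s / 2)` is integrable by `law_integrable`. -/
theorem glin (S : Std μ ν h h' a) {b : ℝ} (hb : 0 < b) (hb1 : b < 1)
    (hbm : (∫ s, s ∂μ) < (1 + b) * ∫ t, t ∂ν) :
    ∃ R δ C θ0 : ℝ, 0 < R ∧ 0 < δ ∧ 0 ≤ C ∧ 0 < θ0 ∧ ∀ θ B : ℝ, 0 < θ → θ ≤ θ0 →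
      (∀ s : ℝ, 0 ≤ s → s ≤ B → θ * (s / b) ≤ h s / 2) →
      ∀ v : ℝ × ℝ, 0 ≤ v.1 → v.1 ≤ v.2 → ∀ (n : ℕ) (Y : ℝ),
        (noise μ ν) (allLe B n ∩ {z | Y ≤ bigA b R (pIter v z n)}) ≤
          ENNReal.ofReal (C * (n + 1) *
            Real.exp (-(θ * (Y - max (bigA b R v - δ * n) 0)))) := by
  have hν := S.hν
  have hνi := S.hνi
  have hgt := S.hgt
  set E1 := ∫ s, s ∂μ with hE1
  set E2 := ∫ s, s ^ 2 ∂μ with hE2
  set m := ∫ t, t ∂ν with hmdef
  have hE2nn : 0 ≤ E2 := integral_nonneg fun s => by positivity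
  -- choose M
  obtain ⟨M, hM1, hM0⟩ : ∃ M : ℝ, E1 < (1 + b) * ∫ t, min t M ∂ν ∧ 0 ≤ M := by
    have h1 : Tendsto (fun n : ℕ => (1 + b) * ∫ t, min t (n : ℝ) ∂ν) atTop
        (𝓝 ((1 + b) * m)) := (tendsto_integral_min hν hνi).const_mul _
    obtain ⟨n, hn⟩ := (h1.eventually (lt_mem_nhds hbm)).exists
    exact ⟨n, hn, by positivity⟩
  set m' := ∫ t, min t M ∂ν with hm'
  have hm'm : m' ≤ m := by
    apply integral_mono_ae (min_integrable hν hM0) hνi
    filter_upwards with t
    exact min_le_left _ _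
  have hEm' : 0 < E1 - m' := by linarith
  set δ := (m' - (E1 - m') / b) / 2 with hδ
  have hδ0 : 0 < δ := by
    rw [hδ]
    have : (E1 - m') / b < m' := by
      rw [div_lt_iff₀ hb]; linarith
    linarith
  -- choose R
  set R := (E2 + M ^ 2 + 1) / (2 * b * δ) with hR
  have hR0 : 0 < R := by positivity
  have hRδ : (E2 + M ^ 2) / (2 * b * R) ≤ δ := by
    rw [div_le_iff₀ (by positivity), hR]
    have : δ * (2 * b * ((E2 + M ^ 2 + 1) / (2 * b * δ))) = E2 + M ^ 2 + 1 := by
      field_simp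
    rw [this]; linarith
  have hincr : ∀ q : ℝ, 0 ≤ q → q ≤ 1 →
      ∫ p : ℝ × ℝ, incr b R M q p.1 p.2 ∂(μ.prod ν) ≤ -δ := by
    intro q hq0 hq1
    have hint := (gintegral_incr (ν := ν) S.haz S.law hν hM0 b R q).2
    rw [hint]
    have h5 : q / b * (E1 - m') ≤ 1 / b * (E1 - m') := by gcongr
    have h6 : -m' + 1 / b * (E1 - m') = -(2 * δ) := by rw [hδ]; ring
    linarith
  -- choose L
  have hb2 : 0 < 1 - b ^ 2 := by nlinarith
  set L := M + R / (1 - b ^ 2) with hL
  have hLM : M ≤ L := by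
    have : 0 < R / (1 - b ^ 2) := by positivity
    rw [hL]; linarith
  have hL0 : 0 ≤ L := hM0.trans hLM
  have hcond : ∀ v, L - M ≤ v → b ^ 2 * (v ^ 2 + R ^ 2) ≤ v ^ 2 := by
    intro v hv
    have h0 : R / (1 - b ^ 2) ≤ v := by rw [hL] at hv; linarith
    have h1 : R ≤ (1 - b ^ 2) * v := by
      rw [div_le_iff₀ hb2] at h0
      linarith
    have hv0 : 0 < v := lt_of_lt_of_le (by positivity) h0
    have h2 : R ^ 2 ≤ ((1 - b ^ 2) * v) ^ 2 := by gcongr
    nlinarith [sq_nonneg (b * v), mul_pos hb2 (by positivity : 0 < v ^ 2)]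
  set I := ∫ s, (M + (s + M) / b) ^ 2 * Real.exp (h s / 2) ∂μ with hI
  have hI0 : 0 ≤ I := integral_nonneg fun s => by positivity
  set J := ∫ s, Real.exp (1 / 2 * h s) ∂μ with hJ
  have hJ0 : 0 ≤ J := integral_nonneg fun s => (Real.exp_pos _).le
  set SS := 2 * I / δ + M * (1 + 1 / b) + δ / 2 + 1 with hSS
  have hS0 : 0 < SS := by positivity
  set C := 1 + J * Real.exp (L + (L + R) / b) with hC
  have hC0 : 0 < C := by positivity
  refine ⟨R, δ / 2, C, 1 / SS, hR0, by positivity, hC0.le, by positivity, ?_⟩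
  intro θ B hθ0 hθle hθB v hv0 hv1 n Y
  have hθS : θ * SS ≤ 1 := by
    calc θ * SS ≤ 1 / SS * SS := by gcongr
      _ = 1 := by field_simp
  have hpos1 : 0 ≤ 2 * I / δ := by positivity
  have hpos2 : 0 ≤ M * (1 + 1 / b) := by positivity
  have hs1 : θ * (M * (1 + 1 / b)) ≤ 1 := by
    refine le_trans ?_ hθS
    gcongr
    rw [hSS]; linarith
  have hs3 : θ * (δ / 2) ≤ 1 := by
    refine le_trans ?_ hθS
    gcongr
    rw [hSS]; linarith
  have hθ1 : θ ≤ 1 := by
    refine le_trans ?_ hθS
    have : θ * 1 ≤ θ * SS := by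
      gcongr
      rw [hSS]; linarith
    linarith
  have hs2 : θ * I ≤ δ / 2 := by
    have h1 : θ * (2 * I / δ) ≤ 1 := by
      refine le_trans ?_ hθS
      gcongr
      rw [hSS]; linarith
    have h2 : θ * (2 * I / δ) = (θ * I) * (2 / δ) := by ring
    rw [h2, ← le_div_iff₀ (by positivity)] at h1
    refine h1.trans (le_of_eq ?_)
    field_simp
  -- the potential
  set Φ : ℝ × ℝ → ℝ≥0∞ := fun w => ENNReal.ofReal (Real.exp (θ * bigA b R w)) with hΦ
  have hΦm : Measurable Φ := by
    rw [hΦ]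
    unfold bigA
    fun_prop
  have hρ : ENNReal.ofReal (1 - θ * (δ / 2)) ≤ 1 := by
    rw [← ENNReal.ofReal_one]
    apply ENNReal.ofReal_le_ofReal
    have : 0 ≤ θ * (δ / 2) := by positivity
    linarith
  have hiter := lp_iter (μ := μ) (ν := ν) hΦm hρ (B := B)
    (fun w hw0 hw1 => gla_drift S hb hb1 hR0 hM0 hincr hLM hcond hθ0.le hθ1 hθB hs1
      hs2 hs3 hw0 hw1) n v hv0 hv1
  -- Markov
  have hAm : Measurable fun z : ℕ → ℝ × ℝ => bigA b R (pIter v z n) := by
    have h1 : Measurable (bigA b R) := by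
      unfold bigA
      fun_prop
    exact h1.comp ((measurable_pIter n).comp (measurable_const.prodMk measurable_id))
  have hmark : (noise μ ν) (allLe B n ∩ {z | Y ≤ bigA b R (pIter v z n)}) ≤
      ENNReal.ofReal (Real.exp (-(θ * Y))) *
        ∫⁻ z, (allLe B n).indicator (fun z => Φ (pIter v z n)) z ∂(noise μ ν) := by
    have hms : MeasurableSet (allLe B n ∩ {z | Y ≤ bigA b R (pIter v z n)}) := by
      apply (measurableSet_allLe _ _).inter
      exact measurableSet_le measurable_const hAm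
    have hmi : Measurable fun z : ℕ → ℝ × ℝ =>
        (allLe B n).indicator (fun z => Φ (pIter v z n)) z :=
      (hΦm.comp ((measurable_pIter n).comp (measurable_const.prodMk measurable_id))).indicator
        (measurableSet_allLe _ _)
    rw [← lintegral_const_mul _ hmi, ← lintegral_indicator_one hms]
    apply lintegral_mono
    intro z
    beta_reduce
    by_cases hz : z ∈ allLe B n ∩ {z | Y ≤ bigA b R (pIter v z n)}
    · rw [Set.indicator_of_mem hz, Set.indicator_of_mem hz.1]
      have h1 : Y ≤ bigA b R (pIter v z n) := hz.2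
      have h4 : θ * Y ≤ θ * bigA b R (pIter v z n) := by gcongr
      rw [hΦ, ← ENNReal.ofReal_mul (Real.exp_pos _).le, ← Real.exp_add]
      change (1 : ℝ≥0∞) ≤ _
      rw [ENNReal.one_le_ofReal]
      apply Real.one_le_exp
      linarith
    · rw [Set.indicator_of_notMem hz]
      exact zero_le
  refine hmark.trans ?_
  -- final computation
  have hpow : (1 - θ * (δ / 2)) ^ n ≤ Real.exp (-(θ * (δ / 2 * n))) := by
    have e1 : 1 - θ * (δ / 2) ≤ Real.exp (-(θ * (δ / 2))) := by
      have := Real.add_one_le_exp (-(θ * (δ / 2)))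
      linarith
    calc (1 - θ * (δ / 2)) ^ n ≤ (Real.exp (-(θ * (δ / 2)))) ^ n := by
          apply pow_le_pow_left₀ (by linarith) e1
      _ = Real.exp (-(θ * (δ / 2 * n))) := by
          rw [← Real.exp_nat_mul]
          congr 1
          ring
  calc ENNReal.ofReal (Real.exp (-(θ * Y))) *
        ∫⁻ z, (allLe B n).indicator (fun z => Φ (pIter v z n)) z ∂(noise μ ν)
      ≤ ENNReal.ofReal (Real.exp (-(θ * Y))) *
        (ENNReal.ofReal (1 - θ * (δ / 2)) ^ n * Φ v +
          n * ENNReal.ofReal (J * Real.exp (L + (L + R) / b))) := by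
        gcongr
    _ = ENNReal.ofReal (Real.exp (-(θ * Y)) *
        ((1 - θ * (δ / 2)) ^ n * Real.exp (θ * bigA b R v) +
          n * (J * Real.exp (L + (L + R) / b)))) := by
        have hn1 : 0 ≤ (1 - θ * (δ / 2)) ^ n := pow_nonneg (by linarith) n
        rw [hΦ, ← ENNReal.ofReal_pow (by linarith), ← ENNReal.ofReal_mul hn1,
          ← ENNReal.ofReal_natCast n, ← ENNReal.ofReal_mul (by positivity),
          ← ENNReal.ofReal_add (by positivity) (by positivity),
          ← ENNReal.ofReal_mul (by positivity)]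
    _ ≤ _ := by
        apply ENNReal.ofReal_le_ofReal
        set G := max (bigA b R v - δ / 2 * n) 0 with hG
        have hG0 : 0 ≤ G := le_max_right _ _
        have e1 : (1 - θ * (δ / 2)) ^ n * Real.exp (θ * bigA b R v) ≤ Real.exp (θ * G) := by
          calc (1 - θ * (δ / 2)) ^ n * Real.exp (θ * bigA b R v)
              ≤ Real.exp (-(θ * (δ / 2 * n))) * Real.exp (θ * bigA b R v) := by
                gcongr
            _ = Real.exp (θ * (bigA b R v - δ / 2 * n)) := by
                rw [← Real.exp_add]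
                congr 1
                ring
            _ ≤ _ := by
                apply Real.exp_le_exp.mpr
                gcongr
                exact le_max_left _ _
        have e2 : 1 ≤ Real.exp (θ * G) := Real.one_le_exp (by positivity)
        have hJL : 0 ≤ J * Real.exp (L + (L + R) / b) := by positivity
        have e3 : (n : ℝ) * (J * Real.exp (L + (L + R) / b)) ≤
            n * (J * Real.exp (L + (L + R) / b)) * Real.exp (θ * G) := by
          have : 0 ≤ (n : ℝ) * (J * Real.exp (L + (L + R) / b)) := by positivity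
          nlinarith
        have e4 : (1 - θ * (δ / 2)) ^ n * Real.exp (θ * bigA b R v) +
            n * (J * Real.exp (L + (L + R) / b)) ≤ C * (n + 1) * Real.exp (θ * G) := by
          have hn0 : (0 : ℝ) ≤ n := Nat.cast_nonneg n
          have e5 : Real.exp (θ * G) + n * (J * Real.exp (L + (L + R) / b)) * Real.exp (θ * G) ≤
              C * (n + 1) * Real.exp (θ * G) := by
            have e6 : 0 ≤ Real.exp (θ * G) := (Real.exp_pos _).le
            have e7 : 1 + n * (J * Real.exp (L + (L + R) / b)) ≤ C * (n + 1) := by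
              rw [hC]
              nlinarith
            nlinarith
          linarith
        calc Real.exp (-(θ * Y)) *
              ((1 - θ * (δ / 2)) ^ n * Real.exp (θ * bigA b R v) +
                n * (J * Real.exp (L + (L + R) / b)))
            ≤ Real.exp (-(θ * Y)) * (C * (n + 1) * Real.exp (θ * G)) := by
              apply mul_le_mul_of_nonneg_left e4 (Real.exp_pos _).le
          _ = C * (n + 1) * (Real.exp (-(θ * Y)) * Real.exp (θ * G)) := by ring
          _ = _ := by
              rw [← Real.exp_add]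
              congr 2
              ring

end Pool.Agent.Lib.MP_04add8_pr.Gen
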