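import Mathlib
import Pool.Agent.Lib.MP_04add8_pr.Gen.LawM
import Pool.Agent.Lib.MP_04add8_pr.Gen.Mom
import Pool.Agent.Lib.MP_04add8_pr.One.LinPot
import Pool.Agent.Lib.MP_04add8_pr.One.Ret
import Pool.Agent.Lib.MP_04add8_pr.Upper
import Pool.Agent.Lib.MP_04add8_pr.Gen.LinA

open MeasureTheory ProbabilityTheory Filter Topology
open scoped ENNReal

set_option linter.unusedSectionVars false

namespace Pool.Agent.Lib.MP_04add8_pr.Gen

variable {h h' : ℝ → ℝ} {a : ℝ} {μ ν : Measure ℝ} [IsProbabilityMeasure μ]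
  [IsProbabilityMeasure ν]

/-! Originals: `One/LinPot.lean` (`lp_drift`), `Crit/LinGen.lean` (`lin_gen`). Reused: `lp_step`,
`lp_crude`, `lp_iter`, `lp_sorted`. -/

/-- the tilt `θ = K h x / x` (admissible for jobs `≤ β x`, `β` small, by `Haz.tilt_ev`) -/
theorem glin_x (S : Std μ ν h h' a) {b : ℝ} (hb : 0 < b) (hb1 : b < 1)
    (hbm : (∫ s, s ∂μ) < (1 + b) * ∫ t, t ∂ν) :
    ∃ R δ C : ℝ, 0 < R ∧ 0 < δ ∧ 0 ≤ C ∧ ∀ K : ℝ, 0 < K → ∃ β1 : ℝ, 0 < β1 ∧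
      ∀ β : ℝ, 0 < β → β ≤ β1 → ∀ᶠ x : ℝ in atTop, ∀ v : ℝ × ℝ, 0 ≤ v.1 → v.1 ≤ v.2 →
        ∀ (n : ℕ) (Y : ℝ),
        (noise μ ν) (allLe (β * x) n ∩ {z | Y ≤ bigA b R (pIter v z n)}) ≤
          ENNReal.ofReal (C * (n + 1) *
            Real.exp (-(K * (h x / x) * (Y - max (bigA b R v - δ * n) 0)))) := by
  obtain ⟨R, δ, C, θ0, hR, hδ, hC, hθ0, hmain⟩ := glin S hb hb1 hbm
  refine ⟨R, δ, C, hR, hδ, hC, fun K hK => ?_⟩
  obtain ⟨β1, hβ1, htilt⟩ := S.haz.tilt_ev (K / b)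
  refine ⟨β1, hβ1, fun β hβ hββ => ?_⟩
  have h1 : Tendsto (fun x => K * (h x / x)) atTop (𝓝 (K * 0)) := S.haz.tendsto_div.const_mul K
  rw [mul_zero] at h1
  filter_upwards [htilt β hβ hββ, h1.eventually (ge_mem_nhds hθ0),
    S.haz.tendsto_h.eventually_gt_atTop 0, eventually_gt_atTop 0] with x hx1 hx2 hx3 hx4 v hv0 hv1
    n Y
  refine hmain (K * (h x / x)) (β * x) (by positivity) hx2 (fun s hs hsB => ?_) v hv0 hv1 n Y
  have h2 := hx1 s hs hsB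
  have h3 := S.haz.nonneg s
  calc K * (h x / x) * (s / b) = K / b * (h x / x) * s := by ring
    _ ≤ h s / 4 := h2
    _ ≤ h s / 2 := by linarith

end Pool.Agent.Lib.MP_04add8_pr.Gen
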