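import Mathlib
import Pool.Agent.Lib.MP_04add8_pr.Gen.Mom
import Pool.Agent.Lib.MP_04add8_pr.Gen.Gain

open MeasureTheory ProbabilityTheory Filter Topology
open scoped ENNReal

set_option linter.unusedSectionVars false

namespace Pool.Agent.Lib.MP_04add8_pr.Gen

variable {h h' : ℝ → ℝ} {a : ℝ} {μ ν : Measure ℝ} [IsProbabilityMeasure μ]
  [IsProbabilityMeasure ν]

/-- Original: `Crit/PairTail.lean`. `h (w.2 + w.1 / b) ≤ gcost w + C` by `ggain_low`, with `C` from
`ggain_const` for some `g > 0` with `(1 + 1/b)^a < 2 - g`; `gmean` and `gdrift_uniform`;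
`∫ exp (lam h s) dμ` by `law_integrable_exp`. -/
theorem gpair_tail (S : Std μ ν h h' a) {b : ℝ} (hb : 0 < b) (hb1 : b < 1)
    (hbm : (∫ s, s ∂μ) < (1 + b) * ∫ t, t ∂ν) (hθ : (1 + 1 / b) ^ a < 2)
    {lam : ℝ} (hl2 : 1 / 2 ≤ lam) (hl1 : lam < 1) :
    ∃ C : ℝ, 0 ≤ C ∧ ∀ π : Measure (ℝ × ℝ), IsStationaryKW μ ν π → ∀ Y : ℝ,
      (π.prod (noise μ ν)) {q | Y ≤ h (q.1.2 + q.1.1 / b) + h (q.2 0).1} ≤
        ENNReal.ofReal (C * Real.exp (-(lam * Y))) := by
  have H := S.haz
  obtain ⟨R, k, hR, hk, hdr⟩ := gdrift_uniform S hb hb1 hbm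
  obtain ⟨CL, hCL, hmean⟩ := gmean H hb hR hk hdr hl2 hl1
  have hl0 : 0 < lam := by linarith
  -- the constant of the one-job argument
  obtain ⟨g, hg1, hg2⟩ := exists_between (show (0 : ℝ) < 2 - (1 + 1 / b) ^ a by linarith)
  obtain ⟨C0, hC0, hC0q⟩ := ggain_const H hb (g := g) (by linarith)
  have hexp := law_integrable_exp H S.law hl1
  set I : ℝ := ∫ s, Real.exp (lam * h s) ∂μ with hI
  have hI0 : 0 ≤ I := integral_nonneg fun s => (Real.exp_pos _).le
  have hcont := H.cont
  have hhm : Measurable h := hcont.measurable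
  refine ⟨Real.exp (lam * C0) * CL * I, by positivity, ?_⟩
  intro π hπ Y
  have hprob : IsProbabilityMeasure π := hπ.1
  set B : Set ((ℝ × ℝ) × (ℕ → ℝ × ℝ)) :=
    {q | Y ≤ h (q.1.2 + q.1.1 / b) + h (q.2 0).1} with hB
  have hBm : MeasurableSet B := by
    refine measurableSet_le measurable_const ?_
    fun_prop
  have hcm := gcost_measurable H b R
  have hint : ∫⁻ z : ℕ → ℝ × ℝ, ENNReal.ofReal (Real.exp (lam * h (z 0).1)) ∂(noise μ ν) =
      ENNReal.ofReal I := by
    rw [lintegral_noise_cons (by fun_prop)]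
    have h1 : ∀ (p : ℝ × ℝ) (z : ℕ → ℝ × ℝ), gcons p z 0 = p := fun p z => rfl
    simp only [h1, lintegral_const, measure_univ, mul_one]
    rw [lintegral_prod _ (by fun_prop)]
    simp only [lintegral_const, measure_univ, mul_one]
    rw [hI, ofReal_integral_eq_lintegral_ofReal hexp (ae_of_all _ fun u => (Real.exp_pos _).le)]
  rw [Measure.prod_apply hBm]
  have hpoint : ∀ᵐ w ∂π, (noise μ ν) (Prod.mk w ⁻¹' B) ≤
      ENNReal.ofReal (Real.exp (-(lam * Y)) * Real.exp (lam * C0)) *
        (ENNReal.ofReal (Real.exp (lam * gcost h b R w)) * ENNReal.ofReal I) := by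
    filter_upwards [hπ.ae_ordered] with w hw
    have hpre : MeasurableSet (Prod.mk w ⁻¹' B) := measurable_prodMk_left hBm
    have h1 : (noise μ ν) (Prod.mk w ⁻¹' B) ≤
        ∫⁻ z : ℕ → ℝ × ℝ, ENNReal.ofReal (Real.exp (-(lam * Y)) * Real.exp (lam * C0)) *
          (ENNReal.ofReal (Real.exp (lam * gcost h b R w)) *
          ENNReal.ofReal (Real.exp (lam * h (z 0).1))) ∂(noise μ ν) := by
      rw [← lintegral_indicator_one hpre]
      apply lintegral_mono
      intro z
      by_cases hz : z ∈ Prod.mk w ⁻¹' B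
      · simp only
        rw [Set.indicator_of_mem hz, Pi.one_apply]
        have hz' : Y ≤ h (w.2 + w.1 / b) + h (z 0).1 := hz
        have h2 := ggain_low (R := R) H hb hR hg1.le hC0 hC0q hw.1 hw.2
        rw [← ENNReal.ofReal_mul (by positivity), ← ENNReal.ofReal_mul (by positivity),
          ← Real.exp_add, ← Real.exp_add, ← Real.exp_add, ENNReal.one_le_ofReal,
          Real.one_le_exp_iff]
        have h3 : lam * Y ≤ lam * (gcost h b R w + C0 + h (z 0).1) := by
          refine mul_le_mul_of_nonneg_left ?_ hl0.le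
          linarith
        linarith
      · simp only
        rw [Set.indicator_of_notMem hz]
        exact zero_le
    refine h1.trans ?_
    rw [lintegral_const_mul _ (by fun_prop), lintegral_const_mul _ (by fun_prop), hint]
  refine (lintegral_mono_ae hpoint).trans ?_
  rw [lintegral_const_mul _ (by fun_prop), lintegral_mul_const _ (by fun_prop)]
  calc ENNReal.ofReal (Real.exp (-(lam * Y)) * Real.exp (lam * C0)) *
        ((∫⁻ w, ENNReal.ofReal (Real.exp (lam * gcost h b R w)) ∂π) * ENNReal.ofReal I)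
      ≤ ENNReal.ofReal (Real.exp (-(lam * Y)) * Real.exp (lam * C0)) *
        (ENNReal.ofReal CL * ENNReal.ofReal I) := by
        gcongr
        exact hmean π hπ
    _ = ENNReal.ofReal (Real.exp (lam * C0) * CL * I * Real.exp (-(lam * Y))) := by
        rw [← ENNReal.ofReal_mul (by positivity), ← ENNReal.ofReal_mul (by positivity)]
        congr 1
        ring

end Pool.Agent.Lib.MP_04add8_pr.Gen
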