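import Mathlib
import Pool.Agent.Lib.MP_04add8_pr.Gen.Crit0
import Pool.Agent.Lib.MP_04add8_pr.Gen.CritBackA
import Pool.Agent.Lib.MP_04add8_pr.Gen.PairTail
import Pool.Agent.Lib.MP_04add8_pr.Gen.Lin
import Pool.Agent.Lib.MP_04add8_pr.Gen.RV

open MeasureTheory ProbabilityTheory Filter Topology
open scoped ENNReal

set_option linter.unusedSectionVars false

namespace Pool.Agent.Lib.MP_04add8_pr.Gen

variable {h h' : ℝ → ℝ} {a : ℝ} {μ ν : Measure ℝ} [IsProbabilityMeasure μ]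
  [IsProbabilityMeasure ν]

/-- Original: `crit_back` in `Crit/CritBack.lean` (`CB.lin_int` is reused). `b` slightly larger
than `b0` (`gcrit_larger`), `κ = min (δ εw / 4) (1/4)`, `glin_x` with `K = 2/κ`;
`1 + 2 g < min ((1-ε)^a + β^a) ((1+εm)^a) ((1+κ/2)^a)` and `Haz.ratio` give the three
inequalities of `gcases_back` eventually. -/
theorem gcrit_back (S : Std μ ν h h' a) {b0 : ℝ} (hb0 : 0 < b0)
    (hb0m : ((∫ s, s ∂μ) - ∫ t, t ∂ν) / (∫ t, t ∂ν) ≤ b0) (hcrit : (1 + 1 / b0) ^ a = 2)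
    {εm εw : ℝ} (hεm : 0 < εm) (hεm8 : εm ≤ 1 / 8) (hεw : 0 < εw) :
    ∃ β0 : ℝ, 0 < β0 ∧ ∀ β : ℝ, 0 < β → β ≤ β0 → ∃ ε c : ℝ, 0 < ε ∧ 0 < c ∧
      ∀ᶠ x : ℝ in atTop, ∀ π : Measure (ℝ × ℝ), IsStationaryKW μ ν π →
        (π.prod (noise μ ν)) {q | (pIter q.1 q.2 ⌊εw * x⌋₊).1 ≤ ε * x ∧
          (1 - ε) * x ≤ (pIter q.1 q.2 ⌊εw * x⌋₊).2 ∧
          ¬ ∃ k < ⌊εw * x⌋₊, (pIter q.1 q.2 k).2 ≤ 2 * εm * x ∧ β * x < (q.2 k).1 ∧
            ∀ j, k < j → j < ⌊εw * x⌋₊ → (q.2 j).1 ≤ β * x} ≤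
          ENNReal.ofReal (Real.exp (-((1 + c) * h x))) := by
  have H := S.haz
  obtain ⟨ha0, hb01⟩ := gcrit_facts H.a0 H.a1 hb0 hcrit
  have ha1 := H.a1
  obtain ⟨b, hbb, -, hb1, hbm, -, hθ⟩ :=
    gcrit_larger S hb0 hb0m hcrit (show b0 < b0 + 1 by linarith) (show (0 : ℝ) < 1 by norm_num)
  have hb : 0 < b := hb0.trans hbb
  obtain ⟨R, δ, C1, hR, hδ, hC1, hlin⟩ := glin_x S hb hb1 hbm
  set κ := min (δ * εw / 4) (1 / 4) with hκ
  have hκ0 : 0 < κ := lt_min (by positivity) (by norm_num)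
  have hκ1 : κ ≤ 1 / 4 := min_le_right _ _
  have hκ2 : 4 * κ ≤ δ * εw := by
    have := min_le_left (δ * εw / 4) (1 / 4)
    linarith
  obtain ⟨β1, hβ1, hL⟩ := hlin (2 / κ) (by positivity)
  refine ⟨min β1 (1 / 4), lt_min hβ1 (by norm_num), ?_⟩
  intro β hβ hββ
  have hββ1 : β ≤ β1 := hββ.trans (min_le_left _ _)
  have hβ4 : β ≤ 1 / 4 := hββ.trans (min_le_right _ _)
  have hβa : 0 < β ^ a := by positivity
  have hm1 : 1 < (1 + εm) ^ a := Real.one_lt_rpow (show 1 < 1 + εm by linarith) ha0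
  have hm2 : 1 < (1 + κ / 2) ^ a := Real.one_lt_rpow (show 1 < 1 + κ / 2 by linarith) ha0
  set ε := min (min κ εm) (β ^ a / 2) with hε
  have hε0 : 0 < ε := lt_min (lt_min hκ0 hεm) (by positivity)
  have hεκ : ε ≤ κ := (min_le_left _ _).trans (min_le_left _ _)
  have hεm' : ε ≤ εm := (min_le_left _ _).trans (min_le_right _ _)
  have hεβ : ε ≤ β ^ a / 2 := min_le_right _ _
  have hε4 : ε ≤ 1 / 4 := hεκ.trans hκ1
  -- the gain
  set g := min (β ^ a / 4) (min (((1 + εm) ^ a - 1) / 2) (((1 + κ / 2) ^ a - 1) / 2)) with hg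
  have hg0 : 0 < g := by
    refine lt_min (by positivity) (lt_min ?_ ?_) <;> linarith
  have hg1 : 1 + g < (1 - ε) ^ a + β ^ a := by
    have h1 : g ≤ β ^ a / 4 := min_le_left _ _
    have h2 : (1 - ε) ≤ (1 - ε) ^ a := by
      have := Real.rpow_le_rpow_of_exponent_ge (x := 1 - ε) (by linarith) (by linarith) ha1.le
      rwa [Real.rpow_one] at this
    linarith
  have hg2 : 1 + g < (1 + εm) ^ a := by
    have : g ≤ ((1 + εm) ^ a - 1) / 2 := (min_le_right _ _).trans (min_le_left _ _)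
    linarith
  have hg3 : 1 + g < (1 + κ / 2) ^ a := by
    have : g ≤ ((1 + κ / 2) ^ a - 1) / 2 := (min_le_right _ _).trans (min_le_right _ _)
    linarith
  have hev1 : ∀ᶠ x : ℝ in atTop, 1 + g < h ((1 - ε) * x) / h x + h (β * x) / h x :=
    ((H.ratio (show 0 < 1 - ε by linarith)).add (H.ratio hβ)).eventually_const_lt hg1
  have hev2 : ∀ᶠ x : ℝ in atTop, 1 + g < h ((1 + εm) * x) / h x :=
    (H.ratio (show 0 < 1 + εm by linarith)).eventually_const_lt hg2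
  have hev3 : ∀ᶠ x : ℝ in atTop, 1 + g < h ((1 + κ / 2) * x) / h x :=
    (H.ratio (show 0 < 1 + κ / 2 by linarith)).eventually_const_lt hg3
  set lam := (1 + g / 2) / (1 + g) with hlam
  have hlam1 : lam < 1 := by
    rw [hlam, div_lt_one (by positivity)]; linarith
  have hlam2 : 1 / 2 ≤ lam := by
    rw [hlam, le_div_iff₀ (by positivity)]; linarith
  have hlamg : lam * (1 + g) = 1 + g / 2 := by
    rw [hlam]; field_simp
  obtain ⟨C2, hC2, hP⟩ := gpair_tail S hb hb1 hbm hθ hlam2 hlam1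
  set g' := min (g / 2) 1 with hg'
  have hg'0 : 0 < g' := lt_min (by positivity) (by norm_num)
  refine ⟨ε, g' / 2, hε0, by positivity, ?_⟩
  -- polynomial factors
  have hpoly := (H.rpow_exp 1 (show 0 < g' / 2 by positivity)).const_mul
    ((C1 + C2) * (εw + 1))
  rw [mul_zero] at hpoly
  have hbig : ∀ᶠ x : ℝ in atTop, R / b + δ ≤ κ / 2 * x := by
    filter_upwards [eventually_ge_atTop ((R / b + δ) / (κ / 2))] with x hx
    rw [div_le_iff₀ (by positivity)] at hx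
    linarith
  filter_upwards [hpoly.eventually_le_const (show (0 : ℝ) < 1 by norm_num), hbig,
    eventually_ge_atTop 1, hL β hβ hββ1, hev1, hev2, hev3, H.tendsto_h.eventually_gt_atTop 0]
    with x hxp hxb hx1' hLx hx1 hx2 hx3 hhx π hπ
  have hp : IsProbabilityMeasure π := hπ.1
  have hx0 : 0 < x := by linarith
  have hy1 : (1 + g) * h x ≤ h ((1 - ε) * x) + h (β * x) := by
    rw [← add_div, lt_div_iff₀ hhx] at hx1
    exact hx1.le
  have hy2 : (1 + g) * h x ≤ h ((1 + εm) * x) := by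
    rw [lt_div_iff₀ hhx] at hx2
    exact hx2.le
  have hy3 : (1 + g) * h x ≤ h ((1 + κ / 2) * x) := by
    rw [lt_div_iff₀ hhx] at hx3
    exact hx3.le
  set n := ⌊εw * x⌋₊ with hn
  have hn1 : (n : ℝ) ≤ εw * x := Nat.floor_le (by positivity)
  have hn2 : εw * x < n + 1 := Nat.lt_floor_add_one _
  have hcond : (1 + κ / 2) * x + R / b ≤ (1 - ε - κ) * x + δ * n := by
    have e1 : δ * (εw * x - 1) ≤ δ * n := by
      gcongr; linarith
    have e2 : 4 * κ * x ≤ δ * εw * x := by gcongr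
    have e3 : ε * x ≤ κ * x := by gcongr
    nlinarith
  -- inclusion
  have hsub : ∀ᵐ q ∂(π.prod (noise μ ν)), q ∈ {q : (ℝ × ℝ) × (ℕ → ℝ × ℝ) |
      (pIter q.1 q.2 n).1 ≤ ε * x ∧ (1 - ε) * x ≤ (pIter q.1 q.2 n).2 ∧
      ¬ ∃ k < n, (pIter q.1 q.2 k).2 ≤ 2 * εm * x ∧ β * x < (q.2 k).1 ∧
        ∀ j, k < j → j < n → (q.2 j).1 ≤ β * x} →
      q ∈ {q : (ℝ × ℝ) × (ℕ → ℝ × ℝ) | q.2 ∈ allLe (β * x) n ∧
        (1 - ε) * x ≤ bigA b R (pIter q.1 q.2 n) ∧
        max (bigA b R q.1 - δ * n) 0 ≤ (1 - ε - κ) * x} ∪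
      {q | ∃ k < n + 1, (1 + g) * h x ≤
        h ((pIter q.1 q.2 k).2 + (pIter q.1 q.2 k).1 / b) + h (q.2 k).1} := by
    filter_upwards [law_path S.law S.hν hπ] with q hq hmem
    obtain ⟨hm1, hm2, hm3⟩ := hmem
    exact gcases_back H hb hb1 hR hεm hκ0 hκ1 hβ hβ4 hε0 hε4 hεκ hεm' hx0 n hcond
      hy1 hy2 hy3 hq.1.1 hq.1.2 hq.2 hm1 hm2 hm3
  have hlint := CB.lin_int hπ (b := b) (R := R) (δ := δ) (B := β * x) (C := C1)
    (Θ := 2 / κ * (h x / x)) (Y := (1 - ε) * x) (Z := (1 - ε - κ) * x) (n := n)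
    (by positivity) hC1 (fun v hv0 hv1 => hLx v hv0 hv1 n _)
  have hpair := gpair_union H hπ (b := b) (hP π hπ ((1 + g) * h x)) (n + 1)
  have hexp1 : 2 / κ * (h x / x) * ((1 - ε) * x - (1 - ε - κ) * x) = 2 * h x := by
    field_simp
    ring
  have hexp2 : lam * ((1 + g) * h x) = (1 + g / 2) * h x := by
    rw [← mul_assoc, hlamg]
  rw [hexp1] at hlint
  rw [hexp2] at hpair
  refine (measure_mono_ae hsub).trans ((measure_union_le _ _).trans ?_)
  refine (add_le_add hlint hpair).trans ?_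
  rw [← ENNReal.ofReal_natCast (n + 1), ← ENNReal.ofReal_mul (by positivity),
    ← ENNReal.ofReal_add (by positivity) (by positivity)]
  apply ENNReal.ofReal_le_ofReal
  have f1 : Real.exp (-(2 * h x)) ≤ Real.exp (-((1 + g') * h x)) := by
    apply Real.exp_le_exp.mpr
    have : g' ≤ 1 := min_le_right _ _
    nlinarith
  have f2 : Real.exp (-((1 + g / 2) * h x)) ≤ Real.exp (-((1 + g') * h x)) := by
    apply Real.exp_le_exp.mpr
    have : g' ≤ g / 2 := min_le_left _ _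
    nlinarith
  have f3 : Real.exp (-((1 + g') * h x)) = Real.exp (-(g' / 2 * h x)) *
      Real.exp (-((1 + g' / 2) * h x)) := by
    rw [← Real.exp_add]
    congr 1
    ring
  have f4 : (n : ℝ) + 1 ≤ (εw + 1) * x := by nlinarith
  rw [Real.rpow_one] at hxp
  push_cast
  calc C1 * (↑n + 1) * Real.exp (-(2 * h x)) +
        (↑n + 1) * (C2 * Real.exp (-((1 + g / 2) * h x)))
      ≤ C1 * (↑n + 1) * Real.exp (-((1 + g') * h x)) +
        (↑n + 1) * (C2 * Real.exp (-((1 + g') * h x))) := by gcongr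
    _ = (C1 + C2) * (↑n + 1) * Real.exp (-((1 + g') * h x)) := by ring
    _ ≤ (C1 + C2) * ((εw + 1) * x) * Real.exp (-((1 + g') * h x)) := by gcongr
    _ = ((C1 + C2) * (εw + 1) * (x * Real.exp (-(g' / 2 * h x)))) *
        Real.exp (-((1 + g' / 2) * h x)) := by rw [f3]; ring
    _ ≤ 1 * Real.exp (-((1 + g' / 2) * h x)) := by gcongr
    _ = _ := one_mul _

end Pool.Agent.Lib.MP_04add8_pr.Gen
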