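import Mathlib
import Pool.Agent.Lib.MP_04add8_pr.Gen.Lin
import Pool.Agent.Lib.MP_04add8_pr.Crit.CritFront

open MeasureTheory ProbabilityTheory Filter Topology
open scoped ENNReal

set_option linter.unusedSectionVars false

namespace Pool.Agent.Lib.MP_04add8_pr.Gen

variable {h h' : ℝ → ℝ} {a : ℝ} {μ ν : Measure ℝ} [IsProbabilityMeasure μ]
  [IsProbabilityMeasure ν]

/-- one slice of the near part -/
private lemma gCF_slice {b R δ K β C0 x ε ε' : ℝ} (hb : 0 < b) (hb1 : b < 1) (hR : 0 < R)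
    (hδ : 0 < δ) (hK : 0 < K) (hC0 : 0 ≤ C0) (hx : 0 < x) (hh : 0 ≤ h x)
    (hlin : ∀ v : ℝ × ℝ, 0 ≤ v.1 → v.1 ≤ v.2 → ∀ (n : ℕ) (Y : ℝ),
        (noise μ ν) (allLe (β * x) n ∩ {z | Y ≤ bigA b R (pIter v z n)}) ≤
          ENNReal.ofReal (C0 * (n + 1) *
            Real.exp (-(K * (h x / x) * (Y - max (bigA b R v - δ * n) 0)))))
    (hε : 0 < ε) (hε1 : ε ≤ 1 / 2) (he0 : 0 < ε') (he1 : ε' ≤ ε / 8)
    (he2 : ε' * (8 * (1 + 1 / b)) ≤ δ * ε)
    (hp1 : 3 ≤ K * (ε / 4 * (1 + 1 / b))) (hp2 : 3 ≤ K * (δ * ε / 2))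
    (hx1 : R / b ≤ ε / 8 * x) (hx2 : R / b ≤ δ * ε / 4 * x)
    {w : ℝ × ℝ} (h0 : 0 ≤ w.1) {y t : ℝ} (hy : 0 ≤ y) (ht : 0 ≤ t)
    (hw1 : w.1 ≤ ε' * x) (hw2 : w.2 ≤ y + ε' * x) (n : ℕ)
    (hcase : y ≤ (1 - ε / 2) * x ∨ (y ≤ (1 + ε') * x ∧ ε * x < n)) :
    (noise μ ν) (allLe (β * x) n ∩ {z | x < (pIter (kwStep w y t) z n).1}) ≤
      ENNReal.ofReal (C0 * (n + 1) * Real.exp (-(3 * h x))) := by
  set v := kwStep w y t with hv
  have hv0 : 0 ≤ v.1 := kwStep_fst_nonneg _ _ _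
  have hv1 : v.1 ≤ v.2 := kwStep_fst_le_snd _ _ _
  have hv2 : v.2 ≤ y + ε' * x := CF_kwStep_le h0 hy ht (by linarith) hw2
  have hA : bigA b R v ≤ (y + ε' * x) * (1 + 1 / b) + R / b := by
    refine (CF_bigA_le hb hR.le hv0).trans ?_
    have h3 : (v.1 + R) / b ≤ (y + ε' * x + R) / b := by
      have : v.1 ≤ y + ε' * x := hv1.trans hv2
      gcongr
    have e : (y + ε' * x) * (1 + 1 / b) + R / b = (y + ε' * x) + (y + ε' * x + R) / b := by ring
    linarith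
  have hmain := CF_lin (n := (n : ℝ)) hb hb1 hδ hx hε hε1 he0 he1 he2 hx1 hx2
    (Nat.cast_nonneg n) hA hcase
  have hsub : (allLe (β * x) n ∩ {z | x < (pIter v z n).1}) ⊆
      allLe (β * x) n ∩ {z | (1 + 1 / b) * x ≤ bigA b R (pIter v z n)} := by
    rintro z ⟨hz1, hz2⟩
    refine ⟨hz1, ?_⟩
    have hz2' : x < (pIter v z n).1 := hz2
    exact CF_le_bigA hb hx.le hz2'.le (pIter_ordered hv0 hv1 z n).2
  refine (measure_mono hsub).trans ((hlin v hv0 hv1 n _).trans ?_)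
  apply ENNReal.ofReal_le_ofReal
  have hxa : h x / x * x = h x := div_mul_cancel₀ _ hx.ne'
  have hxa0 : 0 ≤ h x / x := div_nonneg hh hx.le
  have hexp : 3 * h x ≤ K * (h x / x) * ((1 + 1 / b) * x - max (bigA b R v - δ * n) 0) := by
    rcases hmain with h1 | h1
    · calc 3 * h x ≤ K * (ε / 4 * (1 + 1 / b)) * h x := by gcongr
        _ = K * (ε / 4 * (1 + 1 / b)) * (h x / x * x) := by rw [hxa]
        _ = K * (h x / x) * (ε / 4 * (1 + 1 / b) * x) := by ring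
        _ ≤ _ := by gcongr
    · calc 3 * h x ≤ K * (δ * ε / 2) * h x := by gcongr
        _ = K * (δ * ε / 2) * (h x / x * x) := by rw [hxa]
        _ = K * (h x / x) * (δ * ε / 2 * x) := by ring
        _ ≤ _ := by gcongr
  gcongr

/-- Original: `CF_slice` and `CF_near` in `Crit/CritFront.lean` (`CF_lin`, `CF_bigA_le`,
`CF_le_bigA`, `CF_kwStep_le` are reused), with `K x^(a-1)` replaced by `K (h x / x)`. -/
lemma gcrit_near {b R δ K β C0 x ε ε' : ℝ} (hb : 0 < b) (hb1 : b < 1) (hR : 0 < R)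
    (hδ : 0 < δ) (hK : 0 < K) (hC0 : 0 ≤ C0) (hx : 0 < x) (hh : 0 ≤ h x)
    (hlin : ∀ v : ℝ × ℝ, 0 ≤ v.1 → v.1 ≤ v.2 → ∀ (n : ℕ) (Y : ℝ),
        (noise μ ν) (allLe (β * x) n ∩ {z | Y ≤ bigA b R (pIter v z n)}) ≤
          ENNReal.ofReal (C0 * (n + 1) *
            Real.exp (-(K * (h x / x) * (Y - max (bigA b R v - δ * n) 0)))))
    (hε : 0 < ε) (hε1 : ε ≤ 1 / 2) (he0 : 0 < ε') (he1 : ε' ≤ ε / 8)
    (he2 : ε' * (8 * (1 + 1 / b)) ≤ δ * ε)
    (hp1 : 3 ≤ K * (ε / 4 * (1 + 1 / b))) (hp2 : 3 ≤ K * (δ * ε / 2))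
    (hx1 : R / b ≤ ε / 8 * x) (hx2 : R / b ≤ δ * ε / 4 * x)
    {π : Measure (ℝ × ℝ)} [IsProbabilityMeasure π] (n : ℕ) :
    (π.prod (noise μ ν)) {q | 0 ≤ q.1.1 ∧ 0 ≤ (q.2 0).1 ∧ 0 ≤ (q.2 0).2 ∧ q.1.1 ≤ ε' * x ∧
      q.1.2 ≤ (q.2 0).1 + ε' * x ∧
      ((q.2 0).1 ≤ (1 - ε / 2) * x ∨ ((q.2 0).1 ≤ (1 + ε') * x ∧ ε * x < n)) ∧
      (∀ i < n, (q.2 (i + 1)).1 ≤ β * x) ∧ x < (pIter q.1 q.2 (n + 1)).1} ≤
      ENNReal.ofReal (C0 * (n + 1) * Real.exp (-(3 * h x))) := by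
  set S : Set ((ℝ × ℝ) × (ℕ → ℝ × ℝ)) := {q | 0 ≤ q.1.1 ∧ 0 ≤ (q.2 0).1 ∧ 0 ≤ (q.2 0).2 ∧
      q.1.1 ≤ ε' * x ∧ q.1.2 ≤ (q.2 0).1 + ε' * x ∧
      ((q.2 0).1 ≤ (1 - ε / 2) * x ∨ ((q.2 0).1 ≤ (1 + ε') * x ∧ ε * x < n)) ∧
      (∀ i < n, (q.2 (i + 1)).1 ≤ β * x) ∧ x < (pIter q.1 q.2 (n + 1)).1} with hS
  have hm1 : Measurable fun q : (ℝ × ℝ) × (ℕ → ℝ × ℝ) => (q.2 0).1 := by fun_prop
  have hm2 : Measurable fun q : (ℝ × ℝ) × (ℕ → ℝ × ℝ) => (q.2 0).2 := by fun_prop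
  have hm3 : Measurable fun q : (ℝ × ℝ) × (ℕ → ℝ × ℝ) => q.1.1 := by fun_prop
  have hm4 : Measurable fun q : (ℝ × ℝ) × (ℕ → ℝ × ℝ) => q.1.2 := by fun_prop
  have hSm : MeasurableSet S := by
    refine (measurableSet_le measurable_const hm3).inter ?_
    refine (measurableSet_le measurable_const hm1).inter ?_
    refine (measurableSet_le measurable_const hm2).inter ?_
    refine (measurableSet_le hm3 measurable_const).inter ?_
    refine (measurableSet_le hm4 (hm1.add_const _)).inter ?_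
    refine MeasurableSet.inter ?_ (MeasurableSet.inter ?_ ?_)
    · refine (measurableSet_le hm1 measurable_const).union ?_
      exact (measurableSet_le hm1 measurable_const).inter (MeasurableSet.const _)
    · have : {q : (ℝ × ℝ) × (ℕ → ℝ × ℝ) | ∀ i < n, (q.2 (i + 1)).1 ≤ β * x} =
          ⋂ i ∈ Finset.range n, {q : (ℝ × ℝ) × (ℕ → ℝ × ℝ) | (q.2 (i + 1)).1 ≤ β * x} := by
        ext q; simp
      have h3 : MeasurableSet {q : (ℝ × ℝ) × (ℕ → ℝ × ℝ) | ∀ i < n, (q.2 (i + 1)).1 ≤ β * x} := by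
        rw [this]
        exact Finset.measurableSet_biInter _ fun i _ =>
          measurableSet_le (by fun_prop) measurable_const
      exact h3
    · exact measurableSet_lt measurable_const (measurable_pIter (n + 1)).fst
  rw [Measure.prod_apply hSm]
  have hslice : ∀ w : ℝ × ℝ, (noise μ ν) (Prod.mk w ⁻¹' S) ≤
      ENNReal.ofReal (C0 * (n + 1) * Real.exp (-(3 * h x))) := by
    intro w
    have hpre : MeasurableSet (Prod.mk w ⁻¹' S) := measurable_prodMk_left hSm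
    rw [← lintegral_indicator_one hpre, lintegral_noise_cons (measurable_one.indicator hpre)]
    have hle : ∀ p : ℝ × ℝ, ∫⁻ z, (Prod.mk w ⁻¹' S).indicator (1 : (ℕ → ℝ × ℝ) → ℝ≥0∞)
        (gcons p z) ∂(noise μ ν) ≤
        ENNReal.ofReal (C0 * (n + 1) * Real.exp (-(3 * h x))) := by
      intro p
      by_cases hp : 0 ≤ w.1 ∧ 0 ≤ p.1 ∧ 0 ≤ p.2 ∧ w.1 ≤ ε' * x ∧ w.2 ≤ p.1 + ε' * x ∧
          (p.1 ≤ (1 - ε / 2) * x ∨ (p.1 ≤ (1 + ε') * x ∧ ε * x < n))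
      · obtain ⟨g1, g2, g3, g4, g5, g6⟩ := hp
        refine le_trans ?_ (gCF_slice hb hb1 hR hδ hK hC0 hx hh hlin hε hε1 he0 he1 he2 hp1 hp2
          hx1 hx2 g1 g2 g3 g4 g5 n g6)
        have hset : MeasurableSet (allLe (β * x) n ∩
            {z : ℕ → ℝ × ℝ | x < (pIter (kwStep w p.1 p.2) z n).1}) :=
          (measurableSet_allLe _ _).inter
            (measurableSet_lt measurable_const (measurable_pIter_right _ n).fst)
        rw [← lintegral_indicator_one hset]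
        apply lintegral_mono
        intro z
        by_cases hz : gcons p z ∈ Prod.mk w ⁻¹' S
        · have hz' : (w, gcons p z) ∈ S := hz
          obtain ⟨-, -, -, -, -, -, k1, k2⟩ := hz'
          have k2' : x < (pIter w (gcons p z) (n + 1)).1 := k2
          rw [pIter_gcons] at k2'
          have k1' : z ∈ allLe (β * x) n := fun i hi => k1 i hi
          simp only
          rw [Set.indicator_of_mem hz, Set.indicator_of_mem (show z ∈ (allLe (β * x) n ∩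
            {z : ℕ → ℝ × ℝ | x < (pIter (kwStep w p.1 p.2) z n).1}) from ⟨k1', k2'⟩)]
          simp
        · simp only
          rw [Set.indicator_of_notMem hz]
          exact zero_le
      · have hzero : ∀ z, (Prod.mk w ⁻¹' S).indicator (1 : (ℕ → ℝ × ℝ) → ℝ≥0∞)
            (gcons p z) = 0 := by
          intro z
          apply Set.indicator_of_notMem
          rintro ⟨k1, k2, k3, k4, k5, k6, -, -⟩
          exact hp ⟨k1, k2, k3, k4, k5, k6⟩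
        simp only [hzero, lintegral_zero]
        exact zero_le
    refine (lintegral_mono hle).trans ?_
    rw [lintegral_const, measure_univ, mul_one]
  refine (lintegral_mono hslice).trans ?_
  rw [lintegral_const, measure_univ, mul_one]

end Pool.Agent.Lib.MP_04add8_pr.Gen
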