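import Mathlib
import Pool.Agent.Lib.MP_04add8_pr.Gen.Crit0
import Pool.Agent.Lib.MP_04add8_pr.Gen.Mom
import Pool.Agent.Lib.MP_04add8_pr.Gen.Gain
import Pool.Agent.Lib.MP_04add8_pr.One.BadBig
import Pool.Agent.Lib.MP_04add8_pr.Crit.CritPot

open MeasureTheory ProbabilityTheory Filter Topology
open scoped ENNReal

set_option linter.unusedSectionVars false

namespace Pool.Agent.Lib.MP_04add8_pr.Gen

variable {h h' : ℝ → ℝ} {a : ℝ} {μ ν : Measure ℝ} [IsProbabilityMeasure μ]
  [IsProbabilityMeasure ν]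

/-- **Loss of potential**. Original: `Crit/CritPot.lean`. `b` from `gcrit_larger` with
`ρ = min γ (β^a) / 8`, `gdrift_uniform`, `gmean`, `BadBig_iter`; the final cost is at least
`min (h ((1+1/b) x)) (2 h x) ≥ (2 - 2ρ) h x` (`gcost_lower`, `Haz.ratio`); `n ≤ exp (δ h x)` with
small `δ` instead of `n ≤ C x`. -/
theorem gcrit_pot (S : Std μ ν h h' a) {b0 : ℝ} (hb0 : 0 < b0)
    (hb0m : ((∫ s, s ∂μ) - ∫ t, t ∂ν) / (∫ t, t ∂ν) ≤ b0) (hcrit : (1 + 1 / b0) ^ a = 2)
    {γ β b1 : ℝ} (hγ : 0 < γ) (hβ : 0 < β) (hb1 : b0 < b1) :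
    ∃ b R δ : ℝ, b0 < b ∧ b ≤ b1 ∧ 0 < R ∧ 0 < δ ∧
      ∀ᶠ x : ℝ in atTop, ∀ π : Measure (ℝ × ℝ), IsStationaryKW μ ν π → ∀ n : ℕ,
        (n : ℝ) ≤ Real.exp (δ * h x) →
        (π.prod (noise μ ν)) {q | β * x < (q.2 0).1 ∧
          gcost h b R (kwStep q.1 (q.2 0).1 (q.2 0).2) ≤
            gcost h b R q.1 + h (q.2 0).1 - γ * h x ∧ x < (pIter q.1 q.2 (n + 1)).1} ≤
          ENNReal.ofReal (Real.exp (-((2 + δ) * h x))) := by
  have Hz := S.haz
  have hmh : Measurable h := Hz.cont.measurable
  set ρ := min γ (β ^ a) / 8 with hρ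
  have hba : 0 < β ^ a := by positivity
  have hρ0 : 0 < ρ := by
    have : 0 < min γ (β ^ a) := lt_min hγ hba
    positivity
  have hρ1 : 8 * ρ ≤ γ := by
    have := min_le_left γ (β ^ a)
    rw [hρ]; linarith
  have hρ2 : 8 * ρ ≤ β ^ a := by
    have := min_le_right γ (β ^ a)
    rw [hρ]; linarith
  obtain ⟨b', hbr, hbb1, hb1', hbm', hθ1, hθ2⟩ :=
    gcrit_larger S (ρ := ρ) hb0 hb0m hcrit hb1 hρ0
  have hb0' : 0 < b' := hb0.trans hbr
  set θ := 2 - ρ with hθ
  obtain ⟨R, k, hR, hk, hdr⟩ := gdrift_uniform S hb0' hb1' hbm'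
  set lam := (2 + 2 * ρ) / (2 + 3 * ρ) with hlam
  have hden : 0 < 2 + 3 * ρ := by positivity
  have hl1 : lam < 1 := by rw [hlam, div_lt_one hden]; linarith
  have hl2 : 1 / 2 ≤ lam := by
    rw [hlam, div_le_div_iff₀ (by norm_num) hden]; linarith
  have hl0 : 0 < lam := by linarith
  have hlmul : lam * (2 + 3 * ρ) = 2 + 2 * ρ := by
    rw [hlam]; field_simp
  obtain ⟨CL, hCL, hmean⟩ := gmean (μ := μ) (ν := ν) Hz hb0' hR hk hdr hl2 hl1
  obtain ⟨L, K, hL, hK, hdd⟩ := hdr lam hl2 hl1
  set H : ℝ × ℝ → ℝ≥0∞ := fun w => ENNReal.ofReal (Real.exp (lam * gcost h b' R w)) with hH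
  have hcm := gcost_measurable Hz b' R
  have hHm : Measurable H := by rw [hH]; fun_prop
  have hdrift : ∀ w : ℝ × ℝ, 0 ≤ w.1 → w.1 ≤ w.2 →
      ∫⁻ p, H (kwStep w p.1 p.2) ∂(μ.prod ν) ≤ H w + ENNReal.ofReal K := by
    intro w h0 h1
    refine le_self_add.trans ((hdd w h0 h1).trans ?_)
    gcongr
    split_ifs
    · exact zero_le
    · exact le_rfl
  have hiter := BadBig_iter (μ := μ) (ν := ν) hHm hdrift
  -- the weight of a big job
  obtain ⟨Cw, hCw0, hCw⟩ : ∃ Cw : ℝ, 0 ≤ Cw ∧
      ∫⁻ s, ENNReal.ofReal (Real.exp (lam * h s)) ∂μ ≤ ENNReal.ofReal Cw := by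
    refine ⟨∫ s, Real.exp (lam * h s) ∂μ, integral_nonneg fun s => (Real.exp_pos _).le, ?_⟩
    rw [← ofReal_integral_eq_lintegral_ofReal (law_integrable_exp Hz S.law hl1)
      (Eventually.of_forall fun s => (Real.exp_pos _).le)]
  obtain ⟨Cu, hCu0, hCu⟩ := S.law.up
  set C1 := Cw * CL with hC1
  have hC10 : 0 ≤ C1 := by positivity
  refine ⟨b', R, ρ / 2, hbr, hbb1, hR, by positivity, ?_⟩
  -- the two exponents
  have hF1 : 2 + 2 * ρ ≤ lam * (θ + γ) := by
    calc 2 + 2 * ρ = lam * (2 + 3 * ρ) := hlmul.symm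
      _ ≤ _ := by
        refine mul_le_mul_of_nonneg_left ?_ hl0.le
        linarith
  have hF2 : 2 + 2 * ρ ≤ lam * θ + 7 * ρ := by
    have h3 : lam * (2 + 3 * ρ) ≤ lam * (θ + 4 * ρ) :=
      mul_le_mul_of_nonneg_left (by linarith) hl0.le
    have h4 : lam * (4 * ρ) ≤ 1 * (4 * ρ) := by gcongr
    rw [hlmul, mul_add] at h3
    linarith
  -- eventually the constants are absorbed
  have hev : ∀ᶠ x : ℝ in atTop, (C1 + K * Cu) * Real.exp (-(ρ * h x)) ≤ 1 := by
    have h9 : Tendsto (fun x : ℝ => Real.exp (-(ρ * h x))) atTop (𝓝 0) :=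
      Real.tendsto_exp_neg_atTop_nhds_zero.comp (Hz.tendsto_h.const_mul_atTop hρ0)
    have h10 := h9.const_mul (C1 + K * Cu)
    rw [mul_zero] at h10
    exact h10.eventually (ge_mem_nhds zero_lt_one)
  have hev1 : ∀ᶠ x : ℝ in atTop, θ * h x ≤ h ((1 + 1 / b') * x) := by
    have h3 := (Hz.ratio (l := 1 + 1 / b') (by positivity)).eventually_const_lt hθ1
    filter_upwards [h3, Hz.tendsto_h.eventually_gt_atTop 0] with x hx hx0
    rw [lt_div_iff₀ hx0] at hx
    exact hx.le
  have hev2 : ∀ᶠ x : ℝ in atTop, 7 * ρ * h x ≤ h (β * x) := by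
    have h3 := (Hz.ratio hβ).eventually_const_lt (show 7 * ρ < β ^ a by linarith)
    filter_upwards [h3, Hz.tendsto_h.eventually_gt_atTop 0] with x hx hx0
    rw [lt_div_iff₀ hx0] at hx
    exact hx.le
  filter_upwards [hev, hev1, hev2, Hz.tendsto_h.eventually_gt_atTop 0,
    eventually_gt_atTop 0] with x hx hxθ hxβ hhx hx0
  intro π hπ n hn
  have hprob : IsProbabilityMeasure π := hπ.1
  -- measurability of the event
  set B : Set ((ℝ × ℝ) × (ℕ → ℝ × ℝ)) := {q | β * x < (q.2 0).1 ∧
          gcost h b' R (kwStep q.1 (q.2 0).1 (q.2 0).2) ≤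
            gcost h b' R q.1 + h (q.2 0).1 - γ * h x ∧ x < (pIter q.1 q.2 (n + 1)).1} with hB
  have hm2 : Measurable fun q : (ℝ × ℝ) × (ℕ → ℝ × ℝ) => (q.2 0).1 := by fun_prop
  have hm3 : Measurable fun q : (ℝ × ℝ) × (ℕ → ℝ × ℝ) =>
      gcost h b' R (kwStep q.1 (q.2 0).1 (q.2 0).2) := by
    have h4 : Measurable fun q : (ℝ × ℝ) × (ℕ → ℝ × ℝ) => (q.1, q.2 0) := by fun_prop
    exact hcm.comp (measurable_kwStep.comp h4)
  have hm4 : Measurable fun q : (ℝ × ℝ) × (ℕ → ℝ × ℝ) =>
      gcost h b' R q.1 + h (q.2 0).1 - γ * h x := by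
    have h4 : Measurable fun q : (ℝ × ℝ) × (ℕ → ℝ × ℝ) => gcost h b' R q.1 :=
      hcm.comp measurable_fst
    have h5 : Measurable fun q : (ℝ × ℝ) × (ℕ → ℝ × ℝ) => h (q.2 0).1 := hmh.comp hm2
    exact (h4.add h5).sub_const _
  have hBm : MeasurableSet B := by
    refine MeasurableSet.inter ?_ (MeasurableSet.inter ?_ ?_)
    · exact measurableSet_lt measurable_const hm2
    · exact measurableSet_le hm3 hm4
    · exact measurableSet_lt measurable_const (measurable_pIter (n + 1)).fst
  rw [Measure.prod_apply hBm]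
  set v := Real.exp (-(lam * θ * h x)) with hv
  have hv0 : 0 < v := Real.exp_pos _
  -- tail of the chain
  have htail : ∀ u : ℝ × ℝ, 0 ≤ u.1 → u.1 ≤ u.2 →
      (noise μ ν) {z | x < (pIter u z n).1} ≤
        ENNReal.ofReal v * (H u + n * ENNReal.ofReal K) := by
    intro u h0 h1
    have hset : MeasurableSet {z : ℕ → ℝ × ℝ | x < (pIter u z n).1} :=
      measurableSet_lt measurable_const (measurable_pIter_right u n).fst
    have h3 : (noise μ ν) {z | x < (pIter u z n).1} ≤
        ∫⁻ z, ENNReal.ofReal v * H (pIter u z n) ∂(noise μ ν) := by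
      rw [← lintegral_indicator_one hset]
      apply lintegral_mono
      intro z
      by_cases hz : z ∈ {z : ℕ → ℝ × ℝ | x < (pIter u z n).1}
      · rw [Set.indicator_of_mem hz]
        have hz' : x < (pIter u z n).1 := hz
        have h4 := gcost_lower (R := R) Hz hb0' hx0.le
          (pIter_ordered h0 h1 z n).2 hz'
        have h4' : θ * h x ≤ gcost h b' R (pIter u z n) := by
          refine le_trans (le_min hxθ ?_) h4
          have : 0 ≤ ρ * h x := by positivity
          rw [hθ]
          linarith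
        simp only [Pi.one_apply]
        rw [hH, ← ENNReal.ofReal_mul hv0.le, hv, ← Real.exp_add, ENNReal.one_le_ofReal,
          Real.one_le_exp_iff]
        have h5 : lam * (θ * h x) ≤ lam * gcost h b' R (pIter u z n) := by gcongr
        linarith
      · rw [Set.indicator_of_notMem hz]
        exact zero_le
    refine h3.trans ?_
    have hcomp : Measurable fun z : ℕ → ℝ × ℝ => H (pIter u z n) :=
      hHm.comp (measurable_pIter_right u n)
    rw [lintegral_const_mul _ hcomp]
    gcongr
    exact hiter n u h0 h1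
  -- weight of the big job
  set F : ℝ × ℝ → (ℝ × ℝ) → ℝ≥0∞ := fun w p =>
    ENNReal.ofReal (Real.exp (-(lam * γ * h x))) *
      H w * ENNReal.ofReal (Real.exp (lam * h p.1)) with hF
  have hpoint : ∀ᵐ w ∂π, (noise μ ν) (Prod.mk w ⁻¹' B) ≤
      ENNReal.ofReal v * (ENNReal.ofReal (Real.exp (-(lam * γ * h x)) *
        Cw) * H w +
        n * ENNReal.ofReal K * ENNReal.ofReal (Cu * Real.exp (-(h (β * x))))) := by
    filter_upwards [hπ.ae_ordered] with w hw
    have hpre : MeasurableSet (Prod.mk w ⁻¹' B) := measurable_prodMk_left hBm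
    have hind : (noise μ ν) (Prod.mk w ⁻¹' B) =
        ∫⁻ z, (Prod.mk w ⁻¹' B).indicator 1 z ∂(noise μ ν) := by
      rw [lintegral_indicator_one hpre]
    rw [hind, lintegral_noise_cons (measurable_one.indicator hpre)]
    have h3 : ∀ p : ℝ × ℝ, ∫⁻ z, (Prod.mk w ⁻¹' B).indicator (1 : (ℕ → ℝ × ℝ) → ℝ≥0∞)
        (gcons p z) ∂(noise μ ν) ≤
        ENNReal.ofReal v * (F w p + n * ENNReal.ofReal K *
          (Set.Ioi (β * x)).indicator 1 p.1) := by
      intro p
      by_cases hp : β * x < p.1 ∧ gcost h b' R (kwStep w p.1 p.2) ≤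
          gcost h b' R w + h p.1 - γ * h x
      · refine le_trans ?_ ((htail (kwStep w p.1 p.2) (kwStep_fst_nonneg _ _ _)
          (kwStep_fst_le_snd _ _ _)).trans ?_)
        · have hset : MeasurableSet {z : ℕ → ℝ × ℝ | x < (pIter (kwStep w p.1 p.2) z n).1} :=
            measurableSet_lt measurable_const (measurable_pIter_right _ n).fst
          rw [← lintegral_indicator_one hset]
          apply lintegral_mono
          intro z
          by_cases hz : gcons p z ∈ Prod.mk w ⁻¹' B
          · have hz' : x < (pIter w (gcons p z) (n + 1)).1 := hz.2.2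
            rw [pIter_gcons] at hz'
            simp only
            rw [Set.indicator_of_mem hz, Set.indicator_of_mem (show z ∈
              {z : ℕ → ℝ × ℝ | x < (pIter (kwStep w p.1 p.2) z n).1} from hz')]
            simp
          · simp only
            rw [Set.indicator_of_notMem hz]
            exact zero_le
        · rw [Set.indicator_of_mem (show p.1 ∈ Set.Ioi (β * x) from hp.1)]
          simp only [Pi.one_apply, mul_one]
          gcongr
          rw [hF, hH]
          simp only
          rw [← ENNReal.ofReal_mul (by positivity), ← ENNReal.ofReal_mul (by positivity)]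
          apply ENNReal.ofReal_le_ofReal
          calc Real.exp (lam * gcost h b' R (kwStep w p.1 p.2))
              ≤ Real.exp (-(lam * γ * h x) + lam * gcost h b' R w + lam * h p.1) := by
                apply Real.exp_le_exp.mpr
                have h9 : lam * gcost h b' R (kwStep w p.1 p.2) ≤
                    lam * (gcost h b' R w + h p.1 - γ * h x) :=
                  mul_le_mul_of_nonneg_left hp.2 hl0.le
                refine h9.trans (le_of_eq ?_)
                ring
            _ = _ := by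
                rw [Real.exp_add, Real.exp_add]
      · have hz0 : ∀ z : ℕ → ℝ × ℝ, (Prod.mk w ⁻¹' B).indicator
            (1 : (ℕ → ℝ × ℝ) → ℝ≥0∞) (gcons p z) = 0 := by
          intro z
          have hz : gcons p z ∉ Prod.mk w ⁻¹' B := fun h => hp ⟨h.1, h.2.1⟩
          exact Set.indicator_of_notMem hz _
        simp only [hz0, lintegral_zero]
        exact zero_le
    refine (lintegral_mono h3).trans ?_
    have hFm : Measurable fun p : ℝ × ℝ => F w p := by
      rw [hF]
      fun_prop
    have him : Measurable fun p : ℝ × ℝ =>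
        (Set.Ioi (β * x)).indicator (1 : ℝ → ℝ≥0∞) p.1 :=
      (measurable_one.indicator measurableSet_Ioi).comp measurable_fst
    have hsm : Measurable fun p : ℝ × ℝ => F w p + n * ENNReal.ofReal K *
          (Set.Ioi (β * x)).indicator (1 : ℝ → ℝ≥0∞) p.1 := hFm.add (him.const_mul _)
    rw [lintegral_const_mul _ hsm, lintegral_add_left hFm,
      lintegral_const_mul _ him]
    gcongr
    · -- first part
      have e1 : ∫⁻ p, F w p ∂(μ.prod ν) =
          ENNReal.ofReal (Real.exp (-(lam * γ * h x))) * H w *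
            ∫⁻ s, ENNReal.ofReal (Real.exp (lam * h s)) ∂μ := by
        rw [hF]
        simp only
        rw [lintegral_const_mul _ (by fun_prop), lintegral_prod _ (by fun_prop)]
        simp
      rw [e1]
      calc _ ≤ ENNReal.ofReal (Real.exp (-(lam * γ * h x))) * H w *
            ENNReal.ofReal Cw := by gcongr
        _ = _ := by
            rw [mul_right_comm, ← ENNReal.ofReal_mul (by positivity)]
    · -- second part
      have e2 : ∫⁻ p, (Set.Ioi (β * x)).indicator (1 : ℝ → ℝ≥0∞) p.1 ∂(μ.prod ν) =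
          μ (Set.Ioi (β * x)) := by
        rw [lintegral_prod _ him.aemeasurable]
        simp only [lintegral_const, measure_univ, mul_one]
        rw [lintegral_indicator_one measurableSet_Ioi]
      rw [e2]
      exact hCu (β * x)
  refine (lintegral_mono_ae hpoint).trans ?_
  rw [lintegral_const_mul _ (by fun_prop), lintegral_add_right _ measurable_const,
    lintegral_const_mul _ hHm, lintegral_const, measure_univ, mul_one]
  have hmeanπ := hmean π hπ
  have hnn : (n : ℝ≥0∞) = ENNReal.ofReal n := (ENNReal.ofReal_natCast n).symm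
  rw [hnn]
  calc ENNReal.ofReal v * (ENNReal.ofReal (Real.exp (-(lam * γ * h x)) *
        Cw) * ∫⁻ w, H w ∂π +
        ENNReal.ofReal n * ENNReal.ofReal K * ENNReal.ofReal (Cu * Real.exp (-(h (β * x)))))
      ≤ ENNReal.ofReal v * (ENNReal.ofReal (Real.exp (-(lam * γ * h x)) *
        Cw) * ENNReal.ofReal CL +
        ENNReal.ofReal n * ENNReal.ofReal K * ENNReal.ofReal (Cu * Real.exp (-(h (β * x))))) := by
        gcongr
    _ = ENNReal.ofReal (v * (Real.exp (-(lam * γ * h x)) *
        Cw * CL + n * K * (Cu * Real.exp (-(h (β * x)))))) := by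
        rw [← ENNReal.ofReal_mul (by positivity),
          ← ENNReal.ofReal_mul (by positivity), ← ENNReal.ofReal_mul (by positivity),
          ← ENNReal.ofReal_add (by positivity)
          (by positivity), ← ENNReal.ofReal_mul hv0.le]
    _ ≤ _ := by
        apply ENNReal.ofReal_le_ofReal
        have e5 : v * Real.exp (-(lam * γ * h x)) =
            Real.exp (-(lam * (θ + γ) * h x)) := by
          rw [hv, ← Real.exp_add]; congr 1; ring
        have h12 : Real.exp (-(lam * (θ + γ) * h x)) ≤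
            Real.exp (-((2 + 2 * ρ) * h x)) := by
          apply Real.exp_le_exp.mpr
          have : (2 + 2 * ρ) * h x ≤ lam * (θ + γ) * h x := by gcongr
          linarith
        have h13 : v * Real.exp (-(h (β * x))) ≤ Real.exp (-((2 + 2 * ρ) * h x)) := by
          rw [hv, ← Real.exp_add]
          apply Real.exp_le_exp.mpr
          have : (2 + 2 * ρ) * h x ≤ (lam * θ + 7 * ρ) * h x := by gcongr
          linarith
        have h14 : 1 ≤ Real.exp (ρ / 2 * h x) := Real.one_le_exp (by positivity)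
        have e7 : Real.exp (ρ / 2 * h x) * Real.exp (-((2 + 2 * ρ) * h x)) =
            Real.exp (-(ρ * h x)) * Real.exp (-((2 + ρ / 2) * h x)) := by
          rw [← Real.exp_add, ← Real.exp_add]
          congr 1
          ring
        calc v * (Real.exp (-(lam * γ * h x)) *
              Cw * CL + n * K * (Cu * Real.exp (-(h (β * x)))))
            = C1 * (v * Real.exp (-(lam * γ * h x))) +
              n * (K * Cu) * (v * Real.exp (-(h (β * x)))) := by rw [hC1]; ring
          _ ≤ C1 * 1 * Real.exp (-((2 + 2 * ρ) * h x)) +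
              Real.exp (ρ / 2 * h x) * (K * Cu) * Real.exp (-((2 + 2 * ρ) * h x)) := by
              rw [e5, mul_one]; gcongr
          _ ≤ C1 * Real.exp (ρ / 2 * h x) * Real.exp (-((2 + 2 * ρ) * h x)) +
              Real.exp (ρ / 2 * h x) * (K * Cu) * Real.exp (-((2 + 2 * ρ) * h x)) := by
              gcongr
          _ = (C1 + K * Cu) * (Real.exp (ρ / 2 * h x) * Real.exp (-((2 + 2 * ρ) * h x))) := by
              ring
          _ = ((C1 + K * Cu) * Real.exp (-(ρ * h x))) *
              Real.exp (-((2 + ρ / 2) * h x)) := by rw [e7]; ring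
          _ ≤ 1 * Real.exp (-((2 + ρ / 2) * h x)) := by gcongr
          _ = _ := one_mul _

end Pool.Agent.Lib.MP_04add8_pr.Gen
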