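import Mathlib
import Pool.Agent.Lib.MP_04add8_pr.Gen.Crit0
import Pool.Agent.Lib.MP_04add8_pr.Gen.RV
import Pool.Agent.Lib.MP_04add8_pr.Crit.GainStrict

open MeasureTheory ProbabilityTheory Filter Topology
open scoped ENNReal

set_option linter.unusedSectionVars false

namespace Pool.Agent.Lib.MP_04add8_pr.Gen

variable {h h' : ℝ → ℝ} {a : ℝ} {μ ν : Measure ℝ} [IsProbabilityMeasure μ]
  [IsProbabilityMeasure ν]

private lemma GainStrict_min_close {p q r s d : ℝ} (h1 : |p - r| ≤ d) (h2 : |q - s| ≤ d) :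
    |min p q - min r s| ≤ d := by
  rw [abs_le] at *
  constructor
  · have h3 : min r s - d ≤ min p q := le_min (by linarith [min_le_left r s])
      (by linarith [min_le_right r s])
    linarith
  · have h3 : min p q - d ≤ min r s := le_min (by linarith [min_le_left p q])
      (by linarith [min_le_right p q])
    linarith

private lemma GainStrict_sqrt {p R : ℝ} (hp : 0 ≤ p) (hR : 0 ≤ R) :
    √(p ^ 2 + R ^ 2) ≤ p + R := by
  rw [Real.sqrt_le_left (by positivity)]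
  nlinarith [mul_nonneg hp hR]

/-- closeness of the general cost to the rescaled power cost -/
private lemma GainStrict_close {b R x D1 D' τ : ℝ} (hb : 0 < b) (hR : 0 ≤ R) (hRx : R ≤ x)
    (hx : 0 < x) (hh : 0 ≤ h x) (hD1 : 0 ≤ D1) (hD' : D' = D1 + (D1 + 1) / b) (hτ : 0 ≤ τ)
    (hr : ∀ u : ℝ, 0 ≤ u → u ≤ D' * x → |h u - (u / x) ^ a * h x| ≤ τ * h x)
    {w : ℝ × ℝ} (hw1 : 0 ≤ w.1) (hw1' : w.1 ≤ D1 * x) (hw2 : 0 ≤ w.2) (hw2' : w.2 ≤ D1 * x) :
    |gcost h b R w - h x / x ^ a * cost a b R w| ≤ 2 * τ * h x + 1 + h x / x ^ a := by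
  have hxa : 0 < x ^ a := Real.rpow_pos_of_pos hx a
  have hs : 0 ≤ h x / x ^ a := div_nonneg hh hxa.le
  have hDD : D1 ≤ D' := by
    rw [hD']
    have : 0 ≤ (D1 + 1) / b := by positivity
    linarith
  have hr' : ∀ u : ℝ, 0 ≤ u → u ≤ D' * x → |h u - h x / x ^ a * u ^ a| ≤ τ * h x := by
    intro u hu hux
    have h1 := hr u hu hux
    rw [Real.div_rpow hu hx.le] at h1
    have e : u ^ a / x ^ a * h x = h x / x ^ a * u ^ a := by ring
    rwa [e] at h1
  have hA0 : 0 ≤ bigA b R w := by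
    unfold bigA
    positivity
  have hA : bigA b R w ≤ D' * x := by
    unfold bigA
    have h1 := GainStrict_sqrt hw1 hR
    have h2 : √(w.1 ^ 2 + R ^ 2) / b ≤ (D1 * x + x) / b := by
      gcongr
      linarith
    rw [hD']
    have h3 : (D1 * x + x) / b = (D1 + 1) / b * x := by ring
    rw [h3] at h2
    linarith
  have e1 := hr' _ hA0 hA
  have e2 := hr' _ hw1 (hw1'.trans (by gcongr))
  have e3 := hr' _ hw2 (hw2'.trans (by gcongr))
  unfold gcost cost
  rw [mul_min_of_nonneg _ _ hs]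
  have hτh : 0 ≤ τ * h x := mul_nonneg hτ hh
  refine GainStrict_min_close (e1.trans (by linarith)) ?_
  rw [abs_le] at *
  constructor
  · have : h x / x ^ a * (w.1 ^ a + w.2 ^ a + 1) = h x / x ^ a * w.1 ^ a + h x / x ^ a * w.2 ^ a
      + h x / x ^ a := by ring
    rw [this]
    linarith [e2.1, e3.1]
  · have : h x / x ^ a * (w.1 ^ a + w.2 ^ a + 1) = h x / x ^ a * w.1 ^ a + h x / x ^ a * w.2 ^ a
      + h x / x ^ a := by ring
    rw [this]
    linarith [e2.2, e3.2]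

/-- **Strict gain, quantitative**. Reduction to the power case `gain_strict` (black box, with the
same `ε e β D`, constants `γ₀, b1`; here `γ = γ₀ / 2`): by `Haz.ratio_unif` (`a > 0` by
`gcrit_facts`), `|h u - (u/x)^a h x| ≤ τ h x` for `0 ≤ u ≤ D' x`, hence
`|gcost h b R w - (h x / x^a) cost a b R w| ≤ 2 τ h x + 1 + h x / x^a` for the states in question
(all arguments are `≤ (2 D + (2 D + 1)/b) x`; the `+ 1` of the cost is negligible on both sides);
so the inequality `gcost w + h y - γ h x ≤ gcost (kwStep w y t)` implies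
`cost w + y^a - γ₀ x^a ≤ cost (kwStep w y t)`. -/
theorem ggain_strict (H : Haz h h' a) {b0 : ℝ} (hb0 : 0 < b0) (hcrit : (1 + 1 / b0) ^ a = 2)
    {ε e β D : ℝ} (hε : 0 < ε) (he : 0 < e) (hβ : 0 < β) (hD : 0 < D) :
    ∃ γ b1 : ℝ, 0 < γ ∧ b0 < b1 ∧ ∀ b : ℝ, b0 ≤ b → b ≤ b1 → ∀ R : ℝ, 0 ≤ R →
      ∀ᶠ x : ℝ in atTop, ∀ w : ℝ × ℝ, 0 ≤ w.1 → w.1 ≤ w.2 → ∀ y t : ℝ, 0 ≤ t →
        e * x ≤ w.2 → w.2 ≤ D * x → β * x ≤ y → y ≤ D * x →
        gcost h b R w + h y - γ * h x ≤ gcost h b R (kwStep w y t) →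
        w.1 ≤ ε * x ∧ |w.2 - y| ≤ ε * x := by
  obtain ⟨ha0, hb01⟩ := gcrit_facts H.a0 H.a1 hb0 hcrit
  obtain ⟨γ₀, b1, hγ₀, hb1, hgs⟩ := gain_strict ha0 H.a1 hb0 hb01 hcrit hε he hβ hD
  refine ⟨γ₀ / 2, b1, by positivity, hb1, ?_⟩
  intro b hb hbb R hR
  have hbpos : 0 < b := hb0.trans_le hb
  obtain ⟨x0, hx0, hgs'⟩ := hgs b hb hbb R hR
  set D1 : ℝ := 2 * D with hD1
  set D' : ℝ := D1 + (D1 + 1) / b with hD'
  have hDD : D ≤ D' := by
    have : 0 ≤ (D1 + 1) / b := by positivity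
    linarith
  have hτ : 0 < γ₀ / 40 := by positivity
  have hxa_tend : Tendsto (fun x : ℝ => x ^ a) atTop atTop := tendsto_rpow_atTop ha0
  filter_upwards [H.ratio_unif ha0 (D := D') hτ, eventually_ge_atTop x0, eventually_ge_atTop R,
    H.tendsto_h.eventually_ge_atTop (16 / γ₀), hxa_tend.eventually_ge_atTop (16 / γ₀)]
    with x hr hxx0 hxR hxh hxa w hw1 hw12 y t ht hew hwD hβy hyD hineq
  have hx : 0 < x := hx0.trans_le hxx0
  have hhx : 0 < h x := lt_of_lt_of_le (by positivity) hxh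
  have hxapos : 0 < x ^ a := Real.rpow_pos_of_pos hx a
  set s : ℝ := h x / x ^ a with hs
  have hspos : 0 < s := by positivity
  have hsx : s * x ^ a = h x := by
    rw [hs]
    field_simp
  have hw2 : 0 ≤ w.2 := hw1.trans hw12
  have hy : 0 ≤ y := (by positivity : (0 : ℝ) ≤ β * x).trans hβy
  have hDx : 0 ≤ D * x := by positivity
  -- the state after the step
  set v : ℝ × ℝ := kwStep w y t with hv
  have hv1 : v.1 = min (max (w.1 + y - t) 0) (max (w.2 - t) 0) := rfl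
  have hv2 : v.2 = max (max (w.1 + y - t) 0) (max (w.2 - t) 0) := rfl
  have hv10 : 0 ≤ v.1 := by
    rw [hv1]
    exact le_min (le_max_right _ _) (le_max_right _ _)
  have hv20 : 0 ≤ v.2 := by
    rw [hv2]
    exact (le_max_right _ _).trans (le_max_left _ _)
  have hv2' : v.2 ≤ D1 * x := by
    rw [hv2]
    refine max_le (max_le ?_ ?_) (max_le ?_ ?_) <;> rw [hD1] <;> linarith
  have hv1' : v.1 ≤ D1 * x := by
    refine le_trans ?_ hv2'
    rw [hv1, hv2]
    exact (min_le_left _ _).trans (le_max_left _ _)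
  have c1 := GainStrict_close (a := a) hbpos hR hxR hx hhx.le (show 0 ≤ D1 by positivity) hD' hτ.le
    hr hw1 (show w.1 ≤ D1 * x by rw [hD1]; linarith) hw2 (show w.2 ≤ D1 * x by rw [hD1]; linarith)
  have c2 := GainStrict_close (a := a) hbpos hR hxR hx hhx.le (show 0 ≤ D1 by positivity) hD' hτ.le
    hr hv10 hv1' hv20 hv2'
  have c3 := hr y hy (hyD.trans (by gcongr))
  rw [Real.div_rpow hy hx.le] at c3
  have e3 : y ^ a / x ^ a * h x = s * y ^ a := by
    rw [hs]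
    ring
  rw [e3] at c3
  rw [abs_le] at c1 c2 c3
  apply hgs' x hxx0 w hw1 hw12 y t ht hew hwD hβy hyD
  -- compare
  have k1 : 2 ≤ γ₀ / 8 * h x := by
    have : γ₀ / 8 * (16 / γ₀) = 2 := by
      field_simp
      norm_num
    calc (2 : ℝ) = γ₀ / 8 * (16 / γ₀) := this.symm
      _ ≤ γ₀ / 8 * h x := by gcongr
  have k2 : 2 * s ≤ γ₀ / 8 * h x := by
    have h1 : γ₀ / 8 * (16 / γ₀) = 2 := by
      field_simp
      norm_num
    calc 2 * s = γ₀ / 8 * (16 / γ₀) * s := by rw [h1]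
      _ ≤ γ₀ / 8 * x ^ a * s := by gcongr
      _ = γ₀ / 8 * h x := by rw [← hsx]; ring
  have k3 : s * (cost a b R w + y ^ a - γ₀ * x ^ a) ≤ s * cost a b R v := by
    have h1 : s * (cost a b R w + y ^ a - γ₀ * x ^ a) = s * cost a b R w + s * y ^ a - γ₀ * h x := by
      rw [← hsx]
      ring
    rw [h1]
    nlinarith [c1.1, c1.2, c2.1, c2.2, c3.1, c3.2]
  exact le_of_mul_le_mul_left k3 hspos

end Pool.Agent.Lib.MP_04add8_pr.Gen
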