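import Mathlib
import Pool.Agent.Lib.MP_04add8_pr.Gen.Crit0
import Pool.Agent.Lib.MP_04add8_pr.Gen.GainStrict
import Pool.Agent.Lib.MP_04add8_pr.Gen.CritPot
import Pool.Agent.Lib.MP_04add8_pr.Gen.CritNear
import Pool.Agent.Lib.MP_04add8_pr.Gen.PairTail
import Pool.Agent.Lib.MP_04add8_pr.Gen.Lin
import Pool.Agent.Lib.MP_04add8_pr.Gen.LawM

open MeasureTheory ProbabilityTheory Filter Topology
open scoped ENNReal

set_option linter.unusedSectionVars false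

namespace Pool.Agent.Lib.MP_04add8_pr.Gen

variable {h h' : ℝ → ℝ} {a : ℝ} {μ ν : Measure ℝ} [IsProbabilityMeasure μ]
  [IsProbabilityMeasure ν]

/-- comparison of exponentials at infinity -/
private lemma gCF_ev (H : Haz h h' a) {c c' : ℝ} (hc : c' < c) (A : ℝ) {η : ℝ} (hη : 0 < η) :
    ∀ᶠ x : ℝ in atTop, A * Real.exp (-(c * h x)) ≤ η * Real.exp (-(c' * h x)) := by
  have h1 : Tendsto (fun x : ℝ => A * Real.exp (-((c - c') * h x))) atTop (𝓝 0) := by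
    have h2 : Tendsto (fun x : ℝ => Real.exp (-((c - c') * h x))) atTop (𝓝 0) :=
      Real.tendsto_exp_neg_atTop_nhds_zero.comp (H.tendsto_h.const_mul_atTop (sub_pos.2 hc))
    simpa using h2.const_mul A
  filter_upwards [h1.eventually_le_const hη] with x hx
  have e : A * Real.exp (-(c * h x)) =
      A * Real.exp (-((c - c') * h x)) * Real.exp (-(c' * h x)) := by
    rw [mul_assoc, ← Real.exp_add]; congr 2; ring
  rw [e]
  gcongr

/-- eventual lower bound of `h (l x)` -/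
private lemma gCF_ratio_ge (H : Haz h h' a) {l τ : ℝ} (hl : 0 < l) (hτ : τ < l ^ a) :
    ∀ᶠ x : ℝ in atTop, τ * h x ≤ h (l * x) := by
  filter_upwards [(H.ratio hl).eventually_const_lt hτ, H.tendsto_h.eventually_gt_atTop 0]
    with x hx hpos
  rw [lt_div_iff₀ hpos] at hx
  exact hx.le

/-- **Everything except the nice event is negligible**. Original: `crit_front` in
`Crit/CritFront.lean`, five bad sets: `w.2 > D x` (`gtail_snd`, `lam = 3/4`), `y > D x`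
(`D ^ a = 6`, so `h (D x) ≥ 5 h x` eventually), loss of potential (`gcrit_pot`, `ggain_strict` with
`ε' , e, β, D`), pairs above `Θ h x` (`gpair_tail`; `h x + h ((1+ε')x) ≥ Θ h x`,
`2 < Θ < 1 + (1+ε')^a`), near part (`gcrit_near`, `glin_x`). `n ≤ exp (δ h x)`, `δ` small. -/
theorem gcrit_front (S : Std μ ν h h' a) {b0 : ℝ} (hb0 : 0 < b0)
    (hb0m : ((∫ s, s ∂μ) - ∫ t, t ∂ν) / (∫ t, t ∂ν) ≤ b0) (hcrit : (1 + 1 / b0) ^ a = 2)
    {ε e : ℝ} (hε : 0 < ε) (hε1 : ε ≤ 1 / 2) (he : 0 < e) :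
    ∃ β1 : ℝ, 0 < β1 ∧ ∀ β : ℝ, 0 < β → β ≤ β1 → ∃ δ : ℝ, 0 < δ ∧
      ∀ᶠ x : ℝ in atTop, ∀ π : Measure (ℝ × ℝ), IsStationaryKW μ ν π → ∀ n : ℕ,
        (n : ℝ) ≤ Real.exp (δ * h x) →
        (π.prod (noise μ ν)) (oneBig x (β * x) (β * x) n ∩ {q | e * x < q.1.2 ∧
          ¬ (q.1.1 ≤ ε * x ∧ (1 - ε) * x ≤ q.1.2 ∧ (1 - ε) * x ≤ (q.2 0).1 ∧
            (n : ℝ) ≤ ε * x)}) ≤
          ENNReal.ofReal (Real.exp (-((2 + 2 * δ) * h x))) := by
  have H := S.haz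
  obtain ⟨ha0, hb01⟩ := gcrit_facts H.a0 H.a1 hb0 hcrit
  set E := ∫ s, s ∂μ with hE
  set m := ∫ t, t ∂ν with hmdef
  have hm : 0 < m := S.hm
  have hgt : m < E := S.hgt
  have hlt : E < 2 * m := S.hlt
  -- the parameters
  obtain ⟨bh, hbh, hbh1⟩ := exists_between hb01
  have hbh0 : 0 < bh := hb0.trans hbh
  have hbm : E < (1 + bh) * m := by
    rw [div_le_iff₀ hm] at hb0m
    have : b0 * m < bh * m := mul_lt_mul_of_pos_right hbh hm
    linarith
  have hθ : (1 + 1 / bh) ^ a < 2 := by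
    rw [← hcrit]
    have h3 : 1 / bh < 1 / b0 := one_div_lt_one_div_of_lt hb0 hbh
    exact Real.rpow_lt_rpow (by positivity) (by linarith) ha0
  obtain ⟨Rh, dh, C4, hRh, hdh, hC4, hlin⟩ := glin_x S hbh0 hbh1 hbm
  set p := 1 + 1 / bh with hp
  have hp1 : 1 < p := by
    have : 0 < 1 / bh := by positivity
    linarith
  have hp0 : 0 < p := by linarith
  obtain ⟨ε', he0, he1, he2⟩ : ∃ ε' : ℝ, 0 < ε' ∧ ε' ≤ ε / 8 ∧ ε' * (8 * p) ≤ dh * ε := by
    refine ⟨min (ε / 8) (dh * ε / (8 * p)), lt_min (by positivity) (by positivity),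
      min_le_left _ _, ?_⟩
    have : min (ε / 8) (dh * ε / (8 * p)) ≤ dh * ε / (8 * p) := min_le_right _ _
    calc min (ε / 8) (dh * ε / (8 * p)) * (8 * p) ≤ dh * ε / (8 * p) * (8 * p) := by gcongr
      _ = dh * ε := by field_simp
  obtain ⟨K, hK, hK1, hK2⟩ : ∃ K : ℝ, 0 < K ∧ 3 ≤ K * (ε / 4 * p) ∧ 3 ≤ K * (dh * ε / 2) := by
    refine ⟨max (3 / (ε / 4 * p)) (3 / (dh * ε / 2)), lt_max_of_lt_left (by positivity), ?_, ?_⟩
    · have h3 : 3 / (ε / 4 * p) ≤ max (3 / (ε / 4 * p)) (3 / (dh * ε / 2)) := le_max_left _ _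
      calc (3 : ℝ) = 3 / (ε / 4 * p) * (ε / 4 * p) := by field_simp
        _ ≤ _ := by gcongr
    · have h3 : 3 / (dh * ε / 2) ≤ max (3 / (ε / 4 * p)) (3 / (dh * ε / 2)) := le_max_right _ _
      calc (3 : ℝ) = 3 / (dh * ε / 2) * (dh * ε / 2) := by field_simp
        _ ≤ _ := by gcongr
  obtain ⟨β1, hβ1, hlin'⟩ := hlin K hK
  refine ⟨β1, hβ1, fun β hβ hβle => ?_⟩
  -- the compactness parameters
  set D : ℝ := 6 ^ (1 / a) with hDdef
  have hD0 : 0 < D := by positivity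
  have hDa : D ^ a = 6 := by
    rw [hDdef, ← Real.rpow_mul (by norm_num), one_div_mul_cancel ha0.ne', Real.rpow_one]
  obtain ⟨γ, b1, hγ, hb1, hgain⟩ := ggain_strict H hb0 hcrit he0 he hβ hD0
  obtain ⟨b, R, δ2, hbgt, hble, hR, hδ2, hpot⟩ := gcrit_pot S hb0 hb0m hcrit hγ hβ hb1
  have hgain' := hgain b hbgt.le hble R hR.le
  -- pairs
  set Θ : ℝ := 2 + ((1 + ε') ^ a - 1) / 2 with hΘ
  have hεa : 1 < (1 + ε') ^ a := Real.one_lt_rpow (by linarith) ha0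
  have hΘ2 : 2 < Θ := by
    rw [hΘ]
    linarith
  set lam : ℝ := (1 + 2 / Θ) / 2 with hlamdef
  have h2Θ : 2 / Θ < 1 := by rw [div_lt_one (by linarith)]; exact hΘ2
  have h2Θ0 : 0 < 2 / Θ := by positivity
  have hl2 : 1 / 2 ≤ lam := by rw [hlamdef]; linarith
  have hl1 : lam < 1 := by rw [hlamdef]; linarith
  set δ3 : ℝ := (Θ - 2) / 2 with hδ3def
  have hδ3 : 0 < δ3 := by rw [hδ3def]; linarith
  have hlΘ : lam * Θ = 2 + δ3 := by
    have hΘ0 : Θ ≠ 0 := by linarith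
    rw [hlamdef, hδ3def]
    field_simp
    ring
  obtain ⟨C3, hC3, hpair⟩ := gpair_tail S hbh0 hbh1 hbm hθ hl2 hl1
  obtain ⟨C1, hC1, htail⟩ := gtail_snd S (lam := 3 / 4) (by norm_num) (by norm_num)
  obtain ⟨Cμ, hCμ, hup⟩ := S.law.up
  obtain ⟨δ, hδ0, hδa, hδb, hδc⟩ : ∃ δ : ℝ, 0 < δ ∧ 2 * δ < δ2 ∧ 2 * δ < δ3 ∧ δ ≤ 1 / 4 := by
    refine ⟨min (min δ2 δ3) 1 / 4, by positivity, ?_, ?_, ?_⟩
    · have h3 : min (min δ2 δ3) 1 ≤ δ2 := (min_le_left _ _).trans (min_le_left _ _)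
      linarith
    · have h3 : min (min δ2 δ3) 1 ≤ δ3 := (min_le_left _ _).trans (min_le_right _ _)
      linarith
    · have h3 : min (min δ2 δ3) 1 ≤ 1 := min_le_right _ _
      linarith
  refine ⟨δ, hδ0, ?_⟩
  have hη : (0 : ℝ) < 1 / 5 := by norm_num
  have ev1 := gCF_ev H (c := 3) (c' := 2 + 2 * δ) (by linarith) C1 hη
  have ev2 := gCF_ev H (c := 4) (c' := 2 + 2 * δ) (by linarith) Cμ hη
  have ev3 := gCF_ev H (c := 2 + δ2) (c' := 2 + 2 * δ) (by linarith) 1 hη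
  have ev4 := gCF_ev H (c := 2 + δ3) (c' := 2 + 2 * δ) (by linarith) C3 hη
  have ev5 := gCF_ev H (c := 3 - δ) (c' := 2 + 2 * δ) (by linarith) (C4 * 2) hη
  have ev6 := gCF_ratio_ge H (l := D) (τ := 5) hD0 (by rw [hDa]; norm_num)
  have ev7 := gCF_ratio_ge H (l := 1 + ε') (τ := Θ - 1) (by linarith) (by rw [hΘ]; linarith)
  have hxR1 : ∀ᶠ x : ℝ in atTop, Rh / bh ≤ ε / 8 * x := by
    have : Tendsto (fun x : ℝ => ε / 8 * x) atTop atTop :=
      tendsto_id.const_mul_atTop (by positivity)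
    exact this.eventually_ge_atTop _
  have hxR2 : ∀ᶠ x : ℝ in atTop, Rh / bh ≤ dh * ε / 4 * x := by
    have : Tendsto (fun x : ℝ => dh * ε / 4 * x) atTop atTop :=
      tendsto_id.const_mul_atTop (by positivity)
    exact this.eventually_ge_atTop _
  filter_upwards [hpot, ev1, ev2, ev3, ev4, ev5, ev6, ev7, hxR1, hxR2, hlin' β hβ hβle,
    hgain', eventually_ge_atTop 1] with x hxpot hxe1 hxe2 hxe3 hxe4 hxe5 hxe6 hxe7 hxr1 hxr2
    hxlin hxgain hxx1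
  intro π hπ n hn
  have hprob : IsProbabilityMeasure π := hπ.1
  have hx0 : 0 < x := by linarith
  have hhx : 0 ≤ h x := H.nonneg x
  set S1 : Set ((ℝ × ℝ) × (ℕ → ℝ × ℝ)) := {q | q.1 ∈ {w : ℝ × ℝ | D * x < w.2}} with hS1
  set S2 : Set ((ℝ × ℝ) × (ℕ → ℝ × ℝ)) := {q | (q.2 0).1 ∈ Set.Ioi (D * x)} with hS2
  set S3 : Set ((ℝ × ℝ) × (ℕ → ℝ × ℝ)) := {q | β * x < (q.2 0).1 ∧
          gcost h b R (kwStep q.1 (q.2 0).1 (q.2 0).2) ≤
            gcost h b R q.1 + h (q.2 0).1 - γ * h x ∧ x < (pIter q.1 q.2 (n + 1)).1} with hS3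
  set S4 : Set ((ℝ × ℝ) × (ℕ → ℝ × ℝ)) := {q | Θ * h x ≤
    h (q.1.2 + q.1.1 / bh) + h (q.2 0).1} with hS4
  set S5 : Set ((ℝ × ℝ) × (ℕ → ℝ × ℝ)) := {q | 0 ≤ q.1.1 ∧ 0 ≤ (q.2 0).1 ∧ 0 ≤ (q.2 0).2 ∧
      q.1.1 ≤ ε' * x ∧ q.1.2 ≤ (q.2 0).1 + ε' * x ∧
      ((q.2 0).1 ≤ (1 - ε / 2) * x ∨ ((q.2 0).1 ≤ (1 + ε') * x ∧ ε * x < n)) ∧
      (∀ i < n, (q.2 (i + 1)).1 ≤ β * x) ∧ x < (pIter q.1 q.2 (n + 1)).1} with hS5
  -- the five bounds
  have hm1 : (π.prod (noise μ ν)) S1 ≤ ENNReal.ofReal (C1 * Real.exp (-(3 * h x))) := by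
    rw [hS1, CF_marg_fst]
    refine (htail π hπ (D * x)).trans ?_
    apply ENNReal.ofReal_le_ofReal
    have h3 : Real.exp (-(3 / 4 * h (D * x))) ≤ Real.exp (-(3 * h x)) := by
      apply Real.exp_le_exp.mpr
      linarith
    gcongr
  have hm2 : (π.prod (noise μ ν)) S2 ≤ ENNReal.ofReal (Cμ * Real.exp (-(4 * h x))) := by
    rw [hS2, CF_marg_job measurableSet_Ioi]
    refine (hup (D * x)).trans ?_
    apply ENNReal.ofReal_le_ofReal
    have h3 : Real.exp (-(h (D * x))) ≤ Real.exp (-(4 * h x)) := by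
      apply Real.exp_le_exp.mpr
      linarith
    gcongr
  have hn2 : (n : ℝ) ≤ Real.exp (δ2 * h x) := by
    refine hn.trans (Real.exp_le_exp.mpr ?_)
    have : δ ≤ δ2 := by linarith
    gcongr
  have hm3 : (π.prod (noise μ ν)) S3 ≤ ENNReal.ofReal (Real.exp (-((2 + δ2) * h x))) :=
    hxpot π hπ n hn2
  have hm4 : (π.prod (noise μ ν)) S4 ≤ ENNReal.ofReal (C3 * Real.exp (-((2 + δ3) * h x))) := by
    refine (hpair π hπ _).trans (le_of_eq ?_)
    congr 3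
    rw [← hlΘ]
    ring
  have hm5 : (π.prod (noise μ ν)) S5 ≤
      ENNReal.ofReal (C4 * (n + 1) * Real.exp (-(3 * h x))) :=
    gcrit_near hbh0 hbh1 hRh hdh hK hC4 hx0 hhx hxlin hε hε1 he0 he1 he2 hK1 hK2 hxr1 hxr2 n
  -- the covering
  have hcover : ∀ᵐ q ∂(π.prod (noise μ ν)), q ∈ (oneBig x (β * x) (β * x) n ∩ {q | e * x < q.1.2 ∧
          ¬ (q.1.1 ≤ ε * x ∧ (1 - ε) * x ≤ q.1.2 ∧ (1 - ε) * x ≤ (q.2 0).1 ∧
            (n : ℝ) ≤ ε * x)}) → q ∈ S1 ∪ (S2 ∪ (S3 ∪ (S4 ∪ S5))) := by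
    filter_upwards [law_path S.law S.hν hπ] with q hq hqE
    obtain ⟨⟨hq0, hq1⟩, hqz⟩ := hq
    obtain ⟨⟨hbig, hsmall, hend⟩, hqe, hnice⟩ := hqE
    by_cases c1 : D * x < q.1.2
    · exact Or.inl c1
    right
    by_cases c2 : D * x < (q.2 0).1
    · exact Or.inl c2
    right
    by_cases c3 : gcost h b R (kwStep q.1 (q.2 0).1 (q.2 0).2) ≤
            gcost h b R q.1 + h (q.2 0).1 - γ * h x
    · exact Or.inl ⟨hbig, c3, hend⟩
    right
    obtain ⟨g1, g2⟩ := hxgain q.1 hq0 hq1 (q.2 0).1 (q.2 0).2 (hqz 0).2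
      (le_of_lt hqe) (not_lt.1 c1) hbig.le (not_lt.1 c2) (not_le.1 c3).le
    obtain ⟨g3, g4⟩ := abs_le.1 g2
    by_cases c4 : (1 + ε') * x < (q.2 0).1
    · left
      show Θ * h x ≤ h (q.1.2 + q.1.1 / bh) + h (q.2 0).1
      have k1 : x ≤ q.1.2 + q.1.1 / bh := by
        have : 0 ≤ q.1.1 / bh := by positivity
        linarith
      have k2 : h x ≤ h (q.1.2 + q.1.1 / bh) := H.mono k1
      have k3 : h ((1 + ε') * x) ≤ h (q.2 0).1 := H.mono c4.le
      linarith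
    · right
      have c4' := not_lt.1 c4
      refine ⟨hq0, (hqz 0).1, (hqz 0).2, g1, by linarith, ?_, hsmall, hend⟩
      by_contra hcon
      push Not at hcon
      obtain ⟨k1, k2⟩ := hcon
      have k3 := k2 c4'
      have hεx : 0 < ε * x := by positivity
      apply hnice
      refine ⟨?_, ?_, ?_, k3⟩
      · have : ε' * x ≤ ε * x := by
          have : ε' ≤ ε := by linarith
          gcongr
        linarith
      · have h3 : ε' * x ≤ ε / 8 * x := by gcongr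
        linarith
      · linarith
  calc (π.prod (noise μ ν)) (oneBig x (β * x) (β * x) n ∩ {q | e * x < q.1.2 ∧
          ¬ (q.1.1 ≤ ε * x ∧ (1 - ε) * x ≤ q.1.2 ∧ (1 - ε) * x ≤ (q.2 0).1 ∧
            (n : ℝ) ≤ ε * x)})
      ≤ (π.prod (noise μ ν)) (S1 ∪ (S2 ∪ (S3 ∪ (S4 ∪ S5)))) := measure_mono_ae hcover
    _ ≤ (π.prod (noise μ ν)) S1 + ((π.prod (noise μ ν)) S2 + ((π.prod (noise μ ν)) S3 +
          ((π.prod (noise μ ν)) S4 + (π.prod (noise μ ν)) S5))) := by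
        refine (measure_union_le _ _).trans (add_le_add le_rfl ?_)
        refine (measure_union_le _ _).trans (add_le_add le_rfl ?_)
        refine (measure_union_le _ _).trans (add_le_add le_rfl ?_)
        exact measure_union_le _ _
    _ ≤ ENNReal.ofReal (C1 * Real.exp (-(3 * h x))) +
          (ENNReal.ofReal (Cμ * Real.exp (-(4 * h x))) +
          (ENNReal.ofReal (Real.exp (-((2 + δ2) * h x))) +
          (ENNReal.ofReal (C3 * Real.exp (-((2 + δ3) * h x))) +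
          ENNReal.ofReal (C4 * (n + 1) * Real.exp (-(3 * h x)))))) := by
        gcongr
    _ = ENNReal.ofReal (C1 * Real.exp (-(3 * h x)) + (Cμ * Real.exp (-(4 * h x)) +
          (Real.exp (-((2 + δ2) * h x)) + (C3 * Real.exp (-((2 + δ3) * h x)) +
          C4 * (n + 1) * Real.exp (-(3 * h x)))))) := by
        rw [← ENNReal.ofReal_add (by positivity) (by positivity),
          ← ENNReal.ofReal_add (by positivity) (by positivity),
          ← ENNReal.ofReal_add (by positivity) (by positivity),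
          ← ENNReal.ofReal_add (by positivity) (by positivity)]
    _ ≤ ENNReal.ofReal (Real.exp (-((2 + 2 * δ) * h x))) := by
        apply ENNReal.ofReal_le_ofReal
        rw [one_mul] at hxe3
        have hn1 : (n : ℝ) + 1 ≤ 2 * Real.exp (δ * h x) := by
          have : 1 ≤ Real.exp (δ * h x) := Real.one_le_exp (by positivity)
          linarith
        have h5 : C4 * (n + 1) * Real.exp (-(3 * h x)) ≤
            C4 * 2 * Real.exp (-((3 - δ) * h x)) := by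
          have e3 : Real.exp (-((3 - δ) * h x)) = Real.exp (δ * h x) * Real.exp (-(3 * h x)) := by
            rw [← Real.exp_add]; congr 1; ring
          rw [e3]
          calc C4 * (n + 1) * Real.exp (-(3 * h x))
              ≤ C4 * (2 * Real.exp (δ * h x)) * Real.exp (-(3 * h x)) := by gcongr
            _ = _ := by ring
        linarith

end Pool.Agent.Lib.MP_04add8_pr.Gen
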