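import Mathlib
import Pool.Agent.Lib.MP_04add8_pr.Gen.RV

open MeasureTheory ProbabilityTheory Filter Topology
open scoped ENNReal

set_option linter.unusedSectionVars false

namespace Pool.Agent.Lib.MP_04add8_pr.Gen

variable {h h' : ℝ → ℝ} {a : ℝ} {μ ν : Measure ℝ} [IsProbabilityMeasure μ]
  [IsProbabilityMeasure ν]

private lemma OptA_bdd (H : Haz h h' a) {θ : ℝ} (hθ : 0 < θ) :
    BddAbove ((fun y : ℝ => h y - θ * y) '' Set.Ici 0) := by
  have h1 : ∀ᶠ y : ℝ in atTop, h y / y < θ := H.tendsto_div.eventually_lt_const hθ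
  obtain ⟨y0, hy0⟩ := (h1.and (eventually_gt_atTop (0 : ℝ))).exists_forall_of_atTop
  refine ⟨h y0, ?_⟩
  rintro _ ⟨y, hy, rfl⟩
  have hy' : (0 : ℝ) ≤ y := hy
  change h y - θ * y ≤ h y0
  rcases le_total y y0 with h2 | h2
  · have h3 := H.mono h2
    have h4 : 0 ≤ θ * y := mul_nonneg hθ.le hy'
    linarith
  · obtain ⟨h3, h4⟩ := hy0 y h2
    rw [div_lt_iff₀ h4] at h3
    have h5 := H.nonneg y0
    linarith

/-- the conjugate is a supremum over a set bounded above (`h y / y → 0`) -/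
lemma le_hG (H : Haz h h' a) {θ y : ℝ} (hθ : 0 < θ) (hy : 0 ≤ y) : h y ≤ hG h θ + θ * y := by
  have h1 : h y - θ * y ≤ hG h θ := le_csSup (OptA_bdd H hθ) ⟨y, hy, rfl⟩
  linarith

/-- tangent line at `X` -/
lemma hG_deriv (H : Haz h h' a) {X : ℝ} (hX : 0 < X) : hG h (h' X) = h X - h' X * X := by
  have h1 : IsGreatest ((fun y : ℝ => h y - h' X * y) '' Set.Ici 0) (h X - h' X * X) := by
    refine ⟨⟨X, hX.le, rfl⟩, ?_⟩
    rintro _ ⟨y, hy, rfl⟩
    have hy' : (0 : ℝ) ≤ y := hy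
    change h y - h' X * y ≤ h X - h' X * X
    have h2 := H.tangent hX (y := y - X) (by linarith)
    rw [add_sub_cancel] at h2
    linarith
  exact h1.csSup_eq

lemma hG_nonneg (H : Haz h h' a) {θ : ℝ} (hθ : 0 < θ) : 0 ≤ hG h θ := by
  have h1 := le_hG H hθ (le_refl (0 : ℝ))
  have h2 := H.zero
  linarith

/-- biconjugation: a point `X` whose slope supports `hG` at `θ` is the maximiser. If
`h' X > θ`, move right, etc.; or `inf_θ' (hG θ' + θ' X) = h X` (attained at `θ' = h' X`), so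
`h X ≥ hG θ + θ X`, hence `y ↦ h y - θ y` is maximal at `X` and its derivative vanishes. -/
lemma hG_dual (H : Haz h h' a) {θ X : ℝ} (hθ : 0 < θ) (hX : 0 < X)
    (hs : ∀ θ' : ℝ, 0 < θ' → hG h θ - X * (θ' - θ) ≤ hG h θ') : h' X = θ := by
  have h1 := hs (h' X) (H.pos X hX)
  rw [hG_deriv H hX] at h1
  have h2 : hG h θ ≤ h X - θ * X := by linarith
  have hloc : IsLocalMax (fun y => h y - θ * y) X := by
    filter_upwards [Ioi_mem_nhds hX] with y hy
    have h3 := le_hG H hθ (le_of_lt hy)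
    linarith
  have hd : HasDerivAt (fun y => h y - θ * y) (h' X - θ * 1) X :=
    (H.deriv X hX).sub ((hasDerivAt_id X).const_mul θ)
  have h4 := hloc.hasDerivAt_eq_zero hd
  linarith

end Pool.Agent.Lib.MP_04add8_pr.Gen
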