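import Mathlib
import Pool.Agent.Lib.MP_04add8_pr.Integ
import Pool.Agent.Lib.MP_04add8_pr.Gen.RV

open MeasureTheory ProbabilityTheory Filter Topology
open scoped ENNReal

set_option linter.unusedSectionVars false

namespace Pool.Agent.Lib.MP_04add8_pr.Gen

variable {h h' : ℝ → ℝ} {a : ℝ}

/-- increments of `h` are at least `M log (y / x)` -/
private lemma TailA_log_diff (H : Haz h h' a) (M : ℝ) : ∃ x0 : ℝ, 1 ≤ x0 ∧ ∀ x y : ℝ, x0 ≤ x →
    x ≤ y → M * Real.log (y / x) ≤ h y - h x := by
  obtain ⟨x1, hx1⟩ := (H.big.eventually_ge_atTop M).exists_forall_of_atTop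
  set x0 : ℝ := max x1 1 with hx0
  have hx01 : 1 ≤ x0 := le_max_right _ _
  have hx0pos : 0 < x0 := by linarith
  have hmono : MonotoneOn (fun x => h x - M * Real.log x) (Set.Ici x0) := by
    apply monotoneOn_of_hasDerivWithinAt_nonneg (f' := fun x => h' x - M * x⁻¹)
      (convex_Ici x0)
    · apply ContinuousOn.sub H.cont.continuousOn
      apply ContinuousOn.mul continuousOn_const
      apply Real.continuousOn_log.mono
      intro x hx
      have : x0 ≤ x := hx
      simp only [Set.mem_compl_iff, Set.mem_singleton_iff]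
      linarith
    · intro x hx
      rw [interior_Ici] at hx
      have hxpos : 0 < x := lt_trans hx0pos hx
      exact ((H.deriv x hxpos).sub ((Real.hasDerivAt_log hxpos.ne').const_mul _)).hasDerivWithinAt
    · intro x hx
      rw [interior_Ici] at hx
      have hxpos : 0 < x := lt_trans hx0pos hx
      have h1 := hx1 x ((le_max_left _ _).trans (le_of_lt hx))
      have h2 : M * x⁻¹ ≤ h' x := by
        rw [mul_inv_le_iff₀ hxpos, mul_comm]
        exact h1
      linarith
  refine ⟨x0, hx01, fun x y hx hxy => ?_⟩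
  have hxpos : 0 < x := by linarith
  have hypos : 0 < y := by linarith
  have h3 := hmono (Set.mem_Ici.2 hx) (Set.mem_Ici.2 (hx.trans hxy)) hxy
  simp only at h3
  rw [Real.log_div hypos.ne' hxpos.ne', mul_sub]
  linarith

/-- the integral of `h' exp (-κ h)` -/
private lemma TailA_int (H : Haz h h' a) {κ x : ℝ} (hκ : 0 < κ) (hx : 0 < x) :
    IntegrableOn (fun y : ℝ => h' y * Real.exp (-(κ * h y))) (Set.Ioi x) ∧
      ∫ y in Set.Ioi x, h' y * Real.exp (-(κ * h y)) = Real.exp (-(κ * h x)) / κ := by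
  have hcont : ContinuousWithinAt (fun y => -(Real.exp (-(κ * h y)) / κ)) (Set.Ici x) x :=
    (((Real.continuous_exp.comp (continuous_const.mul H.cont).neg).div_const κ).neg).continuousWithinAt
  have hder : ∀ y ∈ Set.Ioi x, HasDerivAt (fun y => -(Real.exp (-(κ * h y)) / κ))
      (h' y * Real.exp (-(κ * h y))) y := by
    intro y hy
    have hy0 : 0 < y := hx.trans hy
    have h1 : HasDerivAt (fun y => -(κ * h y)) (-(κ * h' y)) y := ((H.deriv y hy0).const_mul κ).neg
    have h2 := (h1.exp.div_const κ).neg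
    refine h2.congr_deriv ?_
    have := hκ.ne'
    field_simp
  have hpos : ∀ y ∈ Set.Ioi x, 0 ≤ h' y * Real.exp (-(κ * h y)) := by
    intro y hy
    exact mul_nonneg (H.pos y (hx.trans hy)).le (Real.exp_pos _).le
  have hlim : Tendsto (fun y => -(Real.exp (-(κ * h y)) / κ)) atTop (𝓝 0) := by
    have h1 : Tendsto (fun y => κ * h y) atTop atTop := H.tendsto_h.const_mul_atTop hκ
    have h2 : Tendsto (fun y => Real.exp (-(κ * h y))) atTop (𝓝 0) :=
      Real.tendsto_exp_neg_atTop_nhds_zero.comp h1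
    have h3 := (h2.div_const κ).neg
    simpa using h3
  refine ⟨integrableOn_Ioi_deriv_of_nonneg hcont hder hpos hlim, ?_⟩
  rw [integral_Ioi_of_hasDerivAt_of_nonneg hcont hder hpos hlim]
  ring

theorem tail_integrable (H : Haz h h' a) {x : ℝ} (hx : 0 ≤ x) :
    IntegrableOn (fun y : ℝ => Real.exp (-(h y))) (Set.Ioi x) := by
  obtain ⟨x1, hx1⟩ := (H.log_le 2).exists_forall_of_atTop
  set z : ℝ := max (max x1 1) (x + 1) with hz
  have hz1 : x1 ≤ z := (le_max_left _ _).trans (le_max_left _ _)
  have hz2 : 1 ≤ z := (le_max_right _ _).trans (le_max_left _ _)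
  have hz3 : x + 1 ≤ z := le_max_right _ _
  have hcont : Continuous fun y : ℝ => Real.exp (-(h y)) := Real.continuous_exp.comp H.cont.neg
  rw [← Set.Ioc_union_Ioi_eq_Ioi (show x ≤ z by linarith)]
  apply IntegrableOn.union
  · exact (hcont.integrableOn_Icc (a := x) (b := z)).mono_set Set.Ioc_subset_Icc_self
  · have h1 : IntegrableOn (fun y : ℝ => y ^ (-2 : ℝ)) (Set.Ioi z) :=
      integrableOn_Ioi_rpow_of_lt (by norm_num) (by linarith)
    refine Integrable.mono' h1 hcont.aestronglyMeasurable ?_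
    rw [ae_restrict_iff' measurableSet_Ioi]
    refine Eventually.of_forall fun y hy => ?_
    have hy' : z < y := hy
    have hy0 : 0 < y := by linarith
    rw [Real.norm_eq_abs, abs_of_pos (Real.exp_pos _)]
    have h2 := hx1 y (by linarith)
    rw [Real.rpow_def_of_pos hy0]
    apply Real.exp_le_exp.mpr
    linarith

/-- lower bound: `h' y ≤ h' x`, so `∫_x^∞ e^{-h} ≥ ∫ h' e^{-h} / h' x`. Upper bound: on
`[x, (1+τ) x]` `h' y ≥ (1+τ)^(-C) h' x`; the rest `∫_{(1+τ)x}^∞` is at most
`(1+τ)`-dilation: use `h y ≥ h x + (y - x) h' y` and `x h' x → ∞`; simplest: for `y ≥ x`,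
`h y - h x ≥ c (x h' x) log (y/x)`-type bound `h' u ≥ (x/u)^C h' x`, only `M = x h' x → ∞` is
used: `∫_{(1+τ)x}^∞ exp (-(h y - h x)) dy ≤ ω / h' x`. -/
theorem tail_asymp (H : Haz h h' a) :
    Tendsto (fun x : ℝ => (∫ y in Set.Ioi x, Real.exp (-(h y))) / Qf h h' x) atTop (𝓝 1) := by
  obtain ⟨C, hC, hc⟩ := H.curv
  have hQ : ∀ x, 0 < x → 0 < Qf h h' x := fun x hx => div_pos (Real.exp_pos _) (H.pos x hx)
  -- lower bound
  have hlow : ∀ x, 0 < x → 1 ≤ (∫ y in Set.Ioi x, Real.exp (-(h y))) / Qf h h' x := by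
    intro x hx
    rw [le_div_iff₀ (hQ x hx), one_mul]
    obtain ⟨i1, i2⟩ := TailA_int H one_pos hx
    have h1 : Qf h h' x = ∫ y in Set.Ioi x, (h' x)⁻¹ * (h' y * Real.exp (-(1 * h y))) := by
      rw [integral_const_mul, i2, Qf, one_mul, div_one, div_eq_inv_mul]
    rw [h1]
    apply setIntegral_mono_on (i1.const_mul _) (tail_integrable H hx.le) measurableSet_Ioi
    intro y hy
    have hy0 : 0 < y := hx.trans hy
    have h2 := H.anti x y hx (le_of_lt hy)
    have h3 := H.pos x hx
    rw [one_mul, ← mul_assoc]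
    have h4 : (h' x)⁻¹ * h' y ≤ 1 := by
      rw [inv_mul_le_iff₀ h3, mul_one]
      exact h2
    exact mul_le_of_le_one_left (Real.exp_pos _).le h4
  -- upper bound
  have hup : ∀ M : ℝ, C < M → ∀ᶠ x : ℝ in atTop,
      (∫ y in Set.Ioi x, Real.exp (-(h y))) / Qf h h' x ≤ 1 / (1 - C / M) := by
    intro M hM
    have hM0 : 0 < M := by linarith
    have hκ : 0 < 1 - C / M := by
      rw [sub_pos, div_lt_one hM0]
      exact hM
    obtain ⟨x0, hx0, hd⟩ := TailA_log_diff H M
    filter_upwards [eventually_ge_atTop x0] with x hx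
    have hxpos : 0 < x := by linarith
    rw [div_le_iff₀ (hQ x hxpos)]
    obtain ⟨i1, i2⟩ := TailA_int H hκ hxpos
    have h1 : 1 / (1 - C / M) * Qf h h' x = ∫ y in Set.Ioi x,
        ((h' x)⁻¹ * Real.exp (-(C / M * h x))) * (h' y * Real.exp (-((1 - C / M) * h y))) := by
      rw [integral_const_mul, i2, Qf]
      have e : Real.exp (-(h x)) = Real.exp (-(C / M * h x)) * Real.exp (-((1 - C / M) * h x)) := by
        rw [← Real.exp_add]
        congr 1
        ring
      rw [e]
      have := (H.pos x hxpos).ne'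
      field_simp
    rw [h1]
    apply setIntegral_mono_on (tail_integrable H hxpos.le) (i1.const_mul _) measurableSet_Ioi
    intro y hy
    have hxy : x ≤ y := le_of_lt hy
    have hypos : 0 < y := by linarith
    have h2 := H.pos x hxpos
    have h3 := H.pos y hypos
    have h4 := hc x y hxpos hxy
    have h5 := hd x y hx hxy
    have h6 : h' x ≤ Real.exp (C * Real.log (y / x)) * h' y := by
      have e1 : Real.exp (C * Real.log (y / x)) = y ^ C / x ^ C := by
        rw [mul_comm, ← Real.rpow_def_of_pos (div_pos hypos hxpos),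
          Real.div_rpow hypos.le hxpos.le]
      rw [e1, div_mul_eq_mul_div, le_div_iff₀ (Real.rpow_pos_of_pos hxpos C)]
      linarith
    have h7 : Real.exp (C * Real.log (y / x)) ≤ Real.exp (C / M * (h y - h x)) := by
      apply Real.exp_le_exp.mpr
      have h8 : C * Real.log (y / x) = C / M * (M * Real.log (y / x)) := by
        field_simp
      rw [h8]
      exact mul_le_mul_of_nonneg_left h5 (div_nonneg hC hM0.le)
    have h9 : 1 ≤ (h' x)⁻¹ * (Real.exp (C / M * (h y - h x)) * h' y) := by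
      rw [le_inv_mul_iff₀ h2, mul_one]
      exact h6.trans (mul_le_mul_of_nonneg_right h7 h3.le)
    have e2 : (h' x)⁻¹ * Real.exp (-(C / M * h x)) * (h' y * Real.exp (-((1 - C / M) * h y))) =
        ((h' x)⁻¹ * (Real.exp (C / M * (h y - h x)) * h' y)) * Real.exp (-(h y)) := by
      have e3 : Real.exp (-(C / M * h x)) * Real.exp (-((1 - C / M) * h y)) =
          Real.exp (C / M * (h y - h x)) * Real.exp (-(h y)) := by
        rw [← Real.exp_add, ← Real.exp_add]
        congr 1
        ring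
      calc (h' x)⁻¹ * Real.exp (-(C / M * h x)) * (h' y * Real.exp (-((1 - C / M) * h y))) =
          (h' x)⁻¹ * h' y * (Real.exp (-(C / M * h x)) * Real.exp (-((1 - C / M) * h y))) := by ring
        _ = _ := by rw [e3]; ring
    rw [e2]
    exact le_mul_of_one_le_left (Real.exp_pos _).le h9
  -- conclusion
  rw [Metric.tendsto_nhds]
  intro ε hε
  have hlimM : Tendsto (fun M : ℝ => 1 / (1 - C / M)) atTop (𝓝 1) := by
    have h1 : Tendsto (fun M : ℝ => C / M) atTop (𝓝 0) := tendsto_const_nhds.div_atTop tendsto_id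
    have h2 := (tendsto_const_nhds (x := (1 : ℝ))).sub h1
    have h3 : Tendsto (fun M : ℝ => 1 / (1 - C / M)) atTop (𝓝 (1 / (1 - 0))) :=
      tendsto_const_nhds.div h2 (by norm_num)
    simpa using h3
  obtain ⟨M, hM1, hM2⟩ := ((hlimM.eventually_lt_const (show (1 : ℝ) < 1 + ε by linarith)).and
    (eventually_gt_atTop C)).exists
  filter_upwards [hup M hM2, eventually_gt_atTop 0] with x hx1 hx2
  rw [Real.dist_eq, abs_lt]
  have := hlow x hx2
  constructor <;> linarith

end Pool.Agent.Lib.MP_04add8_pr.Gen
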