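import Mathlib
import Pool.Agent.Lib.MP_04add8_pr.Gen.WalkBase
import Pool.Agent.Lib.MP_04add8_pr.Two.WalkC

open MeasureTheory ProbabilityTheory Filter Topology
open scoped ENNReal

set_option linter.unusedSectionVars false

namespace Pool.Agent.Lib.MP_04add8_pr.Gen

variable {h h' : ℝ → ℝ} {a : ℝ} {μ ν : Measure ℝ} [IsProbabilityMeasure μ]
  [IsProbabilityMeasure ν]

private lemma gwalkC_le (S : Std μ ν h h' a) {τ θ θ' B : ℝ} (hτ : 0 < τ) (hθ0 : 0 < θ)
    (hθ'0 : 0 < θ') (hB : Tilt h θ B)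
    {φ γ : ℝ} (hφ : (1 + θ * (∫ s, s ∂μ) +
      θ ^ 2 * (∫ s, s ^ 2 * Real.exp (h s / 4) ∂μ)) * (1 - 2 * θ' *
        (∫ t, min t τ ∂ν) + (2 * θ') ^ 2 * τ ^ 2) ≤ φ)
    (hγ : θ * (∫ s, s ∂μ) + θ ^ 2 * (∫ s, s ^ 2 * Real.exp (h s / 4) ∂μ) ≤ γ)
    (n : ℕ) :
    walkC μ ν B τ θ θ' n ≤ ENNReal.ofReal (φ ^ n + n * γ * φ ^ (n - 1)) := by
  have hν := S.hν
  obtain ⟨i1, b1⟩ := gwk_exp1 S hθ0.le hB
  obtain ⟨i2, b2⟩ := gwk_exp2 S hθ0.le hB
  obtain ⟨i3, b3⟩ := wk_nu (κ := 2 * θ') hν hτ (by positivity)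
  set F1 : ℝ → ℝ := (Set.Iic B).indicator fun s => Real.exp (θ * s) with hF1
  set F2 : ℝ → ℝ := (Set.Iic B).indicator fun s => θ * s * Real.exp (θ * s) with hF2
  set D : ℝ → ℝ := fun t => Real.exp (-(2 * θ' * min t τ)) with hD
  have hF1m : Measurable F1 :=
    (by fun_prop : Measurable fun s : ℝ => Real.exp (θ * s)).indicator measurableSet_Iic
  have hF2m : Measurable F2 :=
    (by fun_prop : Measurable fun s : ℝ => θ * s * Real.exp (θ * s)).indicator measurableSet_Iic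
  have hDm : Measurable D := by fun_prop
  have hF10 : ∀ s, 0 ≤ F1 s := fun s => Set.indicator_nonneg (fun _ _ => (Real.exp_pos _).le) _
  have hD0 : ∀ t, 0 ≤ D t := fun t => (Real.exp_pos _).le
  have hD1 : ∀ᵐ t ∂ν, D t ≤ 1 := by
    filter_upwards [ae_nonneg_of_Iio hν] with t ht
    rw [hD]
    simp only
    rw [Real.exp_le_one_iff]
    have : 0 ≤ min t τ := le_min ht hτ.le
    have := mul_nonneg (mul_nonneg zero_le_two hθ'0.le) this
    linarith
  set g : ℝ × ℝ → ℝ≥0∞ := fun p => ENNReal.ofReal (F1 p.1 * D p.2) with hg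
  set u : ℝ × ℝ → ℝ≥0∞ := fun p => ENNReal.ofReal (θ * p.1) with hu
  have hgm : Measurable g :=
    ENNReal.measurable_ofReal.comp ((hF1m.comp measurable_fst).mul (hDm.comp measurable_snd))
  have hum : Measurable u :=
    ENNReal.measurable_ofReal.comp (measurable_fst.const_mul θ)
  have hpos : ∀ᵐ z ∂(noise μ ν), ∀ k, 0 ≤ (z k).1 :=
    ae_noise (p := fun p : ℝ × ℝ => 0 ≤ p.1) (by
      exact (Measure.quasiMeasurePreserving_fst (μ := μ) (ν := ν)).ae S.law.nn)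
  have hW : walkC μ ν B τ θ θ' n =
      ∫⁻ z, (1 + ∑ i ∈ Finset.range n, u (z i)) * ∏ i ∈ Finset.range n, g (z i)
        ∂(noise μ ν) := by
    unfold walkC
    apply lintegral_congr_ae
    filter_upwards [hpos] with z hz
    by_cases hm : z ∈ {z : ℕ → ℝ × ℝ | ∀ i < n, (z i).1 ≤ B}
    · rw [Set.indicator_of_mem hm]
      have hS0 : 0 ≤ sumS z n := Finset.sum_nonneg fun i _ => hz i
      have e1 : (1 + ∑ i ∈ Finset.range n, u (z i)) = ENNReal.ofReal (1 + θ * sumS z n) := by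
        rw [ENNReal.ofReal_add zero_le_one (by positivity), ENNReal.ofReal_one, sumS,
          Finset.mul_sum, ENNReal.ofReal_sum_of_nonneg]
        intro i _
        have := hz i
        positivity
      have e2 : ∏ i ∈ Finset.range n, g (z i) =
          ENNReal.ofReal (Real.exp (θ * sumS z n - 2 * θ' * sumT τ z n)) := by
        rw [sumS, sumT, Finset.mul_sum, Finset.mul_sum, ← Finset.sum_sub_distrib, Real.exp_sum,
          ENNReal.ofReal_prod_of_nonneg (fun i _ => (Real.exp_pos _).le)]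
        apply Finset.prod_congr rfl
        intro i hi
        have hi' : (z i).1 ∈ Set.Iic B := hm i (Finset.mem_range.mp hi)
        rw [hg, hF1, hD]
        simp only
        rw [Set.indicator_of_mem hi', ← Real.exp_add]
        congr 2
      rw [e1, e2, ← ENNReal.ofReal_mul (by positivity)]
    · rw [Set.indicator_of_notMem hm]
      simp only [Set.mem_ofPred_eq, not_forall, not_le] at hm
      obtain ⟨i, hi, hi2⟩ := hm
      have : ∏ i ∈ Finset.range n, g (z i) = 0 := by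
        apply Finset.prod_eq_zero (Finset.mem_range.mpr hi)
        rw [hg, hF1]
        simp only
        rw [Set.indicator_of_notMem (by simpa using hi2)]
        simp
      rw [this, mul_zero]
  rw [hW, noise_prod_sum hgm hum n 1]
  -- the two integrals
  have hE0 : 0 ≤ ∫ s, s ∂μ := integral_nonneg_of_ae S.law.nn
  have hC0 : 0 ≤ ∫ s, s ^ 2 * Real.exp (h s / 4) ∂μ := integral_nonneg fun s => by positivity
  have hI1 : 0 ≤ ∫ s, F1 s ∂μ := integral_nonneg hF10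
  have hI3 : 0 ≤ ∫ t, D t ∂ν := integral_nonneg hD0
  have hI31 : ∫ t, D t ∂ν ≤ 1 := by
    have := integral_mono_ae i3 (integrable_const (1 : ℝ)) hD1
    simpa using this
  have hI2 : 0 ≤ ∫ s, F2 s ∂μ := integral_nonneg_of_ae (by
    filter_upwards [S.law.nn] with s hs
    exact Set.indicator_apply_nonneg (fun _ => by positivity))
  have hφg : ∫⁻ p, g p ∂(μ.prod ν) ≤ ENNReal.ofReal φ := by
    have h1 : ∫⁻ p, g p ∂(μ.prod ν) = ENNReal.ofReal ((∫ s, F1 s ∂μ) * ∫ t, D t ∂ν) := by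
      rw [← integral_prod_mul, ofReal_integral_eq_lintegral_ofReal (i1.mul_prod i3)
        (by filter_upwards with p using mul_nonneg (hF10 _) (hD0 _))]
    rw [h1]
    apply ENNReal.ofReal_le_ofReal
    refine le_trans ?_ hφ
    have h2 : 2 * θ' * (∫ t, min t τ ∂ν) = 2 * (θ' * ∫ t, min t τ ∂ν) := by ring
    apply mul_le_mul b1 b3 hI3
    positivity
  have hγg : ∫⁻ p, u p * g p ∂(μ.prod ν) ≤ ENNReal.ofReal γ := by
    have h1 : ∫⁻ p, u p * g p ∂(μ.prod ν) = ENNReal.ofReal ((∫ s, F2 s ∂μ) * ∫ t, D t ∂ν) := by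
      have hae : ∀ᵐ p ∂(μ.prod ν), 0 ≤ p.1 :=
        (Measure.quasiMeasurePreserving_fst (μ := μ) (ν := ν)).ae S.law.nn
      have h2 : ∫⁻ p, u p * g p ∂(μ.prod ν) = ∫⁻ p, ENNReal.ofReal (F2 p.1 * D p.2)
          ∂(μ.prod ν) := by
        apply lintegral_congr_ae
        filter_upwards [hae] with p hp
        rw [hu, hg]
        simp only
        rw [← ENNReal.ofReal_mul (by positivity)]
        congr 1
        rw [← mul_assoc]
        congr 1
        rw [hF1, hF2]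
        by_cases hm : p.1 ∈ Set.Iic B
        · rw [Set.indicator_of_mem hm, Set.indicator_of_mem hm]
        · rw [Set.indicator_of_notMem hm, Set.indicator_of_notMem hm, mul_zero]
      rw [h2, ← integral_prod_mul, ofReal_integral_eq_lintegral_ofReal (i2.mul_prod i3)]
      filter_upwards [hae] with p hp
      exact mul_nonneg (Set.indicator_apply_nonneg (fun _ => by positivity)) (hD0 _)
    rw [h1]
    apply ENNReal.ofReal_le_ofReal
    refine le_trans ?_ hγ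
    calc (∫ s, F2 s ∂μ) * ∫ t, D t ∂ν ≤ (∫ s, F2 s ∂μ) * 1 := by gcongr
      _ ≤ _ := by rw [mul_one]; exact b2
  have hφ0 : 0 ≤ φ := by
    refine le_trans ?_ hφ
    have : 0 ≤ 1 - 2 * θ' * (∫ t, min t τ ∂ν) + (2 * θ') ^ 2 * τ ^ 2 := hI3.trans b3
    positivity
  have hγ0 : 0 ≤ γ := le_trans (by positivity) hγ
  calc 1 * (∫⁻ p, g p ∂(μ.prod ν)) ^ n +
        n * (∫⁻ p, u p * g p ∂(μ.prod ν)) * (∫⁻ p, g p ∂(μ.prod ν)) ^ (n - 1)
      ≤ 1 * (ENNReal.ofReal φ) ^ n + n * (ENNReal.ofReal γ) * (ENNReal.ofReal φ) ^ (n - 1) := by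
        gcongr
    _ = ENNReal.ofReal (φ ^ n + n * γ * φ ^ (n - 1)) := by
        rw [ENNReal.ofReal_add (by positivity) (by positivity), ENNReal.ofReal_mul (by positivity),
          ENNReal.ofReal_mul (by positivity), ENNReal.ofReal_pow hφ0, ENNReal.ofReal_pow hφ0,
          ENNReal.ofReal_natCast, one_mul]

/-- Original: `walkC_sum` in `Two/WalkC.lean` (`noise_prod_sum`, `wkC_limit`, `wk_geom2` are
reused). -/
theorem gwalkC_sum (S : Std μ ν h h' a) {τ rp rm : ℝ} (hτ : 0 < τ) (hrp : 0 < rp)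
    (hrm : 0 < rm) (hD : rp * (∫ s, s ∂μ) < 2 * rm * ∫ t, min t τ ∂ν) {ω : ℝ} (hω : 0 < ω) :
    ∃ u0 : ℝ, 0 < u0 ∧ ∀ u : ℝ, 0 < u → u ≤ u0 → ∀ B : ℝ, Tilt h (rp * u) B → ∀ N : ℕ,
      ∑ n ∈ Finset.range N, walkC μ ν B τ (rp * u) (rm * u) n
        ≤ ENNReal.ofReal ((1 + ω) / u *
          (1 / (2 * rm * (∫ t, min t τ ∂ν) - rp * ∫ s, s ∂μ) +
            rp * (∫ s, s ∂μ) / (2 * rm * (∫ t, min t τ ∂ν) - rp * ∫ s, s ∂μ) ^ 2)) := by
  have hE0 : 0 ≤ ∫ s, s ∂μ := integral_nonneg_of_ae S.law.nn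
  have hC0 : 0 ≤ ∫ s, s ^ 2 * Real.exp (h s / 4) ∂μ := integral_nonneg fun s => by positivity
  have hlim := wkC_limit (C := ∫ s, s ^ 2 * Real.exp (h s / 4) ∂μ) (τ := τ) hE0 hrp hD hω
  obtain ⟨u0, hu0, hu⟩ := mem_nhdsGT_iff_exists_Ioc_subset.1 hlim
  refine ⟨u0, hu0, ?_⟩
  intro x hx hxu B hB N
  obtain ⟨h1, h2, h3⟩ := hu ⟨hx, hxu⟩
  set φ := (1 + rp * x * (∫ s, s ∂μ) +
      (rp * x) ^ 2 * (∫ s, s ^ 2 * Real.exp (h s / 4) ∂μ)) * (1 - 2 * (rm * x) *
        (∫ t, min t τ ∂ν) + (2 * (rm * x)) ^ 2 * τ ^ 2) with hφ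
  set γ := rp * x * (∫ s, s ∂μ) + (rp * x) ^ 2 * (∫ s, s ^ 2 * Real.exp (h s / 4) ∂μ) with hγ
  have hγ0 : 0 ≤ γ := by positivity
  have hle := gwalkC_le S hτ (mul_pos hrp hx) (mul_pos hrm hx) hB (φ := φ) (γ := γ) le_rfl le_rfl
  calc ∑ n ∈ Finset.range N, walkC μ ν B τ (rp * x) (rm * x) n
      ≤ ∑ n ∈ Finset.range N, ENNReal.ofReal (φ ^ n + n * γ * φ ^ (n - 1)) :=
        Finset.sum_le_sum fun n _ => hle n
    _ = ENNReal.ofReal (∑ n ∈ Finset.range N, (φ ^ n + n * γ * φ ^ (n - 1))) := by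
        rw [ENNReal.ofReal_sum_of_nonneg]
        intro n _
        positivity
    _ ≤ _ := by
        apply ENNReal.ofReal_le_ofReal
        refine le_trans ?_ h3
        rw [Finset.sum_add_distrib]
        have e : ∑ n ∈ Finset.range N, (n : ℝ) * γ * φ ^ (n - 1) =
            γ * ∑ n ∈ Finset.range N, (n : ℝ) * φ ^ (n - 1) := by
          rw [Finset.mul_sum]
          exact Finset.sum_congr rfl fun n _ => by ring
        rw [e]
        have g1 := wk_geom h1 h2 N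
        have g2 := wk_geom2 h1 h2 N
        have g3 : γ * ∑ n ∈ Finset.range N, (n : ℝ) * φ ^ (n - 1) ≤ γ * (1 / (1 - φ) ^ 2) := by
          gcongr
        have g4 : γ * (1 / (1 - φ) ^ 2) = γ / (1 - φ) ^ 2 := by ring
        linarith

end Pool.Agent.Lib.MP_04add8_pr.Gen
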