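import Mathlib
import Pool.Agent.Lib.MP_04add8_pr.Gen.MainU
import Pool.Agent.Lib.MP_04add8_pr.Gen.WalkA
import Pool.Agent.Lib.MP_04add8_pr.Gen.WalkC
import Pool.Agent.Lib.MP_04add8_pr.Gen.Mom
import Pool.Agent.Lib.MP_04add8_pr.Gen.TailInt
import Pool.Agent.Lib.MP_04add8_pr.Two.MainSum

open MeasureTheory ProbabilityTheory Filter Topology
open scoped ENNReal

set_option linter.unusedSectionVars false

namespace Pool.Agent.Lib.MP_04add8_pr.Gen

variable {h h' : ℝ → ℝ} {a : ℝ} {μ ν : Measure ℝ} [IsProbabilityMeasure μ]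
  [IsProbabilityMeasure ν]

private lemma MainSum_Ici (H : Haz h h' a) (L : Law μ h) {ω κ : ℝ} (hω : 0 < ω) (hκ : 0 < κ) :
    ∀ᶠ x : ℝ in atTop, ∀ X : ℝ, κ * x ≤ X →
      μ (Set.Ici X) ≤ ENNReal.ofReal ((1 + ω) * Real.exp (-(h X))) := by
  obtain ⟨X0, hX0⟩ := (L.asy ω hω).exists_forall_of_atTop
  have h1 : Tendsto (fun x : ℝ => κ * x) atTop atTop := tendsto_id.const_mul_atTop hκ
  filter_upwards [h1.eventually_gt_atTop X0] with x hx X hX
  have hXX : X0 < X := lt_of_lt_of_le hx hX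
  have hcont : Continuous (fun c' : ℝ => ENNReal.ofReal ((1 + ω) * Real.exp (-(h c')))) :=
    ENNReal.continuous_ofReal.comp (continuous_const.mul (Real.continuous_exp.comp H.cont.neg))
  have ht : Tendsto (fun c' : ℝ => ENNReal.ofReal ((1 + ω) * Real.exp (-(h c')))) (𝓝[<] X)
      (𝓝 (ENNReal.ofReal ((1 + ω) * Real.exp (-(h X))))) :=
    (hcont.tendsto X).mono_left nhdsWithin_le_nhds
  apply ge_of_tendsto ht
  filter_upwards [Ioo_mem_nhdsLT hXX] with c' hc'
  exact (measure_mono (Set.Ici_subset_Ioi.2 hc'.2)).trans (hX0 c' hc'.1.le).2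

/-- one main event under the stationary law -/
private lemma MainSum_le (S : Std μ ν h h' a) {F x B ε ε4 τ θp θm : ℝ} (hF : 0 ≤ F) (hx : 0 < x)
    (hε0 : 0 < ε) (hε : ε ≤ 1 / 8) (hε4 : 0 < ε4) (hτ : 0 ≤ τ)
    (hθp : h' ((1 - 4 * ε) * x) ≤ θp) (hθm0 : 0 ≤ θm) (hθm : θm ≤ h' ((1 + ε4) * x))
    (hFx : ∀ X : ℝ, (1 - 4 * ε) * x ≤ X →
      μ (Set.Ici X) ≤ ENNReal.ofReal (F * Real.exp (-(h X))))
    {n1 n2 : ℕ} (hN : (n1 + n2 + 2 : ℝ) * τ ≤ ε4 * x)
    {π : Measure (ℝ × ℝ)} (hπ : IsStationaryKW μ ν π) :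
    (π.prod (noise μ ν)) (mainEvent x B ε n1 n2) ≤
      ∫⁻ w, ({w : ℝ × ℝ | w.2 ≤ 2 * ε * x}).indicator (fun w =>
        ENNReal.ofReal (F ^ 2 * Real.exp (-(h x)) ^ 2 * Real.exp (θp * w.1)) *
        walkA μ ν B τ θp θm n1 w.2 * walkC μ ν B τ θp θm n2) w ∂π := by
  have hp : IsProbabilityMeasure π := hπ.1
  rw [Measure.prod_apply (measurableSet_mainEvent _ _ _ _ _)]
  apply lintegral_mono_ae
  filter_upwards [hπ.ae_ordered] with w hw
  by_cases hwx : w.2 ≤ 2 * ε * x
  · rw [Set.indicator_of_mem (by exact hwx)]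
    exact gmainEvent_bound S hF hx hε0 hε hε4 hτ hθp hθm0 hθm hFx hN hw.1 hw.2 hwx
  · have : Prod.mk w ⁻¹' mainEvent x B ε n1 n2 = ∅ := by
      ext z
      simp only [Set.mem_preimage, Set.mem_empty_iff_false, iff_false]
      intro hz
      exact hwx hz.1
    rw [this, measure_empty]
    exact zero_le

/-- Original: `main_sum` in `Two/MainSum.lean`. `θp = rp h' x`, `θm = rm h' x` (eventually
admissible because `(1-4ε)^(a-1) < rp`, `rm < (1+ε4)^(a-1)` and `Haz.rv`), `F = 1 + ω`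
(`Law.asy`, closed half lines by continuity), `Tilt h (rp h' x) (b x)` by `Haz.tilt_ev 2`
(`h' x ≤ h x / x`), `gepi` with `A = 4`. -/
theorem gmain_sum (S : Std μ ν h h' a) : ∃ εe be : ℝ, 0 < εe ∧ 0 < be ∧
    ∀ ε ε4 τ b rp rm : ℝ, 0 < ε → ε ≤ 1 / 8 → ε ≤ εe → 0 < ε4 → 0 < τ → 0 < b → b ≤ be →
      (1 - 4 * ε) ^ (a - 1) < rp → rp ≤ 2 → 0 < rm → rm < (1 + ε4) ^ (a - 1) →
      (∫ t, min t τ ∂ν) < (∫ s, s ∂μ) →
      rp * (∫ s, s ∂μ) < (rp + rm) * (∫ t, min t τ ∂ν) →
      rp * (∫ s, s ∂μ) < 2 * rm * (∫ t, min t τ ∂ν) →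
      ∀ ω : ℝ, 0 < ω → ∀ᶠ x : ℝ in atTop, ∀ π : Measure (ℝ × ℝ), IsStationaryKW μ ν π →
      ∀ N : ℕ, (N : ℝ) * τ ≤ ε4 * x →
      ∑ p ∈ (Finset.range N ×ˢ Finset.range N).filter (fun p => p.1 + p.2 + 2 ≤ N),
        (π.prod (noise μ ν)) (mainEvent x (b * x) ε p.1 p.2) ≤
      ENNReal.ofReal ((1 + ω) ^ 5 * (cA (∫ s, s ∂μ) (∫ t, min t τ ∂ν) rp rm *
        cC (∫ s, s ∂μ) (∫ t, min t τ ∂ν) rp rm) * (Qf h h' x) ^ 2) := by
  have H := S.haz
  obtain ⟨ε0, hε00, hepi⟩ := gepi S 4 (by norm_num)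
  obtain ⟨β1, hβ1, htilt⟩ := H.tilt_ev 2
  refine ⟨ε0 / 2, β1, by positivity, hβ1, ?_⟩
  intro ε ε4 τ b rp rm hεpos hε8 hεe hε4 hτ hb hbe hrpl hrp2 hrm0 hrmu hgtτ hDA hDC ω hω
  set E := ∫ s, s ∂μ with hE
  set mτ := ∫ t, min t τ ∂ν with hmτ
  have h14 : 0 < 1 - 4 * ε := by linarith
  have hrp0 : 0 < rp := (Real.rpow_pos_of_pos h14 _).trans hrpl
  obtain ⟨u1, hu1, hA⟩ := gwalkA_sum S hτ hrp0 hrm0 hgtτ hDA hω
  obtain ⟨u2, hu2, hC⟩ := gwalkC_sum S hτ hrp0 hrm0 hDC hω
  have hP := hepi (2 * ε) (by positivity) (by linarith) ω hω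
  have ev1 := (H.rv (1 - 4 * ε) h14).eventually_lt_const hrpl
  have ev2 := (H.rv (1 + ε4) (by linarith)).eventually_const_lt hrmu
  have ev3 := H.tendsto_deriv.eventually_lt_const hu1
  have ev4 := H.tendsto_deriv.eventually_lt_const hu2
  have ev5 := MainSum_Ici H S.law hω h14
  have ev6 := htilt b hb hbe
  filter_upwards [hP, ev1, ev2, ev3, ev4, ev5, ev6, eventually_gt_atTop 0] with
    x hP ev1 ev2 ev3 ev4 ev5 ev6 hx
  intro π hπ N hN
  have hp : IsProbabilityMeasure π := hπ.1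
  set u := h' x with hh
  have hh0 : 0 < u := H.pos x hx
  rw [div_lt_iff₀ hh0] at ev1
  rw [lt_div_iff₀ hh0] at ev2
  have hT : Tilt h (rp * u) (b * x) := by
    intro s hs hsB
    refine le_trans ?_ (ev6 s hs hsB)
    have q1 : u ≤ h x / x := by
      rw [le_div_iff₀ hx]
      have := H.mul_deriv_le hx
      linarith
    have q2 : rp * u ≤ 2 * (h x / x) := mul_le_mul hrp2 q1 hh0.le (by norm_num)
    exact mul_le_mul_of_nonneg_right q2 hs
  have hA' := hA u hh0 ev3.le (b * x) hT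
  have hC' := hC u hh0 ev4.le (b * x) hT
  set DA := (rp + rm) * mτ - rp * E with hDAdef
  have hDA0 : 0 < DA := by rw [hDAdef]; linarith
  set KC := 1 / (2 * rm * mτ - rp * E) + rp * E / (2 * rm * mτ - rp * E) ^ 2 with hKC
  have hE0 : 0 < E := S.hm.trans S.hgt
  have hDC0 : 0 < 2 * rm * mτ - rp * E := by linarith
  have hKC0 : 0 < KC := by positivity
  have hcA : cA E mτ rp rm = 1 / DA := rfl
  have hcC : cC E mτ rp rm = KC := rfl
  set F : ℕ × ℕ → (ℝ × ℝ) → ℝ≥0∞ := fun p w =>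
    ({w : ℝ × ℝ | w.2 ≤ 2 * ε * x}).indicator (fun w =>
        ENNReal.ofReal ((1 + ω) ^ 2 * Real.exp (-(h x)) ^ 2 * Real.exp (rp * u * w.1)) *
        walkA μ ν (b * x) τ (rp * u) (rm * u) p.1 w.2 *
        walkC μ ν (b * x) τ (rp * u) (rm * u) p.2) w with hF
  have hFm : ∀ p, Measurable (F p) := by
    intro p
    apply Measurable.indicator
    · have h1 : Measurable fun w : ℝ × ℝ =>
          walkA μ ν (b * x) τ (rp * u) (rm * u) p.1 w.2 :=
        (measurable_walkA _ _ _ _ _).comp measurable_snd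
      fun_prop
    · exact measurableSet_le (by fun_prop) measurable_const
  calc ∑ p ∈ (Finset.range N ×ˢ Finset.range N).filter (fun p => p.1 + p.2 + 2 ≤ N),
        (π.prod (noise μ ν)) (mainEvent x (b * x) ε p.1 p.2)
      ≤ ∑ p ∈ (Finset.range N ×ˢ Finset.range N).filter (fun p => p.1 + p.2 + 2 ≤ N),
          ∫⁻ w, F p w ∂π := by
        apply Finset.sum_le_sum
        intro p hp'
        rw [Finset.mem_filter] at hp'
        apply MainSum_le S (by linarith) hx hεpos hε8 hε4 hτ.le ev1.le (by positivity) ev2.le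
          ev5 _ hπ
        have h1 : ((p.1 + p.2 + 2 : ℕ) : ℝ) ≤ N := by exact_mod_cast hp'.2
        push_cast at h1
        calc ((p.1 : ℝ) + p.2 + 2) * τ ≤ N * τ := by gcongr
          _ ≤ _ := hN
    _ ≤ ∑ p ∈ Finset.range N ×ˢ Finset.range N, ∫⁻ w, F p w ∂π :=
        Finset.sum_le_sum_of_subset (Finset.filter_subset _ _)
    _ = ∫⁻ w, ∑ p ∈ Finset.range N ×ˢ Finset.range N, F p w ∂π := by
        rw [lintegral_finsetSum _ fun p _ => hFm p]
    _ ≤ ∫⁻ w, ENNReal.ofReal ((1 + ω) ^ 2 * Real.exp (-(h x)) ^ 2 * ((1 + ω) / (DA * u)) *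
          ((1 + ω) / u * KC)) * ({w : ℝ × ℝ | w.2 ≤ 2 * ε * x}).indicator
        (fun w => ENNReal.ofReal (Real.exp (4 * h' x * w.2))) w ∂π := by
        apply lintegral_mono_ae
        filter_upwards [hπ.ae_ordered] with w hw
        by_cases hwx : w.2 ≤ 2 * ε * x
        · have hw2 : 0 ≤ w.2 := hw.1.trans hw.2
          have e1 : ∀ p, F p w =
              ENNReal.ofReal ((1 + ω) ^ 2 * Real.exp (-(h x)) ^ 2 * Real.exp (rp * u * w.1)) *
              (walkA μ ν (b * x) τ (rp * u) (rm * u) p.1 w.2 *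
              walkC μ ν (b * x) τ (rp * u) (rm * u) p.2) := by
            intro p
            rw [hF]
            simp only
            rw [Set.indicator_of_mem (by exact hwx), mul_assoc]
          simp only [e1]
          have e3 : ∑ p ∈ Finset.range N ×ˢ Finset.range N,
              (walkA μ ν (b * x) τ (rp * u) (rm * u) p.1 w.2 *
              walkC μ ν (b * x) τ (rp * u) (rm * u) p.2) =
              (∑ n ∈ Finset.range N, walkA μ ν (b * x) τ (rp * u) (rm * u) n w.2) *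
              ∑ n ∈ Finset.range N, walkC μ ν (b * x) τ (rp * u) (rm * u) n := by
            rw [Finset.sum_mul_sum, Finset.sum_product]
          rw [← Finset.mul_sum, e3, Set.indicator_of_mem (by exact hwx)]
          calc _ ≤ ENNReal.ofReal ((1 + ω) ^ 2 * Real.exp (-(h x)) ^ 2 *
                  Real.exp (rp * u * w.1)) *
                (ENNReal.ofReal ((1 + ω) / (DA * u) * Real.exp (rp * u * w.2)) *
                ENNReal.ofReal ((1 + ω) / u * KC)) := by
                gcongr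
                · exact hA' N w.2 hw2
                · exact hC' N
            _ = ENNReal.ofReal (((1 + ω) ^ 2 * Real.exp (-(h x)) ^ 2 * ((1 + ω) / (DA * u)) *
                  ((1 + ω) / u * KC)) * (Real.exp (rp * u * w.1) * Real.exp (rp * u * w.2))) := by
                rw [← ENNReal.ofReal_mul (by positivity), ← ENNReal.ofReal_mul (by positivity)]
                congr 1
                ring
            _ ≤ _ := by
                rw [← ENNReal.ofReal_mul (by positivity)]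
                apply ENNReal.ofReal_le_ofReal
                have e2 : Real.exp (rp * u * w.1) * Real.exp (rp * u * w.2) ≤
                    Real.exp (4 * h' x * w.2) := by
                  rw [← Real.exp_add]
                  apply Real.exp_le_exp.mpr
                  have q1 : rp * u * w.1 ≤ rp * u * w.2 := by
                    have := hw.2
                    gcongr
                  have q2 : rp * u * w.2 ≤ 2 * u * w.2 := by gcongr
                  have q3 : 4 * h' x * w.2 = 2 * (2 * u * w.2) := by rw [hh]; ring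
                  linarith
                gcongr
        · have e1 : ∀ p, F p w = 0 := by
            intro p
            rw [hF]
            simp only
            rw [Set.indicator_of_notMem (by exact hwx)]
          simp [e1]
    _ = ENNReal.ofReal ((1 + ω) ^ 2 * Real.exp (-(h x)) ^ 2 * ((1 + ω) / (DA * u)) *
          ((1 + ω) / u * KC)) * ∫⁻ w, ({w : ℝ × ℝ | w.2 ≤ 2 * ε * x}).indicator
        (fun w => ENNReal.ofReal (Real.exp (4 * h' x * w.2))) w ∂π := by
        rw [lintegral_const_mul]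
        apply Measurable.indicator
        · fun_prop
        · exact measurableSet_le (by fun_prop) measurable_const
    _ ≤ ENNReal.ofReal ((1 + ω) ^ 2 * Real.exp (-(h x)) ^ 2 * ((1 + ω) / (DA * u)) *
          ((1 + ω) / u * KC)) * ENNReal.ofReal (1 + ω) := by
        gcongr
        exact hP π hπ
    _ = _ := by
        rw [← ENNReal.ofReal_mul (by positivity), hcA, hcC, Qf, ← hh]
        congr 1
        field_simp

end Pool.Agent.Lib.MP_04add8_pr.Gen
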