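import Mathlib
import Pool.Agent.Lib.MP_04add8_pr.Gen.Defs
import Pool.Agent.Lib.MP_04add8_pr.Two.Params

open MeasureTheory ProbabilityTheory Filter Topology
open scoped ENNReal

set_option linter.unusedSectionVars false

namespace Pool.Agent.Lib.MP_04add8_pr.Gen

variable {h h' : ℝ → ℝ} {a : ℝ} {μ ν : Measure ℝ} [IsProbabilityMeasure μ]
  [IsProbabilityMeasure ν]

/-- Original: `param_exists` in `Two/Params.lean` (take `rp = (1-4ε)^(a-1) + 1/(n+1)`,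
`rm = (1+ε4)^(a-1) - 1/(n+2)` along the same sequences). -/
theorem gparam_exists (S : Std μ ν h h' a) {εe ω : ℝ} (hεe : 0 < εe) (hω : 0 < ω) :
    ∃ ε ε4 τ rp rm : ℝ, 0 < ε ∧ ε ≤ 1 / 8 ∧ ε ≤ εe ∧ 0 < ε4 ∧ 0 < τ ∧
      (1 - 4 * ε) ^ (a - 1) < rp ∧ rp ≤ 2 ∧ 0 < rm ∧ rm < (1 + ε4) ^ (a - 1) ∧
      (∫ t, min t τ ∂ν) < (∫ s, s ∂μ) ∧
      rp * (∫ s, s ∂μ) < (rp + rm) * (∫ t, min t τ ∂ν) ∧
      rp * (∫ s, s ∂μ) < 2 * rm * (∫ t, min t τ ∂ν) ∧
      cA (∫ s, s ∂μ) (∫ t, min t τ ∂ν) rp rm * cC (∫ s, s ∂μ) (∫ t, min t τ ∂ν) rp rm <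
        K2 μ ν + ω := by
  unfold K2
  have hm := S.hm
  have hgt := S.hgt
  have hlt := S.hlt
  have hν := S.hν
  have hνi := S.hνi
  set E := ∫ s, s ∂μ with hEdef
  set m := ∫ t, t ∂ν with hmdef
  have hc : 0 < 2 * m - E := by linarith
  have hE : 0 < E := hm.trans hgt
  set d := min (1 / 8) εe with hd
  have hd0 : 0 < d := lt_min (by norm_num) hεe
  have hinv : Tendsto (fun n : ℕ => (1 : ℝ) / ((n : ℝ) + 1)) atTop (𝓝 0) :=
    tendsto_one_div_add_atTop_nhds_zero_nat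
  have hmin := tendsto_integral_min hν hνi
  have hrp : Tendsto (fun n : ℕ => (1 - 4 * (d * ((1 : ℝ) / ((n : ℝ) + 1)))) ^ (a - 1) +
      (1 : ℝ) / ((n : ℝ) + 1)) atTop (𝓝 1) := by
    have h1 : Tendsto (fun n : ℕ => (1 - 4 * (d * ((1 : ℝ) / ((n : ℝ) + 1))))) atTop
        (𝓝 (1 - 4 * (d * 0))) := ((hinv.const_mul _).const_mul _).const_sub _
    have h2 := (h1.rpow_const (p := a - 1) (Or.inl (by simp))).add hinv
    simpa using h2
  have hrm : Tendsto (fun n : ℕ => (1 + ((1 : ℝ) / ((n : ℝ) + 1))) ^ (a - 1) -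
      (1 : ℝ) / ((n : ℝ) + 1)) atTop (𝓝 1) := by
    have h1 : Tendsto (fun n : ℕ => (1 + ((1 : ℝ) / ((n : ℝ) + 1)))) atTop
        (𝓝 (1 + 0)) := hinv.const_add _
    have h2 := (h1.rpow_const (p := a - 1) (Or.inl (by norm_num))).sub hinv
    simpa using h2
  set rp : ℕ → ℝ := fun n => (1 - 4 * (d * ((1 : ℝ) / ((n : ℝ) + 1)))) ^ (a - 1) +
      (1 : ℝ) / ((n : ℝ) + 1) with hrpdef
  set rm : ℕ → ℝ := fun n => (1 + ((1 : ℝ) / ((n : ℝ) + 1))) ^ (a - 1) -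
      (1 : ℝ) / ((n : ℝ) + 1) with hrmdef
  set mm : ℕ → ℝ := fun n => ∫ t, min t (n : ℝ) ∂ν with hmm
  have hDA : Tendsto (fun n => (rp n + rm n) * mm n - rp n * E) atTop (𝓝 (2 * m - E)) := by
    have := ((hrp.add hrm).mul hmin).sub (hrp.mul_const E)
    have e : (1 + 1) * m - 1 * E = 2 * m - E := by ring
    rw [e] at this
    exact this
  have hDC : Tendsto (fun n => 2 * rm n * mm n - rp n * E) atTop (𝓝 (2 * m - E)) := by
    have := ((hrm.const_mul 2).mul hmin).sub (hrp.mul_const E)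
    have e : 2 * 1 * m - 1 * E = 2 * m - E := by ring
    rw [e] at this
    exact this
  have hA : Tendsto (fun n => cA E (mm n) (rp n) (rm n)) atTop (𝓝 (1 / (2 * m - E))) := by
    unfold cA
    exact tendsto_const_nhds.div hDA hc.ne'
  have hC : Tendsto (fun n => cC E (mm n) (rp n) (rm n)) atTop
      (𝓝 (1 / (2 * m - E) + 1 * E / (2 * m - E) ^ 2)) := by
    unfold cC
    exact (tendsto_const_nhds.div hDC hc.ne').add
      ((hrp.mul_const E).div (hDC.pow 2) (pow_ne_zero 2 hc.ne'))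
  have hF : Tendsto (fun n => cA E (mm n) (rp n) (rm n) * cC E (mm n) (rp n) (rm n)) atTop
      (𝓝 (2 * m / (2 * m - E) ^ 3)) := by
    have := hA.mul hC
    have e : 1 / (2 * m - E) * (1 / (2 * m - E) + 1 * E / (2 * m - E) ^ 2) =
        2 * m / (2 * m - E) ^ 3 := by
      field_simp
      ring
    rw [e] at this
    exact this
  have hmle : ∀ n : ℕ, mm n ≤ m := by
    intro n
    apply integral_mono_ae (min_integrable hν (by positivity)) hνi
    filter_upwards with t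
    exact min_le_left _ _
  have ev1 := hF.eventually_lt_const (show 2 * m / (2 * m - E) ^ 3 <
    2 * m / (2 * m - E) ^ 3 + ω by linarith)
  have ev2 := hDA.eventually_const_lt hc
  have ev3 := hDC.eventually_const_lt hc
  have ev4 := hrp.eventually_le_const (show (1 : ℝ) < 2 by norm_num)
  have ev6 := hrm.eventually_const_lt (show (0 : ℝ) < 1 by norm_num)
  obtain ⟨n, e1, e2, e3, e4, e5, e6⟩ :=
    (ev1.and (ev2.and (ev3.and (ev4.and ((eventually_ge_atTop 1).and ev6))))).exists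
  have hn : (1 : ℝ) ≤ n := by exact_mod_cast e5
  have ht0 : 0 < (1 : ℝ) / ((n : ℝ) + 1) := by positivity
  have ht1 : (1 : ℝ) / ((n : ℝ) + 1) ≤ 1 := by
    rw [div_le_one (by positivity)]; linarith
  have hdn : d * ((1 : ℝ) / ((n : ℝ) + 1)) ≤ d := by nlinarith
  refine ⟨d * ((1 : ℝ) / ((n : ℝ) + 1)), (1 : ℝ) / ((n : ℝ) + 1), n, rp n, rm n, by positivity,
    hdn.trans (min_le_left _ _), hdn.trans (min_le_right _ _), ht0, by linarith, ?_, e4, e6, ?_,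
    (hmle n).trans_lt hgt, ?_, ?_, e1⟩
  · change (1 - 4 * (d * ((1 : ℝ) / ((n : ℝ) + 1)))) ^ (a - 1) <
      (1 - 4 * (d * ((1 : ℝ) / ((n : ℝ) + 1)))) ^ (a - 1) + (1 : ℝ) / ((n : ℝ) + 1)
    linarith
  · change (1 + ((1 : ℝ) / ((n : ℝ) + 1))) ^ (a - 1) - (1 : ℝ) / ((n : ℝ) + 1) <
      (1 + (1 : ℝ) / ((n : ℝ) + 1)) ^ (a - 1)
    linarith
  · have e2' : 0 < (rp n + rm n) * mm n - rp n * E := e2
    change rp n * E < (rp n + rm n) * mm n
    linarith
  · have e3' : 0 < 2 * rm n * mm n - rp n * E := e3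
    change rp n * E < 2 * rm n * mm n
    linarith

end Pool.Agent.Lib.MP_04add8_pr.Gen
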