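import Mathlib
import Pool.Agent.Lib.MP_04add8_pr.Gen.LawM
import Pool.Agent.Lib.MP_04add8_pr.Gen.RV
import Pool.Agent.Lib.MP_04add8_pr.Crit.SumSmall

open MeasureTheory ProbabilityTheory Filter Topology
open scoped ENNReal

set_option linter.unusedSectionVars false

namespace Pool.Agent.Lib.MP_04add8_pr.Gen

variable {h h' : ℝ → ℝ} {a : ℝ} {μ ν : Measure ℝ} [IsProbabilityMeasure μ]
  [IsProbabilityMeasure ν]

/-- Original: `Crit/SumSmall.lean`, tilt `(8 / εm) h x / x`, harmless for jobs `≤ β x` by
`Haz.tilt_ev`. -/
theorem gsum_small (S : Std μ ν h h' a) {εm : ℝ} (hεm : 0 < εm) :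
    ∃ β0 εw : ℝ, 0 < β0 ∧ 0 < εw ∧ ∀ β : ℝ, 0 < β → β ≤ β0 → ∀ᶠ x : ℝ in atTop, ∀ n : ℕ,
      (n : ℝ) ≤ εw * x →
      (noise μ ν) (allLe (β * x) n ∩ {z | εm * x < sumS z n}) ≤
        ENNReal.ofReal (Real.exp (-(3 * h x))) := by
  set M := ∫ s, s * Real.exp (h s / 4) ∂μ with hM
  have hMint : Integrable (fun s : ℝ => s * Real.exp (h s / 4)) μ := by
    have h1 := law_integrable S.haz S.law (c := 1 / 4) (by norm_num) 1
    refine h1.congr (Eventually.of_forall fun s => ?_)
    simp only
    rw [pow_one]
    congr 2
    ring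
  have hM0 : 0 ≤ M := by
    refine integral_nonneg_of_ae ?_
    filter_upwards [S.law.nn] with s hs
    simp only [Pi.zero_apply]
    positivity
  set H := 8 / εm with hH
  have hH0 : 0 < H := by positivity
  obtain ⟨β0, hβ0, htilt⟩ := S.haz.tilt_ev H
  refine ⟨β0, εm / (2 * (M + 1)), hβ0, by positivity, ?_⟩
  intro β hβ hββ
  filter_upwards [htilt β hβ hββ, S.haz.tendsto_h.eventually_gt_atTop 0, eventually_gt_atTop 0]
    with x hti hhx hx n hn
  set θ := H * (h x / x) with hθ
  have hθ0 : 0 < θ := by positivity
  have hsmall : ∀ s : ℝ, 0 ≤ s → s ≤ β * x → θ * s ≤ h s / 4 := fun s hs hsx => hti s hs hsx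
  set g : ℝ → ℝ≥0∞ := (Set.Iic (β * x)).indicator
    (fun s => ENNReal.ofReal (Real.exp (θ * s))) with hg
  have hgm : Measurable g := by
    rw [hg]
    exact Measurable.indicator (by fun_prop) measurableSet_Iic
  have hgint : ∫⁻ s, g s ∂μ ≤ ENNReal.ofReal (Real.exp (θ * M)) := by
    have h1 : ∀ᵐ s ∂μ, g s ≤ ENNReal.ofReal (1 + θ * (s * Real.exp (h s / 4))) := by
      filter_upwards [S.law.nn] with s hs
      by_cases hsx : s ∈ Set.Iic (β * x)
      · rw [hg, Set.indicator_of_mem hsx]
        apply ENNReal.ofReal_le_ofReal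
        have h2 := hsmall s hs hsx
        have h3 := exp_le_one_add_mul_exp (θ * s)
        calc Real.exp (θ * s) ≤ 1 + θ * s * Real.exp (θ * s) := h3
          _ ≤ 1 + θ * s * Real.exp (h s / 4) := by gcongr
          _ = _ := by ring
      · rw [hg, Set.indicator_of_notMem hsx]
        exact zero_le
    refine (lintegral_mono_ae h1).trans ?_
    have hint : Integrable (fun s : ℝ => 1 + θ * (s * Real.exp (h s / 4))) μ :=
      (integrable_const _).add (hMint.const_mul θ)
    rw [← ofReal_integral_eq_lintegral_ofReal hint (by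
      filter_upwards [S.law.nn] with s hs
      simp only [Pi.zero_apply]
      positivity)]
    apply ENNReal.ofReal_le_ofReal
    rw [integral_add (integrable_const _) (hMint.const_mul θ), integral_const_mul, ← hM]
    simp only [integral_const, probReal_univ, smul_eq_mul, mul_one]
    have := Real.add_one_le_exp (θ * M)
    linarith
  have hset : MeasurableSet (allLe (β * x) n ∩ {z | εm * x < sumS z n}) :=
    (measurableSet_allLe _ _).inter (measurableSet_lt measurable_const (measurable_sumS n))
  have hprod := cm_prod (μ := μ) (ν := ν) hgm n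
  have hmain : (noise μ ν) (allLe (β * x) n ∩ {z | εm * x < sumS z n}) ≤
      ∫⁻ z, ENNReal.ofReal (Real.exp (-(θ * (εm * x)))) *
        ∏ k ∈ Finset.range n, g (z k).1 ∂(noise μ ν) := by
    rw [← lintegral_indicator_one hset]
    apply lintegral_mono
    intro z
    by_cases hz : z ∈ allLe (β * x) n ∩ {z | εm * x < sumS z n}
    · simp only
      rw [Set.indicator_of_mem hz, Pi.one_apply]
      have h1 : ∏ k ∈ Finset.range n, g (z k).1 = ENNReal.ofReal (Real.exp (θ * sumS z n)) := by
        have h2 : ∀ k ∈ Finset.range n, g (z k).1 =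
            ENNReal.ofReal (Real.exp (θ * (z k).1)) := by
          intro k hk
          rw [hg, Set.indicator_of_mem]
          exact hz.1 k (Finset.mem_range.1 hk)
        rw [Finset.prod_congr rfl h2, ← ENNReal.ofReal_prod_of_nonneg
          (fun k _ => (Real.exp_pos _).le), ← Real.exp_sum]
        unfold sumS
        rw [Finset.mul_sum]
      rw [h1, ← ENNReal.ofReal_mul (by positivity), ← Real.exp_add, ENNReal.one_le_ofReal,
        Real.one_le_exp_iff]
      have h3 : εm * x < sumS z n := hz.2
      have h4 : θ * (εm * x) ≤ θ * sumS z n := by gcongr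
      linarith
    · simp only
      rw [Set.indicator_of_notMem hz]
      exact zero_le
  refine hmain.trans ?_
  have hpm : Measurable fun z : ℕ → ℝ × ℝ => ∏ k ∈ Finset.range n, g (z k).1 := by
    apply Finset.measurable_prod
    intro k _
    exact hgm.comp (measurable_fst.comp (measurable_pi_apply k))
  rw [lintegral_const_mul _ hpm, hprod]
  calc ENNReal.ofReal (Real.exp (-(θ * (εm * x)))) * (∫⁻ s, g s ∂μ) ^ n
      ≤ ENNReal.ofReal (Real.exp (-(θ * (εm * x)))) *
        (ENNReal.ofReal (Real.exp (θ * M))) ^ n := by gcongr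
    _ = ENNReal.ofReal (Real.exp (-(θ * (εm * x)) + n * (θ * M))) := by
        rw [← ENNReal.ofReal_pow (by positivity), ← Real.exp_nat_mul,
          ← ENNReal.ofReal_mul (by positivity), ← Real.exp_add]
    _ ≤ _ := by
        apply ENNReal.ofReal_le_ofReal
        apply Real.exp_le_exp.mpr
        have e1 : θ * (εm * x) = 8 * h x := by
          rw [hθ, hH]
          field_simp
        have h2 : (n : ℝ) * (θ * M) ≤ 4 * h x := by
          calc (n : ℝ) * (θ * M) ≤ (εm / (2 * (M + 1)) * x) * (θ * M) := by
                refine mul_le_mul_of_nonneg_right hn (by positivity)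
            _ = (M / (M + 1)) * (θ * (εm * x)) / 2 := by
                field_simp
            _ ≤ 1 * (θ * (εm * x)) / 2 := by
                have h3 : M / (M + 1) ≤ 1 := by
                  rw [div_le_one (by positivity)]
                  linarith
                gcongr
            _ = 4 * h x := by
                rw [e1]
                ring
        rw [e1]
        linarith

end Pool.Agent.Lib.MP_04add8_pr.Gen
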