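import Mathlib
import Pool.Agent.Lib.MP_04add8_pr.Gen.MainAll
import Pool.Agent.Lib.MP_04add8_pr.Gen.SumSmall
import Pool.Agent.Lib.MP_04add8_pr.Gen.CritBackB
import Pool.Agent.Lib.MP_04add8_pr.Gen.Err
import Pool.Agent.Lib.MP_04add8_pr.Gen.LawM
import Pool.Agent.Lib.MP_04add8_pr.Crit.Indep
import Pool.Agent.Lib.MP_04add8_pr.Crit.CritNice

open MeasureTheory ProbabilityTheory Filter Topology
open scoped ENNReal

set_option linter.unusedSectionVars false

namespace Pool.Agent.Lib.MP_04add8_pr.Gen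

variable {h h' : ℝ → ℝ} {a : ℝ} {μ ν : Measure ℝ} [IsProbabilityMeasure μ]
  [IsProbabilityMeasure ν]

/-- **The nice event**. Original: `crit_nice` in `Crit/CritNice.lean` (`nice_cover`,
`nice_preimage`, `nice_reindex`, `niceEvent`, `niceBad`, `niceSum`, `indep_next` are reused);
`μ (Ici ((1-ε) x)) ≤ C exp (-(1-ε) h x)` by `law_Ici` and concavity; errors by `gerr_two`. -/
theorem gcrit_nice (S : Std μ ν h h' a) {b0 : ℝ} (hb0 : 0 < b0)
    (hb0m : ((∫ s, s ∂μ) - ∫ t, t ∂ν) / (∫ t, t ∂ν) ≤ b0) (hcrit : (1 + 1 / b0) ^ a = 2)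
    {ω : ℝ} (hω : 0 < ω) :
    ∃ ε β0 : ℝ, 0 < ε ∧ ε ≤ 1 / 2 ∧ 0 < β0 ∧ ∀ β : ℝ, 0 < β → β ≤ β0 →
      ∀ᶠ x : ℝ in atTop, ∀ π : Measure (ℝ × ℝ), IsStationaryKW μ ν π → ∀ M : ℕ,
        (M : ℝ) ≤ ε * x + 1 →
        ∑ n ∈ Finset.range M, (π.prod (noise μ ν)) (oneBig x (β * x) (β * x) n ∩
          {q | q.1.1 ≤ ε * x ∧ (1 - ε) * x ≤ q.1.2 ∧ (1 - ε) * x ≤ (q.2 0).1}) ≤
        ENNReal.ofReal ((K2 μ ν + ω) * (Qf h h' x) ^ 2) := by
  have H := S.haz
  have ha0 := H.a0
  obtain ⟨C, hC0, hC⟩ := S.law.up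
  have hK0 : 0 < K2 μ ν := by
    have h1 := S.hm
    have h2 := S.hlt
    have h3 : 0 < 2 * (∫ t, t ∂ν) - ∫ s, s ∂μ := by linarith
    unfold K2
    positivity
  obtain ⟨εm, ε4, τ, be, hεm0, hεm8, hε4, hτ, hbe, hmainall⟩ :=
    gmain_all S (ω := ω / 2) (by positivity)
  obtain ⟨βs, εw0, hβs, hεw0, hsum⟩ := gsum_small S hεm0
  set εw := min εw0 (ε4 / (4 * τ)) with hεw
  have hεw1 : 0 < εw := lt_min hεw0 (by positivity)
  obtain ⟨βb, hβb, hback⟩ := gcrit_back S hb0 hb0m hcrit hεm0 hεm8 hεw1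
  set b : ℝ := min (min βb βs) (min (1 / 4) be) with hb
  have hb0' : 0 < b := lt_min (lt_min hβb hβs) (lt_min (by norm_num) hbe)
  have hbb : b ≤ βb := (min_le_left _ _).trans (min_le_left _ _)
  have hbs : b ≤ βs := (min_le_left _ _).trans (min_le_right _ _)
  have hb14 : b ≤ 1 / 4 := (min_le_right _ _).trans (min_le_left _ _)
  have hbbe : b ≤ be := (min_le_right _ _).trans (min_le_right _ _)
  obtain ⟨εs, c, hεs, hc, hbad⟩ := hback b hb0' hbb
  set ε := min (min εs (εw / 2)) (min (1 / 4) (c / 4)) with hε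
  have hε0 : 0 < ε := lt_min (lt_min hεs (by positivity)) (lt_min (by norm_num) (by positivity))
  have hεεs : ε ≤ εs := (min_le_left _ _).trans (min_le_left _ _)
  have hεεw : ε ≤ εw / 2 := (min_le_left _ _).trans (min_le_right _ _)
  have hε14 : ε ≤ 1 / 4 := (min_le_right _ _).trans (min_le_left _ _)
  have hεc : ε ≤ c / 4 := (min_le_right _ _).trans (min_le_right _ _)
  refine ⟨ε, b, hε0, by linarith, hb0', ?_⟩
  intro β hβ0 hβb'
  have hω6 : 0 < ω / 6 := by positivity
  have err1 := gerr_two H (show 0 < c / 2 by positivity) hω6 C 1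
  have err2 := gerr_two H (show (0 : ℝ) < 1 by norm_num) hω6 (εw + 1) 2
  have hmain := hmainall b hb0' hbbe
  filter_upwards [hmain, hbad, hsum b hb0' hbs, err1, err2, eventually_ge_atTop 2,
    eventually_ge_atTop (2 / εw), eventually_ge_atTop (4 * τ / ε4)]
    with x hmain hbad hsum err1 err2 hx2 hxw hxτ
  intro π hπ M hM
  have hp : IsProbabilityMeasure π := hπ.1
  have hx0 : 0 < x := by linarith
  have hxw' : 2 ≤ εw * x := by
    rw [div_le_iff₀ hεw1] at hxw
    linarith
  have hxτ' : 4 * τ ≤ ε4 * x := by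
    rw [div_le_iff₀ hε4] at hxτ
    linarith
  have hxa : 0 ≤ h x := H.nonneg x
  set n0 := ⌊εw * x⌋₊ with hn0
  have hn0u : (n0 : ℝ) ≤ εw * x := Nat.floor_le (by positivity)
  have hMw : (M : ℝ) ≤ εw * x := by
    have : ε * x ≤ εw / 2 * x := by gcongr
    linarith
  have hMx : (M : ℝ) ≤ x := by
    have : ε * x ≤ 1 / 4 * x := by gcongr
    linarith
  set P := π.prod (noise μ ν) with hP
  set e3 : ℝ≥0∞ := ENNReal.ofReal (Real.exp (-(3 * h x))) with he3
  set e1 : ℝ≥0∞ := ENNReal.ofReal (C * Real.exp (-((2 + c / 2) * h x))) with he1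
  have hss : ∀ n : ℕ, (n : ℝ) ≤ εw * x → ∀ k, P (pathShift k ⁻¹' (Prod.snd ⁻¹'
      niceSum x b εm n)) ≤ e3 := by
    intro n hn k
    rw [hP, nice_preimage hπ k (measurableSet_niceSum _ _ _ _)]
    refine hsum n (hn.trans ?_)
    have : εw ≤ εw0 := min_le_left _ _
    gcongr
  have hA : P (niceBad x b εs εm n0 ∩ {q | (1 - ε) * x ≤ (q.2 n0).1}) ≤ e1 := by
    have h3 := indep_next (μ := μ) (ν := ν) (π := π) (n := n0)
      (measurableSet_niceBad x b εs εm n0) (by
        intro w z z' hzz hw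
        obtain ⟨hw1, hw2, hw3⟩ := hw
        have e0 : ∀ k ≤ n0, pIter w z k = pIter w z' k := fun k hk =>
          pIter_congr w fun j hj => hzz j (lt_of_lt_of_le hj hk)
        refine ⟨?_, ?_, ?_⟩
        · show (pIter w z' n0).1 ≤ εs * x
          rw [← e0 n0 le_rfl]
          exact hw1
        · show (1 - εs) * x ≤ (pIter w z' n0).2
          rw [← e0 n0 le_rfl]
          exact hw2
        · rintro ⟨k, hk, hk1, hk2, hk3⟩
          apply hw3
          refine ⟨k, hk, ?_, ?_, ?_⟩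
          · show (pIter w z k).2 ≤ 2 * εm * x
            rw [e0 k hk.le]
            exact hk1
          · show b * x < (z k).1
            rw [hzz k hk]
            exact hk2
          · intro j hj1 hj2
            show (z j).1 ≤ b * x
            rw [hzz j hj2]
            exact hk3 j hj1 hj2) ((1 - ε) * x)
    refine h3.trans ?_
    have h4 : P (niceBad x b εs εm n0) ≤ ENNReal.ofReal (Real.exp (-((1 + c) * h x))) :=
      hbad π hπ
    have h5 : μ (Set.Ici ((1 - ε) * x)) ≤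
        ENNReal.ofReal (C * Real.exp (-((1 - c / 2) * h x))) := by
      refine (law_Ici H hC hC0 _).trans (ENNReal.ofReal_le_ofReal ?_)
      have h6 := H.mul_le (x := (1 - ε) * x) (y := x) (mul_pos (by linarith) hx0) (by
        have : 0 < ε * x := by positivity
        linarith)
      have h7 : (1 - ε) * h x ≤ h ((1 - ε) * x) := by
        have h8 : x * ((1 - ε) * h x) ≤ x * h ((1 - ε) * x) := by linarith
        exact le_of_mul_le_mul_left h8 hx0
      have h9 : (1 - c / 2) * h x ≤ (1 - ε) * h x := by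
        apply mul_le_mul_of_nonneg_right _ hxa
        linarith
      apply mul_le_mul_of_nonneg_left _ hC0
      apply Real.exp_le_exp.mpr
      linarith
    calc P (niceBad x b εs εm n0) * μ (Set.Ici ((1 - ε) * x))
        ≤ ENNReal.ofReal (Real.exp (-((1 + c) * h x))) *
          ENNReal.ofReal (C * Real.exp (-((1 - c / 2) * h x))) := by gcongr
      _ = e1 := by
        rw [he1, ← ENNReal.ofReal_mul (Real.exp_nonneg _)]
        congr 1
        rw [mul_left_comm, ← Real.exp_add]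
        congr 2
        ring
  have hterm : ∀ n ∈ Finset.range M, P (niceEvent x β ε n) ≤
      (e1 + n0 * e3 + e3) + ∑ k ∈ Finset.range n0,
        P (pathShift k ⁻¹' mainEvent x (b * x) εm (n0 - 1 - k) n) := by
    intro n hn
    rw [Finset.mem_range] at hn
    have hnM : (n : ℝ) ≤ M := by exact_mod_cast hn.le
    have h3 : P (niceEvent x β ε n) = P (pathShift n0 ⁻¹' niceEvent x β ε n) :=
      ((hπ.measurePreserving_path n0).measure_preimage
        (measurableSet_niceEvent x β ε n).nullMeasurableSet).symm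
    rw [h3]
    refine (measure_mono (nice_cover (εm := εm) hx0 hβb' hεεs hε14 hb14 n0 n)).trans ?_
    refine (measure_union_le _ _).trans ?_
    refine (add_le_add (measure_union_le _ _) (measure_union_le _ _)).trans ?_
    have h4 : P (⋃ k ∈ Finset.range n0, pathShift (k + 1) ⁻¹'
        (Prod.snd ⁻¹' niceSum x b εm (n0 - 1 - k))) ≤ n0 * e3 := by
      refine (measure_biUnion_finset_le _ _).trans ?_
      calc ∑ k ∈ Finset.range n0, P (pathShift (k + 1) ⁻¹'
            (Prod.snd ⁻¹' niceSum x b εm (n0 - 1 - k)))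
          ≤ ∑ _k ∈ Finset.range n0, e3 := by
            apply Finset.sum_le_sum
            intro k hk
            apply hss
            refine le_trans ?_ hn0u
            exact_mod_cast (by omega : n0 - 1 - k ≤ n0)
        _ = n0 * e3 := by rw [Finset.sum_const, Finset.card_range, nsmul_eq_mul]
    have h5 : P (pathShift (n0 + 1) ⁻¹' (Prod.snd ⁻¹' niceSum x b εm n)) ≤ e3 :=
      hss n (hnM.trans hMw) _
    have h6 : P (⋃ k ∈ Finset.range n0, pathShift k ⁻¹' mainEvent x (b * x) εm (n0 - 1 - k) n) ≤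
        ∑ k ∈ Finset.range n0, P (pathShift k ⁻¹' mainEvent x (b * x) εm (n0 - 1 - k) n) :=
      measure_biUnion_finset_le _ _
    calc _ ≤ (e1 + n0 * e3) + (e3 + ∑ k ∈ Finset.range n0,
          P (pathShift k ⁻¹' mainEvent x (b * x) εm (n0 - 1 - k) n)) :=
          add_le_add (add_le_add hA h4) (add_le_add h5 h6)
      _ = _ := by ring
  set Q := Qf h h' x with hQ
  have hQ0 : 0 < Q := by
    rw [hQ]
    unfold Qf
    have := H.pos x hx0
    positivity
  have t4 := hmain π hπ (n0 + M) (by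
    push_cast
    have h3 : ε * x ≤ εw / 2 * x := by gcongr
    have h4 : εw * τ ≤ ε4 / 4 := by
      have h5 : εw ≤ ε4 / (4 * τ) := min_le_right _ _
      rw [le_div_iff₀ (by positivity)] at h5
      linarith
    have h6 : ((n0 : ℝ) + M) * τ ≤ (εw * x + (εw / 2 * x + 1)) * τ := by
      gcongr
      linarith
    have h7 : (εw * τ) * x ≤ ε4 / 4 * x := by gcongr
    nlinarith)
  have t5 : (M : ℝ≥0∞) * (e1 + n0 * e3 + e3) ≤
      ENNReal.ofReal (ω / 6 * Q ^ 2) + ENNReal.ofReal (ω / 6 * Q ^ 2) := by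
    have h3 : (M : ℝ≥0∞) * (e1 + n0 * e3 + e3) =
        (M : ℝ≥0∞) * e1 + (M : ℝ≥0∞) * ((n0 : ℝ≥0∞) + 1) * e3 := by ring
    rw [h3]
    apply add_le_add
    · rw [he1, ← ENNReal.ofReal_natCast, ← ENNReal.ofReal_mul (by positivity)]
      apply ENNReal.ofReal_le_ofReal
      refine le_trans ?_ err1
      rw [Real.rpow_one, mul_left_comm, ← mul_assoc C]
      gcongr
    · have h4 : (M : ℝ≥0∞) * ((n0 : ℝ≥0∞) + 1) = ENNReal.ofReal ((M : ℝ) * ((n0 : ℝ) + 1)) := by
        rw [ENNReal.ofReal_mul (by positivity), ENNReal.ofReal_add (by positivity) (by norm_num),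
          ENNReal.ofReal_natCast, ENNReal.ofReal_natCast, ENNReal.ofReal_one]
      rw [h4, he3, ← ENNReal.ofReal_mul (by positivity)]
      apply ENNReal.ofReal_le_ofReal
      refine le_trans ?_ err2
      have h5 : (M : ℝ) * ((n0 : ℝ) + 1) ≤ (εw + 1) * x ^ (2 : ℝ) := by
        rw [Real.rpow_two]
        calc (M : ℝ) * ((n0 : ℝ) + 1) ≤ x * (εw * x + 1) := by gcongr
          _ ≤ (εw + 1) * x ^ 2 := by nlinarith
      have h6 : (3 : ℝ) = 2 + 1 := by norm_num
      rw [h6]
      gcongr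
  calc ∑ n ∈ Finset.range M, P (niceEvent x β ε n)
      ≤ ∑ n ∈ Finset.range M, ((e1 + n0 * e3 + e3) + ∑ k ∈ Finset.range n0,
        P (pathShift k ⁻¹' mainEvent x (b * x) εm (n0 - 1 - k) n)) := Finset.sum_le_sum hterm
    _ = (M : ℝ≥0∞) * (e1 + n0 * e3 + e3) + ∑ n ∈ Finset.range M, ∑ k ∈ Finset.range n0,
        P (pathShift k ⁻¹' mainEvent x (b * x) εm (n0 - 1 - k) n) := by
        rw [Finset.sum_add_distrib, Finset.sum_const, Finset.card_range, nsmul_eq_mul]
    _ ≤ (ENNReal.ofReal (ω / 6 * Q ^ 2) + ENNReal.ofReal (ω / 6 * Q ^ 2)) +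
        ENNReal.ofReal ((K2 μ ν + ω / 2) * Q ^ 2) := by
        refine add_le_add t5 ((nice_reindex hπ x b εm n0 M).trans (t4.trans ?_))
        apply ENNReal.ofReal_le_ofReal
        gcongr
    _ ≤ ENNReal.ofReal ((K2 μ ν + ω) * Q ^ 2) := by
        rw [← ENNReal.ofReal_add (by positivity) (by positivity),
          ← ENNReal.ofReal_add (by positivity) (by positivity)]
        apply ENNReal.ofReal_le_ofReal
        have : 0 < ω * Q ^ 2 := by positivity
        nlinarith

end Pool.Agent.Lib.MP_04add8_pr.Gen
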