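import Mathlib
import Pool.Agent.Lib.MP_04add8_pr.Gen.RV

open MeasureTheory ProbabilityTheory Filter Topology
open scoped ENNReal

set_option linter.unusedSectionVars false

namespace Pool.Agent.Lib.MP_04add8_pr.Gen

variable {h h' : ℝ → ℝ} {a : ℝ} {μ ν : Measure ℝ} [IsProbabilityMeasure μ]
  [IsProbabilityMeasure ν]

/-- the truncation level `t / θ` with `θ ≤ 2 h' (η x)` is still so large that
`x exp (-h (t/θ) / 2) → 0`: `h' (η x) ≤ (η x)^(-(1-a)/2)` by `Haz.potter`, and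
`h y ≥ M log y` with `M = 8 / (1-a)` by `Haz.log_le`. -/
theorem glow_trunc (H : Haz h h' a) {η t C : ℝ} (hη : 0 < η) (ht : 0 < t) {ω : ℝ} (hω : 0 < ω) :
    ∀ᶠ x : ℝ in atTop, ∀ θ : ℝ, 0 < θ → θ ≤ 2 * h' (η * x) →
      C * x * Real.exp (-(h (t / θ) / 2)) ≤ ω := by
  have ha1 := H.a1
  set e : ℝ := (1 - a) / 2 with he
  have he0 : 0 < e := by rw [he]; linarith
  have hηx : Tendsto (fun x : ℝ => η * x) atTop atTop := tendsto_id.const_mul_atTop hη
  set g : ℝ → ℝ := fun x => t / 2 * (η * x) ^ e with hg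
  have hgt : Tendsto g atTop atTop :=
    ((tendsto_rpow_atTop he0).comp hηx).const_mul_atTop (by positivity)
  have hlim := ((H.rpow_exp (1 / e) (c := 1 / 2) (by norm_num)).comp hgt).const_mul
    (|C| / ((t / 2) ^ (1 / e) * η))
  rw [mul_zero] at hlim
  filter_upwards [hηx.eventually (H.potter he0), hlim.eventually_le_const hω,
    eventually_gt_atTop 0] with x hpot hfin hx θ hθ0 hθ
  have hyp : 0 < η * x := mul_pos hη hx
  have hy : (0 : ℝ) < (η * x) ^ e := Real.rpow_pos_of_pos hyp _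
  have hgx : 0 < g x := by
    rw [hg]
    positivity
  have h1 : h' (η * x) ≤ ((η * x) ^ e)⁻¹ := by
    rw [← Real.rpow_neg hyp.le]
    refine hpot.trans (le_of_eq ?_)
    congr 1
    rw [he]
    ring
  have h2 : g x ≤ t / θ := by
    rw [le_div_iff₀ hθ0]
    have h3 : θ ≤ 2 * ((η * x) ^ e)⁻¹ := by linarith
    calc g x * θ ≤ g x * (2 * ((η * x) ^ e)⁻¹) := mul_le_mul_of_nonneg_left h3 hgx.le
      _ = t := by
        rw [hg]
        field_simp
  have h4 : h (g x) ≤ h (t / θ) := H.mono h2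
  have h5 : Real.exp (-(h (t / θ) / 2)) ≤ Real.exp (-(1 / 2 * h (g x))) := by
    apply Real.exp_le_exp.2
    linarith
  have h6 : (g x) ^ (1 / e) = (t / 2) ^ (1 / e) * (η * x) := by
    rw [hg]
    simp only
    rw [Real.mul_rpow (by positivity) hy.le, ← Real.rpow_mul hyp.le, mul_one_div_cancel he0.ne',
      Real.rpow_one]
  have ht2 : 0 < (t / 2) ^ (1 / e) := Real.rpow_pos_of_pos (by positivity) _
  calc C * x * Real.exp (-(h (t / θ) / 2)) ≤ |C| * x * Real.exp (-(h (t / θ) / 2)) := by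
        have := le_abs_self C
        gcongr
    _ ≤ |C| * x * Real.exp (-(1 / 2 * h (g x))) := by
        have := abs_nonneg C
        gcongr
    _ = |C| / ((t / 2) ^ (1 / e) * η) * ((g x) ^ (1 / e) * Real.exp (-(1 / 2 * h (g x)))) := by
        rw [h6]
        field_simp
    _ ≤ ω := hfin

/-- the Taylor remainder over `C x` steps: `Haz.mul_pow`. -/
theorem glow_pow (H : Haz h h' a) {K : ℕ} (hK : 1 < (K + 1) * (1 - a)) {η C C1 c : ℝ}
    (hη : 0 < η) {ω : ℝ} (hω : 0 < ω) :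
    ∀ᶠ x : ℝ in atTop, Real.exp (C * x * (C1 * (c * h' (η * x)) ^ (K + 1))) ≤ 1 + ω := by
  have h1 := (H.mul_pow hK hη).const_mul (C * C1 * c ^ (K + 1))
  rw [mul_zero] at h1
  have h2 := (Real.continuous_exp.tendsto 0).comp h1
  rw [Real.exp_zero] at h2
  filter_upwards [h2.eventually_le_const (show (1 : ℝ) < 1 + ω by linarith)] with x hx
  refine le_trans (le_of_eq ?_) hx
  simp only [Function.comp]
  congr 1
  rw [mul_pow]
  ring

/-- `x h' (η x) → ∞` and `h' (η x) → 0` -/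
theorem glow_xh (H : Haz h h' a) {η : ℝ} (hη : 0 < η) (M : ℝ) {Z : ℝ} (hZ : 0 < Z) :
    ∀ᶠ x : ℝ in atTop, M ≤ x * h' (η * x) ∧ 2 * h' (η * x) < Z := by
  have hηx : Tendsto (fun x : ℝ => η * x) atTop atTop := tendsto_id.const_mul_atTop hη
  filter_upwards [(H.big.comp hηx).eventually_ge_atTop (η * M),
    (H.tendsto_deriv.comp hηx).eventually_lt_const (show (0 : ℝ) < Z / 2 by linarith)]
    with x h1 h2
  simp only [Function.comp] at h1 h2
  refine ⟨?_, by linarith⟩
  have h3 : η * M ≤ η * (x * h' (η * x)) := by linarith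
  exact le_of_mul_le_mul_left h3 hη

end Pool.Agent.Lib.MP_04add8_pr.Gen
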