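import Mathlib
import Pool.Agent.Lib.MP_04add8_pr.Gen.LawM
import Pool.Agent.Lib.MP_04add8_pr.One.Phi

open MeasureTheory ProbabilityTheory Filter Topology
open scoped ENNReal

set_option linter.unusedSectionVars false

namespace Pool.Agent.Lib.MP_04add8_pr.Gen

variable {h h' : ℝ → ℝ} {a : ℝ} {μ ν : Measure ℝ} [IsProbabilityMeasure μ]
  [IsProbabilityMeasure ν]

/-- the moment polynomial as an integral -/
lemma phiA_momPoly (H : Haz h h' a) (L : Law μ h) (K : ℕ) (β : ℝ) :
    Integrable (fun s : ℝ => ∑ j ∈ Finset.range (K + 1), (β * s) ^ j / (j.factorial : ℝ)) μ ∧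
      ∫ s, (∑ j ∈ Finset.range (K + 1), (β * s) ^ j / (j.factorial : ℝ)) ∂μ = momPoly μ K β := by
  have hi : ∀ j ∈ Finset.range (K + 1),
      Integrable (fun s : ℝ => (β * s) ^ j / (j.factorial : ℝ)) μ := by
    intro j _
    have h := (law_integrable_pow H L j).const_mul (β ^ j / (j.factorial : ℝ))
    refine h.congr (Eventually.of_forall fun s => ?_)
    simp only
    rw [mul_pow]; ring
  refine ⟨integrable_finsetSum _ hi, ?_⟩
  rw [integral_finsetSum _ hi, momPoly]
  refine Finset.sum_congr rfl fun j _ => ?_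
  rw [mul_div_assoc, ← integral_mul_const]
  refine integral_congr_ae (Eventually.of_forall fun s => ?_)
  simp only
  rw [mul_pow]; ring

/-- Original: `phi_upper` in `One/Phi.lean` (`phi_factor`, `phi_lap`, `phi_exp_le`, `trPhi_mono`,
`lvlA_mono` are reused). -/
theorem gphi_upper (S : Std μ ν h h' a) (K : ℕ) :
    ∃ C : ℝ, 0 ≤ C ∧ ∀ B β θ : ℝ, 0 ≤ β → 0 ≤ θ → Tilt h β B →
      trPhi μ ν B β θ ≤
        ENNReal.ofReal (momPoly μ K β * lap ν (β + θ) + C * β ^ (K + 1)) := by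
  have H := S.haz
  have L := S.law
  have hν := S.hν
  have hpos := L.nn
  have hi : Integrable (fun s : ℝ => s ^ (K + 1) * Real.exp (1 / 4 * h s)) μ :=
    law_integrable H L (by norm_num) (K + 1)
  have hC0 : ∀ᵐ s ∂μ, 0 ≤ s ^ (K + 1) * Real.exp (1 / 4 * h s) := by
    filter_upwards [hpos] with s hs
    positivity
  refine ⟨∫ s, s ^ (K + 1) * Real.exp (1 / 4 * h s) ∂μ, integral_nonneg_of_ae hC0, ?_⟩
  intro B β θ hβ hθ hT
  set C := ∫ s, s ^ (K + 1) * Real.exp (1 / 4 * h s) ∂μ with hC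
  have hC' : 0 ≤ C := integral_nonneg_of_ae hC0
  have hl := phi_lap hν (add_nonneg hβ hθ)
  have hm := phiA_momPoly H L K β
  have hle : ∀ᵐ s ∂μ, (Set.Iic B).indicator (fun _ => (1 : ℝ≥0∞)) s *
      ENNReal.ofReal (Real.exp (β * s)) ≤
      ENNReal.ofReal (∑ j ∈ Finset.range (K + 1), (β * s) ^ j / (j.factorial : ℝ) +
        β ^ (K + 1) * (s ^ (K + 1) * Real.exp (1 / 4 * h s))) := by
    filter_upwards [hpos] with s hs
    by_cases hsx : s ∈ Set.Iic B
    · rw [Set.indicator_of_mem hsx, one_mul]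
      apply ENNReal.ofReal_le_ofReal
      have h3 : β * s ≤ 1 / 4 * h s := by
        have := hT s hs hsx
        linarith
      have h8 := phi_exp_le (mul_nonneg hβ hs) K
      calc Real.exp (β * s) ≤ _ := h8
        _ ≤ ∑ j ∈ Finset.range (K + 1), (β * s) ^ j / (j.factorial : ℝ) +
            (β * s) ^ (K + 1) * Real.exp (1 / 4 * h s) := by gcongr
        _ = _ := by rw [mul_pow]; ring
    · rw [Set.indicator_of_notMem hsx, zero_mul]
      exact zero_le
  have hnn : ∀ᵐ s ∂μ, 0 ≤ ∑ j ∈ Finset.range (K + 1), (β * s) ^ j / (j.factorial : ℝ) +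
        β ^ (K + 1) * (s ^ (K + 1) * Real.exp (1 / 4 * h s)) := by
    filter_upwards [hpos] with s hs
    positivity
  have hint : ∫⁻ s, (Set.Iic B).indicator (fun _ => (1 : ℝ≥0∞)) s *
      ENNReal.ofReal (Real.exp (β * s)) ∂μ ≤
      ENNReal.ofReal (momPoly μ K β + β ^ (K + 1) * C) := by
    refine (lintegral_mono_ae hle).trans ?_
    have h10 := ofReal_integral_eq_lintegral_ofReal (f := fun s : ℝ =>
      ∑ j ∈ Finset.range (K + 1), (β * s) ^ j / (j.factorial : ℝ) +
        β ^ (K + 1) * (s ^ (K + 1) * Real.exp (1 / 4 * h s))) (hm.1.add (hi.const_mul _)) hnn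
    rw [← h10]
    apply ENNReal.ofReal_le_ofReal
    rw [integral_add hm.1 (hi.const_mul _), hm.2, integral_const_mul]
  rw [phi_factor hν hβ hθ]
  refine (mul_le_mul_left hint _).trans ?_
  rw [← ENNReal.ofReal_mul' hl.2.1]
  apply ENNReal.ofReal_le_ofReal
  have h9 : 0 ≤ β ^ (K + 1) * C := by positivity
  nlinarith [mul_le_mul_of_nonneg_left hl.2.2 h9]

end Pool.Agent.Lib.MP_04add8_pr.Gen
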