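import Mathlib
import Pool.Agent.Lib.MP_04add8_pr.Gen.WalkA
import Pool.Agent.Lib.MP_04add8_pr.One.QU

open MeasureTheory ProbabilityTheory Filter Topology
open scoped ENNReal

set_option linter.unusedSectionVars false

namespace Pool.Agent.Lib.MP_04add8_pr.Gen

variable {h h' : ℝ → ℝ} {a : ℝ} {μ ν : Measure ℝ} [IsProbabilityMeasure μ]
  [IsProbabilityMeasure ν]

/-- Original: `qsum_upper` in `One/QU.lean`. `lvlA ≤ walkA` with `θp = θm = θ` (`qu_lvlA_le`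
with `κ = 0`), `τ` with `∫ min t τ` close to `m`, `gwalkA_sum` with `rp = rm = 1`, `r = 0`. -/
theorem gqsum_upper (S : Std μ ν h h' a) {ω : ℝ} (hω : 0 < ω) :
    ∃ θ0 : ℝ, 0 < θ0 ∧ ∀ θ : ℝ, 0 < θ → θ ≤ θ0 → ∀ B : ℝ, Tilt h θ B → ∀ N : ℕ,
      ∑ n ∈ Finset.range N, lvlA μ ν B θ n ≤
        ENNReal.ofReal ((1 + ω) / ((2 * (∫ t, t ∂ν) - ∫ s, s ∂μ) * θ)) := by
  have hgt := S.hgt
  have hlt := S.hlt
  have hm := S.hm
  set E := ∫ s, s ∂μ with hE
  set m := ∫ t, t ∂ν with hmm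
  set D := 2 * m - E with hD
  have hD0 : 0 < D := by linarith
  -- the truncation
  have hlim := tendsto_integral_min S.hν S.hνi
  set D' := D * (1 + ω / 2) / (1 + ω) with hD'
  have hD'0 : 0 < D' := by positivity
  have hD'lt : D' < D := by
    rw [hD', div_lt_iff₀ (by positivity)]
    nlinarith
  have hev : ∀ᶠ n : ℕ in atTop, D' < 2 * (∫ t, min t (n : ℝ) ∂ν) - E := by
    have h1 : Tendsto (fun n : ℕ => 2 * (∫ t, min t (n : ℝ) ∂ν) - E) atTop (𝓝 (2 * m - E)) :=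
      (hlim.const_mul 2).sub_const E
    exact h1.eventually_const_lt (by linarith)
  obtain ⟨n0, hn0, hn1⟩ := (hev.and (eventually_ge_atTop 1)).exists
  set τ : ℝ := (n0 : ℝ) with hτ
  have hτ0 : 0 < τ := by
    have : (1 : ℝ) ≤ n0 := by exact_mod_cast hn1
    linarith
  set mτ := ∫ t, min t τ ∂ν with hmτ
  have hmτle : mτ ≤ m := by
    apply integral_mono_ae (min_integrable S.hν hτ0.le) S.hνi
    filter_upwards with t using min_le_left _ _
  have hgt' : mτ < E := by linarith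
  obtain ⟨u0, hu0, hu⟩ := gwalkA_sum S (τ := τ) (rp := 1) (rm := 1) hτ0 one_pos one_pos hgt'
    (by
      have e : ((1 : ℝ) + 1) * mτ = 2 * mτ := by ring
      rw [← hmτ, ← hE, e]
      linarith) (ω := ω / 2) (by positivity)
  refine ⟨u0, hu0, ?_⟩
  intro θ hθ0 hθ1 B hB N
  have hB' : Tilt h (1 * θ) B := by
    rw [one_mul]; exact hB
  have hy := hu θ hθ0 hθ1 B hB' N 0 le_rfl
  have hle : ∀ n : ℕ, lvlA μ ν B θ n ≤ walkA μ ν B τ (1 * θ) (1 * θ) n 0 := by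
    intro n
    have h3 := qu_lvlA_le (μ := μ) S.hν (B := B) (τ := τ) (h := θ) (κ := 0) (θ := θ) hτ0.le
      hθ0.le (by norm_num) (by simp) (by simp) n
    have e1 : ((1 : ℝ) + 0) * θ = 1 * θ := by ring
    have e2 : ((1 : ℝ) - 0) * θ = 1 * θ := by ring
    rw [e1, e2] at h3
    exact h3
  refine (Finset.sum_le_sum fun n _ => hle n).trans (hy.trans ?_)
  apply ENNReal.ofReal_le_ofReal
  rw [mul_zero, Real.exp_zero, mul_one]
  have e : ((1 : ℝ) + 1) * mτ - 1 * E = 2 * mτ - E := by ring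
  rw [← hmτ, ← hE, e]
  have g1 : (1 + ω / 2) / ((2 * mτ - E) * θ) ≤ (1 + ω / 2) / (D' * θ) := by
    gcongr
  refine g1.trans (le_of_eq ?_)
  rw [hD']
  field_simp

end Pool.Agent.Lib.MP_04add8_pr.Gen
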