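import Mathlib
import Pool.Agent.Lib.MP_04add8_pr.Gen.RV
import Pool.Agent.Lib.MP_04add8_pr.Two.LowerAsm

open MeasureTheory ProbabilityTheory Filter Topology
open scoped ENNReal

set_option linter.unusedSectionVars false

namespace Pool.Agent.Lib.MP_04add8_pr.Gen

variable {h h' : ℝ → ℝ} {a : ℝ} {μ ν : Measure ℝ} [IsProbabilityMeasure μ]
  [IsProbabilityMeasure ν]

/-- the window of the two-big-jobs lower bound: `P = ⌊√(x / h' x)⌋`, `P h' x → ∞`, `P / x → 0`
(`x h' x → ∞`). -/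
theorem glow_hP (H : Haz h h' a) :
    Tendsto (fun x : ℝ => h' x * (⌊√(x / h' x)⌋₊ : ℝ)) atTop atTop := by
  have h1 : ∀ᶠ x : ℝ in atTop, √(x * h' x) - 1 ≤ h' x * (⌊√(x / h' x)⌋₊ : ℝ) := by
    filter_upwards [eventually_gt_atTop (0 : ℝ), H.tendsto_deriv.eventually_lt_const one_pos]
      with x hx hx1
    have hp : 0 < h' x := H.pos x hx
    have h2 : h' x * √(x / h' x) = √(x * h' x) := by
      rw [← Real.sqrt_sq hp.le, ← Real.sqrt_mul (sq_nonneg (h' x)), Real.sqrt_sq hp.le]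
      congr 1
      field_simp
    have h3 := Nat.sub_one_lt_floor (√(x / h' x))
    have h4 : h' x * (√(x / h' x) - 1) ≤ h' x * (⌊√(x / h' x)⌋₊ : ℝ) :=
      mul_le_mul_of_nonneg_left h3.le hp.le
    rw [mul_sub, h2] at h4
    linarith
  refine tendsto_atTop_mono' _ h1 ?_
  exact tendsto_atTop_add_const_right _ _ (Real.tendsto_sqrt_atTop.comp H.big)

theorem glow_steps (H : Haz h h' a) (c : ℝ) {ζ : ℝ} (hζ : 0 < ζ) :
    ∀ᶠ x : ℝ in atTop, c * (2 * √(x / h' x) + 2 * (1 / h' x) + 1) ≤ ζ * x ∧ √(x / h' x) ≤ x := by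
  set K : ℝ := 6 * |c| / ζ + 1 with hK
  have hK1 : 1 ≤ K := by
    have : 0 ≤ 6 * |c| / ζ := by positivity
    linarith
  have hKpos : 0 < K := by linarith
  filter_upwards [eventually_gt_atTop (0 : ℝ), H.big.eventually_ge_atTop (K ^ 2),
    eventually_ge_atTop (3 * |c| / ζ)] with x hx hxh hxc
  have hp : 0 < h' x := H.pos x hx
  have hK2 : K ≤ K ^ 2 := by nlinarith
  have h1 : √(x / h' x) ≤ x / K := by
    rw [Real.sqrt_le_left (by positivity), div_pow, div_le_div_iff₀ hp (by positivity)]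
    nlinarith
  have h2 : 1 / h' x ≤ x / K := by
    rw [div_le_div_iff₀ hp hKpos]
    nlinarith
  have h3 : x / K ≤ x := by
    rw [div_le_iff₀ hKpos]; nlinarith
  refine ⟨?_, h1.trans h3⟩
  have hsq : 0 ≤ √(x / h' x) := Real.sqrt_nonneg _
  have h4 : c * (2 * √(x / h' x) + 2 * (1 / h' x) + 1) ≤
      |c| * (2 * (x / K) + 2 * (x / K) + 1) := by
    have h5 : 0 ≤ 1 / h' x := by positivity
    calc c * (2 * √(x / h' x) + 2 * (1 / h' x) + 1)
        ≤ |c| * (2 * √(x / h' x) + 2 * (1 / h' x) + 1) :=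
          mul_le_mul_of_nonneg_right (le_abs_self c) (by positivity)
      _ ≤ _ := mul_le_mul_of_nonneg_left (by linarith) (abs_nonneg c)
  refine h4.trans ?_
  have h6 : |c| * (x / K) ≤ ζ / 6 * x := by
    rw [← mul_div_assoc, div_le_iff₀ hKpos, hK]
    have : ζ / 6 * x * (6 * |c| / ζ + 1) = |c| * x + ζ / 6 * x := by field_simp
    rw [this]
    have : 0 ≤ ζ / 6 * x := by positivity
    linarith
  have h7 : |c| ≤ ζ / 3 * x := by
    rw [div_le_iff₀ hζ] at hxc
    linarith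
  linarith

theorem glow_kappa (H : Haz h h' a) : Tendsto (fun x : ℝ => 1 / h' x) atTop atTop := by
  have h1 : Tendsto h' atTop (𝓝[>] 0) := by
    refine tendsto_nhdsWithin_iff.2 ⟨H.tendsto_deriv, ?_⟩
    filter_upwards [eventually_gt_atTop (0 : ℝ)] with x hx
    exact H.pos x hx
  refine (tendsto_inv_nhdsGT_zero.comp h1).congr fun x => ?_
  rw [Function.comp_apply, one_div]

end Pool.Agent.Lib.MP_04add8_pr.Gen
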