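import Mathlib
import Pool.Agent.Lib.MP_04add8_pr.Gen.Base
import Pool.Agent.Lib.MP_04add8_pr.Two.TwoTail

open MeasureTheory ProbabilityTheory Filter Topology
open scoped ENNReal

set_option linter.unusedSectionVars false

namespace Pool.Agent.Lib.MP_04add8_pr.Gen

variable {h h' : ℝ → ℝ} {a : ℝ} {μ ν : Measure ℝ} [IsProbabilityMeasure μ]
  [IsProbabilityMeasure ν]

private lemma TwoTailL_one (H : Haz h h' a) {F X u Y Z : ℝ} (hF : 0 ≤ F) (hY : 0 < Y)
    (h1 : Y + u ≤ X) (hZ : X ≤ Z)
    (hFx : ∀ X : ℝ, Y ≤ X → ENNReal.ofReal (F * Real.exp (-(h X))) ≤ μ (Set.Ioi X))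
    (v : ℝ) (hv : 0 < v) (hvu : v ≤ u) :
    ENNReal.ofReal (F * Real.exp (-(h X)) * Real.exp (h' Z * v)) ≤
      μ {y | max (X - y) 0 < v} := by
  have hs : {y : ℝ | max (X - y) 0 < v} = Set.Ioi (X - v) := by
    ext y
    simp only [Set.mem_ofPred_eq, Set.mem_Ioi, max_lt_iff]
    constructor
    · rintro ⟨b1, _⟩; linarith
    · intro b; exact ⟨by linarith, hv⟩
  have hX : 0 < X := by linarith
  rw [hs]
  refine le_trans (ENNReal.ofReal_le_ofReal ?_) (hFx (X - v) (by linarith))
  rw [mul_assoc, ← Real.exp_add]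
  refine mul_le_mul_of_nonneg_left (Real.exp_le_exp.2 ?_) hF
  have h2 := H.tangent (y := -v) hX (by linarith)
  have h3 : h' Z ≤ h' X := H.anti X Z hX hZ
  have h4 : h' Z * v ≤ h' X * v := by gcongr
  rw [← sub_eq_add_neg] at h2
  linarith

/-- Original: `twoTail_lower` in `Two/TwoTail.lean` (`tt_core_lower` is reused). -/
theorem gtwoTail_lower (H : Haz h h' a) {F X1 X2 u Y Z : ℝ} (hF : 0 ≤ F) (hY : 0 < Y) (hu : 0 < u)
    (h1 : Y + u ≤ X1) (h2 : Y + u ≤ X2) (h1' : X1 ≤ Z) (h2' : X2 ≤ Z)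
    (hFx : ∀ X : ℝ, Y ≤ X → ENNReal.ofReal (F * Real.exp (-(h X))) ≤ μ (Set.Ioi X)) :
    ENNReal.ofReal (F ^ 2 * (Real.exp (-(h X1)) * Real.exp (-(h X2)) *
        ((1 + h' Z * u) * Real.exp (h' Z * u)))) ≤
      (μ.prod μ) {p : ℝ × ℝ | max (X1 - p.1) 0 + max (X2 - p.2) 0 < u} := by
  have hZ : 0 < Z := by linarith
  have hθ : 0 ≤ h' Z := (H.pos Z hZ).le
  have hmS : MeasurableSet {p : ℝ × ℝ | max (X1 - p.1) 0 + max (X2 - p.2) 0 < u} := by
    apply measurableSet_lt _ measurable_const
    fun_prop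
  rw [Measure.prod_apply hmS]
  have hV : Measurable (fun y : ℝ => max (X1 - y) 0) := by fun_prop
  have hc := tt_core_lower (μ := μ) hV (fun y => le_max_right _ _)
    (mul_nonneg hF (Real.exp_pos _).le) hθ hu (TwoTailL_one H hF hY h1 h1' hFx)
  have hE2 : 0 ≤ F * Real.exp (-(h X2)) := mul_nonneg hF (Real.exp_pos _).le
  calc _ = ENNReal.ofReal (F * Real.exp (-(h X2))) *
        ENNReal.ofReal (F * Real.exp (-(h X1)) *
          ((1 + h' Z * u) * Real.exp (h' Z * u))) := by
        rw [← ENNReal.ofReal_mul hE2]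
        congr 1
        ring
    _ ≤ ENNReal.ofReal (F * Real.exp (-(h X2))) * ∫⁻ y,
        ({y | max (X1 - y) 0 < u} : Set ℝ).indicator
        (fun y => ENNReal.ofReal (Real.exp (h' Z * (u - max (X1 - y) 0)))) y ∂μ := by
        gcongr
    _ = ∫⁻ y, ENNReal.ofReal (F * Real.exp (-(h X2))) *
        ({y | max (X1 - y) 0 < u} : Set ℝ).indicator
        (fun y => ENNReal.ofReal (Real.exp (h' Z * (u - max (X1 - y) 0)))) y ∂μ := by
        symm
        apply lintegral_const_mul
        apply Measurable.indicator _ (measurableSet_lt hV measurable_const)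
        fun_prop
    _ ≤ _ := by
        apply lintegral_mono
        intro y
        by_cases hy : max (X1 - y) 0 < u
        · simp only
          rw [Set.indicator_of_mem (by exact hy)]
          have e : Prod.mk y ⁻¹' {p : ℝ × ℝ | max (X1 - p.1) 0 + max (X2 - p.2) 0 < u} =
              {y' | max (X2 - y') 0 < u - max (X1 - y) 0} := by
            ext y'
            simp only [Set.mem_preimage, Set.mem_ofPred_eq]
            constructor
            · intro b; linarith
            · intro b; linarith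
          rw [e, ← ENNReal.ofReal_mul hE2]
          exact TwoTailL_one H hF hY h2 h2' hFx _ (by linarith)
            (by linarith [le_max_right (X1 - y) 0])
        · simp only
          rw [Set.indicator_of_notMem (by exact hy), mul_zero]
          exact zero_le

end Pool.Agent.Lib.MP_04add8_pr.Gen
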