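import Mathlib
import Pool.Agent.Lib.MP_04add8_pr.Gen.Lin
import Pool.Agent.Lib.MP_04add8_pr.Gen.LinB2

open MeasureTheory ProbabilityTheory Filter Topology
open scoped ENNReal

set_option linter.unusedSectionVars false

namespace Pool.Agent.Lib.MP_04add8_pr.Gen

variable {h h' : ℝ → ℝ} {a : ℝ} {μ ν : Measure ℝ} [IsProbabilityMeasure μ]
  [IsProbabilityMeasure ν]

/-- no job above `β x` during an exponentially long window. Original: `no_big` in
`One/OneUpper.lean`; there `N ≥ c1 x`, here `N ≥ exp (σ h x)` and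
`π {w.2 > δ' N} ≤ C exp (-(1/2) h (δ' N)) ≤ C exp (-4 h x)` by `Haz.window`. -/
theorem gno_big (S : Std μ ν h h' a) :
    ∃ β1 C : ℝ, 0 < β1 ∧ 0 ≤ C ∧ ∀ β : ℝ, 0 < β → β ≤ β1 → ∀ σ : ℝ, 0 < σ →
      ∀ᶠ x : ℝ in atTop, ∀ π : Measure (ℝ × ℝ), IsStationaryKW μ ν π → ∀ N : ℕ,
        Real.exp (σ * h x) ≤ (N : ℝ) →
        (π.prod (noise μ ν)) {q | q.2 ∈ allLe (β * x) N ∧ x < (pIter q.1 q.2 N).1} ≤
          ENNReal.ofReal (C * (N + 1) * Real.exp (-(4 * h x))) := by
  obtain ⟨δ', C1, hδ', hC1, hsm⟩ := gsmall_only S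
  obtain ⟨β1, hβ1, h1⟩ := hsm 8 (by norm_num)
  obtain ⟨C2, hC2, hY⟩ := gtail_snd S (lam := 1 / 2) (by norm_num) (by norm_num)
  refine ⟨β1, 2 * C1 + C2, hβ1, by positivity, fun β hβ hββ σ hσ => ?_⟩
  filter_upwards [h1 β hβ hββ, S.haz.window (σ := σ) (c := δ') (M := 8) hσ hδ',
    eventually_gt_atTop 0] with x hx1 hwin hx0 π hπ N hN
  have hp : IsProbabilityMeasure π := hπ.1
  have hh := S.haz.nonneg x
  have hmS : MeasurableSet {q : (ℝ × ℝ) × (ℕ → ℝ × ℝ) | q.2 ∈ allLe (β * x) N ∧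
      x < (pIter q.1 q.2 N).1} :=
    (measurable_snd (measurableSet_allLe _ _)).inter
      (measurableSet_lt measurable_const (measurable_pIter N).fst)
  have hwin' : 8 * h x ≤ h (δ' * N) := by
    refine hwin.trans (S.haz.mono ?_)
    gcongr
  rw [Measure.prod_apply hmS]
  have hT : MeasurableSet {w : ℝ × ℝ | δ' * N < w.2} :=
    measurableSet_lt measurable_const measurable_snd
  have hpt : ∀ᵐ w ∂π, (noise μ ν) (Prod.mk w ⁻¹' {q : (ℝ × ℝ) × (ℕ → ℝ × ℝ) |
      q.2 ∈ allLe (β * x) N ∧ x < (pIter q.1 q.2 N).1}) ≤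
      ENNReal.ofReal (2 * C1 * (N + 1) * Real.exp (-(8 * h x))) +
        ({w : ℝ × ℝ | δ' * N < w.2}).indicator 1 w := by
    filter_upwards [hπ.ae_ordered] with w hw
    by_cases hwx : δ' * N < w.2
    · rw [Set.indicator_of_mem (by exact hwx)]
      exact prob_le_one.trans le_add_self
    · rw [Set.indicator_of_notMem (by exact hwx), add_zero]
      have h2 := hx1 w hw.1 hw.2 N
      have e1 : Prod.mk w ⁻¹' {q : (ℝ × ℝ) × (ℕ → ℝ × ℝ) |
          q.2 ∈ allLe (β * x) N ∧ x < (pIter q.1 q.2 N).1} =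
          allLe (β * x) N ∩ {z | x < (pIter w z N).1} := rfl
      rw [e1]
      refine h2.trans (ENNReal.ofReal_le_ofReal ?_)
      have h3 : Real.exp (8 * (h x / x) * (w.2 - δ' * N)) ≤ 1 := by
        rw [Real.exp_le_one_iff]
        push Not at hwx
        have : w.2 - δ' * N ≤ 0 := by linarith
        have h4 : 0 ≤ 8 * (h x / x) := by positivity
        exact mul_nonpos_of_nonneg_of_nonpos h4 this
      have h4 : 1 + Real.exp (8 * (h x / x) * (w.2 - δ' * N)) ≤ 2 := by linarith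
      calc C1 * (N + 1) * Real.exp (-(8 * h x)) *
            (1 + Real.exp (8 * (h x / x) * (w.2 - δ' * N)))
          ≤ C1 * (N + 1) * Real.exp (-(8 * h x)) * 2 := by gcongr
        _ = _ := by ring
  refine (lintegral_mono_ae hpt).trans ?_
  rw [lintegral_add_left measurable_const, lintegral_const, measure_univ, mul_one,
    lintegral_indicator_one hT]
  have h5 := hY π hπ (δ' * N)
  calc ENNReal.ofReal (2 * C1 * (N + 1) * Real.exp (-(8 * h x))) + π {w | δ' * N < w.2}
      ≤ ENNReal.ofReal (2 * C1 * (N + 1) * Real.exp (-(8 * h x))) +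
        ENNReal.ofReal (C2 * Real.exp (-(1 / 2 * h (δ' * N)))) := by gcongr
    _ = ENNReal.ofReal (2 * C1 * (N + 1) * Real.exp (-(8 * h x)) +
          C2 * Real.exp (-(1 / 2 * h (δ' * N)))) := by
        rw [ENNReal.ofReal_add (by positivity) (by positivity)]
    _ ≤ _ := by
        apply ENNReal.ofReal_le_ofReal
        have h6 : Real.exp (-(8 * h x)) ≤ Real.exp (-(4 * h x)) :=
          Real.exp_le_exp.mpr (by linarith)
        have h7 : Real.exp (-(1 / 2 * h (δ' * N))) ≤ Real.exp (-(4 * h x)) :=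
          Real.exp_le_exp.mpr (by linarith)
        have hN0 : (0 : ℝ) ≤ N := Nat.cast_nonneg N
        have h8 : 2 * C1 * (N + 1) * Real.exp (-(8 * h x)) ≤
            2 * C1 * (N + 1) * Real.exp (-(4 * h x)) := by gcongr
        have h9 : C2 * Real.exp (-(1 / 2 * h (δ' * N))) ≤
            C2 * (N + 1) * Real.exp (-(4 * h x)) := by
          calc C2 * Real.exp (-(1 / 2 * h (δ' * N))) ≤ C2 * 1 * Real.exp (-(4 * h x)) := by
                rw [mul_one]
                gcongr
            _ ≤ C2 * (N + 1) * Real.exp (-(4 * h x)) := by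
                gcongr
                linarith
        calc _ ≤ 2 * C1 * (N + 1) * Real.exp (-(4 * h x)) +
              C2 * (N + 1) * Real.exp (-(4 * h x)) := add_le_add h8 h9
          _ = _ := by ring

end Pool.Agent.Lib.MP_04add8_pr.Gen
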