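import Mathlib
import Pool.Agent.Lib.MP_04add8_pr.Gen.Base
import Pool.Agent.Lib.MP_04add8_pr.One.OneMain
import Pool.Agent.Lib.MP_04add8_pr.Gen.OmA1

open MeasureTheory ProbabilityTheory Filter Topology
open scoped ENNReal

set_option linter.unusedSectionVars false

namespace Pool.Agent.Lib.MP_04add8_pr.Gen

variable {h h' : ℝ → ℝ} {a : ℝ} {μ ν : Measure ℝ} [IsProbabilityMeasure μ]
  [IsProbabilityMeasure ν]

/-! Original: `om_pointwise`, `om_integrated` in `One/OneMain.lean` (`omV`, `omS`,
`tiltOne_eq`, `measurable_tiltOne` are reused); `max V 0` is not needed because `h` is constant on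
`(-∞, 0]`. `T` is the tilt of the first error term. -/

open OneMainAux in
private lemma OmA2_mainH_eq (h : ℝ → ℝ) (x B : ℝ) (n : ℕ) (w : ℝ × ℝ) :
    mainH μ ν h x B n w = ∫⁻ z in omS x B n w,
      ENNReal.ofReal (Real.exp (-(h (omV x n w z)))) ∂(noise μ ν) := by
  rw [← lintegral_indicator (measurableSet_omS x B n w)]
  unfold mainH
  refine lintegral_congr fun z => ?_
  by_cases h1 : z ∈ allLe B n
  · by_cases h2 : x < reflW w.2 z n
    · rw [Set.indicator_of_mem h1, if_pos h2, Set.indicator_of_mem (show z ∈ omS x B n w from ⟨h1, h2⟩)]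
      rfl
    · rw [Set.indicator_of_mem h1, if_neg h2, Set.indicator_of_notMem]
      exact fun h => h2 h.2
  · rw [Set.indicator_of_notMem h1, Set.indicator_of_notMem]
    exact fun h => h1 h.1

open OneMainAux in
lemma gom_integrated (H : Haz h h' a) {y θ X ε c P T : ℝ} {γ : Measure ℝ} [IsFiniteMeasure γ]
    (hy : 0 < y) (hθX : h' X = θ)
    (hε : 0 < ε) (hε1 : ε ≤ 1 / 2) (hXy : |X - y| ≤ (ε / 4) * y)
    (hmix : ∀ D : ℝ, |D| ≤ ε * X → ENNReal.ofReal (Real.exp (-(h (X + D)))) ≤
          ENNReal.ofReal (Real.exp (-(h X))) *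
            ∫⁻ u, ENNReal.ofReal (Real.exp (-((h' X - u) * D))) ∂γ)
    (hpt : ∀ X' : ℝ, ε / 4 * y < |X' - y| →
      Real.exp (-(h X')) ≤
        Real.exp (-(T * X')) +
        Real.exp (-(P + c * h' y * (X' - y))) +
        Real.exp (-(h (2 * y)))) (x B : ℝ) (n : ℕ) (w : ℝ × ℝ) :
    mainH μ ν h x B n w ≤
      (∫⁻ u, ENNReal.ofReal (Real.exp (-(h X) + (θ - u) * X)) *
        tiltOne μ ν x B (θ - u) n w ∂γ) +
      tiltOne μ ν x B T n w +
      ENNReal.ofReal (Real.exp (-P + c * h' y * y)) *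
        tiltOne μ ν x B (c * h' y) n w +
      ENNReal.ofReal (Real.exp (-(h (2 * y)))) := by
  have hV := measurable_omV x n w
  have hV' : Measurable (fun p : (ℕ → ℝ × ℝ) × ℝ => omV x n w p.1) := hV.comp measurable_fst
  rw [OmA2_mainH_eq]
  refine (lintegral_mono fun z =>
    gom_pointwise H hy hθX hε hε1 hXy hmix hpt (omV x n w z)).trans ?_
  have hm1 : Measurable (fun z => ∫⁻ u, ENNReal.ofReal (Real.exp (-(h X) + (θ - u) * X)) *
        ENNReal.ofReal (Real.exp (-((θ - u) * omV x n w z))) ∂γ) := by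
    refine Measurable.lintegral_prod_right' (f := fun p : (ℕ → ℝ × ℝ) × ℝ =>
      ENNReal.ofReal (Real.exp (-(h X) + (θ - p.2) * X)) *
        ENNReal.ofReal (Real.exp (-((θ - p.2) * omV x n w p.1)))) ?_
    fun_prop
  have hm2 : Measurable (fun z => ENNReal.ofReal
      (Real.exp (-(T * omV x n w z)))) := by fun_prop
  have hm3 : Measurable (fun z => ENNReal.ofReal (Real.exp (-P + c * h' y * y)) *
        ENNReal.ofReal (Real.exp (-(c * h' y * omV x n w z)))) := by fun_prop
  rw [lintegral_add_right _ measurable_const, lintegral_add_right _ hm3, lintegral_add_right _ hm2]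
  refine add_le_add (add_le_add (add_le_add ?_ ?_) ?_) ?_
  · rw [lintegral_lintegral_swap]
    · refine le_of_eq (lintegral_congr fun u => ?_)
      rw [lintegral_const_mul' _ _ ENNReal.ofReal_ne_top, tiltOne_eq]
    · apply Measurable.aemeasurable
      unfold Function.uncurry
      fun_prop
  · rw [tiltOne_eq]
  · rw [lintegral_const_mul' _ _ ENNReal.ofReal_ne_top, tiltOne_eq]
  · rw [lintegral_const]
    calc ENNReal.ofReal (Real.exp (-(h (2 * y)))) * ((noise μ ν).restrict (omS x B n w)) Set.univ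
        ≤ ENNReal.ofReal (Real.exp (-(h (2 * y)))) * 1 := by
          gcongr
          rw [Measure.restrict_apply_univ]
          exact prob_le_one
      _ = _ := mul_one _

end Pool.Agent.Lib.MP_04add8_pr.Gen
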