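import Mathlib
import Pool.Agent.Lib.MP_04add8_pr.Gen.Phi
import Pool.Agent.Lib.MP_04add8_pr.Gen.Beta
import Pool.Agent.Lib.MP_04add8_pr.Gen.QU
import Pool.Agent.Lib.MP_04add8_pr.Gen.RV
import Pool.Agent.Lib.MP_04add8_pr.One.OneMain
import Pool.Agent.Lib.MP_04add8_pr.Gen.OmTilt1

open MeasureTheory ProbabilityTheory Filter Topology
open scoped ENNReal

set_option linter.unusedSectionVars false

namespace Pool.Agent.Lib.MP_04add8_pr.Gen

variable {h h' : ℝ → ℝ} {a : ℝ} {μ ν : Measure ℝ} [IsProbabilityMeasure μ]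
  [IsProbabilityMeasure ν]

/-- Original: `om_err`; the sum of `lvlA` is bounded by `gqsum_upper` (no polynomial factor). -/
lemma gom_err (S : Std μ ν h h' a) {K : ℕ} (hK : 1 < (K + 1) * (1 - a)) (A : ℝ) :
    ∃ b0 : ℝ, 0 < b0 ∧ ∀ b : ℝ, 0 < b → b ≤ b0 → ∀ σ ε0 C : ℝ, 0 < σ → ε0 ≤ 1 →
    ∀ᶠ x : ℝ in atTop, ∀ θ : ℝ, 0 < θ → θ ≤ A * (h x / x) → ∀ N : ℕ, (N : ℝ) ≤ C * x →
      ∀ w : ℝ × ℝ, 0 ≤ w.1 → w.1 ≤ w.2 → w.2 ≤ ε0 * x →
      ∑ n ∈ Finset.range N, tiltOne μ ν x (b * x) θ n w ≤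
        ENNReal.ofReal (4 / ((2 * (∫ t, t ∂ν) - ∫ s, s ∂μ) * θ) *
          Real.exp (-((1 - σ) * (1 - ε0) * (eta μ ν * θ * x)))) := by
  have H := S.haz
  have hK1 : 1 ≤ K := by
    by_contra hcon
    have h0 : K = 0 := by omega
    subst h0
    have := H.a0
    norm_num at hK
    linarith
  have hη0 : 0 < eta μ ν := by linarith [two_lt_eta S]
  obtain ⟨b1, hb1, htilt⟩ := gom_tilt S hK A
  obtain ⟨b2, hb2, htev⟩ := H.tilt_ev |A|
  obtain ⟨θ0, hθ0, hq⟩ := gqsum_upper S one_pos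
  have hlim := gbeta_limit S hK1
  refine ⟨min b1 b2, lt_min hb1 hb2, fun b hb hbb σ ε0 C hσ hε0 => ?_⟩
  obtain ⟨θ1, hθ1, hsm⟩ := OneMainAux.ev_small hlim (σ := σ * eta μ ν) (by positivity)
  have hx1 : Tendsto (fun x : ℝ => |A| * (h x / x)) atTop (𝓝 0) := by
    simpa using H.tendsto_div.const_mul |A|
  filter_upwards [hx1.eventually_lt_const hθ0, hx1.eventually_lt_const hθ1,
    htilt b hb (hbb.trans (min_le_left _ _)) 1 C one_pos, htev b hb (hbb.trans (min_le_right _ _)),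
    eventually_gt_atTop 0] with x h1 h2 h3 h4 hx θ hθ hθ' N hN w hw0 hw1 hw2
  have hr0 : 0 ≤ h x / x := div_nonneg (H.nonneg x) hx.le
  have hθ'' : θ ≤ |A| * (h x / x) := hθ'.trans (mul_le_mul_of_nonneg_right (le_abs_self A) hr0)
  have h5 := h3 θ hθ hθ' N hN w hw0 hw1
  have hT : Tilt h θ (b * x) := fun s hs hsB =>
    (mul_le_mul_of_nonneg_right hθ'' hs).trans (h4 s hs hsB)
  have h6 := hq θ hθ (hθ''.trans h1.le) (b * x) hT N
  obtain ⟨hs1, -⟩ := hsm θ hθ (lt_of_le_of_lt hθ'' h2)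
  have hlt := S.hlt
  have hE : 0 < (2 * (∫ t, t ∂ν) - ∫ s, s ∂μ) * θ := mul_pos (by linarith) hθ
  have hwx : (1 - ε0) * x ≤ x - w.2 := by linarith
  have hw' : 0 ≤ x - w.2 := le_trans (mul_nonneg (by linarith) hx.le) hwx
  have h7 : (1 - σ) * (1 - ε0) * (eta μ ν * θ * x) ≤
      (θ + cramerRoot μ ν K θ) * (x - w.2) := by
    have h8 : (1 - σ) * (eta μ ν * θ) ≤ θ + cramerRoot μ ν K θ := by
      refine le_trans (le_of_eq ?_) hs1
      ring
    have h9 : (1 - σ) * (eta μ ν * θ) * (x - w.2) ≤ (θ + cramerRoot μ ν K θ) * (x - w.2) :=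
      mul_le_mul_of_nonneg_right h8 hw'
    rcases le_total σ 1 with hσ1 | hσ1
    · have h10 : 0 ≤ (1 - σ) * (eta μ ν * θ) := mul_nonneg (by linarith) (by positivity)
      have h11 := mul_le_mul_of_nonneg_left hwx h10
      calc (1 - σ) * (1 - ε0) * (eta μ ν * θ * x) =
          (1 - σ) * (eta μ ν * θ) * ((1 - ε0) * x) := by ring
        _ ≤ _ := h11.trans h9
    · have h10 : (1 - σ) * (1 - ε0) * (eta μ ν * θ * x) ≤ 0 := by
        refine mul_nonpos_of_nonpos_of_nonneg ?_ (by positivity)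
        exact mul_nonpos_of_nonpos_of_nonneg (by linarith) (by linarith)
      have hgb : 0 ≤ θ + cramerRoot μ ν K θ := by
        have h12 : 0 ≤ cramerRoot μ ν K θ := Real.sInf_nonneg fun β hβ => hβ.1
        linarith
      exact h10.trans (mul_nonneg hgb hw')
  calc ∑ n ∈ Finset.range N, tiltOne μ ν x (b * x) θ n w ≤ _ := h5
    _ ≤ ENNReal.ofReal ((1 + 1) / ((2 * (∫ t, t ∂ν) - ∫ s, s ∂μ) * θ)) * ENNReal.ofReal (1 + 1) *
          ENNReal.ofReal (Real.exp (-((1 - σ) * (1 - ε0) * (eta μ ν * θ * x)))) := by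
        refine mul_le_mul' (mul_le_mul' h6 le_rfl) (ENNReal.ofReal_le_ofReal ?_)
        exact Real.exp_le_exp.2 (neg_le_neg h7)
    _ = _ := by
        rw [← ENNReal.ofReal_mul (by positivity), ← ENNReal.ofReal_mul (by positivity)]
        congr 1
        ring

end Pool.Agent.Lib.MP_04add8_pr.Gen
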