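import Mathlib
import Pool.Agent.Lib.MP_04add8_pr.Gen.RV

open MeasureTheory ProbabilityTheory Filter Topology
open scoped ENNReal

set_option linter.unusedSectionVars false

namespace Pool.Agent.Lib.MP_04add8_pr.Gen

variable {h h' : ℝ → ℝ} {a : ℝ} {μ ν : Measure ℝ} [IsProbabilityMeasure μ]
  [IsProbabilityMeasure ν]

/-- pointwise bound far from `y`. Original: `One/Pt.lean`. `X' < (1-ε/4) y`: the chord from `0`
(`Haz.mul_le`, `h 0 ≥ 0`). `(1+ε/4) y < X' ≤ 2 y`: `h X' ≥ h y + (X' - y) h' (2y)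
≥ h y + 2 c h' y (X' - y)`, `2 c = 2^(-C)` (`Haz.doubling`), `δ = c ε / 4`. `X' > 2 y`: the last
term. -/
theorem gpt (H : Haz h h' a) {ε : ℝ} (hε : 0 < ε) (hε1 : ε ≤ 1 / 2) :
    ∃ δ c : ℝ, 0 < δ ∧ 0 < c ∧ c ≤ 1 ∧ ∀ y : ℝ, 0 < y → ∀ X' : ℝ, ε / 4 * y < |X' - y| →
      Real.exp (-(h X')) ≤
        Real.exp (-(h ((1 - ε / 4) * y) / ((1 - ε / 4) * y) * X')) +
        Real.exp (-(h y + δ * (y * h' y) + c * h' y * (X' - y))) +
        Real.exp (-(h (2 * y))) := by
  obtain ⟨C, hC, hdb⟩ := H.doubling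
  set q : ℝ := ((2 : ℝ) ^ C)⁻¹ with hq
  have h2C : (1 : ℝ) ≤ 2 ^ C := Real.one_le_rpow (by norm_num) hC
  have hq0 : 0 < q := by positivity
  have hq1 : q ≤ 1 := inv_le_one_of_one_le₀ h2C
  refine ⟨q * ε / 8, q / 2, by positivity, by positivity, by linarith, ?_⟩
  intro y hy X' hX
  have e1 := Real.exp_pos (-(h ((1 - ε / 4) * y) / ((1 - ε / 4) * y) * X'))
  have e2 := Real.exp_pos (-(h y + q * ε / 8 * (y * h' y) + q / 2 * h' y * (X' - y)))
  have e3 := Real.exp_pos (-(h (2 * y)))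
  have hz : 0 < (1 - ε / 4) * y := mul_pos (by linarith) hy
  by_cases hc : X' < y
  · have h1 : X' < (1 - ε / 4) * y := by
      rw [abs_of_neg (by linarith)] at hX
      linarith
    have h2 : Real.exp (-(h X')) ≤
        Real.exp (-(h ((1 - ε / 4) * y) / ((1 - ε / 4) * y) * X')) := by
      apply Real.exp_le_exp.mpr
      apply neg_le_neg
      by_cases hX0 : 0 < X'
      · have h3 := H.mul_le hX0 h1.le
        rw [div_mul_eq_mul_div, div_le_iff₀ hz]
        linarith
      · push Not at hX0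
        have h3 : 0 ≤ h ((1 - ε / 4) * y) / ((1 - ε / 4) * y) :=
          div_nonneg (H.nonneg _) hz.le
        exact (mul_nonpos_of_nonneg_of_nonpos h3 hX0).trans (H.nonneg _)
    linarith
  · push Not at hc
    have h1 : ε / 4 * y < X' - y := by
      rwa [abs_of_nonneg (by linarith)] at hX
    have hX0 : 0 < X' := by linarith
    by_cases h4 : 2 * y ≤ X'
    · have h2 : Real.exp (-(h X')) ≤ Real.exp (-(h (2 * y))) :=
        Real.exp_le_exp.mpr (neg_le_neg (H.mono h4))
      linarith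
    · push Not at h4
      have h5 := H.lower_deriv hy.le hc hX0
      have h6 : h' (2 * y) ≤ h' X' := H.anti X' (2 * y) hX0 h4.le
      have h7 : q * h' y ≤ h' (2 * y) := by
        have h8 := hdb y 2 hy (by norm_num)
        rw [hq, inv_mul_le_iff₀ (by positivity)]
        exact h8
      have hpy : 0 < h' y := H.pos y hy
      have h9 : (X' - y) * (q * h' y) ≤ h X' - h y :=
        (mul_le_mul_of_nonneg_left (h7.trans h6) (by linarith)).trans h5
      have h10 : ε / 4 * y * (q * h' y) ≤ (X' - y) * (q * h' y) :=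
        mul_le_mul_of_nonneg_right h1.le (by positivity)
      have h2 : Real.exp (-(h X')) ≤
          Real.exp (-(h y + q * ε / 8 * (y * h' y) + q / 2 * h' y * (X' - y))) := by
        apply Real.exp_le_exp.mpr
        nlinarith
      linarith

end Pool.Agent.Lib.MP_04add8_pr.Gen
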