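import Mathlib
import Pool.Agent.Lib.MP_04add8_pr.Gen.LawM
import Pool.Agent.Lib.MP_04add8_pr.One.StepOne

open MeasureTheory ProbabilityTheory Filter Topology
open scoped ENNReal

set_option linter.unusedSectionVars false

namespace Pool.Agent.Lib.MP_04add8_pr.Gen

variable {h h' : ℝ → ℝ} {a : ℝ} {μ ν : Measure ℝ} [IsProbabilityMeasure μ]
  [IsProbabilityMeasure ν]

lemma measurable_mainH (H : Haz h h' a) (x B : ℝ) (n : ℕ) :
    Measurable (fun w : ℝ × ℝ => mainH μ ν h x B n w) := by
  unfold mainH
  apply Measurable.lintegral_prod_right' (f := fun q : (ℝ × ℝ) × (ℕ → ℝ × ℝ) =>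
    (allLe B n).indicator (fun z => if x < reflW q.1.2 z n then
    ENNReal.ofReal (Real.exp (-(h (2 * x + sumA z n - q.1.1 - reflW q.1.2 z n))))
    else 0) q.2)
  have e1 : (fun q : (ℝ × ℝ) × (ℕ → ℝ × ℝ) =>
    (allLe B n).indicator (fun z => if x < reflW q.1.2 z n then
    ENNReal.ofReal (Real.exp (-(h (2 * x + sumA z n - q.1.1 - reflW q.1.2 z n))))
    else 0) q.2) = ({q : (ℝ × ℝ) × (ℕ → ℝ × ℝ) | q.2 ∈ allLe B n}).indicator
    (fun q => if x < reflW q.1.2 q.2 n then
    ENNReal.ofReal (Real.exp (-(h (2 * x + sumA q.2 n - q.1.1 - reflW q.1.2 q.2 n))))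
    else 0) := by
    funext q
    by_cases hq : q.2 ∈ allLe B n
    · rw [Set.indicator_of_mem hq, Set.indicator_of_mem (by exact hq)]
    · rw [Set.indicator_of_notMem hq, Set.indicator_of_notMem (by exact hq)]
  rw [e1]
  have hr := measurable_reflW_pair n
  have hsA : Measurable fun q : (ℝ × ℝ) × (ℕ → ℝ × ℝ) => sumA q.2 n :=
    (measurable_sumA n).comp measurable_snd
  have hm : Measurable fun q : (ℝ × ℝ) × (ℕ → ℝ × ℝ) =>
      2 * x + sumA q.2 n - q.1.1 - reflW q.1.2 q.2 n := by
    fun_prop
  have hh := H.cont.measurable.comp hm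
  apply Measurable.indicator
  · apply Measurable.ite (measurableSet_lt measurable_const hr) _ measurable_const
    exact (Real.measurable_exp.comp hh.neg).ennreal_ofReal
  · exact measurable_snd (measurableSet_allLe _ _)

/-- Original: `oneBig_small` in `One/StepOne.lean` (`det_one_upper` is reused). The big job is
larger than `max V B` where `V` is the argument of `h` in `mainH`, so
`P ≤ F exp (-h (max V B)) ≤ F exp (-h V)`. -/
lemma goneBig_small (S : Std μ ν h h' a) {F x B e : ℝ} (hx : 0 ≤ x) (he : 0 ≤ e) (hB0 : 0 ≤ B)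
    (hB : B ≤ e) (hF : 0 ≤ F)
    (hFx : ∀ X : ℝ, B ≤ X → μ (Set.Ioi X) ≤ ENNReal.ofReal (F * Real.exp (-(h X))))
    {R : ℝ≥0∞} (n : ℕ)
    (hR : ∀ v : ℝ × ℝ, 0 ≤ v.1 → v.1 ≤ v.2 → (noise μ ν) (allLe B n ∩
      {z | (∃ k ≤ n, (pIter v z k).2 ≤ e) ∧ x < (pIter v z n).1}) ≤ R)
    {w : ℝ × ℝ} (h0 : 0 ≤ w.1) (h1 : w.1 ≤ w.2) (h2 : w.2 ≤ e) :
    (noise μ ν) {z | (w, z) ∈ oneBig x B B n} ≤
      ENNReal.ofReal F * mainH μ ν h x B n w + R := by
  have hcont := S.haz.cont
  have hmeas : MeasurableSet {z | (w, z) ∈ oneBig x B B n} :=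
    measurable_prodMk_left (measurableSet_oneBig x B B n)
  set X' : (ℕ → ℝ × ℝ) → ℝ := fun z => 2 * x + sumA z n - w.1 - reflW w.2 z n with hX'
  have hX'm : Measurable X' := by
    have := measurable_reflW_right w.2 n
    have h3 := measurable_sumA (n := n)
    rw [hX']
    fun_prop
  have hrm := measurable_reflW_right w.2 n
  set G : ℝ × ℝ → Set (ℕ → ℝ × ℝ) := fun p => allLe B n ∩
      {z | (∃ k ≤ n, (pIter (kwStep w p.1 p.2) z k).2 ≤ e) ∧
        x < (pIter (kwStep w p.1 p.2) z n).1} with hG
  set T : Set ((ℝ × ℝ) × (ℕ → ℝ × ℝ)) := {q | q.2 ∈ allLe B n ∧ x < reflW w.2 q.2 n ∧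
      max (X' q.2) B < q.1.1} with hT
  have hTset : MeasurableSet T := by
    refine MeasurableSet.inter (measurable_snd (measurableSet_allLe B n)) ?_
    refine MeasurableSet.inter (measurableSet_lt measurable_const (hrm.comp measurable_snd)) ?_
    exact measurableSet_lt ((hX'm.comp measurable_snd).max measurable_const) (by fun_prop)
  set P : (ℝ × ℝ) × (ℕ → ℝ × ℝ) → ℝ≥0∞ := fun q => T.indicator (fun _ => 1) q with hP
  have hPm : Measurable P := measurable_const.indicator hTset
  rw [← lintegral_indicator_one hmeas, lintegral_noise_cons (measurable_one.indicator hmeas)]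
  have hnn := law_noise_nonneg S.law S.hν
  have hpp := law_prod_nonneg S.law S.hν
  have hkey : ∀ᵐ p ∂(μ.prod ν), ∫⁻ z, ({z | (w, z) ∈ oneBig x B B n} :
      Set (ℕ → ℝ × ℝ)).indicator 1 (gcons p z) ∂(noise μ ν) ≤
      ∫⁻ z, P (p, z) ∂(noise μ ν) + R := by
    filter_upwards [hpp] with p hp
    have hGm : MeasurableSet (G p) := by
      rw [hG]
      refine (measurableSet_allLe B n).inter ?_
      have e1 : {z : ℕ → ℝ × ℝ | (∃ k ≤ n, (pIter (kwStep w p.1 p.2) z k).2 ≤ e) ∧
          x < (pIter (kwStep w p.1 p.2) z n).1} =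
          (⋃ k ∈ Finset.range (n + 1), {z : ℕ → ℝ × ℝ |
            (pIter (kwStep w p.1 p.2) z k).2 ≤ e}) ∩
          {z | x < (pIter (kwStep w p.1 p.2) z n).1} := by
        ext z
        simp
      rw [e1]
      refine MeasurableSet.inter (Finset.measurableSet_biUnion _ fun k _ => ?_) ?_
      · exact measurableSet_le (measurable_pIter_right _ k).snd measurable_const
      · exact measurableSet_lt measurable_const (measurable_pIter_right _ n).fst
    calc ∫⁻ z, ({z | (w, z) ∈ oneBig x B B n} :
          Set (ℕ → ℝ × ℝ)).indicator 1 (gcons p z) ∂(noise μ ν)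
        ≤ ∫⁻ z, (P (p, z) + (G p).indicator 1 z) ∂(noise μ ν) := by
          apply lintegral_mono_ae
          filter_upwards [hnn] with z hz
          by_cases hmem : gcons p z ∈ {z | (w, z) ∈ oneBig x B B n}
          · rw [Set.indicator_of_mem hmem]
            obtain ⟨hb1, hb2, hb3⟩ := hmem
            have hb1' : B < p.1 := hb1
            have hb2' : z ∈ allLe B n := fun i hi => hb2 i hi
            have hb3' : x < (pIter (kwStep w p.1 p.2) z n).1 := by
              have : (pIter w (gcons p z) (n + 1)).1 = (pIter (kwStep w p.1 p.2) z n).1 := by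
                rw [pIter_gcons]
              rw [← this]; exact hb3
            obtain ⟨hr, hor⟩ := det_one_upper hx he h0 h1 h2 hp hz n
              (fun k hk => (hb2' k hk).trans hB) hb3'
            rcases hor with hor | hor
            · have : P (p, z) = 1 := by
                rw [hP]
                exact Set.indicator_of_mem (s := T) ⟨hb2', hr, max_lt hor hb1'⟩ _
              rw [this]
              exact le_self_add
            · have : (G p).indicator (1 : (ℕ → ℝ × ℝ) → ℝ≥0∞) z = 1 :=
                Set.indicator_of_mem (s := G p) ⟨hb2', hor, hb3'⟩ _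
              rw [this]
              exact le_add_self
          · rw [Set.indicator_of_notMem hmem]
            exact zero_le
      _ = ∫⁻ z, P (p, z) ∂(noise μ ν) + (noise μ ν) (G p) := by
          have hFp : Measurable fun z : ℕ → ℝ × ℝ => P (p, z) := hPm.comp measurable_prodMk_left
          rw [lintegral_add_left hFp, lintegral_indicator_one hGm]
      _ ≤ _ := by
          gcongr
          exact hR _ (kwStep_fst_nonneg _ _ _) (kwStep_fst_le_snd _ _ _)
  refine (lintegral_mono_ae hkey).trans ?_
  rw [lintegral_add_right _ measurable_const]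
  simp only [lintegral_const, measure_univ, mul_one]
  gcongr
  rw [lintegral_lintegral_swap hPm.aemeasurable]
  unfold mainH
  rw [← lintegral_const_mul' _ _ ENNReal.ofReal_ne_top]
  apply lintegral_mono
  intro z
  beta_reduce
  change ∫⁻ p, P (p, z) ∂(μ.prod ν) ≤ _
  by_cases hz : z ∈ allLe B n
  · rw [Set.indicator_of_mem hz]
    by_cases hr : x < reflW w.2 z n
    · rw [if_pos hr]
      have e1 : (fun p : ℝ × ℝ => P (p, z)) = ({p : ℝ × ℝ | max (X' z) B < p.1}).indicator 1 := by
        funext p
        by_cases hpz : max (X' z) B < p.1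
        · have e2 : P (p, z) = 1 := by
            rw [hP]
            exact Set.indicator_of_mem (s := T) ⟨hz, hr, hpz⟩ _
          rw [e2, Set.indicator_of_mem (by exact hpz)]
          rfl
        · have e2 : P (p, z) = 0 := by
            rw [hP]
            exact Set.indicator_of_notMem (s := T) (fun h => hpz h.2.2) _
          rw [e2, Set.indicator_of_notMem (by exact hpz)]
      have e3 : MeasurableSet {p : ℝ × ℝ | max (X' z) B < p.1} :=
        measurableSet_lt measurable_const measurable_fst
      rw [e1, lintegral_indicator_one e3]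
      have e4 : {p : ℝ × ℝ | max (X' z) B < p.1} = Set.Ioi (max (X' z) B) ×ˢ Set.univ := by
        ext p; simp
      rw [e4, Measure.prod_prod, measure_univ, mul_one]
      refine (hFx _ (le_max_right _ _)).trans ?_
      rw [ENNReal.ofReal_mul hF]
      gcongr
      exact S.haz.mono (le_max_left _ _)
    · rw [if_neg hr]
      have e1 : ∀ p : ℝ × ℝ, P (p, z) = 0 := by
        intro p
        rw [hP]
        exact Set.indicator_of_notMem (s := T) (fun h => hr h.2.1) _
      simp [e1]
  · rw [Set.indicator_of_notMem hz]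
    have e1 : ∀ p : ℝ × ℝ, P (p, z) = 0 := by
      intro p
      rw [hP]
      exact Set.indicator_of_notMem (s := T) (fun h => hz h.1) _
    simp [e1]

end Pool.Agent.Lib.MP_04add8_pr.Gen
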