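import Mathlib
import Pool.Agent.Lib.MP_04add8_pr.Gen.OneMain
import Pool.Agent.Lib.MP_04add8_pr.Gen.OneFar
import Pool.Agent.Lib.MP_04add8_pr.Gen.StepOne
import Pool.Agent.Lib.MP_04add8_pr.Gen.LinB
import Pool.Agent.Lib.MP_04add8_pr.One.Union

open MeasureTheory ProbabilityTheory Filter Topology
open scoped ENNReal

set_option linter.unusedSectionVars false

namespace Pool.Agent.Lib.MP_04add8_pr.Gen

variable {h h' : ℝ → ℝ} {a : ℝ} {μ ν : Measure ℝ} [IsProbabilityMeasure μ]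
  [IsProbabilityMeasure ν]

/-- one value of `n` -/
private lemma OneSum_one (S : Std μ ν h h' a) {x b e F C1 : ℝ} {n : ℕ} (hx : 0 < x)
    (hb : 0 < b) (hbe : b ≤ e) (he : e ≤ 1 / 2) (hF : 0 ≤ F) (hC1 : 0 ≤ C1)
    (hFx : ∀ X : ℝ, b * x ≤ X → μ (Set.Ioi X) ≤ ENNReal.ofReal (F * Real.exp (-(h X))))
    (hret : ∀ e : ℝ, 0 ≤ e → ∀ v : ℝ × ℝ, 0 ≤ v.1 → v.1 ≤ v.2 → ∀ n : ℕ,
        (noise μ ν) (allLe (b * x) n ∩ {z | (∃ k ≤ n, (pIter v z k).2 ≤ e * x) ∧
          x < (pIter v z n).1}) ≤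
          ENNReal.ofReal (C1 * (n + 1) ^ 2 * Real.exp (-(8 * (1 - e) * h x))))
    {π : Measure (ℝ × ℝ)} (hπ : IsStationaryKW μ ν π) :
    (π.prod (noise μ ν)) (oneBig x (b * x) (b * x) n ∩ {q | q.1.2 ≤ e * x}) ≤
      ∫⁻ w, ({w : ℝ × ℝ | w.2 ≤ e * x}).indicator
        (fun w => ENNReal.ofReal F * mainH μ ν h x (b * x) n w) w ∂π +
      ENNReal.ofReal (C1 * (n + 1) ^ 2 * Real.exp (-(4 * h x))) := by
  have hp : IsProbabilityMeasure π := hπ.1
  have he0 : 0 < e := hb.trans_le hbe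
  have hh : 0 ≤ h x := S.haz.nonneg x
  set T : Set (ℝ × ℝ) := {w | w.2 ≤ e * x} with hT
  have hTm : MeasurableSet T := measurableSet_le measurable_snd measurable_const
  have hm2 : MeasurableSet (oneBig x (b * x) (b * x) n ∩ {q | q.1.2 ≤ e * x}) :=
    (measurableSet_oneBig _ _ _ _).inter
      (measurableSet_le (measurable_snd.comp measurable_fst) measurable_const)
  rw [Measure.prod_apply hm2]
  have hpt : ∀ᵐ w ∂π, (noise μ ν) (Prod.mk w ⁻¹' (oneBig x (b * x) (b * x) n ∩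
      {q | q.1.2 ≤ e * x})) ≤ T.indicator (fun w => ENNReal.ofReal F *
        mainH μ ν h x (b * x) n w) w +
        ENNReal.ofReal (C1 * (n + 1) ^ 2 * Real.exp (-(4 * h x))) := by
    filter_upwards [hπ.ae_ordered] with w hw
    by_cases hwS : w ∈ T
    · rw [Set.indicator_of_mem hwS]
      refine (measure_mono ?_).trans (goneBig_small S (e := e * x) hx.le
        (by positivity) (by positivity) (by gcongr) hF hFx n ?_ hw.1 hw.2 hwS)
      · intro z hz
        exact hz.1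
      · intro v hv0 hv1
        refine (hret e he0.le v hv0 hv1 n).trans (ENNReal.ofReal_le_ofReal ?_)
        have h5 : Real.exp (-(8 * (1 - e) * h x)) ≤ Real.exp (-(4 * h x)) := by
          apply Real.exp_le_exp.mpr
          have : 4 * h x ≤ 8 * (1 - e) * h x := by
            apply mul_le_mul_of_nonneg_right _ hh
            linarith
          linarith
        gcongr
    · have : Prod.mk w ⁻¹' (oneBig x (b * x) (b * x) n ∩ {q | q.1.2 ≤ e * x}) = ∅ := by
        ext z
        simp only [Set.mem_preimage, Set.mem_inter_iff, Set.mem_empty_iff_false, iff_false]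
        intro h
        exact hwS h.2
      rw [this, measure_empty]
      exact zero_le
  refine (lintegral_mono_ae hpt).trans ?_
  rw [lintegral_add_right _ measurable_const, lintegral_const, measure_univ, mul_one]

/-- the main part -/
private lemma OneSum_main (S : Std μ ν h h' a) {x b e ε0 εe F ω0 : ℝ} {N : ℕ} (hx : 0 < x)
    (he1 : e ≤ ε0) (he2 : e ≤ εe) (hF : 0 ≤ F) (hω0 : 0 < ω0) {f : ℝ} (hf : 0 ≤ f)
    (hη : 1 ≤ eta μ ν)
    (hmain : ∀ w : ℝ × ℝ, 0 ≤ w.1 → w.1 ≤ w.2 → w.2 ≤ ε0 * x →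
        ∑ n ∈ Finset.range N, mainH μ ν h x (b * x) n w ≤
          ENNReal.ofReal ((1 + ω0) * f * Real.exp (2 * eta μ ν * h' (eta μ ν * x) * w.2)))
    {π : Measure (ℝ × ℝ)} (hπ : IsStationaryKW μ ν π)
    (hepi : ∫⁻ w, ({w : ℝ × ℝ | w.2 ≤ εe * x}).indicator
        (fun w => ENNReal.ofReal (Real.exp (2 * eta μ ν * h' x * w.2))) w ∂π ≤
        ENNReal.ofReal (1 + ω0)) :
    ∑ n ∈ Finset.range N, ∫⁻ w, ({w : ℝ × ℝ | w.2 ≤ e * x}).indicator
        (fun w => ENNReal.ofReal F * mainH μ ν h x (b * x) n w) w ∂π ≤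
      ENNReal.ofReal (F * ((1 + ω0) * f) * (1 + ω0)) := by
  have hp : IsProbabilityMeasure π := hπ.1
  set T : Set (ℝ × ℝ) := {w | w.2 ≤ e * x} with hT
  have hTm : MeasurableSet T := measurableSet_le measurable_snd measurable_const
  have hmeas : ∀ n, AEMeasurable (fun w : ℝ × ℝ => T.indicator
      (fun w => ENNReal.ofReal F * mainH μ ν h x (b * x) n w) w) π := fun n =>
    (((measurable_mainH S.haz x (b * x) n).const_mul _).indicator hTm).aemeasurable
  rw [← lintegral_finsetSum' _ fun n _ => hmeas n]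
  have hpt : ∀ᵐ w ∂π, ∑ n ∈ Finset.range N, T.indicator
      (fun w => ENNReal.ofReal F * mainH μ ν h x (b * x) n w) w ≤
      ENNReal.ofReal (F * ((1 + ω0) * f)) * ({w : ℝ × ℝ | w.2 ≤ εe * x}).indicator
        (fun w => ENNReal.ofReal (Real.exp (2 * eta μ ν * h' x * w.2))) w := by
    filter_upwards [hπ.ae_ordered] with w hw
    by_cases hwS : w ∈ T
    · have hwS' : w.2 ≤ e * x := hwS
      have hwe : w.2 ≤ εe * x := hwS'.trans (by gcongr)
      have hw2 : 0 ≤ w.2 := hw.1.trans hw.2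
      rw [Set.indicator_of_mem (by exact hwe)]
      have e1 : ∑ n ∈ Finset.range N, T.indicator
          (fun w => ENNReal.ofReal F * mainH μ ν h x (b * x) n w) w =
          ENNReal.ofReal F * ∑ n ∈ Finset.range N, mainH μ ν h x (b * x) n w := by
        rw [Finset.mul_sum]
        apply Finset.sum_congr rfl
        intro n _
        rw [Set.indicator_of_mem hwS]
      rw [e1]
      have h1 := hmain w hw.1 hw.2 (hwS'.trans (by gcongr))
      have hηx : x ≤ eta μ ν * x := le_mul_of_one_le_left hx.le hη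
      have h2 : h' (eta μ ν * x) ≤ h' x := S.haz.anti _ _ hx hηx
      calc ENNReal.ofReal F * ∑ n ∈ Finset.range N, mainH μ ν h x (b * x) n w ≤
          ENNReal.ofReal F * ENNReal.ofReal ((1 + ω0) * f *
            Real.exp (2 * eta μ ν * h' (eta μ ν * x) * w.2)) := by gcongr
        _ ≤ ENNReal.ofReal F * ENNReal.ofReal ((1 + ω0) * f *
            Real.exp (2 * eta μ ν * h' x * w.2)) := by gcongr
        _ = ENNReal.ofReal (F * ((1 + ω0) * f)) *
            ENNReal.ofReal (Real.exp (2 * eta μ ν * h' x * w.2)) := by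
            rw [← ENNReal.ofReal_mul hF, ← ENNReal.ofReal_mul (by positivity), mul_assoc F]
    · have e1 : ∑ n ∈ Finset.range N, T.indicator
          (fun w => ENNReal.ofReal F * mainH μ ν h x (b * x) n w) w = 0 := by
        apply Finset.sum_eq_zero
        intro n _
        rw [Set.indicator_of_notMem hwS]
      rw [e1]
      exact zero_le
  refine (lintegral_mono_ae hpt).trans ?_
  rw [lintegral_const_mul' _ _ ENNReal.ofReal_ne_top,
    ENNReal.ofReal_mul (show 0 ≤ F * ((1 + ω0) * f) by positivity)]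
  exact mul_le_mul' le_rfl hepi

/-- **One big job, small initial workload, exponentially long window**. Original: the main part of
`upper_one` in `One/OneUpper.lean`. `n < C x`: `goneBig_small` (with `F = 1 + ω'`, `B = b x`,
`e x`), `greturn_small` (`K = 8`, `e ≤ 1/2`), `gone_main`, `gepi` with `A = 2 η`
(`h' (η x) ≤ h' x`); `n ≥ C x`: `gone_far`. -/
theorem gone_sum (S : Std μ ν h h' a) {K : ℕ} (hK : 1 < (K + 1) * (1 - a)) {ω : ℝ}
    (hω : 0 < ω) :
    ∃ e b0 : ℝ, 0 < e ∧ 0 < b0 ∧ ∀ b : ℝ, 0 < b → b ≤ b0 →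
      ∀ᶠ x : ℝ in atTop, ∀ π : Measure (ℝ × ℝ), IsStationaryKW μ ν π → ∀ N : ℕ,
        (N : ℝ) ≤ Real.exp (h x) →
        ∑ n ∈ Finset.range N, (π.prod (noise μ ν))
          (oneBig x (b * x) (b * x) n ∩ {q | q.1.2 ≤ e * x}) ≤
        ENNReal.ofReal ((1 + ω) * fOneH h h' μ ν K x + ω * (Qf h h' x) ^ 2) := by
  have H := S.haz
  have hK1 : 1 ≤ K := by
    by_contra hcon
    have : K = 0 := by omega
    subst this
    norm_num at hK
    linarith [H.a0]
  have hη2 := two_lt_eta S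
  set η := eta μ ν with hη
  -- slack
  obtain ⟨ω0, hω0, hω01⟩ : ∃ ω0 : ℝ, 0 < ω0 ∧ (1 + ω0) * (1 + ω0) * (1 + ω0) ≤ 1 + ω / 2 := by
    refine ⟨min 1 (ω / 16), lt_min one_pos (by positivity), ?_⟩
    have h3 : min 1 (ω / 16) ≤ 1 := min_le_left _ _
    have h4 : min 1 (ω / 16) ≤ ω / 16 := min_le_right _ _
    have h5 : 0 < min 1 (ω / 16) := lt_min one_pos (by positivity)
    set t := min 1 (ω / 16)
    have h6 : t * t ≤ t := by nlinarith
    have h7 : t * t * t ≤ t := by nlinarith [mul_nonneg h5.le h5.le]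
    nlinarith
  obtain ⟨ε0, b0, hε0, hb0, hmain⟩ := gone_main S hK hω0
  obtain ⟨b2, Cf, hb2, hCf, hfar⟩ := gone_far S hK1
  obtain ⟨b1, C1, hb1, hC1, hret⟩ := greturn_small S (K := 8) (by norm_num)
  obtain ⟨εe, hεe, hepi⟩ := gepi S (2 * η) (by positivity)
  set e := min (min ε0 εe) (1 / 2) with he
  have he0 : 0 < e := lt_min (lt_min hε0 hεe) (by norm_num)
  have he1 : e ≤ ε0 := (min_le_left _ _).trans (min_le_left _ _)
  have he2 : e ≤ εe := (min_le_left _ _).trans (min_le_right _ _)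
  have he3 : e ≤ 1 / 2 := min_le_right _ _
  refine ⟨e, min (min b0 b1) (min b2 e), he0, lt_min (lt_min hb0 hb1) (lt_min hb2 he0), ?_⟩
  intro b hb hbmin
  have hbb0 : b ≤ b0 := hbmin.trans ((min_le_left _ _).trans (min_le_left _ _))
  have hbb1 : b ≤ b1 := hbmin.trans ((min_le_left _ _).trans (min_le_right _ _))
  have hbb2 : b ≤ b2 := hbmin.trans ((min_le_right _ _).trans (min_le_left _ _))
  have hbe : b ≤ e := hbmin.trans ((min_le_right _ _).trans (min_le_right _ _))
  obtain ⟨X0, hX0⟩ := (S.law.asy ω0 hω0).exists_forall_of_atTop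
  have hbt : Tendsto (fun x : ℝ => b * x) atTop atTop := tendsto_id.const_mul_atTop hb
  filter_upwards [hmain b hb hbb0 (Cf + 1), hfar b hb hbb2 (ω / 4) (by positivity),
    hret b hb hbb1, hepi εe hεe le_rfl ω0 hω0, hbt.eventually_ge_atTop X0,
    gerr_two H (δ := 2) (ω := ω / 4) (by norm_num) (by positivity) (C1 * (Cf + 2) ^ 3) 3,
    eventually_ge_atTop 1] with x e1 e2 e3 e4 e5 e6 hx1 π hπ N hN
  have hx : 0 < x := by linarith
  have hp : IsProbabilityMeasure π := hπ.1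
  set f := fOneH h h' μ ν K x with hf
  have hf0 : 0 < f := fOneH_pos S hx
  have hFx : ∀ X : ℝ, b * x ≤ X → μ (Set.Ioi X) ≤
      ENNReal.ofReal ((1 + ω0) * Real.exp (-(h X))) := fun X hX => (hX0 X (e5.trans hX)).2
  set N' := ⌈Cf * x⌉₊ with hN'
  have hN'u : (N' : ℝ) ≤ (Cf + 1) * x := by
    have := (Nat.ceil_lt_add_one (show 0 ≤ Cf * x by positivity)).le
    nlinarith
  -- splitting of the sum
  rw [← Finset.sum_filter_add_sum_filter_not (Finset.range N) (fun n : ℕ => Cf * x ≤ (n : ℝ))]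
  have hfarpart : ∑ n ∈ (Finset.range N).filter (fun n : ℕ => Cf * x ≤ (n : ℝ)),
      (π.prod (noise μ ν)) (oneBig x (b * x) (b * x) n ∩ {q | q.1.2 ≤ e * x}) ≤
      ENNReal.ofReal (ω / 4 * (f + (Qf h h' x) ^ 2)) := by
    refine le_trans (Finset.sum_le_sum fun n _ => measure_mono ?_) (e2 π hπ N hN)
    intro q hq
    refine ⟨hq.1, ?_⟩
    have h1 : q.1.2 ≤ e * x := hq.2
    have h2 : e * x ≤ x := by nlinarith
    exact h1.trans h2
  have hnear : ∑ n ∈ (Finset.range N).filter (fun n : ℕ => ¬ Cf * x ≤ (n : ℝ)),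
      (π.prod (noise μ ν)) (oneBig x (b * x) (b * x) n ∩ {q | q.1.2 ≤ e * x}) ≤
      ENNReal.ofReal ((1 + ω0) * ((1 + ω0) * f) * (1 + ω0)) +
        ENNReal.ofReal (ω / 4 * (Qf h h' x) ^ 2) := by
    have hsub : (Finset.range N).filter (fun n : ℕ => ¬ Cf * x ≤ (n : ℝ)) ⊆
        Finset.range N' := by
      intro n hn
      rw [Finset.mem_filter] at hn
      rw [Finset.mem_range, hN', Nat.lt_ceil]
      exact not_le.mp hn.2
    refine (Finset.sum_le_sum_of_subset hsub).trans ?_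
    refine (Finset.sum_le_sum fun n _ => OneSum_one S (F := 1 + ω0) (C1 := C1) hx hb hbe he3
      (by positivity) hC1 hFx e3 hπ).trans ?_
    rw [Finset.sum_add_distrib]
    apply add_le_add
    · exact OneSum_main S hx he1 he2 (by positivity) hω0 hf0.le (by linarith)
        (fun w hw0 hw1 hw2 => e1 w hw0 hw1 hw2 N' hN'u) hπ (e4 π hπ)
    · rw [← ENNReal.ofReal_sum_of_nonneg (fun n _ => by positivity)]
      apply ENNReal.ofReal_le_ofReal
      refine le_trans ?_ e6
      have h1 : ∑ n ∈ Finset.range N', C1 * ((n : ℝ) + 1) ^ 2 * Real.exp (-(4 * h x)) ≤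
          ∑ n ∈ Finset.range N', C1 * ((Cf + 2) * x) ^ 2 * Real.exp (-(4 * h x)) := by
        apply Finset.sum_le_sum
        intro n hn
        have h2 : (n : ℝ) + 1 ≤ N' := by exact_mod_cast Finset.mem_range.1 hn
        have h3 : (n : ℝ) + 1 ≤ (Cf + 2) * x := by nlinarith
        gcongr
      refine h1.trans ?_
      rw [Finset.sum_const, Finset.card_range, nsmul_eq_mul]
      have h4 : (N' : ℝ) * (C1 * ((Cf + 2) * x) ^ 2 * Real.exp (-(4 * h x))) ≤
          ((Cf + 2) * x) * (C1 * ((Cf + 2) * x) ^ 2 * Real.exp (-(4 * h x))) := by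
        apply mul_le_mul_of_nonneg_right _ (by positivity)
        nlinarith
      refine h4.trans (le_of_eq ?_)
      have h5 : x ^ (3 : ℝ) = x ^ 3 := by norm_cast
      have h6 : (2 + 2 : ℝ) * h x = 4 * h x := by ring
      rw [h5, h6]
      ring
  refine (add_le_add hfarpart hnear).trans ?_
  rw [← ENNReal.ofReal_add (by positivity) (by positivity),
    ← ENNReal.ofReal_add (by positivity) (by positivity)]
  apply ENNReal.ofReal_le_ofReal
  have h1 : (1 + ω0) * ((1 + ω0) * f) * (1 + ω0) ≤ (1 + ω / 2) * f := by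
    calc (1 + ω0) * ((1 + ω0) * f) * (1 + ω0) = ((1 + ω0) * (1 + ω0) * (1 + ω0)) * f := by ring
      _ ≤ _ := by gcongr
  have h2 : 0 ≤ (Qf h h' x) ^ 2 := sq_nonneg _
  nlinarith [mul_nonneg hω.le hf0.le, mul_nonneg hω.le h2]

end Pool.Agent.Lib.MP_04add8_pr.Gen
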