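import Mathlib
import Pool.Agent.Lib.MP_04add8_pr.Gen.OneSum
import Pool.Agent.Lib.MP_04add8_pr.Gen.LinB

open MeasureTheory ProbabilityTheory Filter Topology
open scoped ENNReal

set_option linter.unusedSectionVars false

namespace Pool.Agent.Lib.MP_04add8_pr.Gen

variable {h h' : ℝ → ℝ} {a : ℝ} {μ ν : Measure ℝ} [IsProbabilityMeasure μ]
  [IsProbabilityMeasure ν]

/-- Original: `Crit/UpperSplit.lean`; window `N = ⌈exp (σ h x)⌉₊`, `union_upper`, `gone_sum`,
`gno_big`. -/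
theorem gupper_split (S : Std μ ν h h' a) {K : ℕ} (hK : 1 < (K + 1) * (1 - a)) {ω : ℝ}
    (hω : 0 < ω) :
    ∃ e b0 : ℝ, 0 < e ∧ 0 < b0 ∧ ∀ b : ℝ, 0 < b → b ≤ b0 → ∀ σ : ℝ, 0 < σ → σ ≤ 1 / 2 →
      ∀ᶠ x : ℝ in atTop, ∃ N : ℕ, (N : ℝ) ≤ 2 * Real.exp (σ * h x) ∧
      ∀ π : Measure (ℝ × ℝ), IsStationaryKW μ ν π →
      π {w | x < w.1} ≤ ENNReal.ofReal ((1 + ω) * fOneH h h' μ ν K x +
          ω * (Qf h h' x) ^ 2) +
        ∑ n ∈ Finset.range N, (π.prod (noise μ ν))
          (oneBig x (b * x) (b * x) n ∩ {q | e * x < q.1.2}) := by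
  have H := S.haz
  obtain ⟨e, b0, he, hb0, hsum⟩ := gone_sum S hK (ω := ω / 2) (by positivity)
  obtain ⟨b1, C, hb1, hC, hno⟩ := gno_big S
  refine ⟨e, min b0 b1, he, lt_min hb0 hb1, ?_⟩
  intro b hb hbmin σ hσ hσ2
  filter_upwards [hsum b hb (hbmin.trans (min_le_left _ _)),
    hno b hb (hbmin.trans (min_le_right _ _)) σ hσ,
    gerr_two H (δ := 1) (ω := ω / 2) one_pos (by positivity) (3 * C) 0,
    H.tendsto_h.eventually_ge_atTop 2, eventually_gt_atTop 0] with x e1 e2 e3 e4 hx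
  set N := ⌈Real.exp (σ * h x)⌉₊ with hN
  have hh : 0 ≤ h x := H.nonneg x
  have hexp1 : 1 ≤ Real.exp (σ * h x) := Real.one_le_exp (by positivity)
  have hNl : Real.exp (σ * h x) ≤ N := Nat.le_ceil _
  have hNu : (N : ℝ) ≤ 2 * Real.exp (σ * h x) := by
    have := (Nat.ceil_lt_add_one (Real.exp_pos (σ * h x)).le).le
    linarith
  have hσh : Real.exp (σ * h x) ≤ Real.exp (h x / 2) := by
    apply Real.exp_le_exp.mpr
    nlinarith
  have h2e : (2 : ℝ) ≤ Real.exp (h x / 2) := by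
    have h1 : (1 : ℝ) ≤ h x / 2 := by linarith
    have h2 := Real.add_one_le_exp (h x / 2)
    linarith
  have hNe : (N : ℝ) ≤ Real.exp (h x) := by
    calc (N : ℝ) ≤ 2 * Real.exp (σ * h x) := hNu
      _ ≤ Real.exp (h x / 2) * Real.exp (h x / 2) := by gcongr
      _ = Real.exp (h x) := by
          rw [← Real.exp_add]
          congr 1
          ring
  refine ⟨N, hNu, fun π hπ => ?_⟩
  have hp : IsProbabilityMeasure π := hπ.1
  have hf0 : 0 < fOneH h h' μ ν K x := fOneH_pos S hx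
  set f := fOneH h h' μ ν K x with hf
  have hu := union_upper hπ x (b * x) N
  have hs : ∑ n ∈ Finset.range N, (π.prod (noise μ ν)) (oneBig x (b * x) (b * x) n) ≤
      ENNReal.ofReal ((1 + ω / 2) * f + ω / 2 * (Qf h h' x) ^ 2) +
      ∑ n ∈ Finset.range N, (π.prod (noise μ ν))
          (oneBig x (b * x) (b * x) n ∩ {q | e * x < q.1.2}) := by
    have h1 : ∑ n ∈ Finset.range N, (π.prod (noise μ ν)) (oneBig x (b * x) (b * x) n) ≤
        ∑ n ∈ Finset.range N, ((π.prod (noise μ ν))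
          (oneBig x (b * x) (b * x) n ∩ {q | q.1.2 ≤ e * x}) + (π.prod (noise μ ν))
          (oneBig x (b * x) (b * x) n ∩ {q | e * x < q.1.2})) := by
      apply Finset.sum_le_sum
      intro n _
      refine le_trans (measure_mono ?_) (measure_union_le _ _)
      intro q hq
      by_cases hqS : q.1.2 ≤ e * x
      · exact Or.inl ⟨hq, hqS⟩
      · exact Or.inr ⟨hq, not_le.mp hqS⟩
    rw [Finset.sum_add_distrib] at h1
    exact h1.trans (add_le_add (e1 π hπ N hNe) le_rfl)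
  have hn := e2 π hπ N hNl
  have hreal : C * (N + 1) * Real.exp (-(4 * h x)) ≤ ω / 2 * (Qf h h' x) ^ 2 := by
    rw [Real.rpow_zero, mul_one] at e3
    refine le_trans ?_ e3
    have h1 : (N : ℝ) + 1 ≤ 3 * Real.exp (h x / 2) := by linarith
    calc C * (N + 1) * Real.exp (-(4 * h x)) ≤
        C * (3 * Real.exp (h x / 2)) * Real.exp (-(4 * h x)) := by gcongr
      _ = 3 * C * (Real.exp (h x / 2) * Real.exp (-(4 * h x))) := by ring
      _ = 3 * C * Real.exp (h x / 2 + -(4 * h x)) := by rw [← Real.exp_add]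
      _ ≤ 3 * C * Real.exp (-((2 + 1) * h x)) := by
          apply mul_le_mul_of_nonneg_left _ (by positivity)
          apply Real.exp_le_exp.mpr
          linarith
  calc π {w | x < w.1} ≤ _ := hu
    _ ≤ (ENNReal.ofReal ((1 + ω / 2) * f + ω / 2 * (Qf h h' x) ^ 2) +
      ∑ n ∈ Finset.range N, (π.prod (noise μ ν))
          (oneBig x (b * x) (b * x) n ∩ {q | e * x < q.1.2})) +
        ENNReal.ofReal (ω / 2 * (Qf h h' x) ^ 2) :=
        add_le_add hs (hn.trans (ENNReal.ofReal_le_ofReal hreal))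
    _ = ENNReal.ofReal (((1 + ω / 2) * f + ω / 2 * (Qf h h' x) ^ 2) +
          ω / 2 * (Qf h h' x) ^ 2) +
        ∑ n ∈ Finset.range N, (π.prod (noise μ ν))
          (oneBig x (b * x) (b * x) n ∩ {q | e * x < q.1.2}) := by
        have e5 : ENNReal.ofReal (((1 + ω / 2) * f + ω / 2 * (Qf h h' x) ^ 2) +
            ω / 2 * (Qf h h' x) ^ 2) = ENNReal.ofReal ((1 + ω / 2) * f +
            ω / 2 * (Qf h h' x) ^ 2) + ENNReal.ofReal (ω / 2 * (Qf h h' x) ^ 2) :=
          ENNReal.ofReal_add (by positivity) (by positivity)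
        rw [e5]
        ring
    _ ≤ _ := by
        refine add_le_add (ENNReal.ofReal_le_ofReal ?_) le_rfl
        nlinarith [mul_pos hω hf0]

end Pool.Agent.Lib.MP_04add8_pr.Gen
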