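import Mathlib
import Pool.Agent.Lib.MP_04add8_pr.Gen.UpperSplit
import Pool.Agent.Lib.MP_04add8_pr.Gen.BadBig

open MeasureTheory ProbabilityTheory Filter Topology
open scoped ENNReal

set_option linter.unusedSectionVars false

namespace Pool.Agent.Lib.MP_04add8_pr.Gen

variable {h h' : ℝ → ℝ} {a : ℝ} {μ ν : Measure ℝ} [IsProbabilityMeasure μ]
  [IsProbabilityMeasure ν]

/-- **Upper bound, case A**: one big job is strictly cheaper than two. `gupper_split` and
`gbad_big` with `σ < δ`. -/
theorem gupper_A (S : Std μ ν h h' a) (h2 : (eta μ ν) ^ a < 2) {K : ℕ}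
    (hK : 1 < (K + 1) * (1 - a)) {ω : ℝ} (hω : 0 < ω) :
    ∀ᶠ x : ℝ in atTop, ∀ π : Measure (ℝ × ℝ), IsStationaryKW μ ν π →
      π {w | x < w.1} ≤ ENNReal.ofReal ((1 + ω) * fOneH h h' μ ν K x +
          ω * (Qf h h' x) ^ 2) := by
  have ha0 := S.haz.a0
  have hK1 : 1 ≤ K := by
    by_contra hcon
    have hK0 : K = 0 := by omega
    subst hK0
    norm_num at hK
    linarith
  obtain ⟨e, b0, he, hb0, hsplit⟩ := gupper_split S hK (ω := ω / 2) (by positivity)
  obtain ⟨δ, hδ, hbad⟩ := gbad_big S h2 he hb0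
  set σ := min (δ / 2) (1 / 2) with hσ
  have hσ0 : 0 < σ := lt_min (by positivity) (by norm_num)
  have hσ1 : σ ≤ δ / 2 := min_le_left _ _
  have hη : 1 ≤ eta μ ν := by
    unfold eta
    have h3 := S.hm
    have h4 := S.hgt
    rw [le_div_iff₀ (by linarith)]
    linarith
  have herr := gerr_one S hK1 (δ := 2 * δ) (by positivity) (show 0 < ω / 2 by positivity) 2 0
  filter_upwards [hsplit b0 hb0 le_rfl σ hσ0 (min_le_right _ _), hbad, herr,
    S.haz.tendsto_h.eventually_ge_atTop (2 / δ), eventually_gt_atTop 0]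
    with x hx1 hx2 hx3 hx4 hx5 π hπ
  obtain ⟨N, hN, hx1⟩ := hx1
  have hp : IsProbabilityMeasure π := hπ.1
  refine (hx1 π hπ).trans ?_
  have hh := S.haz.nonneg x
  have hhη : h x ≤ h (eta μ ν * x) := S.haz.mono (by nlinarith)
  have hNδ : (N : ℝ) ≤ Real.exp (δ * h x) := by
    refine hN.trans ?_
    have h3 : (2 : ℝ) ≤ Real.exp (δ / 2 * h x) := by
      have h4 : 1 ≤ δ / 2 * h x := by
        rw [div_le_iff₀ hδ] at hx4
        linarith
      have h5 := Real.add_one_le_exp (δ / 2 * h x)
      linarith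
    calc 2 * Real.exp (σ * h x) ≤ Real.exp (δ / 2 * h x) * Real.exp (δ / 2 * h x) := by
          gcongr
      _ = Real.exp (δ * h x) := by
          rw [← Real.exp_add]
          congr 1
          ring
  have hsum : ∑ n ∈ Finset.range N, (π.prod (noise μ ν))
      (oneBig x (b0 * x) (b0 * x) n ∩ {q | e * x < q.1.2}) ≤
      ENNReal.ofReal (ω / 2 * fOneH h h' μ ν K x) := by
    calc _ ≤ ∑ n ∈ Finset.range N,
          ENNReal.ofReal (Real.exp (-((1 + 3 * δ) * h (eta μ ν * x)))) := by
          refine Finset.sum_le_sum fun n hn => ?_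
          refine (measure_mono ?_).trans (hx2 π hπ n ?_)
          · rintro q ⟨hq1, hq2⟩
            exact ⟨hq2, hq1.1, hq1.2.2⟩
          · have : (n : ℝ) ≤ N := by exact_mod_cast (Finset.mem_range.1 hn).le
            exact this.trans hNδ
      _ = ENNReal.ofReal (N * Real.exp (-((1 + 3 * δ) * h (eta μ ν * x)))) := by
          rw [Finset.sum_const, Finset.card_range, nsmul_eq_mul,
            ENNReal.ofReal_mul (Nat.cast_nonneg N), ENNReal.ofReal_natCast]
      _ ≤ _ := by
          refine ENNReal.ofReal_le_ofReal (le_trans ?_ hx3)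
          rw [Real.rpow_zero, mul_one]
          have h3 : Real.exp (σ * h x) ≤ Real.exp (δ * h (eta μ ν * x)) := by
            apply Real.exp_le_exp.mpr
            have h4 : σ ≤ δ := by linarith
            gcongr
          calc (N : ℝ) * Real.exp (-((1 + 3 * δ) * h (eta μ ν * x)))
              ≤ 2 * Real.exp (δ * h (eta μ ν * x)) *
                Real.exp (-((1 + 3 * δ) * h (eta μ ν * x))) := by
                refine mul_le_mul_of_nonneg_right ?_ (Real.exp_pos _).le
                exact hN.trans (mul_le_mul_of_nonneg_left h3 (by norm_num))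
            _ = 2 * Real.exp (-((1 + 2 * δ) * h (eta μ ν * x))) := by
                rw [mul_assoc, ← Real.exp_add]
                congr 2
                ring
  have hf := fOneH_pos S (K := K) hx5
  calc _ ≤ ENNReal.ofReal ((1 + ω / 2) * fOneH h h' μ ν K x + ω / 2 * (Qf h h' x) ^ 2) +
        ENNReal.ofReal (ω / 2 * fOneH h h' μ ν K x) := by gcongr
    _ = ENNReal.ofReal ((1 + ω / 2) * fOneH h h' μ ν K x + ω / 2 * (Qf h h' x) ^ 2 +
        ω / 2 * fOneH h h' μ ν K x) := by
        rw [ENNReal.ofReal_add (p := (1 + ω / 2) * fOneH h h' μ ν K x +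
          ω / 2 * (Qf h h' x) ^ 2) (by positivity) (by positivity)]
    _ ≤ _ := by
        refine ENNReal.ofReal_le_ofReal ?_
        have h3 : 0 ≤ ω / 2 * (Qf h h' x) ^ 2 := by positivity
        linarith

end Pool.Agent.Lib.MP_04add8_pr.Gen
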