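import Mathlib
import Pool.Agent.Lib.MP_04add8_pr.Gen.UpperSplit
import Pool.Agent.Lib.MP_04add8_pr.Gen.CritFront
import Pool.Agent.Lib.MP_04add8_pr.Gen.CritNice

open MeasureTheory ProbabilityTheory Filter Topology
open scoped ENNReal

set_option linter.unusedSectionVars false

namespace Pool.Agent.Lib.MP_04add8_pr.Gen

variable {h h' : ℝ → ℝ} {a : ℝ} {μ ν : Measure ℝ} [IsProbabilityMeasure μ]
  [IsProbabilityMeasure ν]

/-- **Upper bound, case B**: two big jobs are at least as cheap as one. Original: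
`Crit/UpperCrit.lean`; `b0` from `gcrit_exists`; window `σ ≤ δ / 2` in `gupper_split`
(the number of terms is `≤ 2 exp (σ h x) ≤ exp (δ h x)`). -/
theorem gupper_B (S : Std μ ν h h' a) (h2 : 2 ≤ (eta μ ν) ^ a) {K : ℕ}
    (hK : 1 < (K + 1) * (1 - a)) {ω : ℝ} (hω : 0 < ω) :
    ∀ᶠ x : ℝ in atTop, ∀ π : Measure (ℝ × ℝ), IsStationaryKW μ ν π →
      π {w | x < w.1} ≤ ENNReal.ofReal ((1 + ω) * fOneH h h' μ ν K x +
          (K2 μ ν + ω) * (Qf h h' x) ^ 2) := by
  have hK2 : 0 < K2 μ ν := by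
    unfold K2
    have h1 := S.hm
    have h2 := S.hlt
    have h3 : 0 < 2 * (∫ t, t ∂ν) - ∫ s, s ∂μ := by linarith
    positivity
  obtain ⟨bc, hbc, hbc1, hbcm, hcrit⟩ := gcrit_exists S h2
  obtain ⟨e, b0, he, hb0, hsplit⟩ := gupper_split S hK (ω := ω / 4) (by positivity)
  obtain ⟨ε, β0, hε, hε2, hβ0, hnice⟩ := gcrit_nice S hbc hbcm hcrit
    (show 0 < ω / 4 by positivity)
  obtain ⟨β1, hβ1, hfront⟩ := gcrit_front S hbc hbcm hcrit hε hε2 he
  set β := min (min b0 β0) β1 with hβ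
  have hβpos : 0 < β := lt_min (lt_min hb0 hβ0) hβ1
  have hβb0 : β ≤ b0 := (min_le_left _ _).trans (min_le_left _ _)
  have hββ0 : β ≤ β0 := (min_le_left _ _).trans (min_le_right _ _)
  have hββ1 : β ≤ β1 := min_le_right _ _
  obtain ⟨δ, hδ, hf⟩ := hfront β hβpos hββ1
  set σ := min (δ / 2) (1 / 2) with hσ
  have hσ0 : 0 < σ := lt_min (by positivity) (by norm_num)
  have hσ1 : σ ≤ δ / 2 := min_le_left _ _
  filter_upwards [hsplit β hβpos hβb0 σ hσ0 (min_le_right _ _), hnice β hβpos hββ0, hf,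
    gerr_two S.haz (δ := δ) hδ (show 0 < ω / 4 by positivity) 2 0,
    S.haz.tendsto_h.eventually_ge_atTop (2 / δ), eventually_gt_atTop 0]
    with x hsplit hnice hf herr hhx hx π hπ
  have hp : IsProbabilityMeasure π := hπ.1
  obtain ⟨N, hN, hs⟩ := hsplit
  have hs' := hs π hπ
  have hh := S.haz.nonneg x
  set Q := Qf h h' x with hQ
  have hNδ : (N : ℝ) ≤ Real.exp (δ * h x) := by
    refine hN.trans ?_
    have h3 : (2 : ℝ) ≤ Real.exp (δ / 2 * h x) := by
      have h4 : 1 ≤ δ / 2 * h x := by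
        rw [div_le_iff₀ hδ] at hhx
        linarith
      have h5 := Real.add_one_le_exp (δ / 2 * h x)
      linarith
    calc 2 * Real.exp (σ * h x) ≤ Real.exp (δ / 2 * h x) * Real.exp (δ / 2 * h x) := by
          gcongr
      _ = Real.exp (δ * h x) := by
          rw [← Real.exp_add]
          congr 1
          ring
  set M := ⌊ε * x⌋₊ + 1 with hM
  have hMu : (M : ℝ) ≤ ε * x + 1 := by
    rw [hM]; push_cast
    have := Nat.floor_le (show 0 ≤ ε * x by positivity)
    linarith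
  have hn := hnice π hπ M hMu
  have hf0 : 0 < fOneH h h' μ ν K x := fOneH_pos S hx
  set P := π.prod (noise μ ν) with hP
  set Gn : ℕ → ℝ≥0∞ := fun n => P (oneBig x (β * x) (β * x) n ∩
          {q | q.1.1 ≤ ε * x ∧ (1 - ε) * x ≤ q.1.2 ∧ (1 - ε) * x ≤ (q.2 0).1}) with hGn
  set G := ENNReal.ofReal (Real.exp (-((2 + 2 * δ) * h x))) with hG
  have hone : ∀ n ∈ Finset.range N, P (oneBig x (β * x) (β * x) n ∩ {q | e * x < q.1.2}) ≤
      G + (if n < M then Gn n else 0) := by
    intro n hnN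
    have hnC : (n : ℝ) ≤ Real.exp (δ * h x) := by
      have : (n : ℝ) ≤ N := by exact_mod_cast (Finset.mem_range.mp hnN).le
      linarith
    by_cases hnε : (n : ℝ) ≤ ε * x
    · have hnM : n < M := by
        rw [hM]
        exact Nat.lt_succ_of_le (Nat.le_floor hnε)
      rw [if_pos hnM]
      refine le_trans (measure_mono ?_) ((measure_union_le _ _).trans
        (add_le_add (hf π hπ n hnC) (le_refl (Gn n))))
      intro q hq
      by_cases hq2 : q.1.1 ≤ ε * x ∧ (1 - ε) * x ≤ q.1.2 ∧ (1 - ε) * x ≤ (q.2 0).1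
      · exact Or.inr ⟨hq.1, hq2⟩
      · refine Or.inl ⟨hq.1, hq.2, ?_⟩
        intro h
        exact hq2 ⟨h.1, h.2.1, h.2.2.1⟩
    · refine le_trans ?_ le_self_add
      refine le_trans (measure_mono ?_) (hf π hπ n hnC)
      intro q hq
      exact ⟨hq.1, hq.2, fun h => hnε h.2.2.2⟩
  have hsum : ∑ n ∈ Finset.range N, P (oneBig x (β * x) (β * x) n ∩ {q | e * x < q.1.2}) ≤
      N * G + ∑ n ∈ Finset.range M, Gn n := by
    refine (Finset.sum_le_sum hone).trans ?_
    rw [Finset.sum_add_distrib, Finset.sum_const, Finset.card_range, nsmul_eq_mul]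
    gcongr
    rw [← Finset.sum_filter]
    apply Finset.sum_le_sum_of_subset
    intro i hi
    rw [Finset.mem_filter] at hi
    exact Finset.mem_range.mpr hi.2
  have hNG : (N : ℝ≥0∞) * G ≤ ENNReal.ofReal (ω / 4 * Q ^ 2) := by
    rw [hG, ← ENNReal.ofReal_natCast N, ← ENNReal.ofReal_mul (Nat.cast_nonneg N)]
    apply ENNReal.ofReal_le_ofReal
    refine le_trans ?_ herr
    rw [Real.rpow_zero, mul_one]
    have h3 : Real.exp (σ * h x) ≤ Real.exp (δ * h x) := by
      apply Real.exp_le_exp.mpr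
      have h4 : σ ≤ δ := by linarith
      gcongr
    calc (N : ℝ) * Real.exp (-((2 + 2 * δ) * h x))
        ≤ 2 * Real.exp (δ * h x) * Real.exp (-((2 + 2 * δ) * h x)) := by
          refine mul_le_mul_of_nonneg_right ?_ (Real.exp_pos _).le
          exact hN.trans (mul_le_mul_of_nonneg_left h3 (by norm_num))
      _ = 2 * Real.exp (-((2 + δ) * h x)) := by
          rw [mul_assoc, ← Real.exp_add]
          congr 2
          ring
  calc π {w | x < w.1} ≤ _ := hs'
    _ ≤ ENNReal.ofReal ((1 + ω / 4) * fOneH h h' μ ν K x + ω / 4 * Q ^ 2) +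
        (N * G + ENNReal.ofReal ((K2 μ ν + ω / 4) * Q ^ 2)) := by
        gcongr
        exact hsum.trans (by gcongr)
    _ ≤ ENNReal.ofReal ((1 + ω / 4) * fOneH h h' μ ν K x + ω / 4 * Q ^ 2) +
        (ENNReal.ofReal (ω / 4 * Q ^ 2) + ENNReal.ofReal ((K2 μ ν + ω / 4) * Q ^ 2)) := by
        gcongr
    _ = ENNReal.ofReal ((1 + ω / 4) * fOneH h h' μ ν K x + ω / 4 * Q ^ 2 +
        (ω / 4 * Q ^ 2 + (K2 μ ν + ω / 4) * Q ^ 2)) := by
        rw [← ENNReal.ofReal_add (by positivity) (by positivity),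
          ← ENNReal.ofReal_add (by positivity) (by positivity)]
    _ ≤ _ := by
        apply ENNReal.ofReal_le_ofReal
        have h3 : 0 ≤ ω / 4 * Q ^ 2 := by positivity
        have h4 : 0 ≤ ω * fOneH h h' μ ν K x := by positivity
        nlinarith

end Pool.Agent.Lib.MP_04add8_pr.Gen
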