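import Mathlib
import Pool.Agent.Lib.MP_04add8_pr.Gen.UpperA
import Pool.Agent.Lib.MP_04add8_pr.Gen.UpperB

open MeasureTheory ProbabilityTheory Filter Topology
open scoped ENNReal

set_option linter.unusedSectionVars false

namespace Pool.Agent.Lib.MP_04add8_pr.Gen

variable {h h' : ℝ → ℝ} {a : ℝ} {μ ν : Measure ℝ} [IsProbabilityMeasure μ]
  [IsProbabilityMeasure ν]

/-- **Upper bound** -/
theorem gupper (S : Std μ ν h h' a) {K : ℕ}
    (hK : 1 < (K + 1) * (1 - a)) {ω : ℝ} (hω : 0 < ω) :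
    ∀ᶠ x : ℝ in atTop, ∀ π : Measure (ℝ × ℝ), IsStationaryKW μ ν π →
      π {w | x < w.1} ≤ ENNReal.ofReal ((1 + ω) * fOneH h h' μ ν K x +
          (K2 μ ν + ω) * (Qf h h' x) ^ 2) := by
  have hK2 : 0 ≤ K2 μ ν := by
    have h1 := S.hm
    have h2 := S.hlt
    have h3 : 0 < 2 * (∫ t, t ∂ν) - ∫ s, s ∂μ := by linarith
    unfold K2
    positivity
  rcases lt_or_ge ((eta μ ν) ^ a) 2 with h2 | h2
  · filter_upwards [gupper_A S h2 hK hω] with x hx π hπ
    refine (hx π hπ).trans (ENNReal.ofReal_le_ofReal ?_)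
    have : 0 ≤ (Qf h h' x) ^ 2 := sq_nonneg _
    nlinarith
  · exact gupper_B S h2 hK hω

end Pool.Agent.Lib.MP_04add8_pr.Gen
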