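import Mathlib
import Pool.Agent.Lib.MP_04add8_pr.Gen.Upper
import Pool.Agent.Lib.MP_04add8_pr.Gen.Lower
import Pool.Agent.Lib.MP_04add8_pr.Gen.TailInt
import Pool.Agent.Lib.MP_04add8_pr.Gen.Err

open MeasureTheory ProbabilityTheory Filter Topology
open scoped ENNReal

set_option linter.unusedSectionVars false

namespace Pool.Agent.Lib.MP_04add8_pr.Gen

variable {h h' : ℝ → ℝ} {a : ℝ} {μ ν : Measure ℝ} [IsProbabilityMeasure μ]
  [IsProbabilityMeasure ν]

private lemma exact_two (S : Std μ ν h h' a) :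
    Tendsto (fun x : ℝ => K2 μ ν * integratedTail μ x ^ 2 / (Qf h h' x) ^ 2) atTop
      (𝓝 (K2 μ ν)) := by
  have h1 := (integratedTail_asymp S.haz S.law).pow 2
  have h2 := h1.const_mul (K2 μ ν)
  rw [one_pow, mul_one] at h2
  refine h2.congr fun x => ?_
  rw [div_pow]
  ring

/-- **Exact asymptotics** in the class of hazard functions `Haz`. Original:
`exact_critical` in `Crit/CritFinal.lean`. -/
theorem gexact (S : Std μ ν h h' a) {K : ℕ} (hK : 1 < (K + 1) * (1 - a))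
    {π : Measure (ℝ × ℝ)} (hπ : IsStationaryKW μ ν π) :
    Tendsto (fun x : ℝ => π.real {w | x < w.1} /
      (fOneH h h' μ ν K x + K2 μ ν * integratedTail μ x ^ 2)) atTop (𝓝 1) := by
  have hp : IsProbabilityMeasure π := hπ.1
  have hT := exact_two (ν := ν) S
  have hK20 : 0 < K2 μ ν := by
    have h1 := S.hm
    have h2 := S.hlt
    have h3 : 0 < 2 * (∫ t, t ∂ν) - ∫ s, s ∂μ := by linarith
    unfold K2
    positivity
  obtain ⟨k, hk⟩ : ∃ k : ℝ, k = K2 μ ν := ⟨_, rfl⟩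
  rw [← hk] at hT hK20
  rw [Metric.tendsto_atTop']
  intro η hη
  -- the slack
  obtain ⟨ω, hω, hω1, hωK, hωη, hωη1⟩ : ∃ ω : ℝ, 0 < ω ∧ ω < 1 ∧ ω < k ∧ ω ≤ η / 2 ∧
      4 * ω ≤ η * k := by
    refine ⟨min (min (1 / 2) (k / 2)) (min (η / 2) (η * k / 4)), ?_, ?_, ?_, ?_, ?_⟩
    · exact lt_min (lt_min (by norm_num) (by positivity)) (lt_min (by positivity) (by positivity))
    · exact lt_of_le_of_lt ((min_le_left _ _).trans (min_le_left _ _)) (by norm_num)
    · exact lt_of_le_of_lt ((min_le_left _ _).trans (min_le_right _ _)) (by linarith)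
    · exact (min_le_right _ _).trans (min_le_left _ _)
    · have : min (min (1 / 2) (k / 2)) (min (η / 2) (η * k / 4)) ≤ η * k / 4 :=
        (min_le_right _ _).trans (min_le_right _ _)
      linarith
  have hu := gupper S hK hω
  have hl := glower S hK hω hω1 (by rw [← hk]; exact hωK)
  -- the second term against `Qf ^ 2`
  have hT1 : ∀ᶠ x : ℝ in atTop, (k + ω) / (1 + η / 2) ≤
      k * integratedTail μ x ^ 2 / (Qf h h' x) ^ 2 := by
    apply hT.eventually_const_le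
    rw [div_lt_iff₀ (by positivity)]
    nlinarith
  have hT2 : ∀ᶠ x : ℝ in atTop,
      (1 - η / 2) * (k * integratedTail μ x ^ 2 / (Qf h h' x) ^ 2) ≤ k - ω := by
    apply (hT.const_mul (1 - η / 2)).eventually_le_const
    nlinarith
  obtain ⟨x0, hx0⟩ := eventually_atTop.mp
    ((hu.and hl).and ((hT1.and hT2).and (eventually_gt_atTop 0)))
  refine ⟨x0, ?_⟩
  intro x hx
  obtain ⟨⟨hu', hl'⟩, ⟨hT1', hT2'⟩, hxpos⟩ := hx0 x hx.le
  have hu'' := hu' π hπ
  have hl'' := hl' π hπ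
  rw [← hk] at hu'' hl'' ⊢
  have hQ0 : 0 < Qf h h' x := Qf_pos S.haz hxpos
  have hf1 : 0 < fOneH h h' μ ν K x := fOneH_pos S hxpos
  obtain ⟨f, hf⟩ : ∃ f : ℝ, f = fOneH h h' μ ν K x := ⟨_, rfl⟩
  obtain ⟨Q, hQ⟩ : ∃ Q : ℝ, Q = Qf h h' x := ⟨_, rfl⟩
  obtain ⟨g, hg⟩ : ∃ g : ℝ, g = k * integratedTail μ x ^ 2 := ⟨_, rfl⟩
  rw [← hf, ← hQ] at hu'' hl''
  rw [← hf, ← hg]
  rw [← hQ, ← hg] at hT1' hT2'
  rw [← hQ] at hQ0
  rw [← hf] at hf1
  rw [le_div_iff₀ (by positivity), div_mul_eq_mul_div, div_le_iff₀ (by positivity)] at hT1'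
  rw [mul_div_assoc', div_le_iff₀ (by positivity)] at hT2'
  have hf2 : 0 < g := by
    have : 0 < (k + ω) * Q ^ 2 := by positivity
    have h3 : 0 < g * (1 + η / 2) := lt_of_lt_of_le this hT1'
    by_contra hcon
    push Not at hcon
    have : g * (1 + η / 2) ≤ 0 := mul_nonpos_of_nonpos_of_nonneg hcon (by positivity)
    linarith
  have hfg : 0 < f + g := by positivity
  have e1 : π.real {w | x < w.1} ≤ (1 + ω) * f + (k + ω) * Q ^ 2 := by
    rw [measureReal_def]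
    exact ENNReal.toReal_le_of_le_ofReal (by positivity) hu''
  have e2 : (1 - ω) * f + (k - ω) * Q ^ 2 ≤ π.real {w | x < w.1} := by
    rw [measureReal_def]
    exact (ENNReal.ofReal_le_iff_le_toReal (measure_ne_top _ _)).mp hl''
  rw [Real.dist_eq, abs_lt]
  constructor
  · rw [lt_sub_iff_add_lt, lt_div_iff₀ hfg]
    nlinarith
  · rw [sub_lt_iff_lt_add, div_lt_iff₀ hfg]
    nlinarith

end Pool.Agent.Lib.MP_04add8_pr.Gen
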