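import Mathlib
import Pool.Agent.Lib.MP_04add8_pr.Gen.IntrDefs
import Pool.Agent.Lib.MP_04add8_pr.Gen.Opt
import Pool.Agent.Lib.MP_04add8_pr.Gen.LawM
import Pool.Agent.Lib.MP_04add8_pr.Gen.TailB

open MeasureTheory ProbabilityTheory Filter Topology
open scoped ENNReal

set_option linter.unusedSectionVars false

namespace Pool.Agent.Lib.MP_04add8_pr.Gen

variable {h h' : ℝ → ℝ} {a : ℝ} {μ ν : Measure ℝ} [IsProbabilityMeasure μ]
  [IsProbabilityMeasure ν]

/-- real version of `Law.asy` -/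
private lemma Intr_asy (L : Law μ h) {ω : ℝ} (hω : 0 < ω) (hω1 : ω < 1) : ∀ᶠ x : ℝ in atTop,
    (1 - ω) * Real.exp (-(h x)) ≤ μ.real (Set.Ioi x) ∧
      μ.real (Set.Ioi x) ≤ (1 + ω) * Real.exp (-(h x)) := by
  filter_upwards [L.asy ω hω] with x hx
  have h1 : 0 ≤ (1 - ω) * Real.exp (-(h x)) := mul_nonneg (by linarith) (Real.exp_pos _).le
  have h2 : 0 ≤ (1 + ω) * Real.exp (-(h x)) := mul_nonneg (by linarith) (Real.exp_pos _).le
  exact ⟨(ENNReal.ofReal_le_iff_le_toReal (measure_ne_top μ _)).1 hx.1,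
    ENNReal.toReal_le_of_le_ofReal h2 hx.2⟩

private lemma Intr_pos (L : Law μ h) (x : ℝ) : 0 < μ.real (Set.Ioi x) := by
  obtain ⟨y, hy1, hy2⟩ := ((Intr_asy L (ω := 1 / 2) (by norm_num) (by norm_num)).and
    (eventually_ge_atTop x)).exists
  have h1 : 0 < (1 - 1 / 2 : ℝ) * Real.exp (-(h y)) := by positivity
  have h2 : μ.real (Set.Ioi y) ≤ μ.real (Set.Ioi x) :=
    measureReal_mono (Set.Ioi_subset_Ioi hy2)
  linarith [hy1.1]

/-- the logarithmic tail of the law -/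
private noncomputable def Intr_hb (μ : Measure ℝ) (y : ℝ) : ℝ := -Real.log (μ.real (Set.Ioi y))

private lemma Intr_hb_nonneg (y : ℝ) : 0 ≤ Intr_hb μ y := by
  unfold Intr_hb
  have h1 : Real.log (μ.real (Set.Ioi y)) ≤ 0 :=
    Real.log_nonpos measureReal_nonneg measureReal_le_one
  linarith

private lemma Intr_hb_mono (L : Law μ h) {x y : ℝ} (hxy : x ≤ y) : Intr_hb μ x ≤ Intr_hb μ y := by
  unfold Intr_hb
  have h1 := Real.log_le_log (Intr_pos L y)
    (measureReal_mono (Set.Ioi_subset_Ioi hxy) : μ.real (Set.Ioi y) ≤ μ.real (Set.Ioi x))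
  linarith

private lemma Intr_hb_close (L : Law μ h) {ω : ℝ} (hω : 0 < ω) : ∀ᶠ y : ℝ in atTop,
    |Intr_hb μ y - h y| ≤ ω := by
  have he : Real.exp (-ω) < 1 := by
    rw [Real.exp_lt_one_iff]
    linarith
  have he0 := Real.exp_pos (-ω)
  filter_upwards [Intr_asy L (ω := 1 - Real.exp (-ω)) (by linarith) (by linarith)] with y hy
  have hp := Intr_pos L y
  have hE := Real.exp_pos (-(h y))
  rw [abs_le]
  unfold Intr_hb
  constructor
  · -- `log μ ≤ ω - h`
    have h1 : μ.real (Set.Ioi y) ≤ Real.exp ω * Real.exp (-(h y)) := by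
      refine hy.2.trans (mul_le_mul_of_nonneg_right ?_ hE.le)
      have h2 : 1 - ω ≤ Real.exp (-ω) := by
        have := Real.add_one_le_exp (-ω)
        linarith
      have h3 : 1 + ω ≤ Real.exp ω := by
        have := Real.add_one_le_exp ω
        linarith
      linarith
    have h2 := Real.log_le_log hp h1
    rw [← Real.exp_add, Real.log_exp] at h2
    linarith
  · have h1 : Real.exp (-ω) * Real.exp (-(h y)) ≤ μ.real (Set.Ioi y) := by
      refine le_trans (le_of_eq ?_) hy.1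
      ring
    have h2 := Real.log_le_log (by positivity) h1
    rw [← Real.exp_add, Real.log_exp] at h2
    linarith

/-- all properties of the comparison for one `ω` -/
private lemma Intr_compare (H : Haz h h' a) (L : Law μ h) {ω : ℝ} (hω : 0 < ω) :
    ∃ θ1 : ℝ, 0 < θ1 ∧ ∀ θ : ℝ, 0 < θ → θ ≤ θ1 → |tG μ θ - hG h θ| ≤ ω := by
  obtain ⟨Y, hY, hY0⟩ : ∃ Y : ℝ, (∀ y, Y ≤ y → |Intr_hb μ y - h y| ≤ ω) ∧ 0 < Y := by
    obtain ⟨Y, hY⟩ := ((Intr_hb_close L hω).and (eventually_gt_atTop (0 : ℝ))).exists_forall_of_atTop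
    exact ⟨Y, fun y hy => (hY y hy).1, (hY Y le_rfl).2⟩
  -- `hG θ ≥ hb Y` for small `θ`
  obtain ⟨X, hX, hX0⟩ := ((H.tendsto_h.eventually_ge_atTop (Intr_hb μ Y + 1)).and
    (eventually_gt_atTop (0 : ℝ))).exists
  refine ⟨min (h' Y) (1 / X), lt_min (H.pos Y hY0) (by positivity), ?_⟩
  intro θ hθ hθ1
  have hθY : θ ≤ h' Y := hθ1.trans (min_le_left _ _)
  have hθX : θ ≤ 1 / X := hθ1.trans (min_le_right _ _)
  have hGY : Intr_hb μ Y ≤ hG h θ := by
    have h1 := le_hG H hθ hX0.le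
    have h2 : θ * X ≤ 1 := by
      have := mul_le_mul_of_nonneg_right hθX hX0.le
      rwa [one_div_mul_cancel hX0.ne'] at this
    linarith
  -- the values are at most `hG θ + ω`
  have hup : ∀ y : ℝ, 0 ≤ y → Intr_hb μ y - θ * y ≤ hG h θ + ω := by
    intro y hy
    rcases le_total y Y with h1 | h1
    · have h2 := Intr_hb_mono L h1
      have h3 : 0 ≤ θ * y := mul_nonneg hθ.le hy
      linarith
    · have h2 := (abs_le.1 (hY y h1)).2
      have h3 := le_hG H hθ hy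
      linarith
  have hbdd : BddAbove ((fun y : ℝ => -Real.log (μ.real (Set.Ioi y)) - θ * y) '' Set.Ici 0) := by
    refine ⟨hG h θ + ω, ?_⟩
    rintro _ ⟨y, hy, rfl⟩
    exact hup y hy
  have hne : ((fun y : ℝ => -Real.log (μ.real (Set.Ioi y)) - θ * y) '' Set.Ici 0).Nonempty :=
    ⟨_, 0, Set.mem_Ici.2 le_rfl, rfl⟩
  have h1 : tG μ θ ≤ hG h θ + ω := by
    refine csSup_le hne ?_
    rintro _ ⟨y, hy, rfl⟩
    exact hup y hy
  have hle : ∀ y : ℝ, 0 ≤ y → Intr_hb μ y - θ * y ≤ tG μ θ := fun y hy =>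
    le_csSup hbdd ⟨y, hy, rfl⟩
  have h2 : hG h θ ≤ tG μ θ + ω := by
    refine csSup_le ⟨_, 0, Set.mem_Ici.2 le_rfl, rfl⟩ ?_
    rintro _ ⟨y, hy, rfl⟩
    have hy' : (0 : ℝ) ≤ y := hy
    change h y - θ * y ≤ tG μ θ + ω
    have hlarge : ∀ z, Y ≤ z → h z - θ * z ≤ tG μ θ + ω := by
      intro z hz
      have h3 := (abs_le.1 (hY z hz)).1
      have h4 := hle z (hY0.le.trans hz)
      linarith
    rcases le_total y Y with h3 | h3
    · have h4 := H.tangent hY0 (y := y - Y) (by linarith)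
      rw [add_sub_cancel] at h4
      have h5 : θ * (Y - y) ≤ h' Y * (Y - y) :=
        mul_le_mul_of_nonneg_right hθY (sub_nonneg.2 h3)
      have h6 := hlarge Y le_rfl
      nlinarith
    · exact hlarge y h3
  rw [abs_le]
  constructor <;> linarith

private lemma Intr_tG_nonneg (H : Haz h h' a) (L : Law μ h) {θ : ℝ} (hθ : 0 < θ) :
    0 ≤ tG μ θ := by
  -- the set is bounded above
  obtain ⟨Y, hY⟩ := ((Intr_hb_close L one_pos).and
    (eventually_gt_atTop (0 : ℝ))).exists_forall_of_atTop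
  have hbdd : BddAbove ((fun y : ℝ => -Real.log (μ.real (Set.Ioi y)) - θ * y) '' Set.Ici 0) := by
    refine ⟨max (hG h θ + 1) (Intr_hb μ Y), ?_⟩
    rintro _ ⟨y, hy, rfl⟩
    have hy' : (0 : ℝ) ≤ y := hy
    change Intr_hb μ y - θ * y ≤ _
    rcases le_total y Y with h1 | h1
    · have h2 := Intr_hb_mono L h1
      have h3 : 0 ≤ θ * y := mul_nonneg hθ.le hy'
      exact le_max_of_le_right (by linarith)
    · have h2 := (abs_le.1 (hY y h1).1).2
      have h3 := le_hG H hθ hy'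
      exact le_max_of_le_left (by linarith)
  have h1 : Intr_hb μ 0 - θ * 0 ≤ tG μ θ := le_csSup hbdd ⟨0, Set.mem_Ici.2 le_rfl, rfl⟩
  have h2 := Intr_hb_nonneg (μ := μ) 0
  linarith

/-- **The rate function does not depend on the choice of `h`**. Let
`hb y = -log μ (y, ∞)`; `|hb y - h y| ≤ ω` for `y ≥ Y` (`Law.asy`), `0 ≤ hb y ≤ hb Y` for
`0 ≤ y ≤ Y` (monotonicity, `μ (Ioi y) ≤ 1`, `μ (Ioi Y) > 0`). Upper bound: `tG θ ≤ max (hG θ + ω)
(hb Y)` and `hG θ ≥ h (1/θ) - 1 → ∞` as `θ → 0`. Lower bound: for `θ ≤ h' Y` the supremum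
`hG θ` is the supremum over `y ≥ Y` (`h y - θ y` is nondecreasing on `[0, Y]`), so
`tG θ ≥ hG θ - ω`. So `|tG θ - hG θ| ≤ ω` for `θ < θ_ω`; for `θ ≥ θ_ω` both
`hG θ + x (θ + β θ) ≥ x θ_ω` and `tG θ + x (θ + β θ) ≥ x θ_ω` (`tG ≥ 0`: `y = 0`), while the
value at `θ = h' x` is `≤ h x + x C h' x = o(x)` (`Haz.tendsto_div`, `Haz.mul_deriv_le`). -/
theorem trate_close (H : Haz h h' a) (L : Law μ h) {β : ℝ → ℝ} (hβ0 : ∀ θ, 0 ≤ β θ)
    (hβ : ∃ C θ0 : ℝ, 0 < θ0 ∧ ∀ θ : ℝ, 0 < θ → θ < θ0 → β θ ≤ C * θ) :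
    Tendsto (fun x : ℝ => tRate μ β x - hRate h β x) atTop (𝓝 0) := by
  obtain ⟨C, θ0, hθ0, hβC⟩ := hβ
  rw [Metric.tendsto_nhds]
  intro ε hε
  set ω : ℝ := ε / 2 with hωdef
  have hω : 0 < ω := by positivity
  obtain ⟨θ1, hθ1, hcmp⟩ := Intr_compare H L hω
  have e1 : ∀ᶠ x : ℝ in atTop, h' x < θ1 := H.tendsto_deriv.eventually_lt_const hθ1
  have e2 : ∀ᶠ x : ℝ in atTop, h' x < θ0 := H.tendsto_deriv.eventually_lt_const hθ0
  have e3 : ∀ᶠ x : ℝ in atTop, h x / x < θ1 / (1 + |C|) :=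
    H.tendsto_div.eventually_lt_const (by positivity)
  filter_upwards [e1, e2, e3, eventually_gt_atTop (0 : ℝ)] with x h1 h2 h3 hx
  -- the value at `h' x`
  have hpx := H.pos x hx
  set V : ℝ := hG h (h' x) + x * (h' x + β (h' x)) with hV
  have hVle : V ≤ (1 + |C|) * h x := by
    rw [hV, hG_deriv H hx]
    have h4 := hβC (h' x) hpx h2
    have h5 : x * β (h' x) ≤ |C| * (x * h' x) := by
      have h6 : C * h' x ≤ |C| * h' x := mul_le_mul_of_nonneg_right (le_abs_self C) hpx.le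
      have h7 := mul_le_mul_of_nonneg_left (h4.trans h6) hx.le
      linarith [mul_left_comm x |C| (h' x)]
    have h8 : |C| * (x * h' x) ≤ |C| * h x :=
      mul_le_mul_of_nonneg_left (H.mul_deriv_le hx) (abs_nonneg C)
    nlinarith
  have hbig : (1 + |C|) * h x ≤ x * θ1 := by
    rw [div_lt_iff₀ hx, div_mul_eq_mul_div, lt_div_iff₀ (by positivity)] at h3
    linarith [mul_comm (h x) (1 + |C|), mul_comm θ1 x]
  -- lower bounds of both families
  have hbh : BddBelow ((fun θ : ℝ => hG h θ + x * (θ + β θ)) '' Set.Ioi 0) := by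
    refine ⟨0, ?_⟩
    rintro _ ⟨θ, hθ, rfl⟩
    have hθ' : (0 : ℝ) < θ := hθ
    have := hG_nonneg H hθ'
    have h4 : 0 ≤ x * (θ + β θ) := mul_nonneg hx.le (add_nonneg hθ'.le (hβ0 θ))
    show 0 ≤ hG h θ + x * (θ + β θ)
    linarith
  have hbt : BddBelow ((fun θ : ℝ => tG μ θ + x * (θ + β θ)) '' Set.Ioi 0) := by
    refine ⟨0, ?_⟩
    rintro _ ⟨θ, hθ, rfl⟩
    have hθ' : (0 : ℝ) < θ := hθ
    have := Intr_tG_nonneg H L hθ'
    have h4 : 0 ≤ x * (θ + β θ) := mul_nonneg hx.le (add_nonneg hθ'.le (hβ0 θ))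
    show 0 ≤ tG μ θ + x * (θ + β θ)
    linarith
  have hhV : hRate h β x ≤ V := csInf_le hbh ⟨h' x, hpx, rfl⟩
  have htV : tRate μ β x ≤ V + ω := by
    have h4 : tRate μ β x ≤ tG μ (h' x) + x * (h' x + β (h' x)) :=
      csInf_le hbt ⟨h' x, hpx, rfl⟩
    have h5 := (abs_le.1 (hcmp (h' x) hpx h1.le)).2
    linarith
  have hA : hRate h β x - ω ≤ tRate μ β x := by
    refine le_csInf ⟨_, h' x, hpx, rfl⟩ ?_
    rintro _ ⟨θ, hθ, rfl⟩
    have hθ' : (0 : ℝ) < θ := hθ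
    change hRate h β x - ω ≤ tG μ θ + x * (θ + β θ)
    rcases le_total θ θ1 with h4 | h4
    · have h5 := (abs_le.1 (hcmp θ hθ' h4)).1
      have h6 : hRate h β x ≤ hG h θ + x * (θ + β θ) := csInf_le hbh ⟨θ, hθ', rfl⟩
      linarith
    · have h5 := Intr_tG_nonneg H L hθ'
      have h6 : x * θ1 ≤ x * (θ + β θ) :=
        mul_le_mul_of_nonneg_left (by linarith [hβ0 θ]) hx.le
      linarith
  have hB : tRate μ β x - ω ≤ hRate h β x := by
    refine le_csInf ⟨_, h' x, hpx, rfl⟩ ?_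
    rintro _ ⟨θ, hθ, rfl⟩
    have hθ' : (0 : ℝ) < θ := hθ
    change tRate μ β x - ω ≤ hG h θ + x * (θ + β θ)
    rcases le_total θ θ1 with h4 | h4
    · have h5 := (abs_le.1 (hcmp θ hθ' h4)).2
      have h6 : tRate μ β x ≤ tG μ θ + x * (θ + β θ) := csInf_le hbt ⟨θ, hθ', rfl⟩
      linarith
    · have h5 := hG_nonneg H hθ'
      have h6 : x * θ1 ≤ x * (θ + β θ) :=
        mul_le_mul_of_nonneg_left (by linarith [hβ0 θ]) hx.le
      linarith
  rw [Real.dist_eq, sub_zero, abs_lt]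
  constructor <;> linarith

/-- the mean residual life is asymptotic to `1 / h'`: `integratedTail_asymp` and `Law.asy` -/
theorem resid_asymp (H : Haz h h' a) (L : Law μ h) :
    Tendsto (fun x : ℝ => integratedTail μ x / μ.real (Set.Ioi x) * h' x) atTop (𝓝 1) := by
  have h1 := integratedTail_asymp H L
  have h2 : Tendsto (fun x : ℝ => μ.real (Set.Ioi x) / Real.exp (-(h x))) atTop (𝓝 1) := by
    rw [Metric.tendsto_nhds]
    intro ε hε
    have hω : 0 < min (ε / 2) (1 / 2) := by positivity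
    have hω1 : min (ε / 2) (1 / 2) < 1 := lt_of_le_of_lt (min_le_right _ _) (by norm_num)
    filter_upwards [Intr_asy L hω hω1] with x hx
    have hE := Real.exp_pos (-(h x))
    have h3 : min (ε / 2) (1 / 2) ≤ ε / 2 := min_le_left _ _
    rw [Real.dist_eq, abs_sub_lt_iff]
    constructor
    · have h4 : μ.real (Set.Ioi x) / Real.exp (-(h x)) ≤ 1 + min (ε / 2) (1 / 2) := by
        rw [div_le_iff₀ hE]
        exact hx.2
      linarith
    · have h4 : 1 - min (ε / 2) (1 / 2) ≤ μ.real (Set.Ioi x) / Real.exp (-(h x)) := by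
        rw [le_div_iff₀ hE]
        exact hx.1
      linarith
  have h3 := h1.div h2 one_ne_zero
  rw [div_one] at h3
  refine h3.congr' ?_
  filter_upwards [eventually_gt_atTop (0 : ℝ)] with x hx
  have hp := Intr_pos L x
  have hE := Real.exp_pos (-(h x))
  have hq := H.pos x hx
  show integratedTail μ x / Qf h h' x / (μ.real (Set.Ioi x) / Real.exp (-(h x))) =
    integratedTail μ x / μ.real (Set.Ioi x) * h' x
  unfold Qf
  field_simp

end Pool.Agent.Lib.MP_04add8_pr.Gen
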