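import Mathlib
import Pool.Agent.Lib.MP_04add8_pr.Gen.Exact
import Pool.Agent.Lib.MP_04add8_pr.Gen.Intr
import Pool.Agent.Lib.MP_04add8_pr.Gen.Beta

open MeasureTheory ProbabilityTheory Filter Topology
open scoped ENNReal

set_option linter.unusedSectionVars false

namespace Pool.Agent.Lib.MP_04add8_pr.Gen

variable {h h' : ℝ → ℝ} {a : ℝ} {μ ν : Measure ℝ} [IsProbabilityMeasure μ]
  [IsProbabilityMeasure ν]

private lemma exI_beta (S : Std μ ν h h' a) {K : ℕ} (hK : 1 ≤ K) :
    ∃ C θ0 : ℝ, 0 < θ0 ∧ ∀ θ : ℝ, 0 < θ → θ < θ0 → cramerRoot μ ν K θ ≤ C * θ := by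
  have h1 := gbeta_limit S hK
  have h2 : ∀ᶠ θ in 𝓝[>] (0 : ℝ), cramerRoot μ ν K θ / θ < eta μ ν :=
    h1.eventually (gt_mem_nhds (by linarith))
  obtain ⟨θ0, hθ0, hθ⟩ := (mem_nhdsGT_iff_exists_Ioo_subset).1 h2
  refine ⟨eta μ ν, θ0, hθ0, ?_⟩
  intro θ h3 h4
  have h5 : cramerRoot μ ν K θ / θ < eta μ ν := hθ ⟨h3, h4⟩
  rw [div_lt_iff₀ h3] at h5
  exact h5.le

/-- **Exact asymptotics, intrinsic form** -/
theorem gexact_intr (S : Std μ ν h h' a) {K : ℕ} (hK : 1 < (K + 1) * (1 - a))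
    {π : Measure (ℝ × ℝ)} (hπ : IsStationaryKW μ ν π) :
    Tendsto (fun x : ℝ => π.real {w | x < w.1} /
      (Real.exp (-(tRate μ (cramerRoot μ ν K) x)) *
          (integratedTail μ (eta μ ν * x) / μ.real (Set.Ioi (eta μ ν * x))) /
          (2 * (∫ t, t ∂ν) - ∫ s, s ∂μ) +
        K2 μ ν * integratedTail μ x ^ 2)) atTop (𝓝 1) := by
  have hK1 : 1 ≤ K := by
    rcases Nat.eq_zero_or_pos K with h0 | h0
    · subst h0
      have := S.haz.a0
      norm_num at hK
      linarith
    · exact h0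
  have hc : 0 < 2 * (∫ t, t ∂ν) - ∫ s, s ∂μ := by linarith [S.hlt]
  have hη := two_lt_eta S
  have hK2 : 0 ≤ K2 μ ν := by
    unfold K2
    have := S.hm
    positivity
  have hex := gexact S hK hπ
  have hcl := trate_close S.haz S.law (β := cramerRoot μ ν K) (fun θ => cramerRoot_nonneg K θ)
    (exI_beta S hK1)
  have hres : Tendsto (fun x : ℝ => integratedTail μ (eta μ ν * x) /
      μ.real (Set.Ioi (eta μ ν * x)) * h' (eta μ ν * x)) atTop (𝓝 1) :=
    (resid_asymp S.haz S.law).comp (tendsto_id.const_mul_atTop (by linarith : 0 < eta μ ν))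
  -- the ratio of the first terms
  have hq : Tendsto (fun x : ℝ => Real.exp (-(tRate μ (cramerRoot μ ν K) x -
      hRate h (cramerRoot μ ν K) x)) * (integratedTail μ (eta μ ν * x) /
      μ.real (Set.Ioi (eta μ ν * x)) * h' (eta μ ν * x))) atTop (𝓝 1) := by
    have h1 : Tendsto (fun x : ℝ => Real.exp (-(tRate μ (cramerRoot μ ν K) x -
      hRate h (cramerRoot μ ν K) x))) atTop (𝓝 (Real.exp (-0))) :=
      (Real.continuous_exp.tendsto _).comp hcl.neg
    have h2 := h1.mul hres
    simpa using h2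
  set A : ℝ → ℝ := fun x => fOneH h h' μ ν K x with hA
  set A' : ℝ → ℝ := fun x => Real.exp (-(tRate μ (cramerRoot μ ν K) x)) *
          (integratedTail μ (eta μ ν * x) / μ.real (Set.Ioi (eta μ ν * x))) /
          (2 * (∫ t, t ∂ν) - ∫ s, s ∂μ) with hA'
  set B : ℝ → ℝ := fun x => K2 μ ν * integratedTail μ x ^ 2 with hB
  have hB0 : ∀ x, 0 ≤ B x := fun x => mul_nonneg hK2 (sq_nonneg _)
  have hA0 : ∀ x, 0 < x → 0 < A x := by
    intro x hx
    have h1 := S.haz.pos (eta μ ν * x) (mul_pos (by linarith) hx)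
    simp only [hA]
    unfold fOneH
    positivity
  have hAA : ∀ x, 0 < x → A' x = A x * (Real.exp (-(tRate μ (cramerRoot μ ν K) x -
      hRate h (cramerRoot μ ν K) x)) * (integratedTail μ (eta μ ν * x) /
      μ.real (Set.Ioi (eta μ ν * x)) * h' (eta μ ν * x))) := by
    intro x hx
    have h1 := S.haz.pos (eta μ ν * x) (mul_pos (by linarith) hx)
    simp only [hA, hA']
    unfold fOneH
    have h2 : Real.exp (-(tRate μ (cramerRoot μ ν K) x)) =
        Real.exp (-(hRate h (cramerRoot μ ν K) x)) * Real.exp (-(tRate μ (cramerRoot μ ν K) x -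
          hRate h (cramerRoot μ ν K) x)) := by
      rw [← Real.exp_add]
      ring_nf
    rw [h2]
    field_simp
  set q : ℝ → ℝ := fun x => Real.exp (-(tRate μ (cramerRoot μ ν K) x -
      hRate h (cramerRoot μ ν K) x)) * (integratedTail μ (eta μ ν * x) /
      μ.real (Set.Ioi (eta μ ν * x)) * h' (eta μ ν * x)) with hqdef
  have hr : Tendsto (fun x => (A' x + B x) / (A x + B x)) atTop (𝓝 1) := by
    have h1 : Tendsto (fun x => |q x - 1|) atTop (𝓝 0) := by
      have := (hq.sub_const 1).abs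
      simpa using this
    rw [tendsto_iff_norm_sub_tendsto_zero]
    refine squeeze_zero' (Eventually.of_forall fun x => norm_nonneg _) ?_ h1
    filter_upwards [eventually_gt_atTop 0] with x hx
    have h2 := hA0 x hx
    have h3 := hB0 x
    have h4 : 0 < A x + B x := by linarith
    have h5 : (A' x + B x) / (A x + B x) - 1 = A x * (q x - 1) / (A x + B x) := by
      rw [hAA x hx]
      field_simp
      ring
    rw [h5, Real.norm_eq_abs, abs_div, abs_mul, abs_of_pos h2, abs_of_pos h4, div_le_iff₀ h4]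
    have h6 : 0 ≤ |q x - 1| := abs_nonneg _
    nlinarith [mul_nonneg h6 h3]
  have hr' := hex.div hr one_ne_zero
  rw [div_one] at hr'
  refine hr'.congr' ?_
  filter_upwards [eventually_gt_atTop 0] with x hx
  have h2 := hA0 x hx
  have h3 := hB0 x
  have h4 : 0 < A x + B x := by linarith
  show π.real {w | x < w.1} / (A x + B x) / ((A' x + B x) / (A x + B x)) =
    π.real {w | x < w.1} / (A' x + B x)
  rw [div_div, mul_div_cancel₀ _ h4.ne']

end Pool.Agent.Lib.MP_04add8_pr.Gen
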