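import Mathlib
import Pool.Agent.Lib.MP_04add8_pr.Gen.Base
import Pool.Agent.Lib.MP_04add8_pr.Gen.RVA

open MeasureTheory ProbabilityTheory Filter Topology
open scoped ENNReal

set_option linter.unusedSectionVars false

namespace Pool.Agent.Lib.MP_04add8_pr.Gen

variable {h h' : ℝ → ℝ} {a : ℝ} {μ ν : Measure ℝ} [IsProbabilityMeasure μ]
  [IsProbabilityMeasure ν]

/-- linear extension below `x1`, plus the constant `c` -/
private noncomputable def Ext_g (h q : ℝ → ℝ) (x1 c : ℝ) (y : ℝ) : ℝ :=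
  h (max y x1) + q x1 * (min (max y 0) x1 - x1) + c

private lemma Ext_g_ge {h q : ℝ → ℝ} {x1 c y : ℝ} (hx1 : 0 < x1) (hy : x1 ≤ y) :
    Ext_g h q x1 c y = h y + c := by
  unfold Ext_g
  rw [max_eq_left hy, max_eq_left (hx1.le.trans hy), min_eq_right hy]
  ring

private lemma Ext_g_le {h q : ℝ → ℝ} {x1 c y : ℝ} (hy0 : 0 ≤ y) (hy : y ≤ x1) :
    Ext_g h q x1 c y = h x1 + q x1 * (y - x1) + c := by
  unfold Ext_g
  rw [max_eq_right hy, max_eq_left hy0, min_eq_left hy]

private lemma Ext_aux {h q : ℝ → ℝ} {a x₀ : ℝ} (ha0 : 0 ≤ a) (ha1 : a < 1) (hx₀ : 0 ≤ x₀)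
    (hd : ∀ x, x₀ < x → HasDerivAt h (q x) x) (hq : ∀ x, x₀ < x → 0 < q x)
    (hanti : ∀ x y, x₀ < x → x ≤ y → q y ≤ q x)
    (hcurv : ∃ C : ℝ, ∀ x y : ℝ, x₀ < x → x ≤ y → x ^ C * q x ≤ y ^ C * q y)
    (hrv : ∀ l : ℝ, 0 < l → Tendsto (fun x => q (l * x) / q x) atTop (𝓝 (l ^ (a - 1))))
    (hbig : Tendsto (fun x : ℝ => x * q x) atTop atTop) {x1 c : ℝ} (hx1 : x₀ < x1)
    (hc : 0 ≤ h x1 - x1 * q x1 + c) :
    Haz (Ext_g h q x1 c) (fun y => q (max y x1)) a := by
  have hx1p : 0 < x1 := lt_of_le_of_lt hx₀ hx1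
  have hgt : ∀ y : ℝ, x₀ < max y x1 := fun y => lt_of_lt_of_le hx1 (le_max_right _ _)
  have hant : Antitone (fun y => q (max y x1)) := by
    intro y z hyz
    exact hanti _ _ (hgt y) (max_le_max_right x1 hyz)
  refine ⟨ha0, ha1, ?_, ?_, ?_, hant.measurable, ?_, ?_, ?_, ?_, ?_, ?_⟩
  · -- continuity
    have h1 : Continuous fun y : ℝ => h (max y x1) := by
      rw [continuous_iff_continuousAt]
      intro y
      have h2 : ContinuousAt h (max y x1) := (hd _ (hgt y)).continuousAt
      have h3 : ContinuousAt (fun y : ℝ => max y x1) y := by fun_prop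
      exact ContinuousAt.comp (f := fun y : ℝ => max y x1) h2 h3
    have h4 : Continuous fun y : ℝ => q x1 * (min (max y 0) x1 - x1) + c := by fun_prop
    have h5 := h1.add h4
    refine h5.congr fun y => ?_
    simp only [Pi.add_apply, Ext_g]
    ring
  · intro x hx
    unfold Ext_g
    rw [max_eq_right (hx.trans hx1p.le), max_eq_right hx1p.le, max_eq_right hx, max_self]
  · rw [Ext_g_le le_rfl hx1p.le]
    linarith
  · intro x hx
    rcases lt_trichotomy x x1 with h1 | h1 | h1
    · have h2 : HasDerivAt (fun y : ℝ => h x1 + q x1 * (y - x1) + c) (q x1) x := by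
        have := (((hasDerivAt_id x).sub_const x1).const_mul (q x1)).const_add (h x1)
        simpa using this.add_const c
      rw [show max x x1 = x1 from max_eq_right h1.le]
      refine h2.congr_of_eventuallyEq ?_
      filter_upwards [lt_mem_nhds hx, gt_mem_nhds h1] with y hy1 hy2
      exact Ext_g_le hy1.le hy2.le
    · subst h1
      rw [max_self]
      have hR : HasDerivWithinAt (Ext_g h q x c) (q x) (Set.Ici x) x := by
        have h4 : HasDerivWithinAt (fun y => h y + c) (q x) (Set.Ici x) x :=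
          ((hd x hx1).add_const c).hasDerivWithinAt
        exact h4.congr (fun y hy => Ext_g_ge hx hy) (Ext_g_ge hx le_rfl)
      have hL : HasDerivWithinAt (Ext_g h q x c) (q x) (Set.Icc 0 x) x := by
        have h4 : HasDerivWithinAt (fun y : ℝ => h x + q x * (y - x) + c) (q x) (Set.Icc 0 x) x := by
          have := (((hasDerivAt_id x).sub_const x).const_mul (q x)).const_add (h x)
          have h5 : HasDerivAt (fun y : ℝ => h x + q x * (y - x) + c) (q x) x := by
            simpa using this.add_const c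
          exact h5.hasDerivWithinAt
        exact h4.congr (fun y hy => Ext_g_le hy.1 hy.2) (Ext_g_le hx.le le_rfl)
      have hU := hL.union hR
      have h6 : Set.Icc 0 x ∪ Set.Ici x = Set.Ici 0 := Set.Icc_union_Ici_eq_Ici hx.le
      rw [h6] at hU
      exact hU.hasDerivAt (Ici_mem_nhds hx)
    · have h2 : HasDerivAt (fun y : ℝ => h y + c) (q x) x := (hd x (hx1.trans h1)).add_const c
      rw [show max x x1 = x from max_eq_left h1.le]
      refine h2.congr_of_eventuallyEq ?_
      filter_upwards [lt_mem_nhds h1] with y hy1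
      exact Ext_g_ge hx1p hy1.le
  · intro x _
    exact hq _ (hgt x)
  · intro x y _ hxy
    exact hant hxy
  · obtain ⟨C0, hC0⟩ := hcurv
    refine ⟨max C0 0, le_max_right _ _, ?_⟩
    set C := max C0 0 with hC
    have hC1 : 0 ≤ C - C0 := sub_nonneg.2 (le_max_left _ _)
    have key : ∀ x y : ℝ, x₀ < x → x ≤ y → x ^ C * q x ≤ y ^ C * q y := by
      intro x y hx hxy
      have hxp : 0 < x := lt_of_le_of_lt hx₀ hx
      have hyp : 0 < y := lt_of_lt_of_le hxp hxy
      have e1 : x ^ C = x ^ (C - C0) * x ^ C0 := by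
        rw [← Real.rpow_add hxp]; congr 1; ring
      have e2 : y ^ C = y ^ (C - C0) * y ^ C0 := by
        rw [← Real.rpow_add hyp]; congr 1; ring
      rw [e1, e2, mul_assoc, mul_assoc]
      refine mul_le_mul (Real.rpow_le_rpow hxp.le hxy hC1) (hC0 x y hx hxy) ?_ ?_
      · exact mul_nonneg (Real.rpow_nonneg hxp.le _) (hq x hx).le
      · exact Real.rpow_nonneg hyp.le _
    intro x y hx hxy
    have hyp : 0 < y := lt_of_lt_of_le hx hxy
    show x ^ C * q (max x x1) ≤ y ^ C * q (max y x1)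
    rcases le_total x x1 with h1 | h1
    · rw [max_eq_right h1]
      rcases le_total y x1 with h2 | h2
      · rw [max_eq_right h2]
        exact mul_le_mul_of_nonneg_right (Real.rpow_le_rpow hx.le hxy (le_max_right _ _))
          (hq x1 hx1).le
      · rw [max_eq_left h2]
        refine le_trans ?_ (key x1 y hx1 h2)
        exact mul_le_mul_of_nonneg_right (Real.rpow_le_rpow hx.le h1 (le_max_right _ _))
          (hq x1 hx1).le
    · rw [max_eq_left h1, max_eq_left (h1.trans hxy)]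
      exact key x y (lt_of_lt_of_le hx1 h1) hxy
  · intro l hl
    refine (hrv l hl).congr' ?_
    filter_upwards [eventually_ge_atTop x1, eventually_ge_atTop (x1 / l)] with x h1 h2
    have h3 : x1 ≤ l * x := by
      rw [div_le_iff₀ hl] at h2
      linarith [mul_comm x l]
    show q (l * x) / q x = q (max (l * x) x1) / q (max x x1)
    rw [max_eq_left h1, max_eq_left h3]
  · refine hbig.congr' ?_
    filter_upwards [eventually_ge_atTop x1] with x h1
    show x * q x = x * q (max x x1)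
    rw [max_eq_left h1]

/-- **Extension to the left**: a hazard function given on `(x₀, ∞)` is replaced by its linear
extension below a large `x1`, constant on the negative numbers:
`h̃ y = h y` for `y ≥ x1`, `h x1 + q x1 (y - x1)` for `0 ≤ y ≤ x1`, `h̃ 0` for `y ≤ 0`,
`h̃' y = q (max y x1)` (antitone, hence measurable). `h̃ 0 = h x1 - x1 q x1 ≥ 0` for large `x1`:
`h x - x q x` is nondecreasing (`h x - h y ≥ (x - y) q x`) and its limit is `≥ h y - y q x → h y`
for every `y`, and `h → ∞` because `x q x → ∞`. -/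
theorem exists_haz {h q : ℝ → ℝ} {a x₀ : ℝ} (ha0 : 0 ≤ a) (ha1 : a < 1) (hx₀ : 0 ≤ x₀)
    (hd : ∀ x, x₀ < x → HasDerivAt h (q x) x) (hq : ∀ x, x₀ < x → 0 < q x)
    (hanti : ∀ x y, x₀ < x → x ≤ y → q y ≤ q x)
    (hcurv : ∃ C : ℝ, ∀ x y : ℝ, x₀ < x → x ≤ y → x ^ C * q x ≤ y ^ C * q y)
    (hrv : ∀ l : ℝ, 0 < l → Tendsto (fun x => q (l * x) / q x) atTop (𝓝 (l ^ (a - 1))))
    (hbig : Tendsto (fun x : ℝ => x * q x) atTop atTop) :
    ∃ g g' : ℝ → ℝ, Haz g g' a ∧ (∀ᶠ x : ℝ in atTop, g x = h x) ∧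
      (∀ᶠ x : ℝ in atTop, g' x = q x) := by
  -- first step: a large constant is added
  set x2 : ℝ := x₀ + 1 with hx2
  have hx2' : x₀ < x2 := by linarith
  have hx2p : 0 < x2 := lt_of_le_of_lt hx₀ hx2'
  set c : ℝ := |h x2 - x2 * q x2| with hc
  have hc0 : 0 ≤ h x2 - x2 * q x2 + c := by
    have := neg_abs_le (h x2 - x2 * q x2)
    linarith
  have H := Ext_aux ha0 ha1 hx₀ hd hq hanti hcurv hrv hbig hx2' hc0
  -- some `y` with `h y ≥ 1`
  obtain ⟨y, hy1, hy2⟩ := ((H.tendsto_h.eventually_ge_atTop (c + 1)).and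
    (eventually_ge_atTop x2)).exists
  rw [Ext_g_ge hx2p hy2] at hy1
  have hyp : 0 < y := lt_of_lt_of_le hx2p hy2
  have h1 : ∀ᶠ x : ℝ in atTop, (fun y => q (max y x2)) x < 1 / y :=
    H.tendsto_deriv.eventually_lt_const (by positivity)
  obtain ⟨x1, hx1a, hx1b⟩ := (h1.and (eventually_ge_atTop (y + 1))).exists
  have hx1c : x2 ≤ x1 := by linarith
  have hx1p : 0 < x1 := lt_of_lt_of_le hx2p hx1c
  have hx1d : x₀ < x1 := lt_of_lt_of_le hx2' hx1c
  replace hx1a : q x1 < 1 / y := by
    have : q (max x1 x2) < 1 / y := hx1a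
    rwa [max_eq_left hx1c] at this
  have h2 := H.tangent (x := x1) (y := y - x1) hx1p (by linarith)
  have h3 : x1 + (y - x1) = y := by ring
  rw [h3, Ext_g_ge hx2p hy2, Ext_g_ge hx2p hx1c] at h2
  rw [max_eq_left hx1c] at h2
  have h5 : y * q x1 ≤ 1 := by
    have := mul_le_mul_of_nonneg_left hx1a.le hyp.le
    rwa [mul_one_div_cancel hyp.ne'] at this
  have h6 : 0 ≤ h x1 - x1 * q x1 + 0 := by nlinarith
  refine ⟨Ext_g h q x1 0, fun y => q (max y x1),
    Ext_aux ha0 ha1 hx₀ hd hq hanti hcurv hrv hbig hx1d h6, ?_, ?_⟩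
  · filter_upwards [eventually_ge_atTop x1] with x hx
    rw [Ext_g_ge hx1p hx, add_zero]
  · filter_upwards [eventually_ge_atTop x1] with x hx
    show q (max x x1) = q x
    rw [max_eq_left hx]

/-- the law in the structure `Law`. `up`: for `x ≥ X` from the limit, for `x < X` from
`μ ≤ 1 ≤ exp (g X) exp (-g x)` (`g` monotone). -/
theorem exists_law {g g' : ℝ → ℝ} (H : Haz g g' a) (hμ : μ (Set.Iio 0) = 0)
    (hlim : Tendsto (fun x : ℝ => μ.real (Set.Ioi x) / Real.exp (-(g x))) atTop (𝓝 1)) :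
    Law μ g := by
  have key : ∀ ω : ℝ, 0 < ω → ∀ᶠ x : ℝ in atTop,
      (1 - ω) * Real.exp (-(g x)) ≤ μ.real (Set.Ioi x) ∧
        μ.real (Set.Ioi x) ≤ (1 + ω) * Real.exp (-(g x)) := by
    intro ω hω
    have h1 := hlim.eventually (Ioo_mem_nhds (show 1 - ω < 1 by linarith)
      (show (1 : ℝ) < 1 + ω by linarith))
    filter_upwards [h1] with x hx
    have h2 := Real.exp_pos (-(g x))
    constructor
    · have := hx.1
      rw [lt_div_iff₀ h2] at this
      exact this.le
    · have := hx.2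
      rw [div_lt_iff₀ h2] at this
      exact this.le
  have hreal : ∀ x : ℝ, μ (Set.Ioi x) = ENNReal.ofReal (μ.real (Set.Ioi x)) := fun x =>
    (ofReal_measureReal).symm
  refine ⟨?_, ?_, ?_⟩
  · rw [ae_iff]
    have : {s : ℝ | ¬ 0 ≤ s} = Set.Iio 0 := by
      ext s; simp
    rw [this]
    exact hμ
  · obtain ⟨X, hX⟩ := (key 1 one_pos).exists_forall_of_atTop
    refine ⟨max 2 (Real.exp (g X)), (by positivity), fun x => ?_⟩
    rw [hreal]
    apply ENNReal.ofReal_le_ofReal
    have h2 := Real.exp_pos (-(g x))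
    rcases le_total X x with h1 | h1
    · refine (hX x h1).2.trans ?_
      refine mul_le_mul_of_nonneg_right ?_ h2.le
      have := le_max_left 2 (Real.exp (g X))
      linarith
    · have h3 : μ.real (Set.Ioi x) ≤ 1 := measureReal_le_one
      refine h3.trans ?_
      have h4 : (1 : ℝ) ≤ Real.exp (g X) * Real.exp (-(g x)) := by
        rw [← Real.exp_add]
        apply Real.one_le_exp
        have := H.mono h1
        linarith
      refine h4.trans (mul_le_mul_of_nonneg_right (le_max_right _ _) h2.le)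
  · intro ω hω
    filter_upwards [key ω hω] with x hx
    rw [hreal]
    exact ⟨ENNReal.ofReal_le_ofReal hx.1, ENNReal.ofReal_le_ofReal hx.2⟩

end Pool.Agent.Lib.MP_04add8_pr.Gen
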