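import Mathlib
import Pool.Agent.Lib.MP_04add8_pr.Gen.Beta
import Pool.Agent.Lib.MP_04add8_pr.Gen.LawM
import Pool.Agent.Lib.MP_04add8_pr.Crit.BetaTwo

open MeasureTheory ProbabilityTheory Filter Topology
open scoped ENNReal

set_option linter.unusedSectionVars false

namespace Pool.Agent.Lib.MP_04add8_pr.Gen

variable {h h' : ℝ → ℝ} {a : ℝ} {μ ν : Measure ℝ} [IsProbabilityMeasure μ]
  [IsProbabilityMeasure ν]

/-- the second order constant -/
noncomputable def kap (μ ν : Measure ℝ) : ℝ :=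
  (((∫ s, s ^ 2 ∂μ) - (∫ s, s ∂μ) ^ 2) * (eta μ ν - 1) ^ 2 +
    ((∫ t, t ^ 2 ∂ν) - (∫ t, t ∂ν) ^ 2) * (eta μ ν) ^ 2) /
    (2 * ((∫ s, s ∂μ) - ∫ t, t ∂ν))

open BetaAux BetaTwo in
private lemma wb_mom {μ : Measure ℝ} [IsProbabilityMeasure μ] {K : ℕ} (hK : 2 ≤ K) :
    Tendsto (fun β => (momPoly μ K β - 1 - (∫ s, s ∂μ) * β) / β ^ 2) (𝓝[>] 0)
      (𝓝 ((∫ s, s ^ 2 ∂μ) / 2)) := by
  induction K, hK using Nat.le_induction with
  | base =>
    refine tendsto_const_nhds.congr' ?_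
    filter_upwards [self_mem_nhdsWithin] with β hβ
    have hβ : 0 < β := hβ
    rw [momPoly_two (by simp)]
    field_simp
    ring
  | succ K hK ih =>
    have h1 : Tendsto (fun β : ℝ => (∫ s, s ^ (K + 1) ∂μ) / ((K + 1).factorial : ℝ) * β ^ (K - 1))
        (𝓝[>] 0) (𝓝 ((∫ s, s ^ (K + 1) ∂μ) / ((K + 1).factorial : ℝ) * 0 ^ (K - 1))) :=
      (((continuous_pow (K - 1)).tendsto 0).mono_left nhdsWithin_le_nhds).const_mul _
    rw [zero_pow (by omega), mul_zero] at h1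
    have h2 := ih.add h1
    rw [add_zero] at h2
    refine h2.congr' ?_
    filter_upwards [self_mem_nhdsWithin] with β hβ
    have hβ : 0 < β := hβ
    have e : momPoly μ (K + 1) β = momPoly μ K β +
        (∫ s, s ^ (K + 1) ∂μ) * β ^ (K + 1) / ((K + 1).factorial : ℝ) := by
      unfold momPoly
      rw [Finset.sum_range_succ]
    rw [e]
    have e2 : β ^ (K + 1) = β ^ (K - 1) * β ^ 2 := by
      rw [← pow_add]
      congr 1
      omega
    rw [e2]
    have hf : ((K + 1).factorial : ℝ) ≠ 0 := by positivity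
    field_simp
    ring

open BetaAux BetaTwo in
/-- Original: `BetaTwo.beta_second` in `Crit/BetaTwo.lean` (there `K = 2`). For `K ≥ 2`:
`momPoly K β = 1 + E β + p β ^ 2` with `p → E[σ²]/2` as `β → 0` (finite sum), the rest of the
algebra is the same with `E2 / 2` replaced by `p`. -/
theorem gbeta_second (S : Std μ ν h h' a) (hν2 : Integrable (fun t : ℝ => t ^ 2) ν) {K : ℕ}
    (hK : 2 ≤ K) :
    Tendsto (fun θ => (θ + cramerRoot μ ν K θ - eta μ ν * θ) / θ ^ 2) (𝓝[>] 0)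
      (𝓝 (-kap μ ν)) := by
  unfold kap
  have hν0 := ae_nonneg S.hν
  have hνi := S.hνi
  have hgt := S.hgt
  have hlim := gbeta_limit S (K := K) (by omega)
  obtain ⟨θ0, hθ0, hbasic⟩ := gbeta_basic S (K := K) (by omega)
  have hηdef : eta μ ν = (∫ s, s ∂μ) / ((∫ s, s ∂μ) - ∫ t, t ∂ν) := rfl
  set η := eta μ ν with hηη
  set E := ∫ s, s ∂μ with hE
  set m := ∫ t, t ∂ν with hmdef
  set E2 := ∫ s, s ^ 2 ∂μ with hE2
  set T2 := ∫ t, t ^ 2 ∂ν with hT2
  have hd : 0 < E - m := by linarith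
  set b : ℝ → ℝ := fun θ => cramerRoot μ ν K θ / θ with hb
  have hid : Tendsto (fun θ : ℝ => θ) (𝓝[>] (0 : ℝ)) (𝓝 0) :=
    (continuous_id.tendsto 0).mono_left nhdsWithin_le_nhds
  have hev : ∀ᶠ θ : ℝ in 𝓝[>] 0, θ < θ0 :=
    Filter.Eventually.filter_mono nhdsWithin_le_nhds (gt_mem_nhds hθ0)
  -- the argument of the Laplace transform
  have hq0 : Tendsto (fun θ : ℝ => cramerRoot μ ν K θ + θ) (𝓝[>] 0) (𝓝[>] 0) := by
    apply tendsto_nhdsWithin_of_tendsto_nhds_of_eventually_within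
    · have h1 := (hlim.add_const 1).mul hid
      rw [mul_zero] at h1
      refine h1.congr' ?_
      filter_upwards [self_mem_nhdsWithin] with θ hθ
      have hθ : 0 < θ := hθ
      rw [add_mul, div_mul_cancel₀ _ hθ.ne', one_mul]
    · filter_upwards [self_mem_nhdsWithin] with θ hθ
      have hθ : 0 < θ := hθ
      have := cramerRoot_nonneg (μ := μ) (ν := ν) K θ
      exact Set.mem_Ioi.mpr (by linarith)
  have hr0 : Tendsto (fun θ : ℝ => cramerRoot μ ν K θ) (𝓝[>] 0) (𝓝[>] 0) := by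
    apply tendsto_nhdsWithin_of_tendsto_nhds_of_eventually_within
    · have h1 := hlim.mul hid
      rw [mul_zero] at h1
      refine h1.congr' ?_
      filter_upwards [self_mem_nhdsWithin] with θ hθ
      have hθ : 0 < θ := hθ
      rw [div_mul_cancel₀ _ hθ.ne']
    · filter_upwards [hev, self_mem_nhdsWithin] with θ hθ1 hθ
      have hθ : 0 < θ := hθ
      obtain ⟨g1, -, -⟩ := hbasic θ hθ hθ1
      exact Set.mem_Ioi.mpr (by linarith)
  have hs := (tendsto_lap_second hν0 hνi hν2).comp hq0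
  rw [← hmdef, ← hT2] at hs
  set s : ℝ → ℝ := fun θ => ((fun q => (lap ν q - 1 + m * q) / q ^ 2) ∘
    fun θ => cramerRoot μ ν K θ + θ) θ with hsdef
  have hs' : Tendsto s (𝓝[>] 0) (𝓝 (T2 / 2)) := hs
  have hp := (wb_mom (μ := μ) hK).comp hr0
  rw [← hE, ← hE2] at hp
  set p : ℝ → ℝ := fun θ => ((fun β => (momPoly μ K β - 1 - E * β) / β ^ 2) ∘
    fun θ => cramerRoot μ ν K θ) θ with hpdef
  have hp' : Tendsto p (𝓝[>] 0) (𝓝 (E2 / 2)) := hp
  have hbl : Tendsto b (𝓝[>] 0) (𝓝 (η - 1)) := hlim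
  set Φ : ℝ → ℝ := fun θ => -((p θ * b θ ^ 2 - E * m * b θ * (b θ + 1) +
      s θ * (b θ + 1) ^ 2) + θ * (E * b θ * s θ * (b θ + 1) ^ 2 - m * (b θ + 1) * (p θ *
        b θ ^ 2)) + θ ^ 2 * (p θ * b θ ^ 2 * s θ * (b θ + 1) ^ 2)) / (E - m) with hΦ
  have hΦlim : Tendsto Φ (𝓝[>] 0) (𝓝 (-((E2 / 2 * (η - 1) ^ 2 - E * m * (η - 1) *
      ((η - 1) + 1) + T2 / 2 * ((η - 1) + 1) ^ 2) + 0 * (E * (η - 1) * (T2 / 2) *
      ((η - 1) + 1) ^ 2 - m * ((η - 1) + 1) * (E2 / 2 * (η - 1) ^ 2)) +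
      0 ^ 2 * (E2 / 2 * (η - 1) ^ 2 * (T2 / 2) * ((η - 1) + 1) ^ 2)) / (E - m))) := by
    have hb1 := hbl.add_const 1
    refine Tendsto.div_const (Tendsto.neg (Tendsto.add (Tendsto.add (Tendsto.add (Tendsto.sub
      ?_ ?_) ?_) ?_) ?_)) _
    · exact hp'.mul (hbl.pow 2)
    · exact (hbl.const_mul (E * m)).mul hb1
    · exact hs'.mul (hb1.pow 2)
    · refine hid.mul (Tendsto.sub ?_ ?_)
      · exact ((hbl.const_mul E).mul hs').mul (hb1.pow 2)
      · exact (hb1.const_mul m).mul (hp'.mul (hbl.pow 2))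
    · exact (hid.pow 2).mul (((hp'.mul (hbl.pow 2)).mul hs').mul (hb1.pow 2))
  have hval : -((E2 / 2 * (η - 1) ^ 2 - E * m * (η - 1) *
      ((η - 1) + 1) + T2 / 2 * ((η - 1) + 1) ^ 2) + 0 * (E * (η - 1) * (T2 / 2) *
      ((η - 1) + 1) ^ 2 - m * ((η - 1) + 1) * (E2 / 2 * (η - 1) ^ 2)) +
      0 ^ 2 * (E2 / 2 * (η - 1) ^ 2 * (T2 / 2) * ((η - 1) + 1) ^ 2)) / (E - m) =
      -(((E2 - E ^ 2) * (η - 1) ^ 2 + (T2 - m ^ 2) * η ^ 2) / (2 * (E - m))) := by
    have h0 : E * (η - 1) - m * η = 0 := by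
      rw [hηdef]; field_simp; ring
    have h1 : (E * (η - 1) - m * η) ^ 2 = 0 := by rw [h0]; ring
    field_simp
    nlinarith
  rw [hval] at hΦlim
  refine hΦlim.congr' ?_
  filter_upwards [hev, self_mem_nhdsWithin] with θ hθ1 hθ
  have hθ : 0 < θ := hθ
  obtain ⟨g1, g2, -⟩ := hbasic θ hθ hθ1
  set β := cramerRoot μ ν K θ with hβ
  have hβ0 : 0 < β := hθ.trans_le g1
  have hq : 0 < β + θ := by positivity
  have hsθ : s θ = (lap ν (β + θ) - 1 + m * (β + θ)) / (β + θ) ^ 2 := rfl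
  have hpθ : p θ = (momPoly μ K β - 1 - E * β) / β ^ 2 := rfl
  have hL : lap ν (β + θ) = 1 - m * (β + θ) + s θ * (β + θ) ^ 2 := by
    rw [hsθ]; field_simp; ring
  have hM : momPoly μ K β = 1 + E * β + p θ * β ^ 2 := by
    rw [hpθ]; field_simp; ring
  have hbθ : β = b θ * θ := by
    rw [hb]; simp only; rw [← hβ]; field_simp
  rw [hL, hM] at g2
  change Φ θ = (θ + β - η * θ) / θ ^ 2
  have h0 : (E - m) * (η - 1) = m := by
    rw [hηdef]; field_simp; ring
  rw [hΦ]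
  simp only
  rw [hbθ] at g2 ⊢
  generalize s θ = T at g2 ⊢
  generalize p θ = P at g2 ⊢
  generalize b θ = B at g2 ⊢
  have key : (E - m) * (B - (η - 1)) * θ + ((P * B ^ 2 - E * m * B * (B + 1) +
      T * (B + 1) ^ 2) * θ ^ 2 + (E * B * T * (B + 1) ^ 2 - m * (B + 1) * (P *
        B ^ 2)) * θ ^ 3 + (P * B ^ 2 * T * (B + 1) ^ 2) * θ ^ 4) = 0 := by
    linear_combination g2 - θ * h0
  rw [div_eq_div_iff hd.ne' (by positivity)]
  linear_combination (-1) * key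

/-- the service law is not degenerate (its tail is positive everywhere), so `Var σ > 0`;
`Var t ≥ 0` (Jensen) -/
theorem kap_pos (S : Std μ ν h h' a) (hν2 : Integrable (fun t : ℝ => t ^ 2) ν) :
    0 < kap μ ν := by
  unfold kap
  have hgt := S.hgt
  have hlt := S.hlt
  have h2η := two_lt_eta S
  have i1 : Integrable (fun s : ℝ => s) μ := by
    simpa using law_integrable_pow S.haz S.law 1
  have i2 : Integrable (fun s : ℝ => s ^ 2) μ := law_integrable_pow S.haz S.law 2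
  have hvar : ∀ (ρ : Measure ℝ) [IsProbabilityMeasure ρ], Integrable (fun s : ℝ => s) ρ →
      Integrable (fun s : ℝ => s ^ 2) ρ →
      ∫ s, (s - ∫ s, s ∂ρ) ^ 2 ∂ρ = (∫ s, s ^ 2 ∂ρ) - (∫ s, s ∂ρ) ^ 2 ∧
        Integrable (fun s : ℝ => (s - ∫ s, s ∂ρ) ^ 2) ρ := by
    intro ρ _ j1 j2
    set c := ∫ s, s ∂ρ with hc
    have e : ∀ s : ℝ, (s - c) ^ 2 = s ^ 2 - (2 * c) * s + c ^ 2 := fun s => by ring
    simp_rw [e]
    have j3 : Integrable (fun s : ℝ => (2 * c) * s) ρ := j1.const_mul _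
    have j4 : Integrable (fun s : ℝ => s ^ 2 - (2 * c) * s) ρ := j2.sub j3
    constructor
    · rw [integral_add j4 (integrable_const _), integral_sub j2 j3, integral_const_mul,
        ← hc, integral_const, probReal_univ, one_smul]
      ring
    · exact j4.add (integrable_const _)
  obtain ⟨v1, v2⟩ := hvar ν S.hνi hν2
  obtain ⟨w1, w2⟩ := hvar μ i1 i2
  rw [← v1, ← w1]
  have hA : 0 < ∫ s, (s - ∫ s, s ∂μ) ^ 2 ∂μ := by
    rcases (integral_nonneg (μ := μ) (f := fun s : ℝ => (s - ∫ s, s ∂μ) ^ 2)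
      (fun s => sq_nonneg _)).lt_or_eq with hl | hl
    · exact hl
    · exfalso
      have h0 := (integral_eq_zero_iff_of_nonneg (fun s : ℝ => sq_nonneg _) w2).1 hl.symm
      obtain ⟨x, hx1, hx2⟩ := ((S.law.asy (1 / 2) (by norm_num)).and
        (eventually_ge_atTop (∫ s, s ∂μ))).exists
      have h1 : μ (Set.Ioi x) = 0 := by
        rw [← compl_mem_ae_iff]
        filter_upwards [h0] with s hs
        simp only [Pi.zero_apply] at hs
        have : s - ∫ s, s ∂μ = 0 := by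
          exact pow_eq_zero_iff (two_ne_zero) |>.1 hs
        simp only [Set.mem_compl_iff, Set.mem_Ioi, not_lt]
        linarith
      have h2 := hx1.1
      rw [h1] at h2
      have h3 : 0 < (1 - 1 / 2) * Real.exp (-(h x)) := by positivity
      have h4 := ENNReal.ofReal_pos.2 h3
      exact absurd h2 (not_le.2 h4)
  have hB : 0 ≤ ∫ t, (t - ∫ t, t ∂ν) ^ 2 ∂ν := integral_nonneg (fun s => sq_nonneg _)
  have hη1 : 0 < (eta μ ν - 1) ^ 2 := by
    have : 0 < eta μ ν - 1 := by linarith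
    positivity
  apply div_pos
  · have := mul_pos hA hη1
    have := mul_nonneg hB (sq_nonneg (eta μ ν))
    linarith
  · linarith

end Pool.Agent.Lib.MP_04add8_pr.Gen
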