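import Mathlib
import Pool.Agent.Lib.MP_04add8_pr.Gen.Err

open MeasureTheory ProbabilityTheory Filter Topology
open scoped ENNReal

set_option linter.unusedSectionVars false

namespace Pool.Agent.Lib.MP_04add8_pr.Gen

variable {h h' : ℝ → ℝ} {a : ℝ} {μ ν : Measure ℝ} [IsProbabilityMeasure μ]
  [IsProbabilityMeasure ν]

private lemma WDom_eta (S : Std μ ν h h' a) : 1 < eta μ ν := by
  have h1 := S.hm
  have h2 := S.hgt
  rw [eta, one_lt_div (by linarith)]
  linarith

private lemma WDom_ratio (S : Std μ ν h h' a) :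
    Tendsto (fun x : ℝ => h (eta μ ν * x) / h x) atTop (𝓝 ((eta μ ν) ^ a)) :=
  S.haz.ratio (zero_lt_one.trans (WDom_eta S))

/-- from `f ≤ ω g` eventually for all `ω > 0` to `f / g → 0` -/
private lemma WDom_tendsto {f g : ℝ → ℝ} (hf : ∀ᶠ x : ℝ in atTop, 0 ≤ f x)
    (hg : ∀ᶠ x : ℝ in atTop, 0 < g x)
    (h : ∀ ω : ℝ, 0 < ω → ∀ᶠ x : ℝ in atTop, f x ≤ ω * g x) :
    Tendsto (fun x : ℝ => f x / g x) atTop (𝓝 0) := by
  rw [Metric.tendsto_nhds]
  intro ε hε
  filter_upwards [hf, hg, h (ε / 2) (half_pos hε)] with x h1 h2 h3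
  rw [Real.dist_eq, sub_zero, abs_of_nonneg (div_nonneg h1 h2.le), div_lt_iff₀ h2]
  have : 0 < ε / 2 * g x := by positivity
  linarith

/-- one big job dominates: `2 h x ≥ (1 + δ) h (η x)` eventually (`Haz.ratio`), `1 / h' x ≤ x`
eventually (`Haz.big`), `gerr_one`. -/
theorem gtwo_small (S : Std μ ν h h' a) (h2 : (eta μ ν) ^ a < 2) {K : ℕ} (hK : 1 ≤ K) :
    Tendsto (fun x : ℝ => (Qf h h' x) ^ 2 / fOneH h h' μ ν K x) atTop (𝓝 0) := by
  have H := S.haz
  have hη := WDom_eta S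
  have hE0 : 0 < (eta μ ν) ^ a := Real.rpow_pos_of_pos (by linarith) _
  set E := (eta μ ν) ^ a with hE
  set δ : ℝ := (2 - E) / (2 * E) with hδ
  have hδ0 : 0 < δ := div_pos (by linarith) (by linarith)
  have hδE : (1 + δ) * E < 2 := by
    have h1 : (1 + δ) * E = (E + 2) / 2 := by
      rw [hδ]
      field_simp
      ring
    rw [h1]
    linarith
  have hlt : E < 2 / (1 + δ) := by
    rw [lt_div_iff₀ (by linarith)]
    linarith
  have hev := (WDom_ratio S).eventually_lt_const hlt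
  refine WDom_tendsto (Eventually.of_forall fun x => sq_nonneg _) ?_ ?_
  · filter_upwards [eventually_gt_atTop 0] with x hx
    exact fOneH_pos S hx
  · intro ω hω
    filter_upwards [hev, eventually_gt_atTop 0, H.deriv_ge 1,
      gerr_one S hK hδ0 hω 1 2] with x h3 hx h4 h5
    have hhx : 0 < h x := RVC_pos H hx
    rw [div_lt_iff₀ hhx, div_mul_eq_mul_div, lt_div_iff₀ (by linarith)] at h3
    refine le_trans ?_ h5
    have hh' := H.pos x hx
    have h6 : (h' x)⁻¹ ≤ x := by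
      rw [inv_le_comm₀ hh' hx, ← one_div]
      exact h4
    have h7 : (Qf h h' x) ^ 2 = ((h' x)⁻¹) ^ 2 * Real.exp (-(2 * h x)) := by
      rw [Qf, div_eq_mul_inv, mul_pow, ← Real.exp_nat_mul]
      push_cast
      rw [show (2 : ℝ) * -h x = -(2 * h x) by ring]
      ring
    rw [h7, one_mul, Real.rpow_two]
    refine mul_le_mul (pow_le_pow_left₀ (inv_nonneg.2 hh'.le) h6 2) ?_ (Real.exp_pos _).le
      (by positivity)
    rw [Real.exp_le_exp]
    linarith

/-- two big jobs dominate: `hRate ≥ (1 - ω) h (η x) ≥ (2 + δ) h x` eventually (`grate_close`,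
`x h' (η x) ≤ h (η x) / η`), `gerr_two`. -/
theorem gone_small (S : Std μ ν h h' a) (h2 : 2 < (eta μ ν) ^ a) {K : ℕ} (hK : 1 ≤ K) :
    Tendsto (fun x : ℝ => fOneH h h' μ ν K x / (Qf h h' x) ^ 2) atTop (𝓝 0) := by
  have H := S.haz
  have hη := WDom_eta S
  have hη0 : 0 < eta μ ν := by linarith
  set E := (eta μ ν) ^ a with hE
  set E' : ℝ := (E + 2) / 2 with hE'
  have hE'2 : 2 < E' := by rw [hE']; linarith
  have hE'E : E' < E := by rw [hE']; linarith
  set δ : ℝ := (E' - 2) / 2 with hδ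
  have hδ0 : 0 < δ := by rw [hδ]; linarith
  set ω₀ : ℝ := (E' - 2) / (2 * E') with hω₀
  have hω₀0 : 0 < ω₀ := div_pos (by linarith) (by linarith)
  have hω₀1 : ω₀ < 1 := by
    rw [hω₀, div_lt_one (by linarith)]
    linarith
  have hωE : (1 - ω₀) * E' = 2 + δ := by
    rw [hω₀, hδ]
    field_simp
    ring
  have hev := (WDom_ratio S).eventually_const_lt hE'E
  have hden : 0 < 2 * (∫ t, t ∂ν) - ∫ s, s ∂μ := by linarith [S.hlt]
  set D := 2 * (∫ t, t ∂ν) - ∫ s, s ∂μ with hD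
  have hlin : Tendsto (fun x : ℝ => eta μ ν * x) atTop atTop :=
    tendsto_id.const_mul_atTop hη0
  refine WDom_tendsto ?_ ?_ ?_
  · filter_upwards [eventually_gt_atTop 0] with x hx
    exact (fOneH_pos S hx).le
  · filter_upwards [eventually_gt_atTop 0] with x hx
    exact pow_pos (Qf_pos H hx) 2
  · intro ω hω
    filter_upwards [hev, eventually_gt_atTop 0, hlin.eventually (H.deriv_ge 1),
      gerr_two H hδ0 hω (eta μ ν / D) 1, grate_close S hK hω₀0] with x h3 hx h4 h5 h6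
    have hhx : 0 < h x := RVC_pos H hx
    rw [lt_div_iff₀ hhx] at h3
    refine le_trans ?_ h5
    have hxη : 0 < eta μ ν * x := mul_pos hη0 hx
    have hh' := H.pos _ hxη
    have h7 : (h' (eta μ ν * x))⁻¹ ≤ eta μ ν * x := by
      rw [inv_le_comm₀ hh' hxη, ← one_div]
      exact h4
    have h8 : x * h' (eta μ ν * x) ≤ h (eta μ ν * x) := by
      refine le_trans ?_ (H.mul_deriv_le hxη)
      exact mul_le_mul_of_nonneg_right (by nlinarith) hh'.le
    have h9 : (2 + δ) * h x ≤ hRate h (cramerRoot μ ν K) x := by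
      have h10 := (abs_le.1 h6).1
      have h11 : ω₀ * (x * h' (eta μ ν * x)) ≤ ω₀ * h (eta μ ν * x) :=
        mul_le_mul_of_nonneg_left h8 hω₀0.le
      have h12 : (1 - ω₀) * (E' * h x) ≤ (1 - ω₀) * h (eta μ ν * x) :=
        mul_le_mul_of_nonneg_left h3.le (by linarith)
      have h13 : (1 - ω₀) * (E' * h x) = (2 + δ) * h x := by rw [← hωE]; ring
      linarith
    rw [fOneH, ← hD, Real.rpow_one, div_eq_mul_inv, mul_inv]
    calc Real.exp (-(hRate h (cramerRoot μ ν K) x)) * (D⁻¹ * (h' (eta μ ν * x))⁻¹)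
        ≤ Real.exp (-((2 + δ) * h x)) * (D⁻¹ * (eta μ ν * x)) := by
          refine mul_le_mul (Real.exp_le_exp.2 (by linarith)) ?_ (by positivity) (Real.exp_pos _).le
          exact mul_le_mul_of_nonneg_left h7 (inv_nonneg.2 hden.le)
      _ = eta μ ν / D * x * Real.exp (-((2 + δ) * h x)) := by
          rw [div_eq_mul_inv]
          ring

end Pool.Agent.Lib.MP_04add8_pr.Gen
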