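import Mathlib
import Pool.Agent.Lib.MP_04add8_pr.Gen.WDom
import Pool.Agent.Lib.MP_04add8_pr.Gen.Exact

open MeasureTheory ProbabilityTheory Filter Topology
open scoped ENNReal

set_option linter.unusedSectionVars false

namespace Pool.Agent.Lib.MP_04add8_pr.Gen

variable {h h' : ℝ → ℝ} {a : ℝ} {μ ν : Measure ℝ} [IsProbabilityMeasure μ]
  [IsProbabilityMeasure ν]

private lemma WForm_K (S : Std μ ν h h' a) {K : ℕ} (hK : 1 < (K + 1) * (1 - a)) : 1 ≤ K := by
  by_contra hcon
  have h0 : K = 0 := by omega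
  rw [h0] at hK
  have := S.haz.a0
  norm_num at hK
  linarith

private lemma WForm_K2 (S : Std μ ν h h' a) : 0 < K2 μ ν := by
  unfold K2
  have h1 := S.hm
  have h2 := S.hlt
  have h3 : 0 < 2 * (∫ t, t ∂ν) - ∫ s, s ∂μ := by linarith
  positivity

private lemma WForm_I (S : Std μ ν h h' a) :
    Tendsto (fun x : ℝ => K2 μ ν * integratedTail μ x ^ 2 / (Qf h h' x) ^ 2) atTop
      (𝓝 (K2 μ ν)) := by
  have h1 := ((integratedTail_asymp S.haz S.law).pow 2).const_mul (K2 μ ν)
  rw [one_pow, mul_one] at h1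
  refine h1.congr fun x => ?_
  rw [div_pow, mul_div_assoc]

/-- `gexact` and `gtwo_small` (`integratedTail_asymp` for `integratedTail ^ 2` against `Qf ^ 2`) -/
theorem gform_one (S : Std μ ν h h' a) (h2 : (eta μ ν) ^ a < 2) {K : ℕ}
    (hK : 1 < (K + 1) * (1 - a)) {π : Measure (ℝ × ℝ)} (hπ : IsStationaryKW μ ν π) :
    Tendsto (fun x : ℝ => π.real {w | x < w.1} / fOneH h h' μ ν K x) atTop (𝓝 1) := by
  have hK1 := WForm_K S hK
  have hk2 := WForm_K2 S
  have hE := gexact S hK hπ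
  have hI := WForm_I S
  have hs := gtwo_small S h2 hK1
  have h3 : Tendsto (fun x : ℝ => 1 + K2 μ ν * integratedTail μ x ^ 2 / (Qf h h' x) ^ 2 *
      ((Qf h h' x) ^ 2 / fOneH h h' μ ν K x)) atTop (𝓝 1) := by
    have := (tendsto_const_nhds (x := (1 : ℝ)) (f := (atTop : Filter ℝ))).add (hI.mul hs)
    simpa using this
  have h4 := hE.mul h3
  rw [mul_one] at h4
  refine h4.congr' ?_
  filter_upwards [eventually_gt_atTop 0] with x hx
  have p1 := fOneH_pos S (K := K) hx
  have p2 := Qf_pos S.haz hx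
  generalize π.real {w | x < w.1} = P
  generalize fOneH h h' μ ν K x = A at p1 ⊢
  generalize Qf h h' x = Q at p2 ⊢
  have p3 : 0 ≤ K2 μ ν * integratedTail μ x ^ 2 := by positivity
  generalize K2 μ ν * integratedTail μ x ^ 2 = J at p3 ⊢
  have p4 : 0 < A + J := by linarith
  field_simp

theorem gform_two (S : Std μ ν h h' a) (h2 : 2 < (eta μ ν) ^ a) {K : ℕ}
    (hK : 1 < (K + 1) * (1 - a)) {π : Measure (ℝ × ℝ)} (hπ : IsStationaryKW μ ν π) :
    Tendsto (fun x : ℝ => π.real {w | x < w.1} / (K2 μ ν * integratedTail μ x ^ 2)) atTop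
      (𝓝 1) := by
  have hK1 := WForm_K S hK
  have hk2 := WForm_K2 S
  have hE := gexact S hK hπ
  have hI := WForm_I S
  have hs := gone_small S h2 hK1
  have hI0 : ∀ᶠ x : ℝ in atTop, 0 < K2 μ ν * integratedTail μ x ^ 2 := by
    filter_upwards [hI.eventually_const_lt hk2, eventually_gt_atTop 0] with x g1 hx
    have p2 := Qf_pos S.haz hx
    by_contra hcon
    push Not at hcon
    have : K2 μ ν * integratedTail μ x ^ 2 / (Qf h h' x) ^ 2 ≤ 0 :=
      div_nonpos_of_nonpos_of_nonneg hcon (by positivity)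
    linarith
  have h3 : Tendsto (fun x : ℝ => 1 + fOneH h h' μ ν K x / (Qf h h' x) ^ 2 /
      (K2 μ ν * integratedTail μ x ^ 2 / (Qf h h' x) ^ 2)) atTop (𝓝 1) := by
    have := (tendsto_const_nhds (x := (1 : ℝ)) (f := (atTop : Filter ℝ))).add
      (hs.div hI hk2.ne')
    simpa using this
  have h4 := hE.mul h3
  rw [mul_one] at h4
  refine h4.congr' ?_
  filter_upwards [hI0, eventually_gt_atTop 0] with x p3 hx
  have p1 := fOneH_pos S (K := K) hx
  have p2 := Qf_pos S.haz hx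
  generalize π.real {w | x < w.1} = P
  generalize fOneH h h' μ ν K x = A at p1 ⊢
  generalize Qf h h' x = Q at p2 ⊢
  generalize K2 μ ν * integratedTail μ x ^ 2 = J at p3 ⊢
  have p4 : 0 < A + J := by linarith
  field_simp
  ring

end Pool.Agent.Lib.MP_04add8_pr.Gen
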