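import Mathlib
import Pool.Agent.Lib.MP_04add8_pr.Gen.WBeta
import Pool.Agent.Lib.MP_04add8_pr.Gen.Opt

open MeasureTheory ProbabilityTheory Filter Topology
open scoped ENNReal

set_option linter.unusedSectionVars false

namespace Pool.Agent.Lib.MP_04add8_pr.Gen

variable {h h' : ℝ → ℝ} {a : ℝ} {μ ν : Measure ℝ} [IsProbabilityMeasure μ]
  [IsProbabilityMeasure ν]

private lemma WRate_num {κ ω : ℝ} (hκ : 0 < κ) (hω : 0 < ω) :
    ∃ w : ℝ, 0 < w ∧ (κ + ω / 2) * (1 + w) ^ 2 ≤ κ + ω := by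
  refine ⟨min 1 (ω / (6 * (κ + ω / 2))), by positivity, ?_⟩
  set w := min 1 (ω / (6 * (κ + ω / 2))) with hw
  have h1 : w ≤ 1 := min_le_left _ _
  have h0 : 0 < w := by rw [hw]; positivity
  have h2 : w ≤ ω / (6 * (κ + ω / 2)) := min_le_right _ _
  rw [le_div_iff₀ (by positivity)] at h2
  have h3 : (1 + w) ^ 2 ≤ 1 + 3 * w := by nlinarith
  have h4 : (κ + ω / 2) * (1 + w) ^ 2 ≤ (κ + ω / 2) * (1 + 3 * w) :=
    mul_le_mul_of_nonneg_left h3 (by positivity)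
  linarith

/-- **Second order behaviour of the rate**. Upper bound for `hRate`: its value at
`θ̂ = h' (η x)` is `h (η x) + x (θ̂ + β θ̂ - η θ̂)` (`hG_deriv`). Lower bound: `hRate` is the value
at the optimal `θ` of `gopt`, `|θ - θ̂| ≤ ω' θ̂`, and `hG θ ≥ h (η x) - η x θ` (`le_hG`), so
`hRate ≥ h (η x) + x (θ + β θ - η θ)`; `gbeta_second`, `kap_pos`. -/
theorem grate_second (S : Std μ ν h h' a) (hν2 : Integrable (fun t : ℝ => t ^ 2) ν) {K : ℕ}
    (hK : 2 ≤ K) {ω : ℝ} (hω : 0 < ω) :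
    ∀ᶠ x : ℝ in atTop, |h (eta μ ν * x) - hRate h (cramerRoot μ ν K) x -
        kap μ ν * (x * h' (eta μ ν * x) ^ 2)| ≤ ω * (x * h' (eta μ ν * x) ^ 2) := by
  have H := S.haz
  have hη2 := two_lt_eta S
  have hη0 : 0 < eta μ ν := by linarith
  have hκ := kap_pos S hν2
  have hK1 : 1 ≤ K := by omega
  obtain ⟨β1, hexp⟩ := gbeta_expand S hK1
  have hβ0 : ∀ θ, 0 ≤ cramerRoot μ ν K θ := fun θ => cramerRoot_nonneg K θ
  obtain ⟨w, hw0, hw⟩ := WRate_num hκ hω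
  have ho := gopt H (η := eta μ ν) (by linarith) hβ0 (gbeta_limit S hK1) hexp hw0
  -- the second order expansion
  have h2 := gbeta_second S hν2 hK
  have h3 : ∀ᶠ θ in 𝓝[>] (0 : ℝ),
      |(θ + cramerRoot μ ν K θ - eta μ ν * θ) / θ ^ 2 - -kap μ ν| < ω / 2 := by
    have := h2.eventually (Metric.ball_mem_nhds (-kap μ ν) (by positivity : 0 < ω / 2))
    filter_upwards [this] with θ h
    rwa [Real.dist_eq] at h
  rw [eventually_nhdsWithin_iff, Metric.eventually_nhds_iff] at h3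
  obtain ⟨d, hd, hd2⟩ := h3
  have hb : ∀ θ, 0 < θ → θ < d →
      |(θ + cramerRoot μ ν K θ - eta μ ν * θ) + kap μ ν * θ ^ 2| ≤ ω / 2 * θ ^ 2 := by
    intro θ h0 h4
    have h5 := (hd2 (y := θ) (by rw [Real.dist_eq]; simpa [abs_of_pos h0] using h4) h0).le
    have h6 : (θ + cramerRoot μ ν K θ - eta μ ν * θ) + kap μ ν * θ ^ 2 =
        ((θ + cramerRoot μ ν K θ - eta μ ν * θ) / θ ^ 2 - -kap μ ν) * θ ^ 2 := by
      field_simp
      ring
    rw [h6, abs_mul, abs_of_pos (by positivity : 0 < θ ^ 2)]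
    exact mul_le_mul_of_nonneg_right h5 (by positivity)
  have hy_top : Tendsto (fun x : ℝ => eta μ ν * x) atTop atTop :=
    Tendsto.const_mul_atTop hη0 tendsto_id
  have e1 := hy_top.eventually (H.tendsto_deriv.eventually_lt_const
    (show (0 : ℝ) < d / (1 + w) by positivity))
  filter_upwards [ho, e1, eventually_gt_atTop (0 : ℝ)] with x hx1 hx2 hx0
  obtain ⟨θ, X, hθ, hX, -, hθq, -, hR, -, -⟩ := hx1
  set β := cramerRoot μ ν K with hβ
  set y := eta μ ν * x with hy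
  have hy0 : 0 < y := by positivity
  obtain ⟨q, hq⟩ : ∃ q, q = h' y := ⟨_, rfl⟩
  rw [← hq] at hx2 hθq ⊢
  have hq0 : 0 < q := by rw [hq]; exact H.pos y hy0
  rw [lt_div_iff₀ (by positivity)] at hx2
  have hqd : q < d := by nlinarith
  have hθle : θ ≤ (1 + w) * q := by linarith [(abs_le.1 hθq).2]
  have hθd : θ < d := by nlinarith
  have hbdd : BddBelow ((fun θ : ℝ => hG h θ + x * (θ + β θ)) '' Set.Ioi 0) := by
    refine ⟨0, ?_⟩
    rintro _ ⟨t, ht, rfl⟩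
    have ht' : (0 : ℝ) < t := ht
    have g1 := hG_nonneg H ht'
    have g2 : 0 ≤ x * (t + β t) := mul_nonneg hx0.le (by linarith [hβ0 t])
    change 0 ≤ hG h t + x * (t + β t)
    linarith
  have up : hRate h β x ≤ hG h q + x * (q + β q) := csInf_le hbdd ⟨q, hq0, rfl⟩
  have hGq : hG h q = h y - q * y := by rw [hq]; exact hG_deriv H hy0
  rw [hGq] at up
  have low := le_hG H hθ hy0.le
  have b1 := (abs_le.1 (hb q hq0 hqd)).2
  have b2 := (abs_le.1 (hb θ hθ hθd)).1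
  have b3 : θ ^ 2 ≤ (1 + w) ^ 2 * q ^ 2 := by
    rw [← mul_pow]
    exact pow_le_pow_left₀ hθ.le hθle 2
  have b4 : (kap μ ν + ω / 2) * θ ^ 2 ≤ (kap μ ν + ω) * q ^ 2 := by
    calc (kap μ ν + ω / 2) * θ ^ 2 ≤ (kap μ ν + ω / 2) * ((1 + w) ^ 2 * q ^ 2) :=
          mul_le_mul_of_nonneg_left b3 (by positivity)
      _ = (kap μ ν + ω / 2) * (1 + w) ^ 2 * q ^ 2 := by ring
      _ ≤ (kap μ ν + ω) * q ^ 2 := mul_le_mul_of_nonneg_right hw (by positivity)
  have c1 := mul_le_mul_of_nonneg_left b1 hx0.le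
  have c2 := mul_le_mul_of_nonneg_left b2 hx0.le
  have c4 := mul_le_mul_of_nonneg_left b4 hx0.le
  have hyx : q * y = x * (eta μ ν * q) := by rw [hy]; ring
  have hyx' : θ * y = x * (eta μ ν * θ) := by rw [hy]; ring
  have hxq : 0 < x * q ^ 2 := by positivity
  rw [abs_le]
  constructor
  · nlinarith
  · nlinarith

end Pool.Agent.Lib.MP_04add8_pr.Gen
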