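import Mathlib
import Pool.Agent.Lib.MP_04add8_pr.Gen.WForm
import Pool.Agent.Lib.MP_04add8_pr.Gen.WRate
import Pool.Agent.Lib.MP_04add8_pr.Gen.TailInt

open MeasureTheory ProbabilityTheory Filter Topology
open scoped ENNReal

set_option linter.unusedSectionVars false

namespace Pool.Agent.Lib.MP_04add8_pr.Gen

variable {h h' : ℝ → ℝ} {a : ℝ} {μ ν : Measure ℝ} [IsProbabilityMeasure μ]
  [IsProbabilityMeasure ν]

/-- the quotient with the integrated tail at `η x`:
`fOneH = exp (h (η x) - hRate) Qf (η x) / (2m - E)`; choose `K ≥ 2` with `(K+1)(1-a) > 1`. -/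
theorem gwhitt_quot (S : Std μ ν h h' a) (h2 : (eta μ ν) ^ a < 2) {K : ℕ}
    (hK : 1 < (K + 1) * (1 - a)) {π : Measure (ℝ × ℝ)} (hπ : IsStationaryKW μ ν π) :
    Tendsto (fun x : ℝ => π.real {w | x < w.1} /
      (Real.exp (h (eta μ ν * x) - hRate h (cramerRoot μ ν K) x) /
        (2 * (∫ t, t ∂ν) - ∫ s, s ∂μ) * integratedTail μ (eta μ ν * x))) atTop (𝓝 1) := by
  have hη0 : 0 < eta μ ν := by linarith [two_lt_eta S]
  have h1 := gform_one S h2 hK hπ
  have hi : Tendsto (fun x : ℝ => eta μ ν * x) atTop atTop := tendsto_id.const_mul_atTop hη0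
  have hI := (integratedTail_asymp S.haz S.law).comp hi
  have hprod := h1.div hI one_ne_zero
  rw [div_one] at hprod
  refine hprod.congr' ?_
  filter_upwards [eventually_gt_atTop 0] with x hx
  rw [Pi.div_apply]
  simp only [Function.comp]
  have hy0 : 0 < eta μ ν * x := by positivity
  have p1 := S.haz.pos _ hy0
  have hD : 0 < 2 * (∫ t, t ∂ν) - ∫ s, s ∂μ := by linarith [S.hlt]
  unfold fOneH Qf
  have e1 : Real.exp (-(hRate h (cramerRoot μ ν K) x)) =
      Real.exp (h (eta μ ν * x) - hRate h (cramerRoot μ ν K) x) *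
        Real.exp (-(h (eta μ ν * x))) := by
    rw [← Real.exp_add]; congr 1; ring
  rw [e1]
  generalize integratedTail μ (eta μ ν * x) = J
  generalize π.real {w | x < w.1} = P
  generalize hA : Real.exp (h (eta μ ν * x) - hRate h (cramerRoot μ ν K) x) = A
  have hA0 : 0 < A := by rw [← hA]; exact Real.exp_pos _
  generalize hB : Real.exp (-(h (eta μ ν * x))) = B
  have hB0 : 0 < B := by rw [← hB]; exact Real.exp_pos _
  generalize h' (eta μ ν * x) = X at p1 ⊢
  generalize 2 * (∫ t, t ∂ν) - ∫ s, s ∂μ = D at hD ⊢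
  by_cases hJ : J = 0
  · simp [hJ]
  · field_simp

private lemma WTrue_exK (H : Haz h h' a) : ∃ K : ℕ, 2 ≤ K ∧ (1 : ℝ) < (K + 1) * (1 - a) := by
  have ha : 0 < 1 - a := by linarith [H.a1]
  obtain ⟨n, hn⟩ := exists_nat_gt (1 / (1 - a))
  refine ⟨max 2 n, le_max_left _ _, ?_⟩
  have h1 : (n : ℝ) ≤ ((max 2 n : ℕ) : ℝ) := by exact_mod_cast le_max_right 2 n
  rw [div_lt_iff₀ ha] at hn
  have h2 : (n : ℝ) * (1 - a) ≤ (((max 2 n : ℕ) : ℝ) + 1) * (1 - a) :=
    mul_le_mul_of_nonneg_right (by linarith) ha.le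
  linarith

/-- **Whitt's formula is true** if `x h' x ^ 2 → c`: then `x h' (η x) ^ 2 → c / η`, and
`grate_second` gives `h (η x) - hRate → kap c / η`. -/
theorem gwhitt_true (S : Std μ ν h h' a) (hν2 : Integrable (fun t : ℝ => t ^ 2) ν)
    (h2 : (eta μ ν) ^ a < 2) {π : Measure (ℝ × ℝ)} (hπ : IsStationaryKW μ ν π) {c : ℝ}
    (hc : Tendsto (fun x : ℝ => x * h' x ^ 2) atTop (𝓝 c)) :
    Tendsto (fun x : ℝ => π.real {w | x < w.1} /
      (Real.exp (kap μ ν * (c / eta μ ν)) /
        (2 * (∫ t, t ∂ν) - ∫ s, s ∂μ) * integratedTail μ (eta μ ν * x))) atTop (𝓝 1) := by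
  have hη0 : 0 < eta μ ν := by linarith [two_lt_eta S]
  obtain ⟨K, hK2, hK⟩ := WTrue_exK S.haz
  have hq := gwhitt_quot S h2 hK hπ
  have hi : Tendsto (fun x : ℝ => eta μ ν * x) atTop atTop := tendsto_id.const_mul_atTop hη0
  -- `x h' (η x) ^ 2 → c / η`
  have hu : Tendsto (fun x : ℝ => x * h' (eta μ ν * x) ^ 2) atTop (𝓝 (c / eta μ ν)) := by
    have := (hc.comp hi).div_const (eta μ ν)
    refine this.congr fun x => ?_
    simp only [Function.comp]
    field_simp
  -- the difference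
  have hd : Tendsto (fun x : ℝ => h (eta μ ν * x) - hRate h (cramerRoot μ ν K) x) atTop
      (𝓝 (kap μ ν * (c / eta μ ν))) := by
    have ho : (fun x : ℝ => h (eta μ ν * x) - hRate h (cramerRoot μ ν K) x -
        kap μ ν * (x * h' (eta μ ν * x) ^ 2)) =o[atTop]
          (fun x : ℝ => x * h' (eta μ ν * x) ^ 2) := by
      rw [Asymptotics.isLittleO_iff]
      intro ω hω
      filter_upwards [grate_second S hν2 hK2 hω, eventually_gt_atTop 0] with x hx hx0
      rw [Real.norm_eq_abs, Real.norm_eq_abs,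
        abs_of_nonneg (show 0 ≤ x * h' (eta μ ν * x) ^ 2 by positivity)]
      exact hx
    have h3 := (Asymptotics.isLittleO_one_iff ℝ).1 (ho.trans_isBigO (hu.isBigO_one ℝ))
    have h4 := h3.add (hu.const_mul (kap μ ν))
    rw [zero_add] at h4
    refine h4.congr fun x => ?_
    ring
  have he : Tendsto (fun x : ℝ => Real.exp (h (eta μ ν * x) - hRate h (cramerRoot μ ν K) x))
      atTop (𝓝 (Real.exp (kap μ ν * (c / eta μ ν)))) := (Real.continuous_exp.tendsto _).comp hd
  have hprod := hq.mul (he.div_const (Real.exp (kap μ ν * (c / eta μ ν))))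
  rw [div_self (Real.exp_pos _).ne', mul_one] at hprod
  refine hprod.congr' ?_
  filter_upwards [eventually_gt_atTop 0] with x hx
  have hD : 0 < 2 * (∫ t, t ∂ν) - ∫ s, s ∂μ := by linarith [S.hlt]
  generalize integratedTail μ (eta μ ν * x) = J
  generalize π.real {w | x < w.1} = P
  generalize hA : Real.exp (h (eta μ ν * x) - hRate h (cramerRoot μ ν K) x) = A
  have hA0 : 0 < A := by rw [← hA]; exact Real.exp_pos _
  generalize hC : Real.exp (kap μ ν * (c / eta μ ν)) = C
  have hC0 : 0 < C := by rw [← hC]; exact Real.exp_pos _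
  generalize 2 * (∫ t, t ∂ν) - ∫ s, s ∂μ = D at hD ⊢
  by_cases hJ : J = 0
  · simp [hJ]
  · field_simp

end Pool.Agent.Lib.MP_04add8_pr.Gen
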