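import Mathlib
import Pool.Agent.Lib.MP_04add8_pr.Gen.WTrue

open MeasureTheory ProbabilityTheory Filter Topology
open scoped ENNReal

set_option linter.unusedSectionVars false

namespace Pool.Agent.Lib.MP_04add8_pr.Gen

variable {h h' : ℝ → ℝ} {a : ℝ} {μ ν : Measure ℝ} [IsProbabilityMeasure μ]
  [IsProbabilityMeasure ν]

private lemma WOnly_bounds (S : Std μ ν h h' a) {u : ℝ} (hu : 0 < u) :
    ∀ᶠ x : ℝ in atTop, 0 < integratedTail μ (u * x) ∧
      integratedTail μ (u * x) ≤ 2 * Qf h h' (u * x) ∧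
      Qf h h' (u * x) ≤ 2 * integratedTail μ (u * x) := by
  have hi : Tendsto (fun x : ℝ => u * x) atTop atTop := tendsto_id.const_mul_atTop hu
  have hI := (integratedTail_asymp S.haz S.law).comp hi
  have h1 := hI.eventually_lt_const (show (1 : ℝ) < 2 by norm_num)
  have h2 := hI.eventually_const_lt (show (1 / 2 : ℝ) < 1 by norm_num)
  filter_upwards [h1, h2, eventually_gt_atTop 0] with x g1 g2 hx
  simp only [Function.comp] at g1 g2
  have p := Qf_pos S.haz (show 0 < u * x by positivity)
  rw [div_lt_iff₀ p] at g1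
  rw [lt_div_iff₀ p] at g2
  refine ⟨by linarith, g1.le, by linarith⟩

/-- integrated tails at different proportional points are not comparable, even up to
`exp (δ x h' x)`: `h (b x) - h (a x) ≥ (b - a) x h' (b x) ≥ c x h' x`. -/
theorem gitail_far (S : Std μ ν h h' a) {u v : ℝ} (hu : 0 < u) (huv : u < v) :
    ∃ c : ℝ, 0 < c ∧ ∀ᶠ x : ℝ in atTop,
      integratedTail μ (v * x) ≤ integratedTail μ (u * x) * Real.exp (-(c * (x * h' x))) := by
  have H := S.haz
  have hv : 0 < v := hu.trans huv
  have hva : 0 < v ^ (a - 1) := Real.rpow_pos_of_pos hv _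
  have hua : 0 < u ^ (a - 1) := Real.rpow_pos_of_pos hu _
  obtain ⟨c, hc⟩ : ∃ c : ℝ, c = (v - u) * (v ^ (a - 1) / 2) := ⟨_, rfl⟩
  have hc0 : 0 < c := by rw [hc]; exact mul_pos (by linarith) (by positivity)
  obtain ⟨M, hM⟩ : ∃ M : ℝ, M = 4 * (u ^ (a - 1) / v ^ (a - 1)) := ⟨_, rfl⟩
  have hM0 : 0 < M := by rw [hM]; positivity
  refine ⟨c / 2, by positivity, ?_⟩
  have e1 := (H.rv v hv).eventually_const_lt (show v ^ (a - 1) / 2 < v ^ (a - 1) by linarith)
  have e2 := (H.rv u hu).eventually_lt_const (show u ^ (a - 1) < 2 * u ^ (a - 1) by linarith)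
  have e3 : ∀ᶠ x : ℝ in atTop, 4 * M ≤ Real.exp (c / 2 * (x * h' x)) :=
    (Real.tendsto_exp_atTop.comp (H.big.const_mul_atTop (show 0 < c / 2 by positivity)))
      |>.eventually_ge_atTop _
  filter_upwards [e1, e2, e3, WOnly_bounds S hu, WOnly_bounds S hv, eventually_gt_atTop 0] with
    x g1 g2 g3 ⟨gu0, gu1, gu2⟩ ⟨gv0, gv1, gv2⟩ hx
  have hq := H.pos x hx
  have hux : 0 < u * x := by positivity
  have hvx : 0 < v * x := by positivity
  have hqu := H.pos _ hux
  have hqv := H.pos _ hvx
  rw [lt_div_iff₀ hq] at g1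
  rw [div_lt_iff₀ hq] at g2
  have k1 := H.lower_deriv hux.le (show u * x ≤ v * x by nlinarith) hvx
  have k2 : c * (x * h' x) ≤ h (v * x) - h (u * x) := by
    refine le_trans ?_ k1
    rw [hc]
    have : (v - u) * x * (v ^ (a - 1) / 2 * h' x) ≤ (v - u) * x * h' (v * x) :=
      mul_le_mul_of_nonneg_left g1.le (mul_nonneg (by linarith) hx.le)
    nlinarith
  have k3 : h' (u * x) ≤ M * h' (v * x) := by
    have h3 : M * (v ^ (a - 1) / 2 * h' x) ≤ M * h' (v * x) :=
      mul_le_mul_of_nonneg_left g1.le hM0.le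
    have h4 : M * (v ^ (a - 1) / 2 * h' x) = 2 * u ^ (a - 1) * h' x := by
      rw [hM]
      field_simp
      ring
    linarith
  have k4 : Qf h h' (v * x) ≤ M * Real.exp (-(c * (x * h' x))) * Qf h h' (u * x) := by
    unfold Qf
    rw [div_le_iff₀ hqv]
    have h5 : Real.exp (-(h (v * x))) ≤
        Real.exp (-(c * (x * h' x))) * Real.exp (-(h (u * x))) := by
      rw [← Real.exp_add]
      apply Real.exp_le_exp.2
      linarith
    have h6 : (1 : ℝ) ≤ M * h' (v * x) / h' (u * x) := by
      rw [le_div_iff₀ hqu, one_mul]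
      exact k3
    calc Real.exp (-(h (v * x))) ≤ Real.exp (-(c * (x * h' x))) * Real.exp (-(h (u * x))) := h5
      _ = Real.exp (-(c * (x * h' x))) * Real.exp (-(h (u * x))) * 1 := (mul_one _).symm
      _ ≤ Real.exp (-(c * (x * h' x))) * Real.exp (-(h (u * x))) *
          (M * h' (v * x) / h' (u * x)) := mul_le_mul_of_nonneg_left h6 (by positivity)
      _ = M * Real.exp (-(c * (x * h' x))) * (Real.exp (-(h (u * x))) / h' (u * x)) *
          h' (v * x) := by ring
  have k5 : Real.exp (-(c * (x * h' x))) * (4 * M) ≤ Real.exp (-(c / 2 * (x * h' x))) := by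
    calc Real.exp (-(c * (x * h' x))) * (4 * M) ≤
        Real.exp (-(c * (x * h' x))) * Real.exp (c / 2 * (x * h' x)) :=
          mul_le_mul_of_nonneg_left g3 (Real.exp_pos _).le
      _ = Real.exp (-(c / 2 * (x * h' x))) := by
          rw [← Real.exp_add]
          congr 1
          ring
  calc integratedTail μ (v * x) ≤ 2 * Qf h h' (v * x) := gv1
    _ ≤ 2 * (M * Real.exp (-(c * (x * h' x))) * Qf h h' (u * x)) := by linarith
    _ ≤ 2 * (M * Real.exp (-(c * (x * h' x))) * (2 * integratedTail μ (u * x))) := by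
        have : 0 ≤ M * Real.exp (-(c * (x * h' x))) := by positivity
        have := mul_le_mul_of_nonneg_left gu2 this
        linarith
    _ = integratedTail μ (u * x) * (Real.exp (-(c * (x * h' x))) * (4 * M)) := by ring
    _ ≤ integratedTail μ (u * x) * Real.exp (-(c / 2 * (x * h' x))) :=
        mul_le_mul_of_nonneg_left k5 gu0.le

private lemma WOnly_exK (H : Haz h h' a) : ∃ K : ℕ, 2 ≤ K ∧ (1 : ℝ) < (K + 1) * (1 - a) := by
  have ha : 0 < 1 - a := by linarith [H.a1]
  obtain ⟨n, hn⟩ := exists_nat_gt (1 / (1 - a))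
  refine ⟨max 2 n, le_max_left _ _, ?_⟩
  have h1 : (n : ℝ) ≤ ((max 2 n : ℕ) : ℝ) := by exact_mod_cast le_max_right 2 n
  rw [div_lt_iff₀ ha] at hn
  have h2 : (n : ℝ) * (1 - a) ≤ (((max 2 n : ℕ) : ℝ) + 1) * (1 - a) :=
    mul_le_mul_of_nonneg_right (by linarith) ha.le
  linarith

/-- the difference is small compared with `x h' x` -/
private lemma WOnly_close (S : Std μ ν h h' a) {K : ℕ} (hK : 1 ≤ K) {ω : ℝ} (hω : 0 < ω) :
    ∀ᶠ x : ℝ in atTop, |h (eta μ ν * x) - hRate h (cramerRoot μ ν K) x| ≤ ω * (x * h' x) := by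
  have hη2 := two_lt_eta S
  filter_upwards [grate_close S hK hω, eventually_gt_atTop 0] with x hx hx0
  rw [abs_sub_comm]
  refine hx.trans ?_
  have h1 : h' (eta μ ν * x) ≤ h' x := S.haz.anti _ _ hx0 (by nlinarith)
  have h2 := mul_le_mul_of_nonneg_left h1 (mul_nonneg hω.le hx0.le)
  linarith

/-- **Only if**: if `P (D > x) ~ γ I (η' x)`, then `η' = η` (`gitail_far`, `gwhitt_quot`,
`|hRate - h (η x)| ≤ ω x h' (η x)` by `grate_close`), so `h (η x) - hRate` converges, and by
`grate_second` and `kap_pos` `x h' (η x) ^ 2` converges; replace `x` by `x / η`. -/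
theorem gwhitt_only (S : Std μ ν h h' a) (hν2 : Integrable (fun t : ℝ => t ^ 2) ν)
    (h2 : (eta μ ν) ^ a < 2) {π : Measure (ℝ × ℝ)} (hπ : IsStationaryKW μ ν π) {γ η' : ℝ}
    (hγ : 0 < γ) (hη' : 0 < η')
    (hlim : Tendsto (fun x : ℝ => π.real {w | x < w.1} / (γ * integratedTail μ (η' * x)))
      atTop (𝓝 1)) :
    ∃ c : ℝ, Tendsto (fun x : ℝ => x * h' x ^ 2) atTop (𝓝 c) := by
  have H := S.haz
  have hη0 : 0 < eta μ ν := by linarith [two_lt_eta S]
  have hκ := kap_pos S hν2
  obtain ⟨K, hK2, hK⟩ := WOnly_exK H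
  have hK1 : 1 ≤ K := by omega
  have hq := gwhitt_quot S h2 hK hπ
  have hD : 0 < 2 * (∫ t, t ∂ν) - ∫ s, s ∂μ := by linarith [S.hlt]
  obtain ⟨D, hDe⟩ : ∃ D, D = 2 * (∫ t, t ∂ν) - ∫ s, s ∂μ := ⟨_, rfl⟩
  rw [← hDe] at hq hD
  obtain ⟨d, hd⟩ : ∃ d : ℝ → ℝ, d = fun x => h (eta μ ν * x) - hRate h (cramerRoot μ ν K) x :=
    ⟨_, rfl⟩
  have hdx : ∀ x, h (eta μ ν * x) - hRate h (cramerRoot μ ν K) x = d x := fun x => by rw [hd]
  simp only [hdx] at hq
  -- the ratio of the two equivalents
  have hr : Tendsto (fun x : ℝ => Real.exp (d x) / (D * γ) *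
      (integratedTail μ (eta μ ν * x) / integratedTail μ (η' * x))) atTop (𝓝 1) := by
    have h3 := hlim.div hq one_ne_zero
    rw [div_one] at h3
    refine h3.congr' ?_
    have hP : ∀ᶠ x : ℝ in atTop, π.real {w | x < w.1} ≠ 0 := by
      filter_upwards [hlim.eventually_const_lt (show (0 : ℝ) < 1 by norm_num)] with x hx hP
      rw [hP, zero_div] at hx
      exact lt_irrefl _ hx
    filter_upwards [hP, WOnly_bounds S hη0, WOnly_bounds S hη'] with x k1 ⟨k2, _, _⟩ ⟨k3, _, _⟩
    rw [Pi.div_apply]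
    have hA0 : 0 < Real.exp (d x) := Real.exp_pos _
    generalize Real.exp (d x) = A at hA0 ⊢
    generalize integratedTail μ (eta μ ν * x) = I at k2 ⊢
    generalize integratedTail μ (η' * x) = J at k3 ⊢
    generalize π.real {w | x < w.1} = P at k1 ⊢
    field_simp
  -- `η' = η`
  have heq : η' = eta μ ν := by
    rcases lt_trichotomy η' (eta μ ν) with hlt | heq | hgt
    · exfalso
      obtain ⟨c, hc, hf⟩ := gitail_far S hη' hlt
      have e1 := WOnly_close S hK1 (show 0 < c / 2 by positivity)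
      have e2 : Tendsto (fun x : ℝ => Real.exp (-(c / 2 * (x * h' x)))) atTop (𝓝 0) :=
        Real.tendsto_exp_neg_atTop_nhds_zero.comp
          (H.big.const_mul_atTop (show 0 < c / 2 by positivity))
      have e3 := e2.eventually_lt_const (show 0 < D * γ / 2 by positivity)
      have e4 := hr.eventually_const_lt (show (1 / 2 : ℝ) < 1 by norm_num)
      obtain ⟨x, k1, k2, k3, k4, ⟨k5, -, -⟩, k6⟩ := (hf.and (e1.and (e3.and (e4.and
        ((WOnly_bounds S hη').and (eventually_gt_atTop 0)))))).exists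
      rw [hdx] at k2
      have k7 : integratedTail μ (eta μ ν * x) / integratedTail μ (η' * x) ≤
          Real.exp (-(c * (x * h' x))) := by
        rw [div_le_iff₀ k5]
        linarith [k1]
      have k8 : Real.exp (d x) * Real.exp (-(c * (x * h' x))) ≤
          Real.exp (-(c / 2 * (x * h' x))) := by
        rw [← Real.exp_add]
        apply Real.exp_le_exp.2
        have := (abs_le.1 k2).2
        linarith
      have k9 : Real.exp (d x) / (D * γ) *
          (integratedTail μ (eta μ ν * x) / integratedTail μ (η' * x)) ≤ 1 / 2 := by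
        calc Real.exp (d x) / (D * γ) *
            (integratedTail μ (eta μ ν * x) / integratedTail μ (η' * x)) ≤
            Real.exp (d x) / (D * γ) * Real.exp (-(c * (x * h' x))) :=
              mul_le_mul_of_nonneg_left k7 (by positivity)
          _ = Real.exp (d x) * Real.exp (-(c * (x * h' x))) / (D * γ) := by ring
          _ ≤ (D * γ / 2) / (D * γ) := by
              apply div_le_div_of_nonneg_right (k8.trans k3.le) (by positivity)
          _ = 1 / 2 := by
              field_simp
      linarith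
    · exact heq
    · exfalso
      obtain ⟨c, hc, hf⟩ := gitail_far S hη0 hgt
      have e1 := WOnly_close S hK1 (show 0 < c / 2 by positivity)
      have e2 : Tendsto (fun x : ℝ => Real.exp (c / 2 * (x * h' x))) atTop atTop :=
        Real.tendsto_exp_atTop.comp
          (H.big.const_mul_atTop (show 0 < c / 2 by positivity))
      have e3 := e2.eventually_gt_atTop (2 * (D * γ))
      have e4 := hr.eventually_lt_const (show (1 : ℝ) < 2 by norm_num)
      obtain ⟨x, k1, k2, k3, k4, ⟨k5, -, -⟩, k6⟩ := (hf.and (e1.and (e3.and (e4.and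
        ((WOnly_bounds S hη').and (eventually_gt_atTop 0)))))).exists
      rw [hdx] at k2
      have k7 : Real.exp (c * (x * h' x)) ≤
          integratedTail μ (eta μ ν * x) / integratedTail μ (η' * x) := by
        rw [le_div_iff₀ k5]
        calc Real.exp (c * (x * h' x)) * integratedTail μ (η' * x) ≤
            Real.exp (c * (x * h' x)) *
              (integratedTail μ (eta μ ν * x) * Real.exp (-(c * (x * h' x)))) :=
              mul_le_mul_of_nonneg_left k1 (Real.exp_pos _).le
          _ = integratedTail μ (eta μ ν * x) *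
              (Real.exp (c * (x * h' x)) * Real.exp (-(c * (x * h' x)))) := by ring
          _ = integratedTail μ (eta μ ν * x) := by
              rw [← Real.exp_add, add_neg_cancel, Real.exp_zero, mul_one]
      have k8 : Real.exp (c / 2 * (x * h' x)) ≤
          Real.exp (d x) * Real.exp (c * (x * h' x)) := by
        rw [← Real.exp_add]
        apply Real.exp_le_exp.2
        have := (abs_le.1 k2).1
        linarith
      have k9 : 2 ≤ Real.exp (d x) / (D * γ) *
          (integratedTail μ (eta μ ν * x) / integratedTail μ (η' * x)) := by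
        calc (2 : ℝ) = (2 * (D * γ)) / (D * γ) := by
              field_simp
          _ ≤ Real.exp (d x) * Real.exp (c * (x * h' x)) / (D * γ) :=
              div_le_div_of_nonneg_right (k3.le.trans k8) (by positivity)
          _ = Real.exp (d x) / (D * γ) * Real.exp (c * (x * h' x)) := by ring
          _ ≤ _ := mul_le_mul_of_nonneg_left k7 (by positivity)
      linarith
  rw [heq] at hr
  -- the difference converges
  have hdl : Tendsto d atTop (𝓝 (Real.log (D * γ))) := by
    have h3 : Tendsto (fun x => Real.exp (d x) / (D * γ)) atTop (𝓝 1) := by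
      refine hr.congr' ?_
      filter_upwards [WOnly_bounds S hη0] with x ⟨k2, _, _⟩
      rw [div_self k2.ne', mul_one]
    have h4 := h3.mul_const (D * γ)
    rw [one_mul] at h4
    have h5 := h4.log (show D * γ ≠ 0 by positivity)
    refine h5.congr fun x => ?_
    rw [div_mul_cancel₀ _ (show D * γ ≠ 0 by positivity), Real.log_exp]
  -- second order
  have ho : (fun x : ℝ => d x - kap μ ν * (x * h' (eta μ ν * x) ^ 2)) =o[atTop]
        (fun x : ℝ => x * h' (eta μ ν * x) ^ 2) := by
    rw [Asymptotics.isLittleO_iff]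
    intro ω hω
    filter_upwards [grate_second S hν2 hK2 hω, eventually_gt_atTop 0] with x hx hx0
    rw [Real.norm_eq_abs, Real.norm_eq_abs,
      abs_of_nonneg (show 0 ≤ x * h' (eta μ ν * x) ^ 2 by positivity), ← hdx]
    exact hx
  have hO : (fun x : ℝ => x * h' (eta μ ν * x) ^ 2) =O[atTop] d := by
    refine Asymptotics.IsBigO.of_bound (2 / kap μ ν) ?_
    filter_upwards [grate_second S hν2 hK2 (show 0 < kap μ ν / 2 by positivity),
      eventually_gt_atTop 0] with x hx hx0
    have hu : 0 ≤ x * h' (eta μ ν * x) ^ 2 := by positivity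
    rw [Real.norm_eq_abs, Real.norm_eq_abs, abs_of_nonneg hu]
    rw [hdx] at hx
    rw [div_mul_eq_mul_div, le_div_iff₀ hκ]
    have h3 := (abs_le.1 hx).1
    have h4 := le_abs_self (d x)
    linarith
  have h3 := (Asymptotics.isLittleO_one_iff ℝ).1
    ((ho.trans_isBigO hO).trans_isBigO (hdl.isBigO_one ℝ))
  have hu : Tendsto (fun x : ℝ => x * h' (eta μ ν * x) ^ 2) atTop
      (𝓝 (Real.log (D * γ) / kap μ ν)) := by
    have h4 := (hdl.sub h3).div_const (kap μ ν)
    rw [sub_zero] at h4
    refine h4.congr fun x => ?_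
    field_simp
    ring
  refine ⟨eta μ ν * (Real.log (D * γ) / kap μ ν), ?_⟩
  have hj : Tendsto (fun x : ℝ => x / eta μ ν) atTop atTop := tendsto_id.atTop_div_const hη0
  have h5 := (hu.comp hj).const_mul (eta μ ν)
  refine h5.congr fun x => ?_
  simp only [Function.comp]
  have h6 : eta μ ν * (x / eta μ ν) = x := by field_simp
  rw [h6, ← mul_assoc, h6]

end Pool.Agent.Lib.MP_04add8_pr.Gen
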